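import Pool.Agent.Helper96.SP.Defs
import Mathlib.LinearAlgebra.Alternating.Basic
import Mathlib.LinearAlgebra.Multilinear.Basic

/-!
# Realisations of permutations of the factors
-/

open CategoryTheory MonoidalCategory Limits BraidedCategory

universe u v w

namespace Pool.Agent.Helper96.SP

open Pool.Agent.TH90.AB Pool.Agent.TH90.Kim Pool.Agent.Helper96.Kim

set_option linter.unusedSectionVars false

namespace WD

lemma up_zero {n : ℕ} (σ : Equiv.Perm (Fin n)) : up σ 0 = 0 := by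
  simp [up]

lemma up_succ {n : ℕ} (σ : Equiv.Perm (Fin n)) (i : Fin n) : up σ i.succ = (σ i).succ := by
  simp [up]

lemma up_one (n : ℕ) : up (1 : Equiv.Perm (Fin n)) = 1 := by
  ext i
  refine Fin.cases ?_ (fun i => ?_) i
  · rw [up_zero]; rfl
  · rw [up_succ]; rfl

lemma up_mul {n : ℕ} (σ τ : Equiv.Perm (Fin n)) : up (σ * τ) = up σ * up τ := by
  ext i
  refine Fin.cases ?_ (fun i => ?_) i
  · rw [Equiv.Perm.mul_apply, up_zero, up_zero, up_zero]
  · rw [Equiv.Perm.mul_apply, up_succ, up_succ, up_succ, Equiv.Perm.mul_apply]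

lemma up_inv {n : ℕ} (σ : Equiv.Perm (Fin n)) : (up σ)⁻¹ = up σ⁻¹ := by
  rw [inv_eq_iff_mul_eq_one, ← up_mul, mul_inv_cancel, up_one]

lemma sign_up {n : ℕ} (σ : Equiv.Perm (Fin n)) : Equiv.Perm.sign (up σ) = Equiv.Perm.sign σ := by
  simp [up, Equiv.Perm.decomposeFin.symm_sign]

lemma ind {P : ∀ n, Equiv.Perm (Fin n) → Prop} (h1 : ∀ n, P n 1)
    (hmul : ∀ n g h, P n g → P n h → P n (g * h)) (hup : ∀ n g, P n g → P (n + 1) (up g))
    (hsw : ∀ n, P (n + 2) (Equiv.swap 0 1)) : ∀ n g, P n g := by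
  have key : ∀ (n : ℕ), (∀ g, P n g) → ∀ p : Fin (n + 1), P (n + 1) (Equiv.swap 0 p) := by
    intro n hn p
    refine Fin.cases ?_ (fun q => ?_) p
    · rw [Equiv.swap_self]
      exact h1 _
    · obtain ⟨m, rfl⟩ : ∃ m, n = m + 1 := ⟨n - 1, by have := q.2; omega⟩
      have e : Equiv.swap (0 : Fin (m + 2)) q.succ =
          up (Equiv.swap 0 q) * Equiv.swap 0 1 * (up (Equiv.swap 0 q))⁻¹ := by
        rw [← Equiv.swap_apply_apply, up_zero]
        have : (1 : Fin (m + 2)) = (0 : Fin (m + 1)).succ := rfl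
        rw [this, up_succ, Equiv.swap_apply_left]
      rw [e, up_inv]
      exact hmul _ _ _ (hmul _ _ _ (hup _ _ (hn _)) (hsw _)) (hup _ _ (hn _))
  intro n
  induction n with
  | zero =>
    intro g
    rw [Subsingleton.elim g 1]
    exact h1 0
  | succ n ih =>
    intro g
    obtain ⟨⟨p, e⟩, rfl⟩ := Equiv.Perm.decomposeFin.symm.surjective g
    have e1 : Equiv.Perm.decomposeFin.symm (p, e) = Equiv.swap 0 p * up e := by
      ext i
      refine Fin.cases ?_ (fun i => ?_) i
      · rw [Equiv.Perm.mul_apply, up_zero, Equiv.Perm.decomposeFin_symm_apply_zero,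
          Equiv.swap_apply_left]
      · rw [Equiv.Perm.mul_apply, up_succ, Equiv.Perm.decomposeFin_symm_apply_succ]
    rw [e1]
    exact hmul _ _ _ (key n ih p) (hup _ _ (ih e))

lemma sg_one {n : ℕ} (ε : ℚ) : sg ε (1 : Equiv.Perm (Fin n)) = 1 := by
  simp [sg]

lemma sg_mul {n : ℕ} (ε : ℚ) (g h : Equiv.Perm (Fin n)) : sg ε (g * h) = sg ε g * sg ε h := by
  unfold sg
  split_ifs <;> simp

lemma sg_inv {n : ℕ} (ε : ℚ) (g : Equiv.Perm (Fin n)) : sg ε g⁻¹ = sg ε g := by
  unfold sg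
  split_ifs <;> simp

lemma sg_up {n : ℕ} (ε : ℚ) (g : Equiv.Perm (Fin n)) : sg ε (up g) = sg ε g := by
  unfold sg
  rw [sign_up]

lemma sg_sq {n : ℕ} {ε : ℚ} (hε : ε = 1 ∨ ε = -1) (g : Equiv.Perm (Fin n)) :
    sg (-ε) g * sg ε g = ((Equiv.Perm.sign g : ℤ) : ℚ) := by
  rcases hε with rfl | rfl <;> norm_num [sg]

end WD

section cat

variable {𝒜 : Type u} [Category.{v} 𝒜] [MonoidalCategory 𝒜] [SymmetricCategory 𝒜]
variable [Preadditive 𝒜] [MonoidalPreadditive 𝒜] [Linear ℚ 𝒜] [MonoidalLinear ℚ 𝒜]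
variable {K : Type w} [Field K] [CharZero K] (F : Realisation 𝒜 K)

/-- WD -/
theorem wd_perm {M : 𝒜} {φ : Fam M} (hφ : PA φ) {δ : ℚ} (hδ : δ = 1 ∨ δ = -1)
    (hM : ∀ x, F.par M x = (δ : K) • x) (n : ℕ) (g : Equiv.Perm (Fin n)) (v : Fin n → F.V M) :
    F.map (φ n g : T M n ⟶ T M n) (wd F n v) = ((sg δ g : ℚ) : K) • wd F n (v ∘ (g⁻¹ : Equiv.Perm (Fin n))) := by
  revert v
  refine WD.ind (P := fun n g => ∀ v, F.map (φ n g : T M n ⟶ T M n) (wd F n v) =
    ((sg δ g : ℚ) : K) • wd F n (v ∘ (g⁻¹ : Equiv.Perm (Fin n)))) ?_ ?_ ?_ ?_ n g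
  · intro n v
    have e : (φ n 1 : T M n ⟶ T M n) = 𝟙 _ := map_one (φ n)
    rw [e, F.map_id, WD.sg_one, Rat.cast_one, one_smul, inv_one]
    rfl
  · intro n g h hg hh v
    have e : (φ n (g * h) : T M n ⟶ T M n) = (φ n h : T M n ⟶ T M n) ≫ (φ n g : T M n ⟶ T M n) :=
      map_mul (φ n) g h
    rw [e, F.map_comp, hh, _root_.map_smul, hg, smul_smul, WD.sg_mul, Rat.cast_mul,
      mul_comm (((sg δ h : ℚ) : K)), mul_inv_rev]
    rfl
  · intro n g hg v
    rw [hφ.up]
    simp only [wd]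
    rw [F.whiskerRight, hg, _root_.map_smul, LinearMap.smul_apply, WD.sg_up, WD.up_inv]
    have e1 : (fun j : Fin n => (v ∘ (up g⁻¹ : Equiv.Perm (Fin (n + 1)))) j.succ) =
        (fun j : Fin n => v j.succ) ∘ (g⁻¹ : Equiv.Perm (Fin n)) := by
      funext j
      simp only [Function.comp_apply]
      rw [WD.up_succ]
    have e2 : (v ∘ (up g⁻¹ : Equiv.Perm (Fin (n + 1)))) 0 = v 0 := by
      simp only [Function.comp_apply]
      rw [WD.up_zero]
    rw [e1, e2]
  · intro n v
    rw [hφ.swap]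
    simp only [wd]
    have e1 : F.map (β_ M M).hom (F.ext (v 1) (v 0)) = ((sg δ (Equiv.swap (0 : Fin (n + 2)) 1) : ℚ) : K) •
        F.ext (v 0) (v 1) := by
      have hs : Equiv.Perm.sign (Equiv.swap (0 : Fin (n + 2)) 1) = -1 :=
        Equiv.Perm.sign_swap (by simp)
      rcases hδ with rfl | rfl
      · rw [F.koszul_even _ _ (by rw [hM, Rat.cast_one, one_smul])]
        simp [sg]
      · rw [F.koszul_odd _ _ (by rw [hM, Rat.cast_neg, Rat.cast_one, neg_one_smul])
          (by rw [hM, Rat.cast_neg, Rat.cast_one, neg_one_smul])]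
        unfold sg
        rw [hs]
        norm_num
    unfold sw
    rw [F.map_comp, F.map_comp, F.assoc, F.whiskerLeft]
    have e2 : v (Fin.succ 0) = v 1 := rfl
    rw [e2, e1, _root_.map_smul, _root_.map_smul, F.assoc_inv]
    have e3 : (fun j : Fin n => (v ∘ ((Equiv.swap (0 : Fin (n + 2)) 1)⁻¹ :
        Equiv.Perm (Fin (n + 2)))) j.succ.succ) = fun j => v j.succ.succ := by
      funext j
      simp only [Function.comp_apply, Equiv.swap_inv]
      rw [Equiv.swap_apply_of_ne_of_ne]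
      · simp
      · simp [Fin.ext_iff]
    have e4 : (v ∘ ((Equiv.swap (0 : Fin (n + 2)) 1)⁻¹ : Equiv.Perm (Fin (n + 2)))) (Fin.succ 0) =
        v 0 := by
      simp only [Function.comp_apply, Equiv.swap_inv]
      have : Equiv.swap (0 : Fin (n + 2)) 1 (Fin.succ 0) = 0 := Equiv.swap_apply_right _ _
      rw [this]
    have e5 : (v ∘ ((Equiv.swap (0 : Fin (n + 2)) 1)⁻¹ : Equiv.Perm (Fin (n + 2)))) 0 = v 1 := by
      simp only [Function.comp_apply, Equiv.swap_inv, Equiv.swap_apply_left]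
    rw [e3, e4, e5]

namespace WD

/-- `wd` as a multilinear map. -/
noncomputable def wdM (M : 𝒜) : ∀ n : ℕ, MultilinearMap K (fun _ : Fin n => F.V M) (F.V (T M n))
  | 0 => MultilinearMap.constOfIsEmpty K _ F.one
  | n + 1 => LinearMap.uncurryLeft
      { toFun := fun x => (F.ext.flip x).compMultilinearMap (wdM M n)
        map_add' := by intro x y; ext v; simp
        map_smul' := by intro c x; ext v; simp }

lemma wdM_apply (M : 𝒜) (n : ℕ) (v : Fin n → F.V M) : wdM F M n v = wd F n v := by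
  induction n with
  | zero => rfl
  | succ n ih =>
    simp only [wdM, wd, LinearMap.uncurryLeft_apply, LinearMap.coe_mk, AddHom.coe_mk,
      LinearMap.compMultilinearMap_apply, LinearMap.flip_apply]
    rw [ih]
    rfl

lemma span_wd {ι : Type*} (M : 𝒜) {b : ι → F.V M} (hb : ⊤ ≤ Submodule.span K (Set.range b))
    (n : ℕ) : ⊤ ≤ Submodule.span K (Set.range fun w : Fin n → ι => wd F n (b ∘ w)) := by
  induction n with
  | zero =>
    intro x _
    obtain ⟨c, rfl⟩ := F.span_one x
    exact Submodule.smul_mem _ _ (Submodule.subset_span ⟨Fin.elim0, rfl⟩)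
  | succ n ih =>
    intro z _
    obtain ⟨m, x, y, rfl⟩ := F.exists_sum z
    refine Submodule.sum_mem _ fun i _ => ?_
    have hx : x i ∈ Submodule.span K (Set.range fun w : Fin n → ι => wd F n (b ∘ w)) :=
      ih trivial
    have hy : y i ∈ Submodule.span K (Set.range b) := hb trivial
    generalize x i = x at hx
    generalize y i = y at hy
    induction hx using Submodule.span_induction with
    | mem x hx =>
      obtain ⟨w, rfl⟩ := hx
      induction hy using Submodule.span_induction with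
      | mem y hy =>
        obtain ⟨j, rfl⟩ := hy
        exact Submodule.subset_span ⟨Fin.cons j w, by
          simp only [wd]
          congr 1⟩
      | zero => rw [_root_.map_zero]; exact Submodule.zero_mem _
      | add y y' _ _ h1 h2 => rw [_root_.map_add]; exact Submodule.add_mem _ h1 h2
      | smul c y _ h => rw [_root_.map_smul]; exact Submodule.smul_mem _ _ h
    | zero => rw [_root_.map_zero, LinearMap.zero_apply]; exact Submodule.zero_mem _
    | add x x' _ _ h1 h2 =>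
      rw [_root_.map_add, LinearMap.add_apply]; exact Submodule.add_mem _ h1 h2
    | smul c x _ h =>
      rw [_root_.map_smul, LinearMap.smul_apply]; exact Submodule.smul_mem _ _ h

lemma map_sum' {X Y : 𝒜} {ι : Type*} (s : Finset ι) (f : ι → (X ⟶ Y)) (x : F.V X) :
    F.map (∑ i ∈ s, f i) x = ∑ i ∈ s, F.map (f i) x := by
  classical
  induction s using Finset.induction_on with
  | empty => simp [F.map_zero']
  | insert a s ha ih => rw [Finset.sum_insert ha, Finset.sum_insert ha, F.map_add, ih]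

lemma rh_eq {M : 𝒜} (φ : Fam M) (n : ℕ) (x : QS n) :
    rh φ n x = ∑ g, x.coeff g • (φ n g : T M n ⟶ T M n) := by
  unfold rh rho
  rw [MonoidAlgebra.lift_apply]
  exact Finsupp.sum_fintype _ _ (fun g => zero_smul _ _)

lemma rh_wd {M : 𝒜} {φ : Fam M} (hφ : PA φ) {δ : ℚ} (hδ : δ = 1 ∨ δ = -1)
    (hM : ∀ x, F.par M x = (δ : K) • x) (n : ℕ) (x : QS n) (v : Fin n → F.V M) :
    F.map (rh φ n x) (wd F n v) =
      ∑ g, ((x.coeff g * sg δ g : ℚ) : K) • wd F n (v ∘ (g⁻¹ : Equiv.Perm (Fin n))) := by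
  rw [rh_eq, map_sum']
  refine Finset.sum_congr rfl fun g _ => ?_
  rw [F.map_smul, wd_perm F hφ hδ hM, smul_smul, Rat.cast_mul]

lemma alt_apply (ε : ℚ) (n : ℕ) (g : Equiv.Perm (Fin n)) : (alt ε n).coeff g = sg ε g := by
  unfold alt
  rw [MonoidAlgebra.coeff_sum, Finsupp.finsetSum_apply, Finset.sum_eq_single g]
  · rw [MonoidAlgebra.coeff_single, Finsupp.single_eq_same]
  · intro h _ hne
    rw [MonoidAlgebra.coeff_single, Finsupp.single_eq_of_ne (Ne.symm hne)]
  · simp

end WD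

/-- ALTV (from WD) -/
theorem inv_alt {M : 𝒜} {φ : Fam M} (hφ : PA φ) {δ : ℚ} (hδ : δ = 1 ∨ δ = -1)
    (hM : ∀ x, F.par M x = (δ : K) • x) (n : ℕ) (hn : Module.finrank K (F.V M) < n) :
    F.Inv (rh φ n (alt (-δ) n)) := by
  intro x
  have h1 : x ∈ Submodule.span K (Set.range fun w : Fin n → F.V M => wd F n (id ∘ w)) :=
    WD.span_wd F M (b := id) (by rw [Set.range_id, Submodule.span_univ]) n trivial
  induction h1 using Submodule.span_induction with
  | mem x hx =>
    obtain ⟨v, rfl⟩ := hx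
    simp only [Function.id_comp]
    rw [WD.rh_wd F hφ hδ hM]
    have h2 : MultilinearMap.alternatization (WD.wdM F M n) v = 0 := by
      apply AlternatingMap.map_linearDependent
      intro hl
      have := hl.fintype_card_le_finrank
      rw [Fintype.card_fin] at this
      omega
    rw [MultilinearMap.alternatization_apply] at h2
    rw [← h2, ← Equiv.sum_comp (Equiv.inv (Equiv.Perm (Fin n)))]
    refine Finset.sum_congr rfl fun g _ => ?_
    rw [WD.alt_apply, WD.sg_sq hδ]
    simp only [Equiv.inv_apply, inv_inv, Equiv.Perm.sign_inv, MultilinearMap.domDomCongr_apply,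
      WD.wdM_apply]
    rw [Rat.cast_intCast, Units.smul_def, ← Int.cast_smul_eq_zsmul K]
    rfl
  | zero => rw [_root_.map_zero]
  | add x y _ _ h1 h2 => rw [_root_.map_add, h1, h2, add_zero]
  | smul c x _ h => rw [_root_.map_smul, h, smul_zero]

end cat

end Pool.Agent.Helper96.SP
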