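import Pool.Agent.Helper96.SP.Defs

/-!
# Package GEN: the neighbouring transpositions generate the symmetric groups
-/

open CategoryTheory MonoidalCategory Limits BraidedCategory

universe u v w

namespace Pool.Agent.Helper96.SP

open Pool.Agent.TH90.AB Pool.Agent.TH90.Kim Pool.Agent.Helper96.Kim

set_option linter.unusedSectionVars false

namespace GN

theorem up_zero' {n : ℕ} (σ : Equiv.Perm (Fin n)) : up σ 0 = 0 := by
  unfold up
  rw [Equiv.Perm.decomposeFin_symm_apply_zero]

theorem up_succ' {n : ℕ} (σ : Equiv.Perm (Fin n)) (i : Fin n) : up σ i.succ = (σ i).succ := by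
  unfold up
  rw [Equiv.Perm.decomposeFin_symm_apply_succ, Equiv.swap_self]
  rfl

theorem up_one' (n : ℕ) : up (1 : Equiv.Perm (Fin n)) = 1 := by
  ext i
  refine Fin.cases ?_ (fun i => ?_) i
  · rw [up_zero']; rfl
  · rw [up_succ']; rfl

theorem up_mul' {n : ℕ} (σ τ : Equiv.Perm (Fin n)) : up (σ * τ) = up σ * up τ := by
  ext i
  refine Fin.cases ?_ (fun i => ?_) i
  · rw [Equiv.Perm.mul_apply, up_zero', up_zero', up_zero']
  · rw [Equiv.Perm.mul_apply, up_succ', up_succ', up_succ']; rfl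

theorem sign_up' {n : ℕ} (σ : Equiv.Perm (Fin n)) :
    Equiv.Perm.sign (up σ) = Equiv.Perm.sign σ := by
  unfold up
  rw [Equiv.Perm.decomposeFin.symm_sign]
  simp

/-- induction over the permutations: `up`, products and the transposition of the last two -/
theorem perm_ind {P : ∀ n, Equiv.Perm (Fin n) → Prop} (h1 : ∀ n, P n 1)
    (hm : ∀ n g h, P n g → P n h → P n (g * h)) (hu : ∀ n g, P n g → P (n + 1) (up g))
    (hs : ∀ n, P (n + 2) (Equiv.swap 0 1)) : ∀ n g, P n g := by
  intro n
  induction n with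
  | zero =>
    intro g
    rw [Subsingleton.elim g 1]
    exact h1 0
  | succ n ih =>
    intro g
    have hsw : ∀ p : Fin (n + 1), P (n + 1) (Equiv.swap 0 p) := by
      intro p
      refine Fin.cases ?_ (fun q => ?_) p
      · rw [Equiv.swap_self]
        exact h1 (n + 1)
      · cases n with
        | zero => exact q.elim0
        | succ n =>
          have h2 : (Equiv.swap 0 q.succ : Equiv.Perm (Fin (n + 2))) =
              up (Equiv.swap 0 q) * Equiv.swap 0 1 * up (Equiv.swap 0 q) := by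
            have h3 : up (Equiv.swap 0 q) * up (Equiv.swap 0 q) = 1 := by
              rw [← up_mul', Equiv.swap_mul_self, up_one']
            have h4 : (up (Equiv.swap 0 q) : Equiv.Perm (Fin (n + 2)))⁻¹ = up (Equiv.swap 0 q) :=
              inv_eq_of_mul_eq_one_left h3
            have h5 := Equiv.mul_swap_eq_swap_mul (up (Equiv.swap 0 q)) (0 : Fin (n + 2)) 1
            rw [h5, up_zero', mul_assoc, h3, mul_one]
            congr 1
          rw [h2]
          exact hm _ _ _ (hm _ _ _ (hu _ _ (ih _)) (hs _)) (hu _ _ (ih _))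
    have h6 : g = Equiv.swap 0 (Equiv.Perm.decomposeFin g).1 *
        up (Equiv.Perm.decomposeFin g).2 := by
      conv_lhs => rw [← Equiv.Perm.decomposeFin.symm_apply_apply g]
      ext i
      refine Fin.cases ?_ (fun i => ?_) i
      · rw [Equiv.Perm.mul_apply, up_zero', Equiv.swap_apply_left]
        exact congrArg Fin.val (Equiv.Perm.decomposeFin_symm_apply_zero _ _)
      · rw [Equiv.Perm.mul_apply, up_succ']
        exact congrArg Fin.val (Equiv.Perm.decomposeFin_symm_apply_succ _ _ _)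
    rw [h6]
    exact hm _ _ _ (hsw _) (hu _ _ (ih _))

theorem sg_one' (ε : ℚ) (n : ℕ) : sg ε (1 : Equiv.Perm (Fin n)) = 1 := by
  unfold sg
  split_ifs <;> simp

theorem sg_mul' (ε : ℚ) {n : ℕ} (g h : Equiv.Perm (Fin n)) : sg ε (g * h) = sg ε g * sg ε h := by
  unfold sg
  split_ifs
  · simp
  · rw [Equiv.Perm.sign_mul]; push_cast; ring

theorem sg_up' (ε : ℚ) {n : ℕ} (g : Equiv.Perm (Fin n)) : sg ε (up g) = sg ε g := by
  unfold sg
  rw [sign_up']

theorem sg_sq' (ε : ℚ) {n : ℕ} (g : Equiv.Perm (Fin n)) : sg ε g * sg ε g = 1 := by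
  unfold sg
  split_ifs
  · simp
  · rcases Int.units_eq_one_or (Equiv.Perm.sign g) with h | h <;> rw [h] <;> norm_num

theorem sg_inv' (ε : ℚ) {n : ℕ} (g : Equiv.Perm (Fin n)) : sg ε g⁻¹ = sg ε g := by
  unfold sg
  rw [Equiv.Perm.sign_inv]

theorem sg_swap' {ε : ℚ} (hε : ε = 1 ∨ ε = -1) (n : ℕ) :
    sg ε (Equiv.swap 0 1 : Equiv.Perm (Fin (n + 2))) = ε := by
  unfold sg
  rw [Equiv.Perm.sign_swap (by simp)]
  rcases hε with h | h <;> rw [h] <;> norm_num

end GN

open GN

section cat

variable {𝒜 : Type u} [Category.{v} 𝒜] [MonoidalCategory 𝒜] [SymmetricCategory 𝒜]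

theorem GN.adj_perm {M : 𝒜} {φ : Fam M} (hφ : PA φ) {ε : ℚ} (hε : ε = 1 ∨ ε = -1) {n : ℕ}
    {s : T M n ⟶ T M n} (hs : Adj M n s) : ∃ g, (φ n g : T M n ⟶ T M n) = s ∧ sg ε g = ε := by
  induction hs with
  | last n => exact ⟨Equiv.swap 0 1, hφ.swap n, sg_swap' hε n⟩
  | whisker n s _ ih =>
    obtain ⟨g, hg, hg'⟩ := ih
    refine ⟨up g, ?_, ?_⟩
    · rw [hφ.up, hg]
    · rw [sg_up', hg']

variable [Preadditive 𝒜] [MonoidalPreadditive 𝒜] [Linear ℚ 𝒜] [MonoidalLinear ℚ 𝒜]

theorem GN.rho_apply' {M : 𝒜} (φ : Fam M) (n : ℕ) (a : QS n) :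
    rho φ n a = a.coeff.sum fun g c => c • (φ n g) := by
  unfold rho
  rw [MonoidAlgebra.lift_apply]

theorem GN.rho_single' {M : 𝒜} (φ : Fam M) (n : ℕ) (g : Equiv.Perm (Fin n)) (c : ℚ) :
    rho φ n (MonoidAlgebra.single g c) = c • φ n g := by
  unfold rho
  rw [MonoidAlgebra.lift_single]

/-- whiskering as a map of endomorphisms -/
def GN.wR {M : 𝒜} {n : ℕ} (y : End (T M n)) : End (T M (n + 1)) := (y : T M n ⟶ T M n) ▷ M

theorem GN.wR_add {M : 𝒜} {n : ℕ} (y z : End (T M n)) : wR (y + z) = wR y + wR z :=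
  MonoidalPreadditive.add_whiskerRight _ _

theorem GN.wR_mul {M : 𝒜} {n : ℕ} (y z : End (T M n)) : wR (y * z) = wR y * wR z :=
  comp_whiskerRight _ _ _

theorem GN.wR_one (M : 𝒜) (n : ℕ) : wR (1 : End (T M n)) = 1 :=
  id_whiskerRight _ _

theorem GN.wR_smul {M : 𝒜} {n : ℕ} (r : ℚ) (y : End (T M n)) : wR (r • y) = r • wR y :=
  MonoidalLinear.smul_whiskerRight _ _ _

/-- GEN -/
theorem gen {M : 𝒜} {φ : Fam M} (hφ : PA φ) (n : ℕ) (x : End (T M n)) :
    x ∈ Algebra.adjoin ℚ {s : End (T M n) | Adj M n s} ↔ ∃ a, rho φ n a = x := by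
  constructor
  · intro hx
    have h1 : Algebra.adjoin ℚ {s : End (T M n) | Adj M n s} ≤ (rho φ n).range := by
      rw [Algebra.adjoin_le_iff]
      intro s hs
      obtain ⟨g, hg, -⟩ := adj_perm hφ (ε := 1) (Or.inl rfl) hs
      refine ⟨MonoidAlgebra.single g 1, ?_⟩
      change rho φ n _ = s
      rw [rho_single', one_smul]
      exact hg
    exact h1 hx
  · rintro ⟨a, rfl⟩
    have key : ∀ (n : ℕ) (g : Equiv.Perm (Fin n)),
        φ n g ∈ Algebra.adjoin ℚ {s : End (T M n) | Adj M n s} := by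
      refine perm_ind ?_ ?_ ?_ ?_
      · intro n
        rw [map_one]
        exact one_mem _
      · intro n g h hg hh
        rw [map_mul]
        exact mul_mem hg hh
      · intro n g hg
        have h2 : ∀ y ∈ Algebra.adjoin ℚ {s : End (T M n) | Adj M n s},
            wR y ∈ Algebra.adjoin ℚ {s : End (T M (n + 1)) | Adj M (n + 1) s} := by
          intro y hy
          induction hy using Algebra.adjoin_induction with
          | mem s hs => exact Algebra.subset_adjoin (Adj.whisker n s hs)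
          | algebraMap r =>
            rw [Algebra.algebraMap_eq_smul_one, wR_smul, wR_one, ← Algebra.algebraMap_eq_smul_one]
            exact Subalgebra.algebraMap_mem _ r
          | add y z _ _ h1 h2 =>
            rw [wR_add]
            exact add_mem h1 h2
          | mul y z _ _ h1 h2 =>
            rw [wR_mul]
            exact mul_mem h1 h2
        have h3 := h2 _ hg
        rw [hφ.up]
        exact h3
      · intro n
        rw [hφ.swap]
        exact Algebra.subset_adjoin (Adj.last n)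
    rw [rho_apply']
    exact Subalgebra.sum_mem _ fun g _ => Subalgebra.smul_mem _ (key n g) _

/-- words in the neighbouring transpositions act on signed morphisms by the sign -/
theorem GN.signed_perm {M : 𝒜} {φ : Fam M} (hφ : PA φ) {ε : ℚ} (hε : ε = 1 ∨ ε = -1) (n : ℕ)
    (σ : Equiv.Perm (Fin n)) {Y : 𝒜} {g : T M n ⟶ Y} (hg : Signed ε g) :
    (φ n σ : T M n ⟶ T M n) ≫ g = sg ε σ • g := by
  have key : ∀ (n : ℕ) (σ : Equiv.Perm (Fin n)), ((φ n σ, sg ε σ) : End (T M n) × ℚ) ∈
      Submonoid.closure {p : End (T M n) × ℚ | Adj M n p.1 ∧ p.2 = ε} := by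
    refine perm_ind ?_ ?_ ?_ ?_
    · intro n
      rw [map_one, sg_one']
      exact one_mem _
    · intro n g h hg hh
      rw [map_mul, sg_mul']
      exact mul_mem hg hh
    · intro n g hg
      have h2 : ∀ y ∈ Submonoid.closure {p : End (T M n) × ℚ | Adj M n p.1 ∧ p.2 = ε},
          ((wR y.1, y.2) : End (T M (n + 1)) × ℚ) ∈
            Submonoid.closure {p : End (T M (n + 1)) × ℚ | Adj M (n + 1) p.1 ∧ p.2 = ε} := by
        intro y hy
        induction hy using Submonoid.closure_induction with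
        | mem s hs => exact Submonoid.subset_closure ⟨Adj.whisker n _ hs.1, hs.2⟩
        | one =>
          have e1 : (wR (1 : End (T M n) × ℚ).1, (1 : End (T M n) × ℚ).2) =
              (1 : End (T M (n + 1)) × ℚ) := Prod.ext (wR_one M n) rfl
          rw [e1]
          exact one_mem _
        | mul y z _ _ h1 h2 =>
          have e1 : ((wR (y * z).1, (y * z).2) : End (T M (n + 1)) × ℚ) =
              (wR y.1, y.2) * (wR z.1, z.2) := Prod.ext (wR_mul _ _) rfl
          rw [e1]
          exact mul_mem h1 h2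
      have h3 := h2 _ hg
      rw [hφ.up, sg_up']
      exact h3
    · intro n
      rw [hφ.swap, sg_swap' hε]
      exact Submonoid.subset_closure ⟨Adj.last n, rfl⟩
  have h2 : ∀ y ∈ Submonoid.closure {p : End (T M n) × ℚ | Adj M n p.1 ∧ p.2 = ε},
      (y.1 : T M n ⟶ T M n) ≫ g = y.2 • g := by
    intro y hy
    induction hy using Submonoid.closure_induction with
    | mem s hs => rw [hg s.1 hs.1, hs.2]
    | one =>
      change 𝟙 (T M n) ≫ g = (1 : ℚ) • g
      rw [Category.id_comp, one_smul]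
    | mul y z _ _ h1 h2 =>
      change ((z.1 : T M n ⟶ T M n) ≫ (y.1 : T M n ⟶ T M n)) ≫ g = (y.2 * z.2) • g
      rw [Category.assoc, h1, Linear.comp_smul, h2, smul_smul]
  exact h2 _ (key n σ)

/-- ALT -/
theorem alt_iff {M : 𝒜} {φ : Fam M} (hφ : PA φ) {ε : ℚ} (hε : ε = 1 ∨ ε = -1) (n : ℕ) :
    PowZero ε M n ↔ rh φ n (alt ε n) = 0 := by
  have halt : rho φ n (alt ε n) = ∑ g, sg ε g • φ n g := by
    unfold alt
    rw [map_sum]
    exact Finset.sum_congr rfl fun g _ => rho_single' φ n g _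
  constructor
  · intro h
    apply h
    intro s hs
    obtain ⟨τ, hτ, hτ'⟩ := adj_perm hφ hε hs
    rw [← hτ]
    change rho φ n (alt ε n) * φ n τ = ε • rho φ n (alt ε n)
    rw [halt, Finset.sum_mul, Finset.smul_sum]
    rw [← Equiv.sum_comp (Equiv.mulRight τ) (fun g => ε • (sg ε g • φ n g))]
    refine Finset.sum_congr rfl fun g _ => ?_
    rw [Equiv.coe_mulRight, sg_mul', hτ', map_mul, smul_smul, smul_mul_assoc]
    congr 1
    have : ε * ε = 1 := by rcases hε with h | h <;> rw [h] <;> norm_num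
    rw [mul_comm (sg ε g), ← mul_assoc, this, one_mul]
  · intro h Y g hg
    have h1 : rh φ n (alt ε n) ≫ g = (n.factorial : ℚ) • g := by
      unfold rh
      rw [halt]
      change (∑ σ, sg ε σ • (φ n σ : T M n ⟶ T M n)) ≫ g = _
      rw [Preadditive.sum_comp]
      have h2 : ∀ σ ∈ (Finset.univ : Finset (Equiv.Perm (Fin n))),
          (sg ε σ • (φ n σ : T M n ⟶ T M n)) ≫ g = g := by
        intro σ _
        rw [Linear.smul_comp, signed_perm hφ hε n _ hg, smul_smul, sg_sq', one_smul]
      rw [Finset.sum_congr rfl h2, Finset.sum_const, Finset.card_univ, Fintype.card_perm,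
        Fintype.card_fin, ← Nat.cast_smul_eq_nsmul ℚ]
    rw [h, zero_comp] at h1
    exact ((smul_eq_zero.1 h1.symm).resolve_left
      (Nat.cast_ne_zero.2 (Nat.factorial_ne_zero n)))

end cat

end Pool.Agent.Helper96.SP

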