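import Pool.Agent.Helper96.SP.Defs

/-!
# Shifted permutations (package UP): `rh_shift`, `zero_emb`, `inv_emb`
-/

set_option autoImplicit false

open CategoryTheory MonoidalCategory Limits BraidedCategory

universe u v w

namespace Pool.Agent.Helper96.SP

open Pool.Agent.TH90.AB Pool.Agent.TH90.Kim Pool.Agent.Helper96.Kim

set_option linter.unusedSectionVars false

namespace UPX

theorem emb_single {a b : ℕ} (β : Fin a ↪ Fin b) (g : Equiv.Perm (Fin a)) (c : ℚ) :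
    emb β (MonoidAlgebra.single g c) =
      MonoidAlgebra.single (Equiv.Perm.viaEmbeddingHom β g) c :=
  MonoidAlgebra.mapDomain_single

theorem up_zero {n : ℕ} (σ : Equiv.Perm (Fin n)) : up σ 0 = 0 :=
  Equiv.Perm.decomposeFin_symm_apply_zero 0 σ

theorem up_succ {n : ℕ} (σ : Equiv.Perm (Fin n)) (x : Fin n) : up σ x.succ = (σ x).succ := by
  unfold up
  rw [Equiv.Perm.decomposeFin_symm_apply_succ, Equiv.swap_self, Equiv.refl_apply]

/-- `viaEmbedding` along `addNat (n + 1)` is `up` of `viaEmbedding` along `addNat n`. -/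
theorem via_succ {k : ℕ} (n : ℕ) (g : Equiv.Perm (Fin k)) :
    (Equiv.Perm.viaEmbeddingHom (Fin.addNatEmb (n + 1)) g : Equiv.Perm (Fin (k + (n + 1)))) =
      (up (Equiv.Perm.viaEmbeddingHom (Fin.addNatEmb n) g) : Equiv.Perm (Fin (k + n + 1))) := by
  apply Equiv.ext
  intro x
  rw [Equiv.Perm.viaEmbeddingHom_apply, Equiv.Perm.viaEmbeddingHom_apply]
  by_cases hx : x ∈ Set.range (Fin.addNatEmb (n + 1) : Fin k ↪ Fin (k + (n + 1)))
  · obtain ⟨y, rfl⟩ := hx
    rw [Equiv.Perm.viaEmbedding_apply]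
    have e : (Fin.addNatEmb (n + 1) y : Fin (k + (n + 1))) =
        (Fin.succ (Fin.addNatEmb n y) : Fin (k + n + 1)) := Fin.ext (by simp; omega)
    have e' : (Fin.addNatEmb (n + 1) (g y) : Fin (k + (n + 1))) =
        (Fin.succ (Fin.addNatEmb n (g y)) : Fin (k + n + 1)) := Fin.ext (by simp; omega)
    rw [e, e']
    change _ = up _ (Fin.succ (Fin.addNatEmb n y))
    rw [up_succ, Equiv.Perm.viaEmbedding_apply]
  · rw [Equiv.Perm.viaEmbedding_apply_of_notMem _ _ _ hx]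
    revert hx
    change ∀ hx : _, x = up (Equiv.Perm.viaEmbedding g (Fin.addNatEmb n)) (x : Fin (k + n + 1))
    refine Fin.cases (fun _ => ?_) (fun y hy => ?_) (x : Fin (k + n + 1))
    · rw [up_zero]
    · rw [up_succ, Equiv.Perm.viaEmbedding_apply_of_notMem]
      rintro ⟨z, rfl⟩
      exact hy ⟨z, Fin.ext (by simp; omega)⟩

theorem via_zero {k : ℕ} (g : Equiv.Perm (Fin k)) :
    (Equiv.Perm.viaEmbeddingHom (Fin.addNatEmb 0) g : Equiv.Perm (Fin (k + 0))) = g := by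
  apply Equiv.ext
  intro x
  exact Equiv.Perm.viaEmbedding_apply g (Fin.addNatEmb 0) x

/-- Conjugation of embedded permutations. -/
theorem via_conj {α β : Type*} (ι κ : α ↪ β) (π : Equiv.Perm β) (h : ∀ i, π (ι i) = κ i)
    (g : Equiv.Perm α) :
    Equiv.Perm.viaEmbeddingHom κ g = π * Equiv.Perm.viaEmbeddingHom ι g * π⁻¹ := by
  rw [eq_mul_inv_iff_mul_eq]
  apply Equiv.ext
  intro x
  rw [Equiv.Perm.viaEmbeddingHom_apply, Equiv.Perm.viaEmbeddingHom_apply, Equiv.Perm.mul_apply,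
    Equiv.Perm.mul_apply]
  by_cases hx : x ∈ Set.range ι
  · obtain ⟨y, rfl⟩ := hx
    rw [h, Equiv.Perm.viaEmbedding_apply, Equiv.Perm.viaEmbedding_apply, h]
  · rw [Equiv.Perm.viaEmbedding_apply_of_notMem _ _ _ hx,
      Equiv.Perm.viaEmbedding_apply_of_notMem]
    rintro ⟨z, hz⟩
    rw [← h] at hz
    exact hx ⟨z, π.injective hz⟩

/-- Two embeddings into a finite type differ by a permutation. -/
theorem exists_perm {α β : Type*} [Finite β] (ι κ : α ↪ β) :
    ∃ π : Equiv.Perm β, ∀ i, π (ι i) = κ i := by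
  classical
  let e : {x // x ∈ Set.range ι} ≃ {x // x ∈ Set.range κ} :=
    (Equiv.ofInjective ι ι.injective).symm.trans (Equiv.ofInjective κ κ.injective)
  refine ⟨e.extendSubtype, fun i => ?_⟩
  rw [Equiv.extendSubtype_apply_of_mem e (ι i) ⟨i, rfl⟩]
  change ((Equiv.ofInjective κ κ.injective)
    ((Equiv.ofInjective ι ι.injective).symm ⟨ι i, ⟨i, rfl⟩⟩) : β) = κ i
  have h : (Equiv.ofInjective ι ι.injective).symm ⟨ι i, ⟨i, rfl⟩⟩ = i := by
    rw [Equiv.symm_apply_eq]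
    rfl
  rw [h]
  rfl

section cat

variable {𝒜 : Type u} [Category.{v} 𝒜] [MonoidalCategory 𝒜] [SymmetricCategory 𝒜]
  [Preadditive 𝒜] [MonoidalPreadditive 𝒜] [Linear ℚ 𝒜] [MonoidalLinear ℚ 𝒜]

theorem wh_add {M : 𝒜} {k l : ℕ} (f g : T M k ⟶ T M l) (n : ℕ) :
    wh (f + g) n = wh f n + wh g n := by
  induction n with
  | zero => rfl
  | succ n ih =>
    change wh (f + g) n ▷ M = wh f n ▷ M + wh g n ▷ M
    rw [ih, MonoidalPreadditive.add_whiskerRight]

theorem wh_smul {M : 𝒜} {k l : ℕ} (c : ℚ) (f : T M k ⟶ T M l) (n : ℕ) :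
    wh (c • f) n = c • wh f n := by
  induction n with
  | zero => rfl
  | succ n ih =>
    change wh (c • f) n ▷ M = c • (wh f n ▷ M)
    rw [ih, MonoidalLinear.smul_whiskerRight]

theorem wh_zero {M : 𝒜} {k l : ℕ} (n : ℕ) : wh (0 : T M k ⟶ T M l) n = 0 := by
  have h := wh_smul (0 : ℚ) (0 : T M k ⟶ T M l) n
  rwa [zero_smul, zero_smul] at h

theorem rh_single {M : 𝒜} (φ : Fam M) (n : ℕ) (g : Equiv.Perm (Fin n)) (c : ℚ) :
    rh φ n (MonoidAlgebra.single g c) = c • (φ n g : T M n ⟶ T M n) := by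
  have h : MonoidAlgebra.lift ℚ (End (T M n)) (Equiv.Perm (Fin n)) (φ n)
      (MonoidAlgebra.single g c) = c • φ n g := MonoidAlgebra.lift_single _ _ _
  exact h

theorem rh_add {M : 𝒜} (φ : Fam M) (n : ℕ) (x y : QS n) : rh φ n (x + y) = rh φ n x + rh φ n y :=
  map_add (rho φ n) x y

theorem rh_zero {M : 𝒜} (φ : Fam M) (n : ℕ) : rh φ n 0 = 0 :=
  map_zero (rho φ n)

theorem rh_mul {M : 𝒜} (φ : Fam M) (n : ℕ) (x y : QS n) : rh φ n (x * y) = rh φ n y ≫ rh φ n x :=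
  map_mul (rho φ n) x y

theorem phi_shift {M : 𝒜} {φ : Fam M} (hφ : PA φ) {k : ℕ} (n : ℕ) (g : Equiv.Perm (Fin k)) :
    (φ (k + n) (Equiv.Perm.viaEmbeddingHom (Fin.addNatEmb n) g) : T M (k + n) ⟶ T M (k + n)) =
      wh (φ k g : T M k ⟶ T M k) n := by
  induction n with
  | zero =>
    rw [via_zero]
    rfl
  | succ n ih =>
    rw [via_succ]
    have h := hφ.up (k + n) (Equiv.Perm.viaEmbeddingHom (Fin.addNatEmb n) g)
    change (φ (k + n + 1) (up _) : _ ⟶ _) = wh (φ k g : T M k ⟶ T M k) n ▷ M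
    rw [← ih]
    exact h

end cat

end UPX

section cat

variable {𝒜 : Type u} [Category.{v} 𝒜] [MonoidalCategory 𝒜] [SymmetricCategory 𝒜]
  [Preadditive 𝒜] [MonoidalPreadditive 𝒜] [Linear ℚ 𝒜] [MonoidalLinear ℚ 𝒜]

/-- UP -/
theorem rh_shift {M : 𝒜} {φ : Fam M} (hφ : PA φ) (k n : ℕ) (x : QS k) :
    rh φ (k + n) (emb (Fin.addNatEmb n) x) = wh (rh φ k x) n := by
  induction x using MonoidAlgebra.induction_linear with
  | zero => rw [map_zero, UPX.rh_zero, UPX.rh_zero, UPX.wh_zero]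
  | add x y hx hy => rw [map_add, UPX.rh_add, UPX.rh_add, UPX.wh_add, hx, hy]
  | single g c =>
    rw [UPX.emb_single, UPX.rh_single, UPX.rh_single, UPX.wh_smul, UPX.phi_shift hφ]

namespace UPX

/-- The embedded element along any embedding is conjugate to the shifted element. -/
theorem emb_conj {a b : ℕ} (ι κ : Fin a ↪ Fin b) (π : Equiv.Perm (Fin b))
    (h : ∀ i, π (ι i) = κ i) (x : QS a) :
    emb κ x = MonoidAlgebra.single π 1 * emb ι x * MonoidAlgebra.single π⁻¹ 1 := by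
  induction x using MonoidAlgebra.induction_linear with
  | zero => rw [map_zero, map_zero, mul_zero, zero_mul]
  | add x y hx hy => rw [map_add, map_add, mul_add, add_mul, hx, hy]
  | single g c =>
    rw [emb_single, emb_single, MonoidAlgebra.single_mul_single, MonoidAlgebra.single_mul_single,
      via_conj ι κ π h, one_mul, mul_one]

theorem rh_emb {M : 𝒜} {φ : Fam M} (hφ : PA φ) {a n : ℕ} (γ : Fin a ↪ Fin (a + n)) :
    ∃ u v : T M (a + n) ⟶ T M (a + n), ∀ x : QS a,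
      rh φ (a + n) (emb γ x) = u ≫ wh (rh φ a x) n ≫ v := by
  obtain ⟨π, hπ⟩ := exists_perm (Fin.addNatEmb n) γ
  refine ⟨rh φ (a + n) (MonoidAlgebra.single π⁻¹ 1), rh φ (a + n) (MonoidAlgebra.single π 1),
    fun x => ?_⟩
  rw [emb_conj _ _ π hπ, rh_mul, rh_mul, rh_shift hφ]

end UPX

/-- ZERO (from UP) -/
theorem zero_emb {M : 𝒜} {φ : Fam M} (hφ : PA φ) {a b : ℕ} (γ : Fin a ↪ Fin b) (x : QS a)
    (hx : rh φ a x = 0) : rh φ b (emb γ x) = 0 := by
  have hab : a ≤ b := by simpa using Fintype.card_le_of_embedding γ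
  obtain ⟨n, rfl⟩ := Nat.exists_eq_add_of_le hab
  obtain ⟨u, v, h⟩ := UPX.rh_emb hφ γ
  rw [h, hx, UPX.wh_zero, zero_comp, comp_zero]

variable {K : Type w} [Field K] [CharZero K] (F : Realisation 𝒜 K)

theorem UPX.inv_wh {M : 𝒜} {k l : ℕ} {f : T M k ⟶ T M l} (hf : F.Inv f) (n : ℕ) :
    F.Inv (wh f n) := by
  induction n with
  | zero => exact hf
  | succ n ih => exact ih.whiskerRight F M

/-- INV (from UP) -/
theorem inv_emb {M : 𝒜} {φ : Fam M} (hφ : PA φ) {a b : ℕ} (γ : Fin a ↪ Fin b) (x : QS a)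
    (hx : F.Inv (rh φ a x)) : F.Inv (rh φ b (emb γ x)) := by
  have hab : a ≤ b := by simpa using Fintype.card_le_of_embedding γ
  obtain ⟨n, rfl⟩ := Nat.exists_eq_add_of_le hab
  obtain ⟨u, v, h⟩ := UPX.rh_emb hφ γ
  rw [h]
  intro z
  rw [F.map_comp, F.map_comp, UPX.inv_wh F hx n, map_zero]

end cat

end Pool.Agent.Helper96.SP
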