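import Pool.Agent.Helper96.SP.Defs

/-!
# Insertions of endomorphisms in tensor powers
-/

open CategoryTheory MonoidalCategory Limits BraidedCategory

universe u v w

namespace Pool.Agent.Helper96.SP

open Pool.Agent.TH90.AB Pool.Agent.TH90.Kim Pool.Agent.Helper96.Kim

noncomputable section

variable {𝒜 : Type u} [Category.{v} 𝒜] [MonoidalCategory 𝒜] [SymmetricCategory 𝒜]

/-- The endomorphism `f` at the position `j` (positions are numbered from the right). -/
def ins {M : 𝒜} (f : M ⟶ M) : ∀ n, Fin n → (T M n ⟶ T M n)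
  | 0 => fun j => j.elim0
  | n + 1 => Fin.cases (T M n ◁ f) (fun j => ins f n j ▷ M)

/-- `f` at the `n` new positions. -/
def snew {M : 𝒜} (f : M ⟶ M) (k : ℕ) : ∀ n, T M (k + n) ⟶ T M (k + n)
  | 0 => 𝟙 _
  | n + 1 => snew f k n ▷ M ≫ T M (k + n) ◁ f

/-- `f` at all new positions of the stages `1`, …, `t`. -/
def Sall {M : 𝒜} (f : M ⟶ M) (m n : ℕ) : ∀ t, T M (sz m n t) ⟶ T M (sz m n t)
  | 0 => 𝟙 _
  | t + 1 => wh (Sall f m n t) n ≫ snew f (sz m n t) n

/-- `a` on the original positions. -/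
def whs {M : 𝒜} (m n : ℕ) (a : T M m ⟶ T M m) : ∀ t, T M (sz m n t) ⟶ T M (sz m n t)
  | 0 => a
  | t + 1 => wh (whs m n a t) n

variable [Preadditive 𝒜] [MonoidalPreadditive 𝒜] [Linear ℚ 𝒜] [MonoidalLinear ℚ 𝒜]

/-- The algebra generated by the permutations and the insertions of `s`. -/
def WA {M : 𝒜} (φ : Fam M) (s : M ⟶ M) (n : ℕ) : Subalgebra ℚ (End (T M n)) :=
  Algebra.adjoin ℚ (Set.range (φ n) ∪ Set.range fun j => (show End (T M n) from ins s n j))

/-- `e^* = Σ e_g g⁻¹`. -/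
def adj {n : ℕ} (e : QS n) : QS n := ∑ g : Equiv.Perm (Fin n), MonoidAlgebra.single g⁻¹ (e.coeff g)

/-- The trace of the action of `f` on the realisation. -/
def rtr {K : Type w} [Field K] [CharZero K] (F : Realisation 𝒜 K) {X : 𝒜} (f : X ⟶ X) : K :=
  LinearMap.trace K (F.V X) (F.map f)

/-- The trace of the composition of the parity with the action of `f` on the realisation. -/
def str {K : Type w} [Field K] [CharZero K] (F : Realisation 𝒜 K) {X : 𝒜} (f : X ⟶ X) : K :=
  LinearMap.trace K (F.V X) (F.par X ∘ₗ F.map f)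

end

end Pool.Agent.Helper96.SP
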