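import Pool.Agent.Helper96.SP.PWD
import Pool.Agent.Helper96.SP.Defs2

/-!
# Words in a homogeneous basis: bases of the realisations of the tensor powers
-/

open CategoryTheory MonoidalCategory Limits BraidedCategory

universe u v w

namespace Pool.Agent.Helper96.SP

open Pool.Agent.TH90.AB Pool.Agent.TH90.Kim Pool.Agent.Helper96.Kim

set_option linter.unusedSectionVars false

section real

variable {𝒜 : Type u} [Category.{v} 𝒜] [MonoidalCategory 𝒜] [SymmetricCategory 𝒜]
variable [Preadditive 𝒜] [MonoidalPreadditive 𝒜] [Linear ℚ 𝒜] [MonoidalLinear ℚ 𝒜]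
  [hdual : ∀ X : 𝒜, HasRightDual X] {K : Type w} [Field K] [CharZero K] (F : Realisation 𝒜 K)

namespace WDS

/-- the dual basis -/
lemma dual {M : 𝒜} {ι : Type} [Fintype ι] [DecidableEq ι] (b : Module.Basis ι K (F.V M)) :
    ∃ β : ι → F.V Mᘁ, ∀ i v, F.map (ε_ M Mᘁ) (F.ext (β i) v) = b.repr v i • F.one := by
  obtain ⟨n, a, c, h⟩ := F.exists_sum (F.map (η_ M Mᘁ) F.one)
  have hc : ∀ (i : Fin n) (v : F.V M), ∃ r : K, F.map (ε_ M Mᘁ) (F.ext (c i) v) = r • F.one :=
    fun i v => F.span_one _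
  choose φ hφ using hc
  have hz : ∀ v : F.V M, ∑ i, φ i v • a i = v := by
    intro v
    have e1 := ExactPairing.evaluation_coevaluation M Mᘁ
    have e2 := congrArg (fun f => F.map f (F.ext F.one v)) e1
    simp only [F.map_comp, F.whiskerRight, F.left_unit] at e2
    rw [h, map_sum, LinearMap.sum_apply, map_sum, map_sum] at e2
    simp only [F.assoc, F.whiskerLeft, hφ, _root_.map_smul] at e2
    have e3 := congrArg (F.map (ρ_ M).hom) e2
    rw [map_sum] at e3
    simp only [_root_.map_smul, F.right_unit] at e3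
    rw [← F.map_comp, Iso.inv_hom_id, F.map_id] at e3
    exact e3
  refine ⟨fun i => ∑ k, b.repr (a k) i • c k, fun i v => ?_⟩
  have h1 : b.repr v i = ∑ k, φ k v * b.repr (a k) i := by
    conv_lhs => rw [← hz v, map_sum, Finsupp.finsetSum_apply]
    refine Finset.sum_congr rfl fun k _ => ?_
    rw [_root_.map_smul, Finsupp.smul_apply, smul_eq_mul]
  rw [map_sum, LinearMap.sum_apply, map_sum, h1, Finset.sum_smul]
  refine Finset.sum_congr rfl fun k _ => ?_
  rw [_root_.map_smul, LinearMap.smul_apply, _root_.map_smul, hφ, smul_smul, mul_comm]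

/-- contraction with an element of the dual -/
noncomputable def con {M : 𝒜} (X : 𝒜) (β : F.V Mᘁ) : F.V (X ⊗ M) →ₗ[K] F.V X :=
  F.map (ρ_ X).hom ∘ₗ F.map (X ◁ ev M) ∘ₗ F.map (α_ X M Mᘁ).hom ∘ₗ F.ext.flip β

lemma con_ext {M : 𝒜} {ι : Type} [Fintype ι] [DecidableEq ι] (b : Module.Basis ι K (F.V M))
    {β : ι → F.V Mᘁ} (hβ : ∀ i v, F.map (ε_ M Mᘁ) (F.ext (β i) v) = b.repr v i • F.one)
    (X : 𝒜) (i : ι) (x : F.V X) (v : F.V M) :
    con F X (β i) (F.ext x v) = b.repr (F.par M v) i • x := by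
  simp only [con, LinearMap.comp_apply, LinearMap.flip_apply]
  have h1 : F.map (ev M) (F.ext v (β i)) = b.repr (F.par M v) i • F.one := by
    have h2 := F.ev_par (F.par M v) (β i)
    rw [F.par_par] at h2
    rw [h2, hβ]
  rw [F.assoc, F.whiskerLeft, h1, _root_.map_smul, _root_.map_smul, F.right_unit]

/-- **Künneth**: injectivity -/
lemma inj {M X : 𝒜} {ι : Type} [Fintype ι] [DecidableEq ι] (b : Module.Basis ι K (F.V M))
    (x : ι → F.V X) (h : ∑ i, F.ext (x i) (b i) = 0) (j : ι) : x j = 0 := by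
  let p : F.V M ≃ₗ[K] F.V M := LinearEquiv.ofInvolutive (F.par M) (F.par_par M)
  obtain ⟨β, hβ⟩ := dual F (b.map p)
  have h1 := congrArg (con F X (β j)) h
  rw [map_sum, _root_.map_zero] at h1
  rw [← h1, Finset.sum_eq_single j]
  · rw [con_ext F (b.map p) hβ]
    have h2 : F.par M (b j) = (b.map p) j := by
      rw [Module.Basis.map_apply]
      rfl
    rw [h2, Module.Basis.repr_self, Finsupp.single_eq_same, one_smul]
  · intro i _ hij
    rw [con_ext F (b.map p) hβ]
    have h2 : F.par M (b i) = (b.map p) i := by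
      rw [Module.Basis.map_apply]
      rfl
    rw [h2, Module.Basis.repr_self, Finsupp.single_eq_of_ne (Ne.symm hij), zero_smul]
  · simp

lemma li {M : 𝒜} {ι : Type} [Fintype ι] [DecidableEq ι] (b : Module.Basis ι K (F.V M)) (n : ℕ) :
    LinearIndependent K fun w : Fin n → ι => wd F n fun j => b (w j) := by
  induction n with
  | zero =>
    rw [Fintype.linearIndependent_iff]
    intro g hg w
    rw [Fintype.sum_unique] at hg
    have h1 := (smul_eq_zero.mp hg).resolve_right F.one_ne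
    rwa [Subsingleton.elim w default]
  | succ n ih =>
    rw [Fintype.linearIndependent_iff] at ih ⊢
    intro g hg
    have h1 : ∑ i, F.ext (∑ w : Fin n → ι, g (Fin.cons i w) • wd F n fun j => b (w j)) (b i) = 0 := by
      rw [← hg, ← (Fin.consEquiv fun _ : Fin (n + 1) => ι).sum_comp, Fintype.sum_prod_type]
      refine Finset.sum_congr rfl fun i _ => ?_
      rw [map_sum, LinearMap.sum_apply]
      refine Finset.sum_congr rfl fun w _ => ?_
      rw [_root_.map_smul, LinearMap.smul_apply]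
      rfl
    intro w
    have h2 := ih _ (inj F b _ h1 (w 0)) fun j => w j.succ
    have h3 : Fin.cons (w 0) (fun j => w j.succ) = w := Fin.cons_self_tail w
    rwa [h3] at h2

/-- the Koszul rule if one of the elements is even -/
lemma koszul {X Y : 𝒜} (x : F.V X) (y : F.V Y) (s t : ℚ) (hs : s = 1 ∨ s = -1)
    (ht : t = 1 ∨ t = -1) (hx : F.par X x = (s : K) • x) (hy : F.par Y y = (t : K) • y) :
    F.map (β_ X Y).hom (F.ext x y) = ((if s = -1 ∧ t = -1 then -1 else 1 : ℚ) : K) • F.ext y x := by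
  rcases hs with rfl | rfl
  · rw [if_neg (by norm_num), Rat.cast_one, one_smul]
    exact F.koszul_even _ _ (by rw [hx, Rat.cast_one, one_smul])
  · rcases ht with rfl | rfl
    · rw [if_neg (by norm_num), Rat.cast_one, one_smul]
      have h1 := F.koszul_even y x (by rw [hy, Rat.cast_one, one_smul])
      rw [← h1, ← F.map_comp, SymmetricCategory.symmetry, F.map_id]
    · rw [if_pos ⟨rfl, rfl⟩, Rat.cast_neg, Rat.cast_one, neg_one_smul]
      exact F.koszul_odd _ _ (by rw [hx, Rat.cast_neg, Rat.cast_one, neg_one_smul])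
        (by rw [hy, Rat.cast_neg, Rat.cast_one, neg_one_smul])

end WDS

theorem wd_basis {M : 𝒜} {ι : Type} [Fintype ι] [DecidableEq ι] (b : Module.Basis ι K (F.V M))
    (n : ℕ) : ∃ B : Module.Basis (Fin n → ι) K (F.V (T M n)), ∀ w, B w = wd F n fun j => b (w j) :=
  ⟨Module.Basis.mk (WDS.li F b n) (WD.span_wd F M (b := b) (by rw [b.span_eq]) n),
    fun w => Module.Basis.mk_apply _ _ w⟩

theorem wd_par {M : 𝒜} {ι : Type} (b : ι → F.V M) (δ : ι → ℚ)
    (hb : ∀ i, F.par M (b i) = (δ i : K) • b i) (n : ℕ) (w : Fin n → ι) :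
    F.par (T M n) (wd F n fun j => b (w j)) =
      ((∏ j, δ (w j) : ℚ) : K) • wd F n fun j => b (w j) := by
  induction n with
  | zero =>
    rw [Fin.prod_univ_zero, Rat.cast_one, one_smul]
    exact F.par_one
  | succ n ih =>
    have h1 := F.par_ext (wd F n fun j => b (w j.succ)) (b (w 0))
    rw [ih fun j => w j.succ, hb, _root_.map_smul, _root_.map_smul, LinearMap.smul_apply,
      smul_smul] at h1
    rw [Fin.prod_univ_succ, Rat.cast_mul]
    exact h1

theorem wd_perm_mixed {M : 𝒜} {φ : Fam M} (hφ : PA φ) {ι : Type} (b : ι → F.V M) (δ : ι → ℚ)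
    (hδ : ∀ i, δ i = 1 ∨ δ i = -1) (hb : ∀ i, F.par M (b i) = (δ i : K) • b i) (n : ℕ)
    (g : Equiv.Perm (Fin n)) : ∃ κ : (Fin n → ι) → ℚ, (∀ w, κ w = 1 ∨ κ w = -1) ∧
      ∀ w, F.map (φ n g : T M n ⟶ T M n) (wd F n fun j => b (w j)) =
        (κ w : K) • wd F n fun j => b (w (g⁻¹ j)) := by
  refine WD.ind (P := fun n g => ∃ κ : (Fin n → ι) → ℚ, (∀ w, κ w = 1 ∨ κ w = -1) ∧
      ∀ w, F.map (φ n g : T M n ⟶ T M n) (wd F n fun j => b (w j)) =
        (κ w : K) • wd F n fun j => b (w (g⁻¹ j))) ?_ ?_ ?_ ?_ n g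
  · intro n
    refine ⟨fun _ => 1, fun _ => Or.inl rfl, fun w => ?_⟩
    have e : (φ n 1 : T M n ⟶ T M n) = 𝟙 _ := map_one (φ n)
    rw [e, F.map_id, Rat.cast_one, one_smul, inv_one]
    rfl
  · rintro n g h ⟨κ, hκ, hκ'⟩ ⟨l, hl, hl'⟩
    refine ⟨fun w => l w * κ fun j => w (h⁻¹ j), fun w => ?_, fun w => ?_⟩
    · change (l w * κ fun j => w (h⁻¹ j)) = 1 ∨ (l w * κ fun j => w (h⁻¹ j)) = -1
      rcases hl w with h1 | h1 <;> rcases hκ fun j => w (h⁻¹ j) with h2 | h2 <;>
        rw [h1, h2] <;> norm_num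
    · have e : (φ n (g * h) : T M n ⟶ T M n) = (φ n h : T M n ⟶ T M n) ≫ (φ n g : T M n ⟶ T M n) :=
        map_mul (φ n) g h
      rw [e, F.map_comp, hl', _root_.map_smul, hκ' fun j => w (h⁻¹ j), smul_smul, Rat.cast_mul,
        mul_inv_rev]
      rfl
  · rintro n g ⟨κ, hκ, hκ'⟩
    refine ⟨fun w => κ fun j => w j.succ, fun w => hκ _, fun w => ?_⟩
    rw [hφ.up]
    simp only [wd]
    rw [F.whiskerRight, hκ' fun j => w j.succ, _root_.map_smul, LinearMap.smul_apply, WD.up_inv]
    have e1 : (fun j : Fin n => b (w ((up g⁻¹ : Equiv.Perm (Fin (n + 1))) j.succ))) =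
        fun j : Fin n => b (w (g⁻¹ j).succ) := by
      funext j
      rw [WD.up_succ]
    rw [e1, WD.up_zero]
  · intro n
    refine ⟨fun w => if δ (w 1) = -1 ∧ δ (w 0) = -1 then -1 else 1, fun w => ?_, fun w => ?_⟩
    · by_cases h : δ (w 1) = -1 ∧ δ (w 0) = -1
      · exact Or.inr (if_pos h)
      · exact Or.inl (if_neg h)
    rw [hφ.swap]
    simp only [wd]
    have e1 := WDS.koszul F (b (w 1)) (b (w 0)) _ _ (hδ (w 1)) (hδ (w 0)) (hb _) (hb _)
    unfold sw
    rw [F.map_comp, F.map_comp, F.assoc, F.whiskerLeft]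
    have e2 : w (Fin.succ 0) = w 1 := rfl
    rw [e2, e1, _root_.map_smul, _root_.map_smul, F.assoc_inv]
    have e3 : (fun j : Fin n => b (w (((Equiv.swap (0 : Fin (n + 2)) 1)⁻¹ :
        Equiv.Perm (Fin (n + 2))) j.succ.succ))) = fun j => b (w j.succ.succ) := by
      funext j
      rw [Equiv.swap_inv, Equiv.swap_apply_of_ne_of_ne]
      · simp
      · simp [Fin.ext_iff]
    have e4 : ((Equiv.swap (0 : Fin (n + 2)) 1)⁻¹ : Equiv.Perm (Fin (n + 2))) (Fin.succ 0) = 0 := by
      rw [Equiv.swap_inv]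
      exact Equiv.swap_apply_right _ _
    have e5 : ((Equiv.swap (0 : Fin (n + 2)) 1)⁻¹ : Equiv.Perm (Fin (n + 2))) 0 = 1 := by
      rw [Equiv.swap_inv, Equiv.swap_apply_left]
    rw [e3, e4, e5]

theorem wd_ins {M : 𝒜} (f : M ⟶ M) (n : ℕ) (j : Fin n) (v : Fin n → F.V M) :
    F.map (ins f n j) (wd F n v) = wd F n (Function.update v j (F.map f (v j))) := by
  induction n with
  | zero => exact j.elim0
  | succ n ih =>
    refine Fin.cases ?_ (fun j => ?_) j
    · change F.map (T M n ◁ f) (F.ext _ _) = F.ext _ _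
      rw [F.whiskerLeft, Function.update_self]
      congr 3
    · change F.map (ins f n j ▷ M) (F.ext _ _) = F.ext _ _
      rw [F.whiskerRight, ih, Function.update_of_ne (Fin.succ_ne_zero j).symm]
      congr 3
      funext i
      by_cases h : i = j
      · rw [h, Function.update_self, Function.update_self]
      · rw [Function.update_of_ne h, Function.update_of_ne (fun h' => h (Fin.succ_injective _ h'))]

end real

end Pool.Agent.Helper96.SP
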