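import Pool.Agent.Helper96.SP.Defs2
import Pool.Agent.Helper96.SP.PGEN
import Pool.Agent.Helper96.SP.PWD
import Pool.Agent.Helper96.SP.PUP
import Pool.Agent.Helper96.SP.QWORDS

/-!
# Package POSL: a word with a given letter which is not killed
-/

open CategoryTheory MonoidalCategory Limits BraidedCategory

universe u v w

namespace Pool.Agent.Helper96.SP

open Pool.Agent.TH90.AB Pool.Agent.TH90.Kim Pool.Agent.Helper96.Kim

set_option linter.unusedSectionVars false

section real

variable {𝒜 : Type u} [Category.{v} 𝒜] [MonoidalCategory 𝒜] [SymmetricCategory 𝒜]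
  [Preadditive 𝒜] [MonoidalPreadditive 𝒜] [Linear ℚ 𝒜] [MonoidalLinear ℚ 𝒜]
  {K : Type w} [Field K] [CharZero K] (F : Realisation 𝒜 K)

namespace PLX

/-- the part of `x` supported on the permutations `swap 0 k * up σ` -/
noncomputable def part {n : ℕ} (x : QS (n + 1)) (k : Fin (n + 1)) : QS n :=
  ∑ σ : Equiv.Perm (Fin n), MonoidAlgebra.single σ (x.coeff (Equiv.swap 0 k * up σ))

theorem rh_part {M : 𝒜} (φ : Fam M) {n : ℕ} (x : QS (n + 1)) (k : Fin (n + 1)) :
    rh φ n (part x k) = ∑ σ : Equiv.Perm (Fin n),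
      x.coeff (Equiv.swap 0 k * up σ) • (φ n σ : T M n ⟶ T M n) := by
  unfold rh part
  rw [map_sum]
  exact Finset.sum_congr rfl fun σ _ => GN.rho_single' φ n σ _

theorem decomp {n : ℕ} (p : Fin (n + 1)) (e : Equiv.Perm (Fin n)) :
    Equiv.Perm.decomposeFin.symm (p, e) = Equiv.swap 0 p * up e := by
  ext i
  refine Fin.cases ?_ (fun i => ?_) i
  · rw [Equiv.Perm.mul_apply, WD.up_zero, Equiv.Perm.decomposeFin_symm_apply_zero,
      Equiv.swap_apply_left]
  · rw [Equiv.Perm.mul_apply, WD.up_succ, Equiv.Perm.decomposeFin_symm_apply_succ]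

theorem map_split {M : 𝒜} {φ : Fam M} (hφ : PA φ) {n : ℕ} (x : QS (n + 1)) (v : F.V (T M n))
    (u : F.V M) : F.map (rh φ (n + 1) x) (F.ext v u) =
      ∑ k : Fin (n + 1), F.map (φ (n + 1) (Equiv.swap 0 k) : T M (n + 1) ⟶ T M (n + 1))
        (F.ext (F.map (rh φ n (part x k)) v) u) := by
  rw [WD.rh_eq, WD.map_sum', ← Equiv.sum_comp Equiv.Perm.decomposeFin.symm, Fintype.sum_prod_type]
  refine Finset.sum_congr rfl fun k _ => ?_
  rw [rh_part, WD.map_sum', map_sum]
  have e1 : F.map (φ (n + 1) (Equiv.swap 0 k) : T M (n + 1) ⟶ T M (n + 1))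
      ((∑ σ : Equiv.Perm (Fin n), F.ext (F.map (x.coeff (Equiv.swap 0 k * up σ) •
        (φ n σ : T M n ⟶ T M n)) v)) u) =
      ∑ σ : Equiv.Perm (Fin n), F.map (φ (n + 1) (Equiv.swap 0 k) : T M (n + 1) ⟶ T M (n + 1))
        (F.ext (F.map (x.coeff (Equiv.swap 0 k * up σ) • (φ n σ : T M n ⟶ T M n)) v) u) := by
    rw [LinearMap.sum_apply, map_sum]
  refine Eq.trans ?_ e1.symm
  refine Finset.sum_congr rfl fun σ _ => ?_
  rw [decomp, F.map_smul, F.map_smul, _root_.map_smul, LinearMap.smul_apply, _root_.map_smul]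
  congr 1
  have e2 : (φ (n + 1) (Equiv.swap 0 k * up σ) : T M (n + 1) ⟶ T M (n + 1)) =
      ((φ n σ : T M n ⟶ T M n) ▷ M : T M n ⊗ M ⟶ T M n ⊗ M) ≫
        (φ (n + 1) (Equiv.swap 0 k) : T M (n + 1) ⟶ T M (n + 1)) := by
    rw [map_mul, hφ.up]
    rfl
  rw [e2, F.map_comp, F.whiskerRight]

theorem map_perm_inj {M : 𝒜} (φ : Fam M) (n : ℕ) (g : Equiv.Perm (Fin n)) (z : F.V (T M n))
    (h : F.map (φ n g : T M n ⟶ T M n) z = 0) : z = 0 := by
  have h1 := congrArg (F.map (φ n g⁻¹ : T M n ⟶ T M n)) h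
  rw [← F.map_comp, _root_.map_zero] at h1
  have e : (φ n g : T M n ⟶ T M n) ≫ (φ n g⁻¹ : T M n ⟶ T M n) = 𝟙 _ := by
    have : φ n (g⁻¹ * g) = 𝟙 (T M n) := by
      rw [inv_mul_cancel]
      exact map_one (φ n)
    rw [map_mul] at this
    exact this
  rwa [e, F.map_id] at h1

variable {ι : Type} [Fintype ι] [DecidableEq ι]

/-- if the vectors `u k` lie in the spans of disjoint parts of a basis and the sum is zero then all
are zero -/
theorem indep {V : Type w} [AddCommGroup V] [Module K V] {J κ : Type} [Fintype κ] [DecidableEq κ]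
    (B : Module.Basis J K V) (A : κ → Set J) (hA : ∀ k l w, w ∈ A k → w ∈ A l → k = l)
    (u : κ → V) (hu : ∀ k, u k ∈ Submodule.span K (B '' A k)) (h : ∑ k, u k = 0) (k : κ) :
    u k = 0 := by
  apply B.repr.injective
  rw [_root_.map_zero]
  ext w
  rw [Finsupp.zero_apply]
  by_cases hw : w ∈ A k
  · have h1 : B.repr (∑ k, u k) w = 0 := by rw [h, _root_.map_zero, Finsupp.zero_apply]
    rw [map_sum, Finsupp.finsetSum_apply, Finset.sum_eq_single k] at h1
    · exact h1
    · intro l _ hl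
      by_contra hne
      have h2 := (B.mem_span_image.1 (hu l)) (Finsupp.mem_support_iff.2 hne)
      exact hl (hA l k w h2 hw)
    · intro h2
      exact absurd (Finset.mem_univ k) h2
  · by_contra hne
    exact hw ((B.mem_span_image.1 (hu k)) (Finsupp.mem_support_iff.2 hne))

/-- POSL from the facts on words -/
theorem core {M : 𝒜} {φ : Fam M} (hφ : PA φ) (b : Module.Basis ι K (F.V M)) (n : ℕ)
    (B : Module.Basis (Fin (n + 1) → ι) K (F.V (T M (n + 1))))
    (hB : ∀ w, B w = wd F (n + 1) fun j => b (w j))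
    (hp : ∀ (m : ℕ) (g : Equiv.Perm (Fin m)), ∃ κ : (Fin m → ι) → ℚ,
      ∀ w, F.map (φ m g : T M m ⟶ T M m) (wd F m fun j => b (w j)) =
        (κ w : K) • wd F m fun j => b (w (g⁻¹ j)))
    (x : QS (n + 1)) (hx : ¬ F.Inv (rh φ (n + 1) x)) (i : ι) :
    ∃ w : Fin (n + 1) → ι, (∃ l, w l = i) ∧
      F.map (rh φ (n + 1) x) (wd F (n + 1) fun j => b (w j)) ≠ 0 := by
  by_contra hcon
  push Not at hcon
  -- words without the letter `i`
  have h0 : ∀ (y : QS n) (t : Fin n → ι), (∀ l, t l ≠ i) →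
      F.map (rh φ n y) (wd F n fun j => b (t j)) ∈
        Submodule.span K {z | ∃ t : Fin n → ι, (∀ l, t l ≠ i) ∧ z = wd F n fun j => b (t j)} := by
    intro y t ht
    rw [WD.rh_eq, WD.map_sum']
    refine Submodule.sum_mem _ fun g _ => ?_
    rw [F.map_smul]
    refine Submodule.smul_mem _ _ ?_
    obtain ⟨κ, hκ⟩ := hp n g
    rw [hκ]
    exact Submodule.smul_mem _ _ (Submodule.subset_span ⟨fun j => t (g⁻¹ j), fun l => ht _, rfl⟩)
  have h1 : ∀ (k : Fin (n + 1)) (z : F.V (T M n)),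
      z ∈ Submodule.span K {z | ∃ t : Fin n → ι, (∀ l, t l ≠ i) ∧ z = wd F n fun j => b (t j)} →
      F.map (φ (n + 1) (Equiv.swap 0 k) : T M (n + 1) ⟶ T M (n + 1)) (F.ext z (b i)) ∈
        Submodule.span K (B '' {w | ∀ l, w l = i ↔ l = k}) := by
    intro k z hz
    induction hz using Submodule.span_induction with
    | mem z hz =>
      obtain ⟨t, ht, rfl⟩ := hz
      obtain ⟨κ, hκ⟩ := hp (n + 1) (Equiv.swap 0 k)
      have h2 := hκ (Fin.cons i t)
      have e1 : (wd F (n + 1) fun j => b ((Fin.cons i t : Fin (n + 1) → ι) j)) =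
          F.ext (wd F n fun j => b (t j)) (b i) := rfl
      rw [e1] at h2
      rw [h2]
      refine Submodule.smul_mem _ _ (Submodule.subset_span ?_)
      refine ⟨fun j => (Fin.cons i t : Fin (n + 1) → ι) ((Equiv.swap 0 k)⁻¹ j), ?_, hB _⟩
      intro l
      have e2 : ∀ m : Fin (n + 1), (Fin.cons i t : Fin (n + 1) → ι) m = i ↔ m = 0 := by
        intro m
        refine Fin.cases ?_ (fun m => ?_) m
        · simp
        · simp only [Fin.cons_succ]
          constructor
          · intro h; exact absurd h (ht m)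
          · intro h; exact absurd h (Fin.succ_ne_zero m)
      rw [e2, Equiv.swap_inv]
      constructor
      · intro h
        have h3 := congrArg (Equiv.swap 0 k) h
        rwa [Equiv.swap_apply_self, Equiv.swap_apply_left] at h3
      · rintro rfl
        exact Equiv.swap_apply_right _ _
    | zero =>
      rw [_root_.map_zero, LinearMap.zero_apply]
      have := _root_.map_zero (F.map (φ (n + 1) (Equiv.swap 0 k) : T M (n + 1) ⟶ T M (n + 1)))
      exact (congrArg (· ∈ Submodule.span K (B '' {w | ∀ l, w l = i ↔ l = k})) this).mpr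
        (Submodule.zero_mem _)
    | add z z' _ _ h h' =>
      rw [_root_.map_add, LinearMap.add_apply]
      have := _root_.map_add (F.map (φ (n + 1) (Equiv.swap 0 k) : T M (n + 1) ⟶ T M (n + 1)))
        (F.ext z (b i)) (F.ext z' (b i))
      exact this ▸ Submodule.add_mem _ h h'
    | smul c z _ h =>
      rw [_root_.map_smul, LinearMap.smul_apply]
      have := _root_.map_smul (F.map (φ (n + 1) (Equiv.swap 0 k) : T M (n + 1) ⟶ T M (n + 1)))
        c (F.ext z (b i))
      exact this ▸ Submodule.smul_mem _ _ h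
  -- all words are killed
  have h2 : ∀ w : Fin (n + 1) → ι, F.map (rh φ (n + 1) x) (B w) = 0 := by
    intro w
    rw [hB]
    by_cases hw : ∃ l, w l = i
    · exact hcon w hw
    · push Not at hw
      have hz := hcon (Fin.cons i fun j => w j.succ) ⟨0, rfl⟩
      have e1 : (wd F (n + 1) fun j => b ((Fin.cons i fun j => w j.succ : Fin (n + 1) → ι) j)) =
          F.ext (wd F n fun j => b (w j.succ)) (b i) := rfl
      rw [e1] at hz
      have e3 := map_split F hφ x (wd F n fun j => b (w j.succ)) (b i)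
      rw [show F.map (rh φ (n + 1) x) (F.ext (wd F n fun j => b (w j.succ)) (b i)) = 0 from hz] at e3
      have h3 := indep B (fun k : Fin (n + 1) => {w | ∀ l, w l = i ↔ l = k})
        (fun k l w hk hl => (hl k).1 ((hk k).2 rfl)) _
        (fun k => h1 k _ (h0 (part x k) (fun j => w j.succ) fun l => hw _)) e3.symm
      have h4 : ∀ k, F.map (rh φ n (part x k)) (wd F n fun j => b (w j.succ)) = 0 := by
        intro k
        by_contra hne
        exact F.ext_ne_zero hne (b.ne_zero i) (map_perm_inj F φ (n + 1) _ _ (h3 k))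
      have e4 := map_split F hφ x (wd F n fun j => b (w j.succ)) (b (w 0))
      refine Eq.trans e4 (Finset.sum_eq_zero fun k _ => ?_)
      rw [h4, _root_.map_zero, LinearMap.zero_apply]
      exact _root_.map_zero _
  apply hx
  intro z
  have h5 : F.map (rh φ (n + 1) x) = 0 := B.ext fun w => by rw [h2, LinearMap.zero_apply]
  rw [h5, LinearMap.zero_apply]

end PLX

end real

section real

variable {𝒜 : Type u} [Category.{v} 𝒜] [MonoidalCategory 𝒜] [SymmetricCategory 𝒜]
  [Preadditive 𝒜] [MonoidalPreadditive 𝒜] [Linear ℚ 𝒜] [MonoidalLinear ℚ 𝒜]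
  [hdual : ∀ X : 𝒜, HasRightDual X] {K : Type w} [Field K] [CharZero K] (F : Realisation 𝒜 K)

/-- POSL -/
theorem posl {M : 𝒜} {φ : Fam M} (hφ : PA φ) {ι : Type} [Fintype ι] [DecidableEq ι]
    (b : Module.Basis ι K (F.V M)) (δ : ι → ℚ) (hδ : ∀ i, δ i = 1 ∨ δ i = -1)
    (hb : ∀ i, F.par M (b i) = (δ i : K) • b i) (n : ℕ) (x : QS (n + 1))
    (hx : ¬ F.Inv (rh φ (n + 1) x)) (i : ι) :
    ∃ w : Fin (n + 1) → ι, (∃ l, w l = i) ∧
      F.map (rh φ (n + 1) x) (wd F (n + 1) fun j => b (w j)) ≠ 0 := by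
  obtain ⟨B, hB⟩ := wd_basis F b (n + 1)
  refine PLX.core F hφ b n B hB (fun m g => ?_) x hx i
  obtain ⟨κ, -, hκ⟩ := wd_perm_mixed F hφ b δ hδ hb m g
  exact ⟨κ, hκ⟩

end real

end Pool.Agent.Helper96.SP
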