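import Pool.Agent.Helper96.SP.QWORDS

/-!
# Sums of squares
-/

open CategoryTheory MonoidalCategory Limits BraidedCategory

universe u v w

namespace Pool.Agent.Helper96.SP

open Pool.Agent.TH90.AB Pool.Agent.TH90.Kim Pool.Agent.Helper96.Kim

set_option linter.unusedSectionVars false

section real

variable {𝒜 : Type u} [Category.{v} 𝒜] [MonoidalCategory 𝒜] [SymmetricCategory 𝒜]
variable [Preadditive 𝒜] [MonoidalPreadditive 𝒜] [Linear ℚ 𝒜] [MonoidalLinear ℚ 𝒜]
  [hdual : ∀ X : 𝒜, HasRightDual X] {K : Type w} [Field K] [CharZero K] (F : Realisation 𝒜 K)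

theorem sos {M : 𝒜} {φ : Fam M} (hφ : PA φ) {ι : Type} [Fintype ι] [DecidableEq ι]
    (b : Module.Basis ι K (F.V M)) (δ : ι → ℚ) (hδ : ∀ i, δ i = 1 ∨ δ i = -1)
    (hb : ∀ i, F.par M (b i) = (δ i : K) • b i) (n : ℕ)
    (B : Module.Basis (Fin n → ι) K (F.V (T M n))) (hB : ∀ w, B w = wd F n fun j => b (w j))
    (x : QS n) (w : Fin n → ι) : ∃ q : ℚ, 0 ≤ q ∧
      B.repr (F.map (rh φ n (adj x * x)) (B w)) w = (q : K) ∧
      (q = 0 → F.map (rh φ n x) (B w) = 0) := by
  classical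
  choose κ hκ hκ' using fun g : Equiv.Perm (Fin n) => wd_perm_mixed F hφ b δ hδ hb n g
  have hmap : ∀ (g : Equiv.Perm (Fin n)) (w : Fin n → ι),
      F.map (φ n g : T M n ⟶ T M n) (B w) = (κ g w : K) • B (w ∘ (g⁻¹ : Equiv.Perm (Fin n))) := by
    intro g w
    rw [hB, hB, hκ']
    rfl
  -- the sign of the inverse permutation
  have hinv : ∀ (g : Equiv.Perm (Fin n)) (w : Fin n → ι),
      κ g⁻¹ (w ∘ (g⁻¹ : Equiv.Perm (Fin n))) = κ g w := by
    intro g w
    have h1 : F.map (φ n g⁻¹ : T M n ⟶ T M n) (F.map (φ n g : T M n ⟶ T M n) (B w)) = B w := by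
      rw [← F.map_comp]
      have e : (φ n g : T M n ⟶ T M n) ≫ (φ n g⁻¹ : T M n ⟶ T M n) = 𝟙 _ := by
        have h2 := map_mul (φ n) g⁻¹ g
        rw [inv_mul_cancel, map_one] at h2
        exact h2.symm
      rw [e, F.map_id]
    rw [hmap, _root_.map_smul, hmap, smul_smul] at h1
    have h2 : (w ∘ (g⁻¹ : Equiv.Perm (Fin n))) ∘ ((g⁻¹)⁻¹ : Equiv.Perm (Fin n)) = w := by
      funext j
      simp
    rw [h2] at h1
    have h3 := congrArg (fun z => B.repr z w) h1
    simp only [_root_.map_smul, Module.Basis.repr_self, Finsupp.smul_apply, Finsupp.single_eq_same,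
      smul_eq_mul, mul_one] at h3
    have h4 : κ g w * κ g⁻¹ (w ∘ (g⁻¹ : Equiv.Perm (Fin n))) = 1 := by
      exact_mod_cast h3
    rcases hκ g w with h5 | h5 <;>
      rcases hκ g⁻¹ (w ∘ (g⁻¹ : Equiv.Perm (Fin n))) with h6 | h6 <;> rw [h5, h6] at h4 ⊢ <;>
      norm_num at h4
  -- the matrix
  let G : (Fin n → ι) → (Fin n → ι) → ℚ := fun w' w =>
    ∑ g : Equiv.Perm (Fin n), if w ∘ (g⁻¹ : Equiv.Perm (Fin n)) = w' then x.coeff g * κ g w else 0
  have hG : ∀ w, F.map (rh φ n x) (B w) = ∑ w', (G w' w : K) • B w' := by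
    intro w
    rw [WD.rh_eq, WD.map_sum']
    simp only [G]
    have h1 : ∀ w', ((∑ g : Equiv.Perm (Fin n), if w ∘ (g⁻¹ : Equiv.Perm (Fin n)) = w' then
        x.coeff g * κ g w else 0 : ℚ) : K) • B w' =
        ∑ g : Equiv.Perm (Fin n), if w ∘ (g⁻¹ : Equiv.Perm (Fin n)) = w' then
          ((x.coeff g * κ g w : ℚ) : K) • B w' else 0 := by
      intro w'
      rw [Rat.cast_sum, Finset.sum_smul]
      refine Finset.sum_congr rfl fun g _ => ?_
      split_ifs <;> simp
    simp only [h1]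
    rw [Finset.sum_comm]
    refine Finset.sum_congr rfl fun g _ => ?_
    rw [Finset.sum_ite_eq, if_pos (Finset.mem_univ _), F.map_smul, hmap, smul_smul, Rat.cast_mul]
  have hadj : ∀ w', B.repr (F.map (rh φ n (adj x)) (B w')) w = (G w' w : K) := by
    intro w'
    have e1 : rh φ n (adj x) = ∑ g : Equiv.Perm (Fin n), x.coeff g • (φ n g⁻¹ : T M n ⟶ T M n) := by
      unfold adj rh
      rw [map_sum]
      refine Finset.sum_congr rfl fun g _ => ?_
      unfold rho
      rw [MonoidAlgebra.lift_single]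
    rw [e1, WD.map_sum', map_sum, Finsupp.finsetSum_apply]
    simp only [G]
    rw [Rat.cast_sum]
    refine Finset.sum_congr rfl fun g _ => ?_
    rw [F.map_smul, hmap, _root_.map_smul, _root_.map_smul, Module.Basis.repr_self,
      Finsupp.smul_apply, Finsupp.smul_apply, Finsupp.single_apply]
    by_cases h : w ∘ (g⁻¹ : Equiv.Perm (Fin n)) = w'
    · have h2 : w' ∘ ((g⁻¹)⁻¹ : Equiv.Perm (Fin n)) = w := by
        rw [← h]
        funext j
        simp
      rw [if_pos h, if_pos h2, ← h, hinv, smul_eq_mul, smul_eq_mul, mul_one, Rat.cast_mul]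
    · have h2 : ¬ w' ∘ ((g⁻¹)⁻¹ : Equiv.Perm (Fin n)) = w := by
        intro h3
        apply h
        rw [← h3]
        funext j
        simp
      rw [if_neg h, if_neg h2, smul_zero, smul_zero, Rat.cast_zero]
  refine ⟨∑ w', G w' w ^ 2, Finset.sum_nonneg fun _ _ => sq_nonneg _, ?_, fun h => ?_⟩
  · have e1 : rh φ n (adj x * x) = rh φ n x ≫ rh φ n (adj x) := map_mul (rho φ n) (adj x) x
    rw [e1, F.map_comp, hG, map_sum, map_sum, Finsupp.finsetSum_apply, Rat.cast_sum]
    refine Finset.sum_congr rfl fun w' _ => ?_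
    rw [_root_.map_smul, _root_.map_smul, Finsupp.smul_apply, hadj, smul_eq_mul, ← Rat.cast_mul,
      sq]
  · rw [hG]
    refine Finset.sum_eq_zero fun w' _ => ?_
    have h1 := (Finset.sum_eq_zero_iff_of_nonneg fun w' _ => sq_nonneg (G w' w)).mp h w'
      (Finset.mem_univ _)
    rw [pow_eq_zero_iff two_ne_zero] at h1
    rw [h1, Rat.cast_zero, zero_smul]

end real

end Pool.Agent.Helper96.SP
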