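import Pool.Agent.Helper96.SP.QPCF
import Pool.Agent.Helper96.SP.PWD
import Pool.Agent.Helper96.SP.QWORDS
import Pool.Agent.Helper96.SP.QSOS
import Pool.Agent.Helper96.SP.QPOSL

/-!
# Package PARU: an endomorphism with the signs of the parity
-/

open CategoryTheory MonoidalCategory Limits BraidedCategory

universe u v w

namespace Pool.Agent.Helper96.SP

open Pool.Agent.TH90.AB Pool.Agent.TH90.Kim Pool.Agent.Helper96.Kim

set_option linter.unusedSectionVars false
set_option linter.unusedVariables false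

variable {𝒜 : Type u} [Category.{v} 𝒜] [MonoidalCategory 𝒜] [SymmetricCategory 𝒜]
  [Preadditive 𝒜] [MonoidalPreadditive 𝒜] [Linear ℚ 𝒜] [MonoidalLinear ℚ 𝒜]

variable [hdual : ∀ X : 𝒜, HasRightDual X] {K : Type w} [Field K] [CharZero K]
  (F : Realisation 𝒜 K)

namespace PARUX

/-- A homogeneous basis. -/
theorem exists_basis (M : 𝒜) : ∃ (d : ℕ) (b : Module.Basis (Fin d) K (F.V M)) (δ : Fin d → ℚ),
    (∀ i, δ i = 1 ∨ δ i = -1) ∧ ∀ i, F.par M (b i) = (δ i : K) • b i := by
  classical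
  have two : (2 : K) ≠ 0 := two_ne_zero
  let Ep : Submodule K (F.V M) := LinearMap.ker (F.par M - 1)
  let Em : Submodule K (F.V M) := LinearMap.ker (F.par M + 1)
  have hp : ∀ x, x ∈ Ep ↔ F.par M x = x := by
    intro x
    rw [LinearMap.mem_ker, LinearMap.sub_apply, Module.End.one_apply, sub_eq_zero]
  have hm : ∀ x, x ∈ Em ↔ F.par M x = -x := by
    intro x
    rw [LinearMap.mem_ker, LinearMap.add_apply, Module.End.one_apply, ← eq_neg_iff_add_eq_zero]
  have hc : IsCompl Ep Em := by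
    constructor
    · rw [Submodule.disjoint_def]
      intro x h1 h2
      rw [hp] at h1
      rw [hm, h1] at h2
      have h3 : (2 : K) • x = 0 := by
        rw [two_smul]
        nth_rewrite 1 [h2]
        exact neg_add_cancel x
      exact (smul_eq_zero.1 h3).resolve_left two
    · rw [codisjoint_iff, eq_top_iff]
      intro x _
      have h1 : x = (2 : K)⁻¹ • (x + F.par M x) + (2 : K)⁻¹ • (x - F.par M x) := by
        rw [← smul_add]
        have : x + F.par M x + (x - F.par M x) = (2 : K) • x := by rw [two_smul]; abel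
        rw [this, smul_smul, inv_mul_cancel₀ two, one_smul]
      rw [h1]
      refine Submodule.add_mem_sup ?_ ?_
      · rw [hp, _root_.map_smul, _root_.map_add, F.par_par, add_comm]
      · rw [hm, _root_.map_smul, _root_.map_sub, F.par_par, ← smul_neg, neg_sub]
  let b0 : Module.Basis (Fin (Module.finrank K Ep) ⊕ Fin (Module.finrank K Em)) K (F.V M) :=
    ((Module.finBasis K Ep).prod (Module.finBasis K Em)).map
      (Submodule.prodEquivOfIsCompl Ep Em hc)
  have hb0 : ∀ j, F.par M (b0 j) = (((Sum.elim (fun _ => 1) (fun _ => -1) j : ℚ)) : K) • b0 j := by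
    intro j
    rcases j with j | j
    · have h1 : b0 (Sum.inl j) = (Module.finBasis K Ep j : F.V M) := by
        simp [b0]
      rw [h1, Sum.elim_inl, Rat.cast_one, one_smul]
      exact (hp _).1 (Module.finBasis K Ep j).2
    · have h1 : b0 (Sum.inr j) = (Module.finBasis K Em j : F.V M) := by
        simp [b0]
      rw [h1, Sum.elim_inr, Rat.cast_neg, Rat.cast_one, neg_one_smul]
      exact (hm _).1 (Module.finBasis K Em j).2
  refine ⟨_, b0.reindex finSumFinEquiv,
    fun i => Sum.elim (fun _ => 1) (fun _ => -1) (finSumFinEquiv.symm i), ?_, ?_⟩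
  · have h2 : ∀ s : Fin (Module.finrank K Ep) ⊕ Fin (Module.finrank K Em),
        (Sum.elim (fun _ => 1) (fun _ => -1) s : ℚ) = 1 ∨
          (Sum.elim (fun _ => 1) (fun _ => -1) s : ℚ) = -1 := by
      rintro (j | j)
      · exact Or.inl rfl
      · exact Or.inr rfl
    exact fun i => h2 _
  · intro i
    rw [Module.Basis.reindex_apply]
    exact hb0 _

/-- Words with different contents. -/
lemma content {d n : ℕ} (v : Fin n → Fin d) (i j : Fin d) (g : Equiv.Perm (Fin (n + 1)))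
    (h : (Fin.snoc v i : Fin (n + 1) → Fin d) ∘ (g⁻¹ : Equiv.Perm (Fin (n + 1))) =
      (Fin.snoc v j : Fin (n + 1) → Fin d)) : i = j := by
  have h1 : ∑ l, (if (Fin.snoc v i : Fin (n + 1) → Fin d) l = i then 1 else 0) =
      ∑ l, (if (Fin.snoc v j : Fin (n + 1) → Fin d) l = i then 1 else 0) := by
    rw [← h]
    exact (Equiv.sum_comp (g⁻¹ : Equiv.Perm (Fin (n + 1)))
      fun l => (if (Fin.snoc v i : Fin (n + 1) → Fin d) l = i then 1 else 0)).symm
  rw [Fin.sum_univ_castSucc, Fin.sum_univ_castSucc] at h1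
  simp only [Fin.snoc_castSucc, Fin.snoc_last, if_true] at h1
  by_contra hne
  rw [if_neg (Ne.symm hne)] at h1
  omega

/-- The coefficients of the action of the group algebra. -/
lemma repr_ne {M : 𝒜} {φ : Fam M} (hφ : PA φ) {d : ℕ} (b : Module.Basis (Fin d) K (F.V M))
    (δ : Fin d → ℚ) (hδ : ∀ i, δ i = 1 ∨ δ i = -1) (hb : ∀ i, F.par M (b i) = (δ i : K) • b i)
    {n : ℕ} (B : Module.Basis (Fin (n + 1) → Fin d) K (F.V (T M (n + 1))))
    (hB : ∀ w, B w = wd F (n + 1) fun j => b (w j)) (x : QS (n + 1)) (v : Fin n → Fin d)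
    (i j : Fin d) (hij : i ≠ j) :
    B.repr (F.map (rh φ (n + 1) x) (B (Fin.snoc v i))) (Fin.snoc v j) = 0 := by
  classical
  rw [WD.rh_eq, WD.map_sum', map_sum, Finsupp.coe_finsetSum, Finset.sum_apply]
  refine Finset.sum_eq_zero fun g _ => ?_
  obtain ⟨κ, -, h2⟩ := wd_perm_mixed F hφ b δ hδ hb (n + 1) g
  rw [F.map_smul, hB, h2]
  have h3 : wd F (n + 1) (fun l => b ((Fin.snoc v i : Fin (n + 1) → Fin d) (g⁻¹ l))) =
      B ((Fin.snoc v i : Fin (n + 1) → Fin d) ∘ (g⁻¹ : Equiv.Perm (Fin (n + 1)))) := (hB _).symm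
  rw [h3, _root_.map_smul, _root_.map_smul, Module.Basis.repr_self, Finsupp.smul_apply,
    Finsupp.smul_apply, Finsupp.single_apply, if_neg, smul_zero, smul_zero]
  intro h4
  exact hij (content v i j g h4)

/-- The contraction of all factors but the first, in the basis of words. -/
theorem map_PT {M : 𝒜} {d : ℕ} (b : Module.Basis (Fin d) K (F.V M)) (δ : Fin d → ℚ)
    (hδ : ∀ i, δ i = 1 ∨ δ i = -1) (hb : ∀ i, F.par M (b i) = (δ i : K) • b i) (n : ℕ) :
    ∀ (g : T M (n + 1) ⟶ T M (n + 1))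
      (G : (Fin (n + 1) → Fin d) → (Fin (n + 1) → Fin d) → K)
      (_ : ∀ w, F.map g (wd F (n + 1) fun j => b (w j)) =
        ∑ w', G w w' • wd F (n + 1) fun j => b (w' j)) (i : Fin d),
      F.map (PT n g) (wd F 1 fun _ => b i) =
        ∑ j, (∑ v : Fin n → Fin d, (∏ l, (δ (v l) : K)) * G (Fin.snoc v i) (Fin.snoc v j)) •
          wd F 1 fun _ => b j := by
  induction n with
  | zero =>
    intro g G hG i
    have h1 := hG fun _ => i
    change F.map g (wd F 1 fun _ => b i) = _ at h1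
    change F.map g (wd F 1 fun _ => b i) = _
    rw [h1, ← Equiv.sum_comp (Equiv.funUnique (Fin 1) (Fin d)).symm]
    refine Finset.sum_congr rfl fun j _ => ?_
    congr 1
    rw [Fintype.sum_unique]
    simp only [Finset.univ_eq_empty, Finset.prod_empty, one_mul]
    congr 1
  | succ n ih =>
    intro g G hG i
    have h1 : ∀ w : Fin (n + 1) → Fin d, F.map (ptr g) (wd F (n + 1) fun j => b (w j)) =
        ∑ w', (∑ a, (δ a : K) * G (Fin.cons a w) (Fin.cons a w')) •
          wd F (n + 1) fun j => b (w' j) := by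
      intro w
      rw [pcf F b δ hδ hb g (wd F (n + 1) fun j => b (w j))
        (fun a a' => ∑ w', G (Fin.cons a w) (Fin.cons a' w') • wd F (n + 1) fun j => b (w' j))]
      · simp only [Finset.smul_sum, Finset.sum_smul, smul_smul]
        exact Finset.sum_comm
      · intro a
        have h2 := hG (Fin.cons a w)
        have h3 : (wd F (n + 2) fun j => b ((Fin.cons a w : Fin (n + 2) → Fin d) j)) =
            F.ext (wd F (n + 1) fun j => b (w j)) (b a) := rfl
        rw [h3] at h2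
        rw [h2, ← Equiv.sum_comp (Fin.consEquiv fun _ => Fin d), Fintype.sum_prod_type]
        refine Finset.sum_congr rfl fun a' _ => ?_
        rw [map_sum, LinearMap.sum_apply]
        refine Finset.sum_congr rfl fun w' _ => ?_
        rw [_root_.map_smul, LinearMap.smul_apply]
        rfl
    change F.map (PT n (ptr g)) _ = _
    rw [ih (ptr g) _ h1 i]
    refine Finset.sum_congr rfl fun j _ => ?_
    congr 1
    rw [← Equiv.sum_comp (Fin.consEquiv fun _ => Fin d), Fintype.sum_prod_type, Finset.sum_comm]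
    refine Finset.sum_congr rfl fun v _ => ?_
    rw [Finset.mul_sum]
    refine Finset.sum_congr rfl fun a _ => ?_
    have h2 : ∀ i, (Fin.cons a (Fin.snoc v i : Fin (n + 1) → Fin d) : Fin (n + 2) → Fin d) =
        Fin.snoc (Fin.cons a v : Fin (n + 1) → Fin d) i := fun i => Fin.cons_snoc_eq_snoc_cons _ _ _
    rw [h2, h2]
    change _ = (∏ l, (δ ((Fin.cons a v : Fin (n + 1) → Fin d) l) : K)) * _
    rw [Fin.prod_univ_succ]
    simp only [Fin.cons_zero, Fin.cons_succ]
    ring_nf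
    rfl

/-- The contraction and an insertion at the remaining position. -/
theorem PT_ins {M : 𝒜} (z : M ⟶ M) (n : ℕ) : ∀ (g : T M (n + 1) ⟶ T M (n + 1)),
    PT n (g ≫ ins z (n + 1) (Fin.last n)) = PT n g ≫ ins z 1 0 := by
  induction n with
  | zero => intro g; rfl
  | succ n ih =>
    intro g
    have h1 : ins z (n + 2) (Fin.last (n + 1)) = ins z (n + 1) (Fin.last n) ▷ M := rfl
    change PT n (ptr (g ≫ ins z (n + 2) (Fin.last (n + 1)))) = PT n (ptr g) ≫ ins z 1 0
    rw [h1]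
    have h2 : ptr (g ≫ ins z (n + 1) (Fin.last n) ▷ M) = ptr g ≫ ins z (n + 1) (Fin.last n) :=
      ptr_right g _
    rw [h2, ih]

end PARUX

theorem paru (hunit : ∀ f : 𝟙_ 𝒜 ⟶ 𝟙_ 𝒜, ∃ q : ℚ, f = q • 𝟙 (𝟙_ 𝒜)) {M D : 𝒜} {φ : Fam M}
    (hφ : PA φ) {n : ℕ} {e : QS (n + 1)} (i : D ⟶ T M (n + 1)) (r : T M (n + 1) ⟶ D)
    (hir : i ≫ r = 𝟙 D) (hri : r ≫ i = rh φ (n + 1) e) (hD : ∃ θ : D ⟶ D, ∀ x, F.map θ x = F.par D x)
    (h0 : ∃ x : F.V D, x ≠ 0) :
    ∃ (u : M ⟶ M) (d : ℕ) (b : Module.Basis (Fin d) K (F.V M)) (δ c : Fin d → ℚ),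
      (∀ i, δ i = 1 ∨ δ i = -1) ∧ (∀ i, 0 < c i) ∧ (∀ i, F.par M (b i) = (δ i : K) • b i) ∧
      (∀ i, F.map u (b i) = ((δ i * c i : ℚ) : K) • b i) ∧
      ∀ z : M ⟶ M, (∀ x : QS (n + 1), rh φ (n + 1) (x * e) ≫ ins z (n + 1) (Fin.last n) = 0) →
        u ≫ z = 0 := by
  classical
  obtain ⟨d, b, δ, hδ, hb⟩ := PARUX.exists_basis F M
  obtain ⟨B, hB⟩ := wd_basis F b (n + 1)
  obtain ⟨θ, hθ⟩ := hD
  set θ1 : T M (n + 1) ⟶ T M (n + 1) := r ≫ θ ≫ i with hθ1
  have hθ1e : θ1 ≫ rh φ (n + 1) e = θ1 := by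
    rw [hθ1, ← hri]
    simp only [Category.assoc]
    rw [reassoc_of% hir]
  have hθ1v : ∀ x, F.map θ1 x = F.map (rh φ (n + 1) e) (F.par _ x) := by
    intro x
    rw [hθ1, ← hri, F.map_comp, F.map_comp, F.map_comp, hθ, F.par_map]
  have hmul : ∀ x y : QS (n + 1), rh φ (n + 1) (x * y) = rh φ (n + 1) y ≫ rh φ (n + 1) x :=
    fun x y => map_mul (rho φ (n + 1)) x y
  have hsingle : ∀ g : Equiv.Perm (Fin (n + 1)), rh φ (n + 1) (MonoidAlgebra.single g 1) =
      (φ (n + 1) g : T M (n + 1) ⟶ T M (n + 1)) := by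
    intro g
    unfold rh rho
    rw [MonoidAlgebra.lift_single, one_smul]
  have hadj : ∀ h : Equiv.Perm (Fin (n + 1)), adj (e * MonoidAlgebra.single h⁻¹ 1) =
      MonoidAlgebra.single h 1 * adj e := by
    intro h
    unfold adj
    rw [Finset.mul_sum, ← Equiv.sum_comp (Equiv.mulRight h⁻¹)]
    refine Finset.sum_congr rfl fun g _ => ?_
    rw [MonoidAlgebra.single_mul_single, one_mul, Equiv.coe_mulRight, mul_inv_rev, inv_inv,
      MonoidAlgebra.coeff_mul_single_mul, mul_one]
  set θ' : T M (n + 1) ⟶ T M (n + 1) := ∑ h : Equiv.Perm (Fin (n + 1)),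
    rh φ (n + 1) (MonoidAlgebra.single h⁻¹ 1) ≫ θ1 ≫ rh φ (n + 1) (adj e) ≫
      rh φ (n + 1) (MonoidAlgebra.single h 1) with hθ'
  -- the endomorphism of the first factor
  set u : M ⟶ M := (λ_ M).inv ≫ PT n θ' ≫ (λ_ M).hom with hu
  -- the numbers
  have hq := fun (h : Equiv.Perm (Fin (n + 1))) (w : Fin (n + 1) → Fin d) =>
    sos F hφ b δ hδ hb (n + 1) B hB (e * MonoidAlgebra.single h⁻¹ 1) w
  choose q hq0 hq1 hq2 using hq
  set c : Fin d → ℚ := fun i => ∑ v : Fin n → Fin d, ∑ h, q h (Fin.snoc v i) with hc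
  have hδδ : ∀ i, δ i * δ i = 1 := by
    intro i
    rcases hδ i with h | h <;> rw [h] <;> norm_num
  -- the action of `θ'`
  have hθ'v : ∀ w, F.map θ' (B w) = ((∏ l, δ (w l) : ℚ) : K) •
      ∑ h : Equiv.Perm (Fin (n + 1)), F.map (rh φ (n + 1)
        (adj (e * MonoidAlgebra.single h⁻¹ 1) * (e * MonoidAlgebra.single h⁻¹ 1))) (B w) := by
    intro w
    rw [hθ', WD.map_sum', Finset.smul_sum]
    refine Finset.sum_congr rfl fun h _ => ?_
    rw [hadj, hmul, hmul, hmul]
    simp only [F.map_comp]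
    rw [hθ1v, F.par_map, hB, wd_par F b δ hb]
    simp only [_root_.map_smul]
  have hG : ∀ w, F.map θ' (wd F (n + 1) fun j => b (w j)) =
      ∑ w', B.repr (F.map θ' (B w)) w' • wd F (n + 1) fun j => b (w' j) := by
    intro w
    rw [← hB]
    conv_lhs => rw [← B.sum_repr (F.map θ' (B w))]
    simp only [hB]
  have hGoff : ∀ (v : Fin n → Fin d) (i j : Fin d), i ≠ j →
      B.repr (F.map θ' (B (Fin.snoc v i))) (Fin.snoc v j) = 0 := by
    intro v i j hij
    rw [hθ'v, _root_.map_smul, map_sum, Finsupp.smul_apply, Finsupp.coe_finsetSum,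
      Finset.sum_apply, Finset.sum_eq_zero, smul_zero]
    intro h _
    exact PARUX.repr_ne F hφ b δ hδ hb B hB _ v i j hij
  have hGdiag : ∀ (v : Fin n → Fin d) (i : Fin d),
      B.repr (F.map θ' (B (Fin.snoc v i))) (Fin.snoc v i) =
        (((∏ l, δ (v l)) * δ i * ∑ h, q h (Fin.snoc v i) : ℚ) : K) := by
    intro v i
    rw [hθ'v, _root_.map_smul, map_sum, Finsupp.smul_apply, Finsupp.coe_finsetSum,
      Finset.sum_apply, Rat.cast_mul, smul_eq_mul]
    congr 1
    · rw [Fin.prod_univ_castSucc]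
      simp only [Fin.snoc_castSucc, Fin.snoc_last]
    · rw [Rat.cast_sum]
      exact Finset.sum_congr rfl fun h _ => hq1 h _
  have hone : ∀ i, F.map (λ_ M).inv (b i) = wd F 1 fun _ => b i := by
    intro i
    exact F.map_inv _ (F.left_unit (b i))
  have hone' : ∀ i, F.map (λ_ M).hom (wd F 1 fun _ => b i) = b i := fun i => F.left_unit (b i)
  have hub : ∀ i, F.map u (b i) = ((δ i * c i : ℚ) : K) • b i := by
    intro i
    rw [hu, F.map_comp, F.map_comp, hone, PARUX.map_PT F b δ hδ hb n θ' _ hG i, map_sum,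
      Finset.sum_eq_single i]
    · rw [_root_.map_smul, hone']
      congr 1
      rw [hc]
      simp only [hGdiag]
      rw [Finset.mul_sum, Rat.cast_sum]
      refine Finset.sum_congr rfl fun v _ => ?_
      rw [← Rat.cast_prod, ← Rat.cast_mul]
      congr 1
      have h1 : (∏ l, δ (v l)) * (∏ l, δ (v l)) = 1 := by
        rw [← Finset.prod_mul_distrib]
        exact Finset.prod_eq_one fun l _ => hδδ _
      linear_combination (δ i * ∑ h, q h (Fin.snoc v i)) * h1
    · intro j _ hj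
      rw [Finset.sum_eq_zero, zero_smul, _root_.map_zero]
      intro v _
      rw [hGoff v i j (Ne.symm hj), mul_zero]
    · intro hi
      exact absurd (Finset.mem_univ _) hi
  -- positivity
  have hnInv : ¬ F.Inv (rh φ (n + 1) e) := by
    intro hI
    obtain ⟨x, hx⟩ := h0
    apply hx
    have h1 := hI (F.map i x)
    rw [← hri, F.map_comp, ← F.map_comp i r, hir, F.map_id] at h1
    have h2 := congrArg (F.map r) h1
    rwa [← F.map_comp, hir, F.map_id, _root_.map_zero] at h2
  have hcpos : ∀ i, 0 < c i := by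
    intro i
    obtain ⟨w0, ⟨l, hl⟩, hw0⟩ := posl F hφ b δ hδ hb n e hnInv i
    set h : Equiv.Perm (Fin (n + 1)) := Equiv.swap (Fin.last n) l with hh
    obtain ⟨κ, hκ1, hκ2⟩ := wd_perm_mixed F hφ b δ hδ hb (n + 1) h⁻¹
    set w : Fin (n + 1) → Fin d := fun j => w0 (h j) with hw
    have hwl : w (Fin.last n) = i := by
      rw [hw]
      simp only [hh, Equiv.swap_apply_left]
      exact hl
    have hws : w = Fin.snoc (Fin.init w) i := by
      rw [← hwl]
      exact (Fin.snoc_init_self w).symm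
    have hne : F.map (rh φ (n + 1) (e * MonoidAlgebra.single h⁻¹ 1)) (B w) ≠ 0 := by
      rw [hmul, F.map_comp, hsingle, hB, hκ2]
      have h1 : (fun j => b (w ((h⁻¹)⁻¹ j))) = fun j => b (w0 j) := by
        funext j
        rw [inv_inv, hw]
        simp only [hh, Equiv.swap_apply_self]
      rw [h1, _root_.map_smul]
      refine smul_ne_zero ?_ hw0
      rcases hκ1 w with h2 | h2 <;> rw [h2] <;> norm_num
    have hqpos : 0 < q h w := lt_of_le_of_ne (hq0 h w) fun h1 => hne (hq2 h w h1.symm)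
    rw [hc]
    refine Finset.sum_pos' (fun v _ => Finset.sum_nonneg fun h _ => hq0 _ _)
      ⟨Fin.init w, Finset.mem_univ _, ?_⟩
    refine Finset.sum_pos' (fun h _ => hq0 _ _) ⟨h, Finset.mem_univ _, ?_⟩
    rw [← hws]
    exact hqpos
  refine ⟨u, d, b, δ, c, hδ, hcpos, hb, hub, fun z hz => ?_⟩
  have h1 : θ' ≫ ins z (n + 1) (Fin.last n) = 0 := by
    rw [hθ', Preadditive.sum_comp]
    refine Finset.sum_eq_zero fun h _ => ?_
    rw [← hθ1e]
    have h2 := hz (MonoidAlgebra.single h 1 * adj e)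
    rw [hmul, hmul] at h2
    simp only [Category.assoc] at h2 ⊢
    rw [h2]
    simp only [comp_zero]
  have h2 : PT n θ' ≫ ins z 1 0 = 0 := by
    rw [← PARUX.PT_ins, h1, PT_zero]
  have h3 : (λ_ M).hom ≫ z = ins z 1 0 ≫ (λ_ M).hom :=
    (leftUnitor_naturality z).symm
  rw [hu, Category.assoc, Category.assoc, h3, reassoc_of% h2, zero_comp, comp_zero]

end Pool.Agent.Helper96.SP
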