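import Pool.Agent.Helper96.SP.Defs3
import Mathlib.LinearAlgebra.Lagrange
import Mathlib.LinearAlgebra.Eigenspace.Basic
import Mathlib.LinearAlgebra.Eigenspace.Minpoly

/-!
# Board SP3, package KLA (helper23): linear algebra of the algebraic operators
-/

open CategoryTheory MonoidalCategory Limits BraidedCategory

universe u v w

namespace Pool.Agent.Helper96.SP

open Pool.Agent.TH90.AB Pool.Agent.TH90.Kim Pool.Agent.Helper96.Kim

set_option linter.unusedSectionVars false

variable {𝒜 : Type u} [Category.{v} 𝒜] [MonoidalCategory 𝒜] [SymmetricCategory 𝒜]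
  [Preadditive 𝒜] [MonoidalPreadditive 𝒜] [Linear ℚ 𝒜] [MonoidalLinear ℚ 𝒜]
  {K : Type w} [Field K] [CharZero K] {F : Realisation 𝒜 K}

theorem exists_hb (G : Grading F) (M : 𝒜) : ∃ (d : ℕ) (b : Module.Basis (Fin d) K (F.V M))
    (g : Fin d → ℤ), ∀ i, b i ∈ G.gr M (g i) := by
  classical
  let B := (G.internal M).collectedBasis (fun k => Module.finBasis K (G.gr M k))
  have hfin : Finite ((k : ℤ) × Fin (Module.finrank K (G.gr M k))) := Module.Finite.finite_basis B
  obtain ⟨d, ⟨e⟩⟩ := Finite.exists_equiv_fin ((k : ℤ) × Fin (Module.finrank K (G.gr M k)))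
  refine ⟨d, B.reindex e, fun i => (e.symm i).1, fun i => ?_⟩
  rw [Module.Basis.reindex_apply]
  exact (G.internal M).collectedBasis_mem _ _

theorem alg_id (M : 𝒜) : (LinearMap.id : F.V M →ₗ[K] F.V M) ∈ AlgOp F M := by
  have e : (LinearMap.id : F.V M →ₗ[K] F.V M) = F.map (𝟙 M) :=
    LinearMap.ext fun x => (F.map_id M x).symm
  rw [e]
  exact Submodule.subset_span ⟨𝟙 M, rfl⟩

theorem alg_comp {M : 𝒜} {p q : F.V M →ₗ[K] F.V M} (hp : p ∈ AlgOp F M) (hq : q ∈ AlgOp F M) :
    p ∘ₗ q ∈ AlgOp F M := by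
  unfold AlgOp at hp hq ⊢
  induction hp using Submodule.span_induction with
  | mem x hx =>
    obtain ⟨f, rfl⟩ := hx
    induction hq using Submodule.span_induction with
    | mem y hy =>
      obtain ⟨f', rfl⟩ := hy
      have e : F.map f ∘ₗ F.map f' = F.map (f' ≫ f) :=
        LinearMap.ext fun x => (F.map_comp f' f x).symm
      rw [e]
      exact Submodule.subset_span ⟨f' ≫ f, rfl⟩
    | zero => rw [LinearMap.comp_zero]; exact Submodule.zero_mem _
    | add y z _ _ h1 h2 => rw [LinearMap.comp_add]; exact Submodule.add_mem _ h1 h2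
    | smul a y _ h1 => rw [LinearMap.comp_smul]; exact Submodule.smul_mem _ a h1
  | zero => rw [LinearMap.zero_comp]; exact Submodule.zero_mem _
  | add y z _ _ h1 h2 => rw [LinearMap.add_comp]; exact Submodule.add_mem _ h1 h2
  | smul a y _ h1 => rw [LinearMap.smul_comp]; exact Submodule.smul_mem _ a h1

/-- Elements of `gr M k` are combinations of the basis vectors of degree `k`. -/
theorem hb_expand (G : Grading F) {M : 𝒜} {d : ℕ} (b : Module.Basis (Fin d) K (F.V M))
    (g : Fin d → ℤ) (hb : ∀ i, b i ∈ G.gr M (g i)) (k : ℤ) (x : F.V M) (hx : x ∈ G.gr M k) :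
    x = ∑ i with g i = k, b.repr x i • b i := by
  have hind := (G.internal M).submodule_iSupIndep
  have hsum : x = (∑ i with g i = k, b.repr x i • b i) + ∑ i with ¬ g i = k, b.repr x i • b i := by
    rw [Finset.sum_filter_add_sum_filter_not, b.sum_repr]
  set y := ∑ i with g i = k, b.repr x i • b i with hy
  set z := ∑ i with ¬ g i = k, b.repr x i • b i with hz
  have hy1 : y ∈ G.gr M k := by
    refine Submodule.sum_mem _ fun i hi => Submodule.smul_mem _ _ ?_
    have := hb i
    rw [(Finset.mem_filter.1 hi).2] at this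
    exact this
  have hz1 : z ∈ ⨆ l, ⨆ (_ : l ≠ k), G.gr M l := by
    refine Submodule.sum_mem _ fun i hi => Submodule.smul_mem _ _ ?_
    exact Submodule.mem_iSup_of_mem (g i)
      (Submodule.mem_iSup_of_mem (Finset.mem_filter.1 hi).2 (hb i))
  have hz2 : z ∈ G.gr M k := by
    have : z = x - y := by rw [hsum]; abel
    rw [this]
    exact Submodule.sub_mem _ hx hy1
  have hz3 : z = 0 := Submodule.disjoint_def.1 (hind k) z hz2 hz1
  rw [hsum, hz3, add_zero]

theorem alg_pow {M : 𝒜} {U : Module.End K (F.V M)} (hU : U ∈ AlgOp F M) (n : ℕ) :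
    U ^ n ∈ AlgOp F M := by
  induction n with
  | zero => rw [pow_zero]; exact alg_id M
  | succ n ih => rw [pow_succ]; exact alg_comp ih hU

theorem alg_aeval {M : 𝒜} {U : Module.End K (F.V M)} (hU : U ∈ AlgOp F M) (P : Polynomial K) :
    Polynomial.aeval U P ∈ AlgOp F M := by
  induction P using Polynomial.induction_on' with
  | add p q h1 h2 => rw [map_add]; exact Submodule.add_mem _ h1 h2
  | monomial n a =>
    rw [Polynomial.aeval_monomial, Algebra.algebraMap_eq_smul_one, smul_mul_assoc, one_mul]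
    exact Submodule.smul_mem _ _ (alg_pow hU n)

theorem kla (G : Grading F) {M : 𝒜} {d : ℕ} (b : Module.Basis (Fin d) K (F.V M)) (g : Fin d → ℤ)
    (hb : ∀ i, b i ∈ G.gr M (g i)) (U : F.V M →ₗ[K] F.V M) (hU : U ∈ AlgOp F M) (μ : Fin d → K)
    (hμ : ∀ i, U (b i) = μ i • b i) (hne : ∀ i j, g i ≠ g j → μ i ≠ μ j) : Kunneth G M := by
  classical
  intro k
  let r : K → K := fun t => if ∃ j, μ j = t ∧ g j = k then 1 else 0
  let P : Polynomial K := Lagrange.interpolate (Finset.univ.image μ) id r
  have hP : ∀ i, P.eval (μ i) = if g i = k then 1 else 0 := by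
    intro i
    have h1 : P.eval (id (μ i)) = r (μ i) :=
      Lagrange.eval_interpolate_at_node r (Set.injOn_id _)
        (Finset.mem_image_of_mem μ (Finset.mem_univ i))
    simp only [id] at h1
    rw [h1]
    by_cases h : g i = k
    · rw [if_pos h]
      exact if_pos ⟨i, rfl, h⟩
    · rw [if_neg h]
      refine if_neg ?_
      rintro ⟨j, hj1, hj2⟩
      exact hne j i (fun e => h (e ▸ hj2)) hj1
  let U' : Module.End K (F.V M) := U
  let p : Module.End K (F.V M) := Polynomial.aeval U' P
  have hp : ∀ i, p (b i) = (if g i = k then (1 : K) else 0) • b i := by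
    intro i
    have he : Module.End.HasEigenvector U' (μ i) (b i) :=
      ⟨Module.End.mem_eigenspace_iff.2 (hμ i), b.ne_zero i⟩
    have := Module.End.aeval_apply_of_hasEigenvector (p := P) he
    rw [hP i] at this
    exact this
  have hpx : ∀ l, ∀ x ∈ G.gr M l, p x = (if l = k then (1 : K) else 0) • x := by
    intro l x hx
    have hx1 := hb_expand G b g hb l x hx
    rw [hx1, map_sum, Finset.smul_sum]
    refine Finset.sum_congr rfl fun i hi => ?_
    rw [map_smul, hp i, (Finset.mem_filter.1 hi).2, smul_comm]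
  refine ⟨p, alg_aeval hU P, fun x hx => ?_, fun l hl x hx => ?_⟩
  · have := hpx k x hx
    rw [if_pos rfl, one_smul] at this
    exact this
  · have := hpx l x hx
    rw [if_neg hl, zero_smul] at this
    exact this

theorem theta_mem (G : Grading F) {X : 𝒜} (h : Kunneth G X) (c : ℤ → K) :
    ∃ Θ ∈ AlgOp F X, ∀ k, ∀ x ∈ G.gr X k, Θ x = c k • x := by
  classical
  obtain ⟨d, b, g, hb⟩ := exists_hb G X
  choose p hp1 hp2 hp3 using h
  refine ⟨∑ k ∈ Finset.univ.image g, c k • p k,
    Submodule.sum_mem _ fun k _ => Submodule.smul_mem _ _ (hp1 k), fun l x hx => ?_⟩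
  rw [LinearMap.sum_apply]
  by_cases hl : l ∈ Finset.univ.image g
  · rw [Finset.sum_eq_single l]
    · rw [LinearMap.smul_apply, hp2 l x hx]
    · intro k _ hk
      rw [LinearMap.smul_apply, hp3 k l (Ne.symm hk) x hx, smul_zero]
    · intro h'; exact absurd hl h'
  · have hx0 : x = 0 := by
      rw [hb_expand G b g hb l x hx]
      refine Finset.sum_eq_zero fun i hi => ?_
      exact absurd (Finset.mem_image.2 ⟨i, Finset.mem_univ i, (Finset.mem_filter.1 hi).2⟩) hl
    subst hx0
    simp

end Pool.Agent.Helper96.SP
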