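import Pool.Agent.Helper96.SP.PKAP

/-!
# The chain of partial traces (package CHAIN)
-/

set_option autoImplicit false

open CategoryTheory MonoidalCategory Limits BraidedCategory

universe u v w

namespace Pool.Agent.Helper96.SP

open Pool.Agent.TH90.AB Pool.Agent.TH90.Kim Pool.Agent.Helper96.Kim

set_option linter.unusedSectionVars false

namespace CH

/-! ## Embeddings of group algebras -/

theorem via_trans {a b c : ℕ} (β : Fin a ↪ Fin b) (α : Fin b ↪ Fin c) (g : Equiv.Perm (Fin a)) :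
    Equiv.Perm.viaEmbeddingHom (β.trans α) g =
      Equiv.Perm.viaEmbeddingHom α (Equiv.Perm.viaEmbeddingHom β g) := by
  symm
  refine eq_via _ _ (fun j => ?_) fun j hj => ?_
  · show Equiv.Perm.viaEmbeddingHom α (Equiv.Perm.viaEmbeddingHom β g) (α (β j)) = α (β (g j))
    rw [via_apply, via_apply]
  · by_cases h : j ∈ Set.range α
    · obtain ⟨i, rfl⟩ := h
      rw [via_apply, via_apply_of_notMem]
      rintro ⟨l, rfl⟩
      exact hj ⟨l, rfl⟩
    · exact via_apply_of_notMem _ _ h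

theorem via_refl {a : ℕ} (g : Equiv.Perm (Fin a)) :
    Equiv.Perm.viaEmbeddingHom (Function.Embedding.refl (Fin a)) g = g := by
  symm
  exact eq_via _ _ (fun j => rfl) fun j hj => absurd ⟨j, rfl⟩ hj

theorem via_succ {a : ℕ} (g : Equiv.Perm (Fin a)) :
    Equiv.Perm.viaEmbeddingHom (Fin.succEmb a) g = up g := by
  refine eq_up ?_ fun j => ?_
  · refine via_apply_of_notMem _ _ ?_
    rintro ⟨i, hi⟩
    exact Fin.succ_ne_zero i hi
  · exact via_apply (Fin.succEmb a) g j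

theorem emb_trans {a b c : ℕ} (β : Fin a ↪ Fin b) (α : Fin b ↪ Fin c) (x : QS a) :
    emb (β.trans α) x = emb α (emb β x) := by
  have h : Equiv.Perm.viaEmbeddingHom (β.trans α) =
      (Equiv.Perm.viaEmbeddingHom α).comp (Equiv.Perm.viaEmbeddingHom β) :=
    MonoidHom.ext fun g => via_trans β α g
  unfold emb
  rw [h, MonoidAlgebra.mapDomainAlgHom_comp]
  rfl

theorem emb_refl {a : ℕ} (x : QS a) : emb (Function.Embedding.refl (Fin a)) x = x := by
  have h : Equiv.Perm.viaEmbeddingHom (Function.Embedding.refl (Fin a)) = MonoidHom.id _ :=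
    MonoidHom.ext fun g => via_refl g
  unfold emb
  rw [h, MonoidAlgebra.mapDomainAlgHom_id]
  rfl

theorem bp_cons {a b t : ℕ} (β₀ : Fin a ↪ Fin b) (β : Fin t → (Fin a ↪ Fin b)) (z : QS a) :
    bp (Fin.cons β₀ β : Fin (t + 1) → (Fin a ↪ Fin b)) z = emb β₀ z * bp β z := by
  unfold bp
  rw [List.ofFn_succ, List.prod_cons]
  rfl

theorem emb_bp {a b c t : ℕ} (β : Fin t → (Fin a ↪ Fin b)) (α : Fin b ↪ Fin c) (z : QS a) :
    bp (fun s => (β s).trans α) z = emb α (bp β z) := by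
  unfold bp
  rw [map_list_prod, List.map_ofFn]
  congr 2
  funext s
  exact emb_trans (β s) α z

section cat

variable {𝒜 : Type u} [Category.{v} 𝒜] [MonoidalCategory 𝒜] [SymmetricCategory 𝒜]
variable [Preadditive 𝒜] [MonoidalPreadditive 𝒜] [Linear ℚ 𝒜] [MonoidalLinear ℚ 𝒜]

theorem rh_single {M : 𝒜} (φ : Fam M) (n : ℕ) (g : Equiv.Perm (Fin n)) (q : ℚ) :
    rh φ n (MonoidAlgebra.single g q) = q • (φ n g : T M n ⟶ T M n) :=
  MonoidAlgebra.lift_single (φ n) g q

theorem rh_add {M : 𝒜} (φ : Fam M) (n : ℕ) (x y : QS n) :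
    rh φ n (x + y) = rh φ n x + rh φ n y := map_add (rho φ n) x y

theorem rh_zero {M : 𝒜} (φ : Fam M) (n : ℕ) : rh φ n 0 = 0 := map_zero (rho φ n)

theorem rh_mul {M : 𝒜} (φ : Fam M) (n : ℕ) (x y : QS n) :
    rh φ n (x * y) = rh φ n y ≫ rh φ n x := map_mul (rho φ n) x y

theorem rh_succ {M : 𝒜} {φ : Fam M} (hφ : PA φ) (k : ℕ) (x : QS k) :
    rh φ (k + 1) (emb (Fin.succEmb k) x) = rh φ k x ▷ M := by
  induction x using MonoidAlgebra.induction_linear with
  | zero =>
    rw [map_zero, rh_zero, rh_zero, MonoidalPreadditive.zero_whiskerRight]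
  | add f g hf hg =>
    rw [map_add, rh_add, rh_add, hf, hg, MonoidalPreadditive.add_whiskerRight]
  | single g q =>
    have h1 : emb (Fin.succEmb k) (MonoidAlgebra.single g q) = MonoidAlgebra.single (up g) q := by
      rw [← via_succ]
      exact MonoidAlgebra.mapDomain_single
    rw [h1, rh_single, rh_single, hφ.up, MonoidalLinear.smul_whiskerRight]

theorem rh_addNat {M : 𝒜} {φ : Fam M} (hφ : PA φ) (k n : ℕ) (x : QS k) :
    rh φ (k + n) (emb (Fin.addNatEmb n) x) = wh (rh φ k x) n := by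
  induction n with
  | zero =>
    have h : (Fin.addNatEmb 0 : Fin k ↪ Fin (k + 0)) = Function.Embedding.refl (Fin k) := rfl
    rw [h, emb_refl]
    rfl
  | succ n ih =>
    have h : (Fin.addNatEmb (n + 1) : Fin k ↪ Fin (k + (n + 1))) =
        (Fin.addNatEmb n : Fin k ↪ Fin (k + n)).trans (Fin.succEmb (k + n)) := rfl
    rw [h, emb_trans]
    refine (rh_succ hφ (k + n) _).trans ?_
    rw [ih]
    rfl

variable [hdual : ∀ X : 𝒜, HasRightDual X]

theorem ptrn_wh {M : 𝒜} {j k l : ℕ} (f : T M j ⟶ T M k) (n : ℕ)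
    (g : T M (k + n) ⟶ T M (l + n)) : ptrn n (wh f n ≫ g) = f ≫ ptrn n g := by
  induction n with
  | zero => rfl
  | succ n ih =>
    show ptrn n (ptr (wh f n ▷ M ≫ g)) = f ≫ ptrn n (ptr g)
    rw [ptr_left]
    exact ih _

theorem ptrn_zero {M : 𝒜} {k l : ℕ} (n : ℕ) :
    ptrn n (0 : T M (k + n) ⟶ T M (l + n)) = 0 := by
  induction n with
  | zero => rfl
  | succ n ih =>
    show ptrn n (ptr (0 : T M (k + n) ⊗ M ⟶ T M (l + n) ⊗ M)) = 0
    rw [ptr_zero]
    exact ih

/-- One step of the chain. -/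
theorem step {M : 𝒜} {φ : Fam M} (hφ : PA φ) {N n : ℕ} (j : Fin N) (z : QS (n + 1)) {c : ℚ}
    (hc : c ≠ 0)
    (h : ∀ (k : ℕ) (j : Fin k), ptrn n (rh φ (k + n) (emb (nw k n j) z)) = c • 𝟙 (T M k))
    (y : QS N) (hy : rh φ (N + n) (emb (nw N n j) z * emb (Fin.addNatEmb n) y) = 0) :
    rh φ N y = 0 := by
  rw [rh_mul, rh_addNat hφ] at hy
  have h1 := ptrn_wh (l := N) (rh φ N y) n (rh φ (N + n) (emb (nw N n j) z))
  rw [hy, ptrn_zero, h, Linear.comp_smul, Category.comp_id] at h1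
  rcases smul_eq_zero.1 h1.symm with h2 | h2
  · exact absurd h2 hc
  · exact h2

/-- The chain up to `t`. -/
theorem upto {M : 𝒜} {φ : Fam M} (hφ : PA φ) (m n : ℕ) : ∀ t : ℕ, t ≤ m →
    ∃ (β : Fin t → (Fin (n + 1) ↪ Fin (sz m n t))) (γ : Fin m ↪ Fin (sz m n t)),
      (Function.Injective fun p : Fin t × Fin (n + 1) => β p.1 p.2) ∧
      (∀ u : Fin m, t ≤ (u : ℕ) → ∀ s i, β s i ≠ γ u) ∧
      ∀ (z : QS (n + 1)) (c : ℚ), c ≠ 0 →
        (∀ (k : ℕ) (j : Fin k), ptrn n (rh φ (k + n) (emb (nw k n j) z)) = c • 𝟙 (T M k)) →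
        ∀ x : QS m, rh φ (sz m n t) (bp β z * emb γ x) = 0 → rh φ m x = 0
  | 0, _ => by
    refine ⟨fun s => s.elim0, Function.Embedding.refl _, fun p => p.1.elim0,
      fun u _ s => s.elim0, fun z c hc h x hx => ?_⟩
    have h1 : bp (fun s : Fin 0 => (s.elim0 : Fin (n + 1) ↪ Fin (sz m n 0))) z = 1 := by
      unfold bp
      rw [List.ofFn_zero, List.prod_nil]
    rw [h1, one_mul] at hx
    have h2 := emb_refl x
    rw [← h2]
    exact hx
  | t + 1, ht => by
    obtain ⟨β, γ, h1, h2, h3⟩ := upto hφ m n t (by omega)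
    obtain ⟨u, hu⟩ : ∃ u : Fin m, (u : ℕ) = t := ⟨⟨t, by omega⟩, rfl⟩
    have hnw : ∀ i : Fin (n + 1), ((nw (sz m n t) n (γ u) i : Fin (sz m n t + n)) : ℕ) < n ∨
        ((nw (sz m n t) n (γ u) i : Fin (sz m n t + n)) : ℕ) = γ u + n := by
      intro i
      show ((if h : (i : ℕ) < n then (⟨i, by omega⟩ : Fin (sz m n t + n)) else
        ⟨γ u + n, by omega⟩ : Fin (sz m n t + n)) : ℕ) < n ∨
        ((if h : (i : ℕ) < n then (⟨i, by omega⟩ : Fin (sz m n t + n)) else
        ⟨γ u + n, by omega⟩ : Fin (sz m n t + n)) : ℕ) = γ u + n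
      split_ifs with h
      · exact Or.inl h
      · exact Or.inr rfl
    have hadd : ∀ j : Fin (sz m n t), ((Fin.addNatEmb n j : Fin (sz m n t + n)) : ℕ) = j + n :=
      fun j => rfl
    have hne : ∀ i s l, (nw (sz m n t) n (γ u) i : Fin (sz m n t + n)) ≠
        Fin.addNatEmb n (β s l) := by
      intro i s l h
      have h4 := congrArg Fin.val h
      rw [hadd] at h4
      rcases hnw i with h5 | h5
      · omega
      · exact h2 u hu.ge s l (Fin.ext (by omega))
    refine ⟨(Fin.cons (nw (sz m n t) n (γ u)) fun s => (β s).trans (Fin.addNatEmb n) :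
      Fin (t + 1) → (Fin (n + 1) ↪ Fin (sz m n t + n))), γ.trans (Fin.addNatEmb n),
      ?_, ?_, ?_⟩
    · rintro ⟨s, i⟩ ⟨s', i'⟩ h
      rcases Fin.eq_zero_or_eq_succ s with rfl | ⟨s, rfl⟩ <;>
        rcases Fin.eq_zero_or_eq_succ s' with rfl | ⟨s', rfl⟩
      · have h4 : nw (sz m n t) n (γ u) i = nw (sz m n t) n (γ u) i' := h
        rw [(nw (sz m n t) n (γ u)).injective h4]
      · exact absurd h (hne i s' i')
      · exact absurd h.symm (hne i' s i)
      · have h4 : Fin.addNatEmb n (β s i) = Fin.addNatEmb n (β s' i') := h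
        have h5 : (s, i) = (s', i') := h1 ((Fin.addNatEmb n).injective h4)
        rw [(Prod.mk.inj h5).1, (Prod.mk.inj h5).2]
    · intro v hv s i
      rcases Fin.eq_zero_or_eq_succ s with rfl | ⟨s, rfl⟩
      · intro h
        have h4 : ((nw (sz m n t) n (γ u) i : Fin (sz m n t + n)) : ℕ) = γ v + n :=
          congrArg Fin.val h
        rcases hnw i with h5 | h5
        · omega
        · have h6 : γ u = γ v := Fin.ext (by omega)
          have h7 := γ.injective h6
          rw [← h7] at hv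
          omega
      · intro h
        have h4 : Fin.addNatEmb n (β s i) = Fin.addNatEmb n (γ v) := h
        exact h2 v (by omega) s i ((Fin.addNatEmb n).injective h4)
    · intro z c hc h x hx
      refine h3 z c hc h x (step hφ (γ u) z hc h _ ?_)
      rw [map_mul, ← emb_bp, ← emb_trans, ← mul_assoc, ← bp_cons]
      exact hx

theorem sz_eq (m n t : ℕ) : sz m n t = m + n * t := by
  induction t with
  | zero => rfl
  | succ t ih =>
    show sz m n t + n = _
    rw [ih]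
    ring

end cat

end CH

section cat

variable {𝒜 : Type u} [Category.{v} 𝒜] [MonoidalCategory 𝒜] [SymmetricCategory 𝒜]
variable [Preadditive 𝒜] [MonoidalPreadditive 𝒜] [Linear ℚ 𝒜] [MonoidalLinear ℚ 𝒜]
variable [hdual : ∀ X : 𝒜, HasRightDual X]

/-- CHAIN -/
theorem chain {M : 𝒜} {φ : Fam M} (hφ : PA φ) (m n : ℕ) :
    ∃ (β : Fin m → (Fin (n + 1) ↪ Fin (sz m n m))) (γ : Fin m ↪ Fin (sz m n m)),
      (Function.Bijective fun p : Fin m × Fin (n + 1) => β p.1 p.2) ∧
      ∀ (z : QS (n + 1)) (c : ℚ), c ≠ 0 →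
        (∀ (k : ℕ) (j : Fin k), ptrn n (rh φ (k + n) (emb (nw k n j) z)) = c • 𝟙 (T M k)) →
        ∀ x : QS m, rh φ (sz m n m) (bp β z * emb γ x) = 0 → rh φ m x = 0 := by
  obtain ⟨β, γ, h1, -, h3⟩ := CH.upto hφ m n m le_rfl
  refine ⟨β, γ, ?_, h3⟩
  rw [Fintype.bijective_iff_injective_and_card]
  refine ⟨h1, ?_⟩
  rw [Fintype.card_prod, Fintype.card_fin, Fintype.card_fin, Fintype.card_fin, CH.sz_eq]
  ring

end cat

end Pool.Agent.Helper96.SP
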