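import Pool.Agent.Helper96.SP.Defs2
import Pool.Agent.Helper96.SP.PCHAIN

/-!
# The chain of partial traces with insertions (package CHAINS)
-/

set_option autoImplicit false

open CategoryTheory MonoidalCategory Limits BraidedCategory

universe u v w

namespace Pool.Agent.Helper96.SP

open Pool.Agent.TH90.AB Pool.Agent.TH90.Kim Pool.Agent.Helper96.Kim

set_option linter.unusedSectionVars false

namespace CHS

section cat

variable {𝒜 : Type u} [Category.{v} 𝒜] [MonoidalCategory 𝒜] [SymmetricCategory 𝒜]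

theorem ins_zero {M : 𝒜} (f : M ⟶ M) (n : ℕ) : ins f (n + 1) 0 = T M n ◁ f := rfl

theorem ins_succ {M : 𝒜} (f : M ⟶ M) (n : ℕ) (j : Fin n) :
    ins f (n + 1) j.succ = ins f n j ▷ M := rfl

theorem wh_comp {M : 𝒜} {k l p : ℕ} (f : T M k ⟶ T M l) (g : T M l ⟶ T M p) (n : ℕ) :
    wh (f ≫ g) n = wh f n ≫ wh g n := by
  induction n with
  | zero => rfl
  | succ n ih =>
    show wh (f ≫ g) n ▷ M = wh f n ▷ M ≫ wh g n ▷ M
    rw [ih, comp_whiskerRight]

theorem ins_wh {M : 𝒜} (f : M ⟶ M) (k n : ℕ) (j : Fin k) :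
    wh (ins f k j) n = ins f (k + n) (Fin.addNatEmb n j) := by
  induction n with
  | zero => rfl
  | succ n ih =>
    show wh (ins f k j) n ▷ M = ins f (k + n + 1) (Fin.addNatEmb n j).succ
    rw [ih, ins_succ]

theorem snew_wh {M : 𝒜} (s : M ⟶ M) {k : ℕ} (a : T M k ⟶ T M k) (n : ℕ) :
    wh a n ≫ snew s k n = snew s k n ≫ wh a n := by
  induction n with
  | zero => exact (Category.comp_id _).trans (Category.id_comp _).symm
  | succ n ih =>
    show wh a n ▷ M ≫ snew s k n ▷ M ≫ T M (k + n) ◁ s =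
      (snew s k n ▷ M ≫ T M (k + n) ◁ s) ≫ wh a n ▷ M
    rw [← comp_whiskerRight_assoc, ih, comp_whiskerRight_assoc, Category.assoc,
      whisker_exchange]

theorem sw_zero {M : 𝒜} (X : 𝒜) (f : M ⟶ M) :
    (X ⊗ M) ◁ f ≫ sw X M = sw X M ≫ (X ◁ f) ▷ M := by
  simp only [sw, Category.assoc]
  rw [associator_naturality_right_assoc, ← MonoidalCategory.whiskerLeft_comp_assoc,
    braiding_naturality_right, MonoidalCategory.whiskerLeft_comp_assoc,
    associator_inv_naturality_middle]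

theorem sw_one {M : 𝒜} (X : 𝒜) (f : M ⟶ M) :
    (X ◁ f) ▷ M ≫ sw X M = sw X M ≫ (X ⊗ M) ◁ f := by
  simp only [sw, Category.assoc]
  rw [associator_naturality_middle_assoc, ← MonoidalCategory.whiskerLeft_comp_assoc,
    braiding_naturality_left, MonoidalCategory.whiskerLeft_comp_assoc,
    associator_inv_naturality_right]

theorem ins_perm {M : 𝒜} {φ : Fam M} (hφ : PA φ) (f : M ⟶ M) (n : ℕ) (g : Equiv.Perm (Fin n))
    (j : Fin n) : ins f n j ≫ (φ n g : T M n ⟶ T M n) =
      (φ n g : T M n ⟶ T M n) ≫ ins f n (g j) := by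
  revert n g j
  intro n g
  refine perm_ind (P := fun n g => ∀ j : Fin n, ins f n j ≫ (φ n g : T M n ⟶ T M n) =
      (φ n g : T M n ⟶ T M n) ≫ ins f n (g j)) ?_ ?_ ?_ ?_ n g
  · intro n j
    rw [map_one]
    exact (Category.comp_id _).trans (Category.id_comp _).symm
  · intro n g h hg hh j
    rw [map_mul]
    show ins f n j ≫ (φ n h : T M n ⟶ T M n) ≫ (φ n g : T M n ⟶ T M n) =
      ((φ n h : T M n ⟶ T M n) ≫ (φ n g : T M n ⟶ T M n)) ≫ ins f n (g (h j))
    rw [← Category.assoc, hh, Category.assoc, hg, Category.assoc]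
  · intro n g hg j
    rw [hφ.up]
    rcases Fin.eq_zero_or_eq_succ j with rfl | ⟨i, rfl⟩
    · rw [up_zero]
      exact whisker_exchange _ _
    · rw [up_succ, ins_succ, ins_succ]
      show ins f n i ▷ M ≫ (φ n g : T M n ⟶ T M n) ▷ M = (φ n g : T M n ⟶ T M n) ▷ M ≫ _
      rw [← comp_whiskerRight, hg, comp_whiskerRight]
  · intro n j
    rw [hφ.swap]
    rcases Fin.eq_zero_or_eq_succ j with rfl | ⟨i, rfl⟩
    · rw [Equiv.swap_apply_left]
      exact sw_zero (T M n) f
    · rcases Fin.eq_zero_or_eq_succ i with rfl | ⟨i, rfl⟩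
      · have h1 : (Fin.succ 0 : Fin (n + 2)) = 1 := rfl
        rw [h1, Equiv.swap_apply_right]
        exact sw_one (T M n) f
      · have h1 : Equiv.swap (0 : Fin (n + 2)) 1 i.succ.succ = i.succ.succ :=
          Equiv.swap_apply_of_ne_of_ne (Fin.succ_ne_zero _)
            (fun h => Fin.succ_ne_zero i (Fin.succ_injective _ h))
        rw [h1]
        exact sw_natural (ins f n i)

variable [Preadditive 𝒜] [MonoidalPreadditive 𝒜] [Linear ℚ 𝒜] [MonoidalLinear ℚ 𝒜]

theorem ins_emb {M : 𝒜} {φ : Fam M} (hφ : PA φ) {a b : ℕ} (β : Fin a ↪ Fin b) (x : QS a)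
    (l : Fin b) (hl : l ∉ Set.range β) (f : M ⟶ M) :
    ins f b l ≫ rh φ b (emb β x) = rh φ b (emb β x) ≫ ins f b l := by
  induction x using MonoidAlgebra.induction_linear with
  | zero => rw [map_zero, CH.rh_zero, comp_zero, zero_comp]
  | add x y hx hy =>
    rw [map_add, CH.rh_add, Preadditive.comp_add, Preadditive.add_comp, hx, hy]
  | single g q =>
    have h1 : emb β (MonoidAlgebra.single g q) =
        MonoidAlgebra.single (Equiv.Perm.viaEmbeddingHom β g) q :=
      MonoidAlgebra.mapDomain_single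
    rw [h1, CH.rh_single, Linear.comp_smul, Linear.smul_comp, ins_perm hφ,
      via_apply_of_notMem _ _ hl]

theorem wh_smul {M : 𝒜} {k l : ℕ} (c : ℚ) (f : T M k ⟶ T M l) (n : ℕ) :
    wh (c • f) n = c • wh f n := by
  induction n with
  | zero => rfl
  | succ n ih =>
    show wh (c • f) n ▷ M = c • (wh f n ▷ M)
    rw [ih, MonoidalLinear.smul_whiskerRight]

theorem rh_one {M : 𝒜} (φ : Fam M) (n : ℕ) : rh φ n 1 = 𝟙 _ := map_one (rho φ n)

/-- The product of the stages. -/
noncomputable def Y {M : 𝒜} (φ : Fam M) (s : M ⟶ M) (m n t : ℕ) (a : T M m ⟶ T M m)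
    (x : QS (sz m n t)) : T M (sz m n t) ⟶ T M (sz m n t) :=
  whs m n a t ≫ Sall s m n t ≫ rh φ (sz m n t) x

theorem Y_succ {M : 𝒜} {φ : Fam M} (hφ : PA φ) (s : M ⟶ M) (m n t : ℕ) (a : T M m ⟶ T M m)
    (z : QS (n + 1)) (j : Fin (sz m n t)) (x : QS (sz m n t)) :
    Y φ s m n (t + 1) a (emb (nw (sz m n t) n j) z * emb (Fin.addNatEmb n) x) =
      wh (Y φ s m n t a x) n ≫ snew s (sz m n t) n ≫
        rh φ (sz m n t + n) (emb (nw (sz m n t) n j) z) := by
  show wh (whs m n a t) n ≫ (wh (Sall s m n t) n ≫ snew s (sz m n t) n) ≫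
    rh φ (sz m n t + n) (emb (nw (sz m n t) n j) z * emb (Fin.addNatEmb n) x) = _
  rw [CH.rh_mul, CH.rh_addNat hφ, Y, wh_comp, wh_comp]
  simp only [Category.assoc]
  rw [← reassoc_of% (snew_wh s (rh φ (sz m n t) x) n)]

variable [hdual : ∀ X : 𝒜, HasRightDual X]

/-- The chain up to `t`. -/
theorem upto {M : 𝒜} {φ : Fam M} (hφ : PA φ) (m n : ℕ) : ∀ t : ℕ, t ≤ m →
    ∃ (β : Fin t → (Fin (n + 1) ↪ Fin (sz m n t))) (γ : Fin m ↪ Fin (sz m n t)),
      (Function.Injective fun p : Fin t × Fin (n + 1) => β p.1 p.2) ∧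
      (∀ u : Fin m, t ≤ (u : ℕ) → ∀ s i, β s i ≠ γ u) ∧
      (∀ (s : M ⟶ M) (z : QS (n + 1)) (δ : ℚ) (a : T M m ⟶ T M m),
        (∀ j, a ≫ ins s m j = δ • a) → ∀ u : Fin m, t ≤ (u : ℕ) →
          Y φ s m n t a (bp β z) ≫ ins s (sz m n t) (γ u) = δ • Y φ s m n t a (bp β z)) ∧
      ∀ (s : M ⟶ M) (z : QS (n + 1)) (α α' δ : ℚ), α + δ * α' ≠ 0 →
        (∀ (k : ℕ) (j : Fin k), ptrn n (snew s k n ≫ rh φ (k + n) (emb (nw k n j) z)) =
          α • 𝟙 (T M k) + α' • ins s k j) →
        ∀ a : T M m ⟶ T M m, (∀ j, a ≫ ins s m j = δ • a) →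
          Y φ s m n t a (bp β z) = 0 → a = 0
  | 0, _ => by
    have h1 : ∀ z : QS (n + 1),
        bp (fun s : Fin 0 => (s.elim0 : Fin (n + 1) ↪ Fin (sz m n 0))) z = 1 := by
      intro z
      unfold bp
      rw [List.ofFn_zero, List.prod_nil]
    have h2 : ∀ (s : M ⟶ M) (a : T M m ⟶ T M m), Y φ s m n 0 a 1 = a := by
      intro s a
      show a ≫ 𝟙 _ ≫ rh φ m 1 = a
      rw [rh_one, Category.comp_id]
      exact Category.comp_id a
    refine ⟨fun s => s.elim0, Function.Embedding.refl _, fun p => p.1.elim0,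
      fun u _ s => s.elim0, fun s z δ a ha u _ => ?_, fun s z α α' δ _ _ a _ h => ?_⟩
    · rw [h1, h2]
      exact ha u
    · rw [h1, h2] at h
      exact h
  | t + 1, ht => by
    obtain ⟨β, γ, h1, h2, h3, h4⟩ := upto hφ m n t (by omega)
    obtain ⟨u, hu⟩ : ∃ u : Fin m, (u : ℕ) = t := ⟨⟨t, by omega⟩, rfl⟩
    have hnw : ∀ i : Fin (n + 1), ((nw (sz m n t) n (γ u) i : Fin (sz m n t + n)) : ℕ) < n ∨
        ((nw (sz m n t) n (γ u) i : Fin (sz m n t + n)) : ℕ) = γ u + n := by
      intro i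
      show ((if h : (i : ℕ) < n then (⟨i, by omega⟩ : Fin (sz m n t + n)) else
        ⟨γ u + n, by omega⟩ : Fin (sz m n t + n)) : ℕ) < n ∨
        ((if h : (i : ℕ) < n then (⟨i, by omega⟩ : Fin (sz m n t + n)) else
        ⟨γ u + n, by omega⟩ : Fin (sz m n t + n)) : ℕ) = γ u + n
      split_ifs with h
      · exact Or.inl h
      · exact Or.inr rfl
    have hadd : ∀ j : Fin (sz m n t), ((Fin.addNatEmb n j : Fin (sz m n t + n)) : ℕ) = j + n :=
      fun j => rfl
    have hne : ∀ i s l, (nw (sz m n t) n (γ u) i : Fin (sz m n t + n)) ≠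
        Fin.addNatEmb n (β s l) := by
      intro i s l h
      have h5 := congrArg Fin.val h
      rw [hadd] at h5
      rcases hnw i with h6 | h6
      · omega
      · exact h2 u hu.ge s l (Fin.ext (by omega))
    have hbp : ∀ z : QS (n + 1), bp (Fin.cons (nw (sz m n t) n (γ u))
        (fun s => (β s).trans (Fin.addNatEmb n)) :
          Fin (t + 1) → (Fin (n + 1) ↪ Fin (sz m n t + n))) z =
        emb (nw (sz m n t) n (γ u)) z * emb (Fin.addNatEmb n) (bp β z) := by
      intro z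
      rw [CH.bp_cons, CH.emb_bp]
    have hYs : ∀ (s : M ⟶ M) (z : QS (n + 1)) (a : T M m ⟶ T M m),
        Y φ s m n (t + 1) a (bp (Fin.cons (nw (sz m n t) n (γ u))
          (fun s => (β s).trans (Fin.addNatEmb n)) :
            Fin (t + 1) → (Fin (n + 1) ↪ Fin (sz m n t + n))) z) =
        wh (Y φ s m n t a (bp β z)) n ≫ snew s (sz m n t) n ≫
          rh φ (sz m n t + n) (emb (nw (sz m n t) n (γ u)) z) := fun s z a =>
      (congrArg (Y φ s m n (t + 1) a) (hbp z)).trans (Y_succ hφ s m n t a z (γ u) (bp β z))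
    refine ⟨(Fin.cons (nw (sz m n t) n (γ u)) fun s => (β s).trans (Fin.addNatEmb n) :
      Fin (t + 1) → (Fin (n + 1) ↪ Fin (sz m n t + n))), γ.trans (Fin.addNatEmb n),
      ?_, ?_, ?_, ?_⟩
    · rintro ⟨s, i⟩ ⟨s', i'⟩ h
      rcases Fin.eq_zero_or_eq_succ s with rfl | ⟨s, rfl⟩ <;>
        rcases Fin.eq_zero_or_eq_succ s' with rfl | ⟨s', rfl⟩
      · have h4 : nw (sz m n t) n (γ u) i = nw (sz m n t) n (γ u) i' := h
        rw [(nw (sz m n t) n (γ u)).injective h4]
      · exact absurd h (hne i s' i')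
      · exact absurd h.symm (hne i' s i)
      · have h4 : Fin.addNatEmb n (β s i) = Fin.addNatEmb n (β s' i') := h
        have h5 : (s, i) = (s', i') := h1 ((Fin.addNatEmb n).injective h4)
        rw [(Prod.mk.inj h5).1, (Prod.mk.inj h5).2]
    · intro v hv s i
      rcases Fin.eq_zero_or_eq_succ s with rfl | ⟨s, rfl⟩
      · intro h
        have h4 : ((nw (sz m n t) n (γ u) i : Fin (sz m n t + n)) : ℕ) = γ v + n :=
          congrArg Fin.val h
        rcases hnw i with h5 | h5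
        · omega
        · have h6 : γ u = γ v := Fin.ext (by omega)
          have h7 := γ.injective h6
          rw [← h7] at hv
          omega
      · intro h
        have h4 : Fin.addNatEmb n (β s i) = Fin.addNatEmb n (γ v) := h
        exact h2 v (by omega) s i ((Fin.addNatEmb n).injective h4)
    · intro s z δ a ha v hv
      have h5 : (Fin.addNatEmb n (γ v) : Fin (sz m n t + n)) ∉
          Set.range (nw (sz m n t) n (γ u)) := by
        rintro ⟨i, hi⟩
        have h6 := congrArg Fin.val hi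
        rw [hadd] at h6
        rcases hnw i with h7 | h7
        · omega
        · have h8 : γ u = γ v := Fin.ext (by omega)
          have h9 := γ.injective h8
          rw [← h9] at hv
          omega
      have h6 := h3 s z δ a ha v (by omega)
      have h7 : (wh (Y φ s m n t a (bp β z)) n ≫ snew s (sz m n t) n ≫
        rh φ (sz m n t + n) (emb (nw (sz m n t) n (γ u)) z)) ≫
          ins s (sz m n t + n) (Fin.addNatEmb n (γ v)) =
          δ • (wh (Y φ s m n t a (bp β z)) n ≫ snew s (sz m n t) n ≫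
            rh φ (sz m n t + n) (emb (nw (sz m n t) n (γ u)) z)) := by
        simp only [Category.assoc]
        rw [← ins_emb hφ _ _ _ h5, ← ins_wh,
          ← reassoc_of% (snew_wh s (ins s (sz m n t) (γ v)) n),
          ← reassoc_of% (wh_comp (Y φ s m n t a (bp β z)) (ins s (sz m n t) (γ v)) n), h6,
          wh_smul, Linear.smul_comp]
      have h8 := hYs s z a
      exact (congrArg (fun y => y ≫ ins s (sz m n t + n) (Fin.addNatEmb n (γ v))) h8).trans
        (h7.trans (congrArg (fun y => δ • y) h8.symm))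
    · intro s z α α' δ hne h a ha hY
      refine h4 s z α α' δ hne h a ha ?_
      replace hY : wh (Y φ s m n t a (bp β z)) n ≫ snew s (sz m n t) n ≫
          rh φ (sz m n t + n) (emb (nw (sz m n t) n (γ u)) z) = 0 := (hYs s z a).symm.trans hY
      have h5 := CH.ptrn_wh (l := sz m n t) (Y φ s m n t a (bp β z)) n
        (snew s (sz m n t) n ≫ rh φ (sz m n t + n) (emb (nw (sz m n t) n (γ u)) z))
      rw [hY, CH.ptrn_zero, h, Preadditive.comp_add, Linear.comp_smul, Linear.comp_smul,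
        Category.comp_id, h3 s z δ a ha u hu.ge, smul_smul, ← add_smul] at h5
      rcases smul_eq_zero.1 h5.symm with h6 | h6
      · refine absurd ?_ hne
        rw [← h6]
        ring
      · exact h6

end cat

end CHS

section cat

variable {𝒜 : Type u} [Category.{v} 𝒜] [MonoidalCategory 𝒜] [SymmetricCategory 𝒜]
variable [Preadditive 𝒜] [MonoidalPreadditive 𝒜] [Linear ℚ 𝒜] [MonoidalLinear ℚ 𝒜]
variable [hdual : ∀ X : 𝒜, HasRightDual X]

/-- CHAINS -/
theorem chains {M : 𝒜} {φ : Fam M} (hφ : PA φ) (m n : ℕ) :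
    ∃ β : Fin m → (Fin (n + 1) ↪ Fin (sz m n m)),
      (Function.Bijective fun p : Fin m × Fin (n + 1) => β p.1 p.2) ∧
      ∀ (s : M ⟶ M) (z : QS (n + 1)) (α α' δ : ℚ), α + δ * α' ≠ 0 →
        (∀ (k : ℕ) (j : Fin k), ptrn n (snew s k n ≫ rh φ (k + n) (emb (nw k n j) z)) =
          α • 𝟙 (T M k) + α' • ins s k j) →
        ∀ a : T M m ⟶ T M m, (∀ j, a ≫ ins s m j = δ • a) →
          whs m n a m ≫ Sall s m n m ≫ rh φ (sz m n m) (bp β z) = 0 → a = 0 := by
  obtain ⟨β, γ, h1, -, -, h4⟩ := CHS.upto (M := M) hφ m n m le_rfl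
  refine ⟨β, ?_, fun s z α α' δ hne h a ha hY => h4 s z α α' δ hne h a ha hY⟩
  rw [Fintype.bijective_iff_injective_and_card]
  refine ⟨h1, ?_⟩
  rw [Fintype.card_prod, Fintype.card_fin, Fintype.card_fin, Fintype.card_fin, CH.sz_eq]
  ring

end cat

end Pool.Agent.Helper96.SP
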