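import Pool.Agent.Helper96.SP.Defs3
import Mathlib.Algebra.Field.Subfield.Basic

/-!
# The Künneth standard conjecture with coefficients in a subfield
-/

open CategoryTheory MonoidalCategory Limits BraidedCategory

universe u v w

namespace Pool.Agent.Helper96.SP

open Pool.Agent.TH90.AB Pool.Agent.TH90.Kim Pool.Agent.Helper96.Kim

noncomputable section

variable {𝒜 : Type u} [Category.{v} 𝒜] [MonoidalCategory 𝒜] [SymmetricCategory 𝒜]
  [Preadditive 𝒜] [MonoidalPreadditive 𝒜] [Linear ℚ 𝒜] [MonoidalLinear ℚ 𝒜]
  {K : Type w} [Field K] [CharZero K]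

/-- The algebraic operators on the realisation of `M` with coefficients in the subfield `L` of `K`:
the `L`-span of the operators given by the endomorphisms of `M`. -/
def AlgOpL (L : Subfield K) (F : Realisation 𝒜 K) (M : 𝒜) : Submodule L (F.V M →ₗ[K] F.V M) :=
  Submodule.span L (Set.range fun f : M ⟶ M => F.map f)

/-- The Künneth standard conjecture for `M` with coefficients in `L`: the projectors onto the
cohomology groups of `M` are `L`-linear combinations of operators given by endomorphisms of `M`. -/
def KunnethL (L : Subfield K) {F : Realisation 𝒜 K} (G : Grading F) (M : 𝒜) : Prop :=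
  ∀ k : ℤ, ∃ p ∈ AlgOpL L F M, (∀ x ∈ G.gr M k, p x = x) ∧ ∀ l, l ≠ k → ∀ x ∈ G.gr M l, p x = 0

end

end Pool.Agent.Helper96.SP
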