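import Pool.Agent.Helper96.SP.Defs4
import Pool.Agent.Helper96.SP.RKLA

/-!
# Board SP4, package SKLA (helper23): algebraic operators with coefficients in a subfield
-/

open CategoryTheory MonoidalCategory Limits BraidedCategory

universe u v w

namespace Pool.Agent.Helper96.SP

open Pool.Agent.TH90.AB Pool.Agent.TH90.Kim Pool.Agent.Helper96.Kim

set_option linter.unusedSectionVars false

variable {𝒜 : Type u} [Category.{v} 𝒜] [MonoidalCategory 𝒜] [SymmetricCategory 𝒜]
  [Preadditive 𝒜] [MonoidalPreadditive 𝒜] [Linear ℚ 𝒜] [MonoidalLinear ℚ 𝒜]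
  {K : Type w} [Field K] [CharZero K] {F : Realisation 𝒜 K}

theorem algL_rat (L : Subfield K) {M : 𝒜} (c : ℚ) {p : F.V M →ₗ[K] F.V M}
    (hp : p ∈ AlgOpL L F M) : (c : K) • p ∈ AlgOpL L F M :=
  Submodule.smul_mem (AlgOpL L F M) (⟨(c : K), SubfieldClass.ratCast_mem L c⟩ : L) hp

theorem algL_id (L : Subfield K) (M : 𝒜) :
    (LinearMap.id : F.V M →ₗ[K] F.V M) ∈ AlgOpL L F M := by
  have e : (LinearMap.id : F.V M →ₗ[K] F.V M) = F.map (𝟙 M) :=
    LinearMap.ext fun x => (F.map_id M x).symm
  rw [e]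
  exact Submodule.subset_span ⟨𝟙 M, rfl⟩

theorem algL_comp (L : Subfield K) {M : 𝒜} {p q : F.V M →ₗ[K] F.V M} (hp : p ∈ AlgOpL L F M)
    (hq : q ∈ AlgOpL L F M) : p ∘ₗ q ∈ AlgOpL L F M := by
  unfold AlgOpL at hp hq ⊢
  induction hp using Submodule.span_induction with
  | mem x hx =>
    obtain ⟨f, rfl⟩ := hx
    induction hq using Submodule.span_induction with
    | mem y hy =>
      obtain ⟨f', rfl⟩ := hy
      have e : F.map f ∘ₗ F.map f' = F.map (f' ≫ f) :=
        LinearMap.ext fun x => (F.map_comp f' f x).symm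
      rw [e]
      exact Submodule.subset_span ⟨f' ≫ f, rfl⟩
    | zero => rw [LinearMap.comp_zero]; exact Submodule.zero_mem _
    | add y z _ _ h1 h2 => rw [LinearMap.comp_add]; exact Submodule.add_mem _ h1 h2
    | smul a y _ h1 =>
      have e : F.map f ∘ₗ (a • y) = a • (F.map f ∘ₗ y) :=
        LinearMap.ext fun x => (F.map f).map_smul (a : K) (y x)
      rw [e]; exact Submodule.smul_mem _ a h1
  | zero => rw [LinearMap.zero_comp]; exact Submodule.zero_mem _
  | add y z _ _ h1 h2 => rw [LinearMap.add_comp]; exact Submodule.add_mem _ h1 h2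
  | smul a y _ h1 =>
    have e : (a • y) ∘ₗ q = a • (y ∘ₗ q) := LinearMap.ext fun x => rfl
    rw [e]; exact Submodule.smul_mem _ a h1

theorem algL_pow (L : Subfield K) {M : 𝒜} {U : Module.End K (F.V M)} (hU : U ∈ AlgOpL L F M)
    (n : ℕ) : U ^ n ∈ AlgOpL L F M := by
  induction n with
  | zero => rw [pow_zero]; exact algL_id L M
  | succ n ih => rw [pow_succ]; exact algL_comp L ih hU

theorem algL_aeval (L : Subfield K) {M : 𝒜} {U : Module.End K (F.V M)} (hU : U ∈ AlgOpL L F M)
    (P : Polynomial ℚ) : Polynomial.aeval U (P.map (algebraMap ℚ K)) ∈ AlgOpL L F M := by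
  induction P using Polynomial.induction_on' with
  | add p q h1 h2 => rw [Polynomial.map_add, map_add]; exact Submodule.add_mem _ h1 h2
  | monomial n a =>
    rw [Polynomial.map_monomial, Polynomial.aeval_monomial, Algebra.algebraMap_eq_smul_one,
      smul_mul_assoc, one_mul, eq_ratCast]
    exact algL_rat L a (algL_pow L hU n)

theorem klaL (L : Subfield K) (G : Grading F) {M : 𝒜} {d : ℕ} (b : Module.Basis (Fin d) K (F.V M))
    (g : Fin d → ℤ) (hb : ∀ i, b i ∈ G.gr M (g i)) (U : F.V M →ₗ[K] F.V M)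
    (hU : U ∈ AlgOpL L F M) (μ : Fin d → ℚ) (hμ : ∀ i, U (b i) = (μ i : K) • b i)
    (hne : ∀ i j, g i ≠ g j → μ i ≠ μ j) : KunnethL L G M := by
  classical
  intro k
  let r : ℚ → ℚ := fun t => if ∃ j, μ j = t ∧ g j = k then 1 else 0
  let P : Polynomial ℚ := Lagrange.interpolate (Finset.univ.image μ) id r
  have hP : ∀ i, P.eval (μ i) = if g i = k then 1 else 0 := by
    intro i
    have h1 : P.eval (id (μ i)) = r (μ i) :=
      Lagrange.eval_interpolate_at_node r (Set.injOn_id _)
        (Finset.mem_image_of_mem μ (Finset.mem_univ i))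
    simp only [id] at h1
    rw [h1]
    by_cases h : g i = k
    · rw [if_pos h]
      exact if_pos ⟨i, rfl, h⟩
    · rw [if_neg h]
      refine if_neg ?_
      rintro ⟨j, hj1, hj2⟩
      exact hne j i (fun e => h (e ▸ hj2)) hj1
  have hPK : ∀ i, (P.map (algebraMap ℚ K)).eval (μ i : K) = if g i = k then 1 else 0 := by
    intro i
    rw [← eq_ratCast (algebraMap ℚ K) (μ i), Polynomial.eval_map, Polynomial.eval₂_at_apply, hP i]
    split_ifs
    · exact map_one _
    · exact map_zero _
  let U' : Module.End K (F.V M) := U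
  let p : Module.End K (F.V M) := Polynomial.aeval U' (P.map (algebraMap ℚ K))
  have hp : ∀ i, p (b i) = (if g i = k then (1 : K) else 0) • b i := by
    intro i
    have he : Module.End.HasEigenvector U' (μ i : K) (b i) :=
      ⟨Module.End.mem_eigenspace_iff.2 (hμ i), b.ne_zero i⟩
    have := Module.End.aeval_apply_of_hasEigenvector (p := P.map (algebraMap ℚ K)) he
    rw [hPK i] at this
    exact this
  have hpx : ∀ l, ∀ x ∈ G.gr M l, p x = (if l = k then (1 : K) else 0) • x := by
    intro l x hx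
    have hx1 := hb_expand G b g hb l x hx
    rw [hx1, map_sum, Finset.smul_sum]
    refine Finset.sum_congr rfl fun i hi => ?_
    rw [map_smul, hp i, (Finset.mem_filter.1 hi).2, smul_comm]
  refine ⟨p, algL_aeval L hU P, fun x hx => ?_, fun l hl x hx => ?_⟩
  · have := hpx k x hx
    rw [if_pos rfl, one_smul] at this
    exact this
  · have := hpx l x hx
    rw [if_neg hl, zero_smul] at this
    exact this

theorem thetaL_mem (L : Subfield K) (G : Grading F) {X : 𝒜} (h : KunnethL L G X) (c : ℤ → ℚ) :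
    ∃ Θ ∈ AlgOpL L F X, ∀ k, ∀ x ∈ G.gr X k, Θ x = (c k : K) • x := by
  classical
  obtain ⟨d, b, g, hb⟩ := exists_hb G X
  choose p hp1 hp2 hp3 using h
  refine ⟨∑ k ∈ Finset.univ.image g, (c k : K) • p k,
    Submodule.sum_mem _ fun k _ => algL_rat L (c k) (hp1 k), fun l x hx => ?_⟩
  rw [LinearMap.sum_apply]
  by_cases hl : l ∈ Finset.univ.image g
  · rw [Finset.sum_eq_single l]
    · rw [LinearMap.smul_apply, hp2 l x hx]
    · intro k _ hk
      rw [LinearMap.smul_apply, hp3 k l (Ne.symm hk) x hx, smul_zero]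
    · intro h'; exact absurd hl h'
  · have hx0 : x = 0 := by
      rw [hb_expand G b g hb l x hx]
      refine Finset.sum_eq_zero fun i hi => ?_
      exact absurd (Finset.mem_image.2 ⟨i, Finset.mem_univ i, (Finset.mem_filter.1 hi).2⟩) hl
    subst hx0
    simp

end Pool.Agent.Helper96.SP
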