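import Pool.Agent.Helper96.SP.RUDIAG
import Pool.Agent.Helper96.SP.Defs4
import Pool.Agent.Helper96.SP.SKLA

/-!
# Package UDIAG with coefficients in a subfield
-/

open CategoryTheory MonoidalCategory Limits BraidedCategory

universe u v w

namespace Pool.Agent.Helper96.SP

open Pool.Agent.TH90.AB Pool.Agent.TH90.Kim Pool.Agent.Helper96.Kim

set_option linter.unusedSectionVars false
set_option linter.unusedVariables false

theorem udiagL {𝒜 : Type u} [Category.{v} 𝒜] [MonoidalCategory 𝒜] [SymmetricCategory 𝒜]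
    [Preadditive 𝒜] [MonoidalPreadditive 𝒜] [Linear ℚ 𝒜] [MonoidalLinear ℚ 𝒜]
    {K : Type w} [Field K] [CharZero K] {F : Realisation 𝒜 K}
    [hdual : ∀ X : 𝒜, HasRightDual X] (L : Subfield K) (G : Grading F) {M D : 𝒜} {φ : Fam M}
    (hφ : PA φ) {n : ℕ} {e : QS (n + 1)} (i : D ⟶ T M (n + 1)) (r : T M (n + 1) ⟶ D)
    (hir : i ≫ r = 𝟙 D) (hri : r ≫ i = rh φ (n + 1) e) (hD : KunnethL L G D) {d : ℕ}
    (b : Module.Basis (Fin d) K (F.V M)) (g : Fin d → ℤ) (hb : ∀ i, b i ∈ G.gr M (g i))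
    (δ : Fin d → ℚ) (hδ : ∀ i, δ i = if Even (g i) then 1 else -1)
    (B : Module.Basis (Fin (n + 1) → Fin d) K (F.V (T M (n + 1))))
    (hB : ∀ w, B w = wd F (n + 1) fun j => b (w j)) (q : (Fin (n + 1) → Fin d) → ℚ)
    (hq : ∀ (h : Equiv.Perm (Fin (n + 1))) (w : Fin (n + 1) → Fin d),
        B.repr (F.map (rh φ (n + 1) (MonoidAlgebra.single h 1 * (adj e * e) *
          MonoidAlgebra.single h⁻¹ 1)) (B w)) w = (q (w ∘ h) : K)) :
    ∃ U ∈ AlgOpL L F M, ∀ i, U (b i) =
      ((δ i * (n.factorial * ∑ w, (2 : ℚ) ^ (dg g w) * q w * cnt w i) : ℚ) : K) • b i := by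
  classical
  have hδ1 : ∀ i, δ i = 1 ∨ δ i = -1 := by
    intro i
    rw [hδ]
    split_ifs
    · exact Or.inl rfl
    · exact Or.inr rfl
  have hδ2 : ∀ i, δ i = (-1) ^ (g i) := by
    intro i
    rw [hδ]
    split_ifs with h1
    · exact h1.neg_one_zpow.symm
    · exact (Int.not_even_iff_odd.1 h1).neg_one_zpow.symm
  have hpar : ∀ i, F.par M (b i) = (δ i : K) • b i := by
    intro i
    rw [hδ]
    split_ifs with h1
    · rw [G.even M _ h1 _ (hb i), Rat.cast_one, one_smul]
    · rw [G.odd M _ (Int.not_even_iff_odd.1 h1) _ (hb i), Rat.cast_neg, Rat.cast_one, neg_one_smul]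
  obtain ⟨Θ, hΘ, hΘk⟩ := thetaL_mem L G hD (fun k => (-2 : ℚ) ^ k)
  obtain ⟨C, hC1, hC2⟩ := ctr b δ hδ1 hpar n B hB
  have hmul : ∀ x y : QS (n + 1), rh φ (n + 1) (x * y) = rh φ (n + 1) y ≫ rh φ (n + 1) x :=
    fun x y => map_mul (rho φ (n + 1)) x y
  -- the operator on the tensor power
  set H : (F.V D →ₗ[K] F.V D) → (F.V (T M (n + 1)) →ₗ[K] F.V (T M (n + 1))) := fun A =>
    ∑ h : Equiv.Perm (Fin (n + 1)), F.map (rh φ (n + 1) (MonoidAlgebra.single h 1)) ∘ₗ
      F.map (rh φ (n + 1) (adj e)) ∘ₗ F.map i ∘ₗ A ∘ₗ F.map r ∘ₗ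
        F.map (rh φ (n + 1) (MonoidAlgebra.single h⁻¹ 1)) with hH
  have hHadd : ∀ A A', H (A + A') = H A + H A' := by
    intro A A'
    simp only [hH, LinearMap.comp_add, LinearMap.add_comp, Finset.sum_add_distrib]
  have hHsmul : ∀ (c : K) A, H (c • A) = c • H A := by
    intro c A
    simp only [hH, LinearMap.comp_smul, LinearMap.smul_comp, Finset.smul_sum]
  have hHzero : H 0 = 0 := by
    simp only [hH, LinearMap.comp_zero, LinearMap.zero_comp, Finset.sum_const_zero]
  have hHmap : ∀ f : D ⟶ D, H (F.map f) = F.map (∑ h : Equiv.Perm (Fin (n + 1)),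
      rh φ (n + 1) (MonoidAlgebra.single h⁻¹ 1) ≫ r ≫ f ≫ i ≫ rh φ (n + 1) (adj e) ≫
        rh φ (n + 1) (MonoidAlgebra.single h 1)) := by
    intro f
    ext x
    simp only [hH, LinearMap.sum_apply, LinearMap.comp_apply, WD.map_sum', F.map_comp]
  have hmem : ∀ A ∈ AlgOpL L F D, C (H A) ∈ AlgOpL L F M := by
    intro A hA
    unfold AlgOpL at hA
    induction hA using Submodule.span_induction with
    | mem A hA =>
      obtain ⟨f, rfl⟩ := hA
      obtain ⟨f', hf'⟩ := hC1 (∑ h : Equiv.Perm (Fin (n + 1)),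
        rh φ (n + 1) (MonoidAlgebra.single h⁻¹ 1) ≫ r ≫ f ≫ i ≫ rh φ (n + 1) (adj e) ≫
          rh φ (n + 1) (MonoidAlgebra.single h 1))
      show C (H (F.map f)) ∈ AlgOpL L F M
      rw [hHmap, hf']
      exact Submodule.subset_span ⟨f', rfl⟩
    | zero => rw [hHzero, _root_.map_zero]; exact Submodule.zero_mem _
    | add A A' _ _ h1 h2 => rw [hHadd, _root_.map_add]; exact Submodule.add_mem _ h1 h2
    | smul c A _ h1 =>
      have h2 : C (H (c • A)) = c • C (H A) := by
        have h3 : c • A = (c : K) • A := rfl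
        rw [h3, hHsmul, _root_.map_smul]
        rfl
      rw [h2]
      exact Submodule.smul_mem _ _ h1
  refine ⟨C (H Θ), hmem Θ hΘ, fun a => ?_⟩
  -- the action on words
  have hHw : ∀ w, H Θ (B w) = (((-2 : ℚ) ^ (dg g w) : ℚ) : K) •
      ∑ h : Equiv.Perm (Fin (n + 1)), F.map (rh φ (n + 1) (MonoidAlgebra.single h 1 *
        (adj e * e) * MonoidAlgebra.single h⁻¹ 1)) (B w) := by
    intro w
    have hBw : B w ∈ G.gr (T M (n + 1)) (dg g w) := by
      rw [hB]
      exact UDX.wd_mem G b g hb (n + 1) w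
    rw [Finset.smul_sum]
    simp only [hH, LinearMap.sum_apply, LinearMap.comp_apply]
    refine Finset.sum_congr rfl fun h _ => ?_
    rw [hΘk (dg g w) _ (G.map_mem r _ _ (G.map_mem _ _ _ hBw)), _root_.map_smul, _root_.map_smul,
      _root_.map_smul]
    congr 1
    rw [hmul, hmul, hmul, F.map_comp, F.map_comp, F.map_comp, ← hri, F.map_comp]
  have hcnt : ∀ (w : Fin (n + 1) → Fin d) (a' : Fin d), w (Fin.last n) = a → a' ≠ a →
      ∃ l, cnt w l ≠ cnt (Function.update w (Fin.last n) a') l := by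
    intro w a' hw ha'
    refine ⟨a, ?_⟩
    intro h1
    have h2 : (cnt w a : ℚ) = cnt (Function.update w (Fin.last n) a') a := by rw [h1]
    rw [UDX.cnt_eq_sum, UDX.cnt_eq_sum, Fin.sum_univ_castSucc, Fin.sum_univ_castSucc, hw,
      if_pos rfl, Function.update_self, if_neg ha'] at h2
    have h3 : ∀ k : Fin n, Function.update w (Fin.last n) a' k.castSucc = w k.castSucc :=
      fun k => Function.update_of_ne (Fin.castSucc_lt_last k).ne _ _
    simp only [h3] at h2
    linarith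
  rw [hC2, Finset.sum_eq_single a]
  · congr 1
    have h1 : ∀ w : Fin (n + 1) → Fin d, w (Fin.last n) = a →
        ((∏ k : Fin n, δ (w k.castSucc) : ℚ) : K) *
          B.repr (H Θ (B w)) (Function.update w (Fin.last n) a) =
        ((δ a * (2 ^ (dg g w) * ∑ h : Equiv.Perm (Fin (n + 1)), q (w ∘ h)) : ℚ) : K) := by
      intro w hw
      have h2 : Function.update w (Fin.last n) a = w := by
        rw [← hw]
        exact Function.update_eq_self _ _
      rw [h2, hHw, _root_.map_smul, map_sum, Finsupp.smul_apply, Finsupp.coe_finsetSum,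
        Finset.sum_apply, Finset.sum_congr rfl fun h _ => hq h w, smul_eq_mul, ← Rat.cast_sum,
        ← Rat.cast_mul, ← Rat.cast_mul]
      congr 1
      have h3 : (∏ k : Fin n, δ (w k.castSucc)) * δ a = (-1) ^ (dg g w) := by
        unfold dg
        rw [← hw, ← Fin.prod_univ_castSucc (fun k => δ (w k)), Finset.prod_congr rfl fun k _ =>
          hδ2 (w k)]
        exact UDX.prod_zpow _ _ (by norm_num) _
      have h4 : δ a * δ a = 1 := by
        rcases hδ1 a with h | h <;> rw [h] <;> norm_num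
      have h5 : (-2 : ℚ) ^ (dg g w) = (-1) ^ (dg g w) * 2 ^ (dg g w) := by
        rw [← mul_zpow]
        norm_num
      have h6 : ((-1 : ℚ) ^ (dg g w)) * (-1) ^ (dg g w) = 1 := by
        rw [← mul_zpow]
        norm_num
      have h7 : (∏ k : Fin n, δ (w k.castSucc)) = δ a * (-1) ^ (dg g w) := by
        rw [← h3, mul_comm, mul_assoc, h4, mul_one]
      rw [h5, h7]
      linear_combination (δ a * 2 ^ (dg g w) *
        ∑ h : Equiv.Perm (Fin (n + 1)), q (w ∘ h)) * h6
    rw [Finset.sum_congr rfl fun w hw => h1 w (Finset.mem_filter.1 hw).2, ← Rat.cast_sum,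
      ← Finset.mul_sum]
    congr 2
    rw [Finset.sum_filter]
    have h2 : ∀ w : Fin (n + 1) → Fin d, (if w (Fin.last n) = a then
        (2 : ℚ) ^ (dg g w) * ∑ h : Equiv.Perm (Fin (n + 1)), q (w ∘ h) else 0) =
        ∑ h : Equiv.Perm (Fin (n + 1)), if w (Fin.last n) = a then
          (2 : ℚ) ^ (dg g w) * q (w ∘ h) else 0 := by
      intro w
      split_ifs
      · rw [Finset.mul_sum]
      · rw [Finset.sum_const_zero]
    rw [Finset.sum_congr rfl fun w _ => h2 w, Finset.sum_comm]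
    have h3 : ∀ h : Equiv.Perm (Fin (n + 1)), ∑ w : Fin (n + 1) → Fin d,
        (if w (Fin.last n) = a then (2 : ℚ) ^ (dg g w) * q (w ∘ h) else 0) =
        ∑ w : Fin (n + 1) → Fin d, if w (h⁻¹ (Fin.last n)) = a then
          (2 : ℚ) ^ (dg g w) * q w else 0 := by
      intro h
      refine (Equiv.sum_comp (Equiv.arrowCongr h (Equiv.refl (Fin d)))
        (fun w => if w (Fin.last n) = a then (2 : ℚ) ^ (dg g w) * q (w ∘ h) else 0)).symm.trans ?_
      refine Finset.sum_congr rfl fun w _ => ?_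
      have h4 : (Equiv.arrowCongr h (Equiv.refl (Fin d))) w =
          fun k => w ((h⁻¹ : Equiv.Perm (Fin (n + 1))) k) := rfl
      have h5 : dg g (fun k => w ((h⁻¹ : Equiv.Perm (Fin (n + 1))) k)) = dg g w :=
        Equiv.sum_comp (h⁻¹ : Equiv.Perm (Fin (n + 1))) fun k => g (w k)
      have h6 : (fun k => w ((h⁻¹ : Equiv.Perm (Fin (n + 1))) k)) ∘ h = w := by
        funext k
        simp
      rw [h4, h5, h6]
    rw [Finset.sum_congr rfl fun h _ => h3 h, Finset.sum_comm, Finset.mul_sum]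
    refine Finset.sum_congr rfl fun w _ => ?_
    refine (Equiv.sum_comp (Equiv.inv (Equiv.Perm (Fin (n + 1))))
      (fun h : Equiv.Perm (Fin (n + 1)) => if w (h (Fin.last n)) = a then
        (2 : ℚ) ^ (dg g w) * q w else 0)).trans ?_
    rw [UDX.sum_perm (fun k => if w k = a then (2 : ℚ) ^ (dg g w) * q w else 0) (Fin.last n),
      UDX.cnt_eq_sum]
    congr 1
    rw [Finset.mul_sum]
    refine Finset.sum_congr rfl fun k _ => ?_
    split_ifs <;> ring
  · intro a' _ ha'
    rw [Finset.sum_eq_zero, zero_smul]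
    intro w hw
    have hw' : w (Fin.last n) = a := (Finset.mem_filter.1 hw).2
    rw [hHw, _root_.map_smul, map_sum, Finsupp.smul_apply, Finsupp.coe_finsetSum,
      Finset.sum_apply, Finset.sum_eq_zero, smul_zero, mul_zero]
    intro h _
    exact UDX.content hφ b δ hδ1 hpar (n + 1) B hB _ w _ (hcnt w a' hw' ha')
  · intro h
    exact absurd (Finset.mem_univ _) h

end Pool.Agent.Helper96.SP
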