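import Pool.Agent.Helper96.SP.Defs3
import Pool.Agent.Helper96.SP.QPOSL

/-!
# Package SEPA: odd derivations separate two letters of the same parity
-/

open CategoryTheory MonoidalCategory Limits BraidedCategory

universe u v w

namespace Pool.Agent.Helper96.SP

open Pool.Agent.TH90.AB Pool.Agent.TH90.Kim Pool.Agent.Helper96.Kim

set_option linter.unusedSectionVars false

variable {𝒜 : Type u} [Category.{v} 𝒜] [MonoidalCategory 𝒜] [SymmetricCategory 𝒜]
  [Preadditive 𝒜] [MonoidalPreadditive 𝒜] [Linear ℚ 𝒜] [MonoidalLinear ℚ 𝒜]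
  {K : Type w} [Field K] [CharZero K] {F : Realisation 𝒜 K}

namespace SepA

variable [hdual : ∀ X : 𝒜, HasRightDual X] {M : 𝒜} {ι : Type} [Fintype ι] [DecidableEq ι]

/-- **Künneth**: bilinear maps extend to the realisation of the tensor product. -/
theorem kun (b : Module.Basis ι K (F.V M)) {X Y : 𝒜} (β : F.V X →ₗ[K] F.V M →ₗ[K] F.V Y) :
    ∃ Φ : F.V (X ⊗ M) →ₗ[K] F.V Y, ∀ x m, Φ (F.ext x m) = β x m := by
  let p : F.V M ≃ₗ[K] F.V M := LinearEquiv.ofInvolutive (F.par M) (F.par_par M)
  obtain ⟨γ, hγ⟩ := WDS.dual F (b.map p)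
  refine ⟨∑ i, (β.flip (b i)) ∘ₗ WDS.con F X (γ i), fun x m => ?_⟩
  have h1 : ∀ i, (b.map p).repr (F.par M m) i = b.repr m i := by
    intro i
    have h2 : F.par M m = p m := rfl
    rw [Module.Basis.map_repr, h2, LinearEquiv.trans_apply, LinearEquiv.symm_apply_apply]
  rw [LinearMap.sum_apply]
  simp only [LinearMap.comp_apply]
  conv_rhs => rw [← b.sum_repr m, map_sum]
  refine Finset.sum_congr rfl fun i _ => ?_
  rw [WDS.con_ext F (b.map p) hγ, h1, _root_.map_smul, _root_.map_smul, LinearMap.flip_apply]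

/-- The odd derivation of the tensor power. -/
noncomputable def der (b : Module.Basis ι K (F.V M)) (A : F.V M →ₗ[K] F.V M) :
    ∀ n : ℕ, F.V (T M n) →ₗ[K] F.V (T M n)
  | 0 => 0
  | n + 1 => Classical.choose (kun b (X := T M n) (Y := T M (n + 1))
      (F.ext ∘ₗ der b A n + (F.ext.compl₂ A) ∘ₗ F.par (T M n)))

theorem der_succ (b : Module.Basis ι K (F.V M)) (A : F.V M →ₗ[K] F.V M) (n : ℕ)
    (y : F.V (T M n)) (x : F.V M) :
    der b A (n + 1) (F.ext y x) = F.ext (der b A n y) x + F.ext (F.par _ y) (A x) :=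
  Classical.choose_spec (kun b (X := T M n) (Y := T M (n + 1))
      (F.ext ∘ₗ der b A n + (F.ext.compl₂ A) ∘ₗ F.par (T M n))) y x

theorem par_der (b : Module.Basis ι K (F.V M)) (A : F.V M →ₗ[K] F.V M)
    (hA : ∀ x, F.par M (A x) = -A (F.par M x)) (n : ℕ) :
    ∀ z : F.V (T M n), F.par _ (der b A n z) = -der b A n (F.par _ z) := by
  induction n with
  | zero =>
    intro z
    change F.par _ (0 : F.V (T M 0)) = -(0 : F.V (T M 0))
    rw [_root_.map_zero, neg_zero]
  | succ n ih =>
    intro z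
    obtain ⟨m, y, x, rfl⟩ := F.exists_sum (X := T M n) (Y := M) z
    have h1 : ∀ i, F.par (T M (n + 1)) (der b A (n + 1) (F.ext (y i) (x i))) =
        -der b A (n + 1) (F.par (T M (n + 1)) (F.ext (y i) (x i))) := by
      intro i
      have e1 : F.par (T M (n + 1)) (F.ext (y i) (x i)) = F.ext (F.par _ (y i)) (F.par _ (x i)) :=
        F.par_ext _ _
      rw [e1, der_succ, der_succ, _root_.map_add]
      have e2 : F.par (T M (n + 1)) (F.ext (der b A n (y i)) (x i)) =
          F.ext (F.par _ (der b A n (y i))) (F.par _ (x i)) := F.par_ext _ _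
      have e3 : F.par (T M (n + 1)) (F.ext (F.par _ (y i)) (A (x i))) =
          F.ext (F.par _ (F.par _ (y i))) (F.par _ (A (x i))) := F.par_ext _ _
      rw [e2, e3, ih, hA, _root_.map_neg, LinearMap.neg_apply, _root_.map_neg, neg_add]
    rw [map_sum, map_sum, map_sum, map_sum, ← Finset.sum_neg_distrib]
    exact Finset.sum_congr rfl fun i _ => h1 i

theorem der_perm {φ : Fam M} (hφ : PA φ) (b : Module.Basis ι K (F.V M)) (δ : ι → ℚ)
    (hδ : ∀ i, δ i = 1 ∨ δ i = -1) (hb : ∀ i, F.par M (b i) = (δ i : K) • b i)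
    (A : F.V M →ₗ[K] F.V M) (hA : ∀ x, F.par M (A x) = -A (F.par M x)) (n : ℕ)
    (g : Equiv.Perm (Fin n)) : ∀ z : F.V (T M n),
      der b A n (F.map (φ n g : T M n ⟶ T M n) z) = F.map (φ n g : T M n ⟶ T M n) (der b A n z) := by
  refine WD.ind (P := fun n g => ∀ z : F.V (T M n),
      der b A n (F.map (φ n g : T M n ⟶ T M n) z) =
        F.map (φ n g : T M n ⟶ T M n) (der b A n z)) ?_ ?_ ?_ ?_ n g
  · intro n z
    have e : (φ n 1 : T M n ⟶ T M n) = 𝟙 _ := map_one (φ n)
    rw [e, F.map_id, F.map_id]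
  · intro n g h hg hh z
    have e : (φ n (g * h) : T M n ⟶ T M n) = (φ n h : T M n ⟶ T M n) ≫ (φ n g : T M n ⟶ T M n) :=
      map_mul (φ n) g h
    rw [e, F.map_comp, F.map_comp, hg, hh]
  · intro n g hg z
    obtain ⟨m, y, x, rfl⟩ := F.exists_sum (X := T M n) (Y := M) z
    rw [map_sum, map_sum, map_sum, map_sum]
    refine Finset.sum_congr rfl fun i _ => ?_
    rw [hφ.up, der_succ]
    have e1 : F.map ((φ n g : T M n ⟶ T M n) ▷ M : T M n ⊗ M ⟶ T M n ⊗ M) (F.ext (y i) (x i)) =
        F.ext (F.map (φ n g : T M n ⟶ T M n) (y i)) (x i) := F.whiskerRight _ _ _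
    have e2 := der_succ b A n (F.map (φ n g : T M n ⟶ T M n) (y i)) (x i)
    have e3 := F.whiskerRight (Z := M) (φ n g : T M n ⟶ T M n) (der b A n (y i)) (x i)
    have e4 := F.whiskerRight (Z := M) (φ n g : T M n ⟶ T M n) (F.par _ (y i)) (A (x i))
    refine (congrArg (der b A (n + 1)) e1).trans ?_
    refine e2.trans ?_
    rw [hg, F.par_map]
    refine Eq.trans ?_ (_root_.map_add _ _ _).symm
    rw [e3, e4]
  · intro n z
    obtain ⟨B, hB⟩ := wd_basis F b (n + 2)
    rw [hφ.swap]
    suffices h : der b A (n + 2) ∘ₗ F.map (sw (T M n) M) = F.map (sw (T M n) M) ∘ₗ der b A (n + 2) by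
      exact LinearMap.congr_fun h z
    refine B.ext fun w => ?_
    rw [hB]
    change der b A (n + 2) (F.map (sw (T M n) M)
      (F.ext (F.ext (wd F n fun j => b (w j.succ.succ)) (b (w (Fin.succ 0)))) (b (w 0)))) =
      F.map (sw (T M n) M) (der b A (n + 2)
        (F.ext (F.ext (wd F n fun j => b (w j.succ.succ)) (b (w (Fin.succ 0)))) (b (w 0))))
    generalize (wd F n fun j => b (w j.succ.succ)) = z
    generalize w (Fin.succ 0) = p
    generalize w 0 = q
    have hsw : ∀ (z : F.V (T M n)) (x y : F.V M) (s t : ℚ), (s = 1 ∨ s = -1) → (t = 1 ∨ t = -1) →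
        F.par M x = (s : K) • x → F.par M y = (t : K) • y →
        F.map (sw (T M n) M) (F.ext (F.ext z x) y) =
          ((if s = -1 ∧ t = -1 then -1 else 1 : ℚ) : K) • F.ext (F.ext z y) x := by
      intro z x y s t hs ht hx hy
      unfold sw
      rw [F.map_comp, F.map_comp, F.assoc, F.whiskerLeft, WDS.koszul F x y s t hs ht hx hy,
        _root_.map_smul, _root_.map_smul, F.assoc_inv]
    have hAq : ∀ a, F.par M (A (b a)) = ((-δ a : ℚ) : K) • A (b a) := by
      intro a
      rw [hA, hb, _root_.map_smul, Rat.cast_neg, neg_smul]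
    have hδ' : ∀ a, -δ a = 1 ∨ -δ a = -1 := by
      intro a
      rcases hδ a with h | h
      · right; rw [h]
      · left; rw [h, neg_neg]
    have d1 : ∀ (z : F.V (T M n)) (x y : F.V M), der b A (n + 2) (F.ext (F.ext z x) y) =
        F.ext (F.ext (der b A n z) x) y + F.ext (F.ext (F.par _ z) (A x)) y +
          F.ext (F.ext (F.par _ z) (F.par _ x)) (A y) := by
      intro z x y
      have e1 := der_succ b A (n + 1) (F.ext z x) y
      have e2 := der_succ b A n z x
      have e3 : F.par (T M (n + 1)) (F.ext z x) = F.ext (F.par _ z) (F.par _ x) := F.par_ext _ _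
      rw [e2, e3, _root_.map_add, LinearMap.add_apply] at e1
      exact e1
    rw [hsw z _ _ _ _ (hδ p) (hδ q) (hb p) (hb q), _root_.map_smul, d1, d1, _root_.map_add,
      _root_.map_add, hsw _ _ _ _ _ (hδ p) (hδ q) (hb p) (hb q),
      hsw _ _ _ _ _ (hδ' p) (hδ q) (hAq p) (hb q), hb p, hb q]
    simp only [_root_.map_smul, LinearMap.smul_apply, smul_add, smul_smul]
    rw [hsw _ _ _ _ _ (hδ p) (hδ' q) (hb p) (hAq q), smul_smul]
    rw [add_assoc, add_assoc, add_comm (_ • F.ext (F.ext (F.par (T M n) z) (A (b q))) (b p))]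
    congr 2
    · congr 1
      rw [← Rat.cast_mul]
      congr 1
      rcases hδ p with h1 | h1 <;> rcases hδ q with h2 | h2 <;> rw [h1, h2] <;> norm_num
    · congr 1
      rw [← Rat.cast_mul]
      congr 1
      rcases hδ p with h1 | h1 <;> rcases hδ q with h2 | h2 <;> rw [h1, h2] <;> norm_num

theorem der_rh {φ : Fam M} (hφ : PA φ) (b : Module.Basis ι K (F.V M)) (δ : ι → ℚ)
    (hδ : ∀ i, δ i = 1 ∨ δ i = -1) (hb : ∀ i, F.par M (b i) = (δ i : K) • b i)
    (A : F.V M →ₗ[K] F.V M) (hA : ∀ x, F.par M (A x) = -A (F.par M x)) (n : ℕ) (e : QS n)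
    (z : F.V (T M n)) : der b A n (F.map (rh φ n e) z) = F.map (rh φ n e) (der b A n z) := by
  rw [WD.rh_eq, WD.map_sum', WD.map_sum', map_sum]
  refine Finset.sum_congr rfl fun g _ => ?_
  rw [F.map_smul, F.map_smul, _root_.map_smul, der_perm hφ b δ hδ hb A hA]

/-- The anticommutator of two odd derivations. -/
theorem der_anti (b : Module.Basis ι K (F.V M)) (A A' : F.V M →ₗ[K] F.V M)
    (hA : ∀ x, F.par M (A x) = -A (F.par M x)) (hA' : ∀ x, F.par M (A' x) = -A' (F.par M x))
    (μ : ι → K) (hμ : ∀ a, A (A' (b a)) + A' (A (b a)) = μ a • b a) (n : ℕ) (w : Fin n → ι) :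
    der b A n (der b A' n (wd F n fun k => b (w k))) +
      der b A' n (der b A n (wd F n fun k => b (w k))) =
        (∑ k, μ (w k)) • wd F n fun k => b (w k) := by
  induction n with
  | zero =>
    rw [Finset.univ_eq_empty, Finset.sum_empty, zero_smul]
    change (0 : F.V (T M 0)) + (0 : F.V (T M 0)) = 0
    rw [add_zero]
  | succ n ih =>
    have e0 : (wd F (n + 1) fun k => b (w k)) =
        F.ext (wd F n fun k => b (w k.succ)) (b (w 0)) := rfl
    have h1 := ih fun k => w k.succ
    rw [e0]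
    generalize (wd F n fun k => b (w k.succ)) = z at h1 ⊢
    have h2 : ∀ (C C' : F.V M →ₗ[K] F.V M), (∀ x, F.par M (C' x) = -C' (F.par M x)) →
        der b C (n + 1) (der b C' (n + 1) (F.ext z (b (w 0)))) =
          F.ext (der b C n (der b C' n z)) (b (w 0)) -
            F.ext (der b C' n (F.par _ z)) (C (b (w 0))) +
            F.ext (der b C n (F.par _ z)) (C' (b (w 0))) + F.ext z (C (C' (b (w 0)))) := by
      intro C C' hC'
      rw [der_succ, _root_.map_add, der_succ, der_succ, par_der b C' hC', F.par_par,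
        _root_.map_neg, LinearMap.neg_apply]
      abel
    rw [h2 A A' hA', h2 A' A hA, Fin.sum_univ_succ, add_smul]
    have h3 : F.ext z (A (A' (b (w 0)))) + F.ext z (A' (A (b (w 0)))) = μ (w 0) • F.ext z (b (w 0)) := by
      rw [← _root_.map_add, hμ, _root_.map_smul]
    have h4 : F.ext (der b A n (der b A' n z)) (b (w 0)) + F.ext (der b A' n (der b A n z)) (b (w 0)) =
        (∑ k : Fin n, μ (w k.succ)) • F.ext z (b (w 0)) := by
      rw [← LinearMap.add_apply, ← _root_.map_add, h1, _root_.map_smul, LinearMap.smul_apply]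
    rw [← h3, ← h4]
    abel

/-- The words of weight `d`. -/
def Wt (b : Module.Basis ι K (F.V M)) (wt : ι → ℤ) (n : ℕ) (d : ℤ) : Submodule K (F.V (T M n)) :=
  Submodule.span K {z | ∃ w : Fin n → ι, dg wt w = d ∧ z = wd F n fun k => b (w k)}

theorem ext_mem (b : Module.Basis ι K (F.V M)) (wt : ι → ℤ) (n : ℕ) (d : ℤ) (a : ι)
    {z : F.V (T M n)} (hz : z ∈ Wt b wt n d) :
    F.ext z (b a) ∈ Wt b wt (n + 1) (wt a + d) := by
  unfold Wt at hz
  induction hz using Submodule.span_induction with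
  | mem z hz =>
    obtain ⟨w, hw, rfl⟩ := hz
    refine Submodule.subset_span ⟨Fin.cons a w, ?_, rfl⟩
    unfold dg at hw ⊢
    rw [Fin.sum_univ_succ, Fin.cons_zero, ← hw]
    simp only [Fin.cons_succ]
  | zero =>
    rw [_root_.map_zero, LinearMap.zero_apply]
    exact Submodule.zero_mem _
  | add z z' _ _ h h' =>
    rw [_root_.map_add, LinearMap.add_apply]
    exact Submodule.add_mem _ h h'
  | smul c z _ h =>
    rw [_root_.map_smul, LinearMap.smul_apply]
    exact Submodule.smul_mem _ _ h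

/-- The matrix unit. -/
noncomputable def mu (b : Module.Basis ι K (F.V M)) (l i : ι) : F.V M →ₗ[K] F.V M :=
  b.constr K fun a => if a = l then b i else 0

theorem mu_apply (b : Module.Basis ι K (F.V M)) (l i a : ι) :
    mu b l i (b a) = if a = l then b i else 0 := by
  unfold mu
  rw [Module.Basis.constr_basis]

theorem mu_par (b : Module.Basis ι K (F.V M)) (δ : ι → ℚ)
    (hb : ∀ i, F.par M (b i) = (δ i : K) • b i) (l i : ι) (hli : δ l = -δ i) (x : F.V M) :
    F.par M (mu b l i x) = -mu b l i (F.par M x) := by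
  suffices h : F.par M ∘ₗ mu b l i = -(mu b l i ∘ₗ F.par M) from LinearMap.congr_fun h x
  refine b.ext fun a => ?_
  rw [LinearMap.comp_apply, LinearMap.neg_apply, LinearMap.comp_apply, hb, _root_.map_smul,
    mu_apply]
  split_ifs with h
  · rw [hb, h, hli, Rat.cast_neg, neg_smul, neg_neg]
  · rw [_root_.map_zero, smul_zero, neg_zero]

theorem der_mem (b : Module.Basis ι K (F.V M)) (δ : ι → ℚ)
    (hb : ∀ i, F.par M (b i) = (δ i : K) • b i) (l i : ι) (wt : ι → ℤ) (n : ℕ) (w : Fin n → ι) :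
    der b (mu b l i) n (wd F n fun k => b (w k)) ∈ Wt b wt n (dg wt w + (wt i - wt l)) := by
  induction n with
  | zero => exact Submodule.zero_mem _
  | succ n ih =>
    have e0 : (wd F (n + 1) fun k => b (w k)) =
        F.ext (wd F n fun k => b (w k.succ)) (b (w 0)) := rfl
    have hd : dg wt w = wt (w 0) + dg wt fun k => w k.succ := Fin.sum_univ_succ _
    rw [e0, der_succ, mu_apply, wd_par F b δ hb n fun k => w k.succ]
    refine Submodule.add_mem _ ?_ ?_
    · have h1 := ext_mem b wt n _ (w 0) (ih fun k => w k.succ)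
      rw [hd, add_assoc]
      exact h1
    · split_ifs with h
      · rw [_root_.map_smul, LinearMap.smul_apply]
        refine Submodule.smul_mem _ _ ?_
        have h1 := ext_mem b wt n (dg wt fun k => w k.succ) i
          (z := wd F n fun k => b (w k.succ)) (Submodule.subset_span ⟨_, rfl, rfl⟩)
        have h2 : dg wt w + (wt i - wt l) = wt i + dg wt fun k => w k.succ := by
          rw [hd, h]
          ring
        rw [h2]
        exact h1
      · rw [_root_.map_zero]
        exact Submodule.zero_mem _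

theorem dg_cnt {n : ℕ} (w : Fin n → ι) (i j : ι) :
    dg (fun a => (if a = i then 1 else 0) - (if a = j then 1 else 0) : ι → ℤ) w =
      (cnt w i : ℤ) - cnt w j := by
  unfold dg cnt
  rw [Finset.sum_sub_distrib, Finset.sum_boole, Finset.sum_boole]

end SepA

open SepA in
/-- SEPA -/
theorem sepA [hdual : ∀ X : 𝒜, HasRightDual X] {M : 𝒜} {φ : Fam M} (hφ : PA φ) {ι : Type}
    [Fintype ι] [DecidableEq ι]
    (b : Module.Basis ι K (F.V M)) (δ : ι → ℚ) (hδ : ∀ i, δ i = 1 ∨ δ i = -1)
    (hb : ∀ i, F.par M (b i) = (δ i : K) • b i) (n : ℕ) (e : QS (n + 1))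
    (he : ¬ F.Inv (rh φ (n + 1) e)) (i j l : ι) (hij : i ≠ j) (hδij : δ i = δ j)
    (hl : δ l = -δ i) :
    ∃ w : Fin (n + 1) → ι, F.map (rh φ (n + 1) e) (wd F (n + 1) fun k => b (w k)) ≠ 0 ∧
      cnt w i ≠ cnt w j := by
  by_contra hcon
  push Not at hcon
  obtain ⟨w, ⟨k, hk⟩, hw⟩ := posl F hφ b δ hδ hb n e he i
  have hli : l ≠ i := by
    rintro rfl
    rcases hδ l with h | h <;> rw [h] at hl <;> norm_num at hl
  have hlj : l ≠ j := by
    rintro rfl
    rw [← hδij] at hl
    rcases hδ i with h | h <;> rw [h] at hl <;> norm_num at hl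
  have hc := hcon w hw
  let wt : ι → ℤ := fun a => (if a = i then 1 else 0) - (if a = j then 1 else 0)
  -- the words of nonzero weight are killed
  have hkill : ∀ (d : ℤ), d ≠ 0 → ∀ z ∈ Wt b wt (n + 1) d, F.map (rh φ (n + 1) e) z = 0 := by
    intro d hd z hz
    unfold Wt at hz
    induction hz using Submodule.span_induction with
    | mem z hz =>
      obtain ⟨v, hv, rfl⟩ := hz
      by_contra hne
      have h1 := hcon v hne
      have h2 := dg_cnt v i j
      rw [h1, sub_self] at h2
      exact hd (hv.symm.trans h2)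
    | zero => exact _root_.map_zero _
    | add z z' _ _ h h' => rw [_root_.map_add, h, h', add_zero]
    | smul c z _ h => rw [_root_.map_smul, h, smul_zero]
  have hw0 : dg wt w = 0 := by
    have h2 := dg_cnt w i j
    rwa [hc, sub_self] at h2
  have wi : wt i = 1 := by
    simp only [wt]
    rw [if_neg hij, sub_zero, if_pos trivial]
  have wl : wt l = 0 := by
    simp only [wt]
    rw [if_neg hli, if_neg hlj, sub_zero]
  have hA := mu_par b δ hb l i hl
  have hA' := mu_par b δ hb i l (by rw [hl, neg_neg])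
  have k1 : F.map (rh φ (n + 1) e) (der b (mu b l i) (n + 1) (wd F (n + 1) fun k => b (w k))) = 0 := by
    refine hkill _ ?_ _ (der_mem b δ hb l i wt (n + 1) w)
    rw [hw0, wi, wl]
    norm_num
  have k2 : F.map (rh φ (n + 1) e) (der b (mu b i l) (n + 1) (wd F (n + 1) fun k => b (w k))) = 0 := by
    refine hkill _ ?_ _ (der_mem b δ hb i l wt (n + 1) w)
    rw [hw0, wi, wl]
    norm_num
  have h3 := der_anti b (mu b l i) (mu b i l) hA hA'
    (fun a => (if a = i then 1 else 0) + (if a = l then 1 else 0)) (fun a => by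
      rw [mu_apply, mu_apply]
      by_cases h1 : a = i
      · have h2 : a ≠ l := fun h => hli (h.symm.trans h1)
        rw [if_pos h1, if_neg h2, if_pos h1, if_neg h2, mu_apply, if_pos rfl, _root_.map_zero,
          add_zero, add_zero, one_smul, h1]
      · rw [if_neg h1, if_neg h1]
        by_cases h2 : a = l
        · rw [if_pos h2, if_pos h2, mu_apply, if_pos rfl, _root_.map_zero, zero_add, zero_add,
            one_smul, h2]
        · rw [if_neg h2, if_neg h2, _root_.map_zero, _root_.map_zero, add_zero, add_zero, zero_smul])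
    (n + 1) w
  have m1 : F.map (rh φ (n + 1) e) (der b (mu b l i) (n + 1) (der b (mu b i l) (n + 1)
      (wd F (n + 1) fun k => b (w k)))) = 0 := by
    rw [← der_rh hφ b δ hδ hb _ hA, k2, _root_.map_zero]
  have m2 : F.map (rh φ (n + 1) e) (der b (mu b i l) (n + 1) (der b (mu b l i) (n + 1)
      (wd F (n + 1) fun k => b (w k)))) = 0 := by
    rw [← der_rh hφ b δ hδ hb _ hA', k1, _root_.map_zero]
  have h4 := congrArg (F.map (rh φ (n + 1) e)) h3
  rw [_root_.map_add, m1, m2, add_zero, _root_.map_smul] at h4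
  rcases smul_eq_zero.mp h4.symm with h5 | h5
  · rw [Finset.sum_add_distrib, Finset.sum_boole, Finset.sum_boole, ← Nat.cast_add,
      Nat.cast_eq_zero] at h5
    have h6 : 0 < (Finset.univ.filter fun k => w k = i).card :=
      Finset.card_pos.mpr ⟨k, Finset.mem_filter.mpr ⟨Finset.mem_univ _, hk⟩⟩
    omega
  · exact hw h5

end Pool.Agent.Helper96.SP
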