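import Pool.Agent.Helper96.SP.Defs3
import Pool.Agent.Helper96.SP.PWD
import Pool.Agent.Helper96.SP.QWORDS

/-!
# Separation of letters, pure parity
-/

open CategoryTheory MonoidalCategory Limits BraidedCategory

universe u v w

namespace Pool.Agent.Helper96.SP

open Pool.Agent.TH90.AB Pool.Agent.TH90.Kim Pool.Agent.Helper96.Kim

set_option linter.unusedSectionVars false

variable {𝒜 : Type u} [Category.{v} 𝒜] [MonoidalCategory 𝒜] [SymmetricCategory 𝒜]
  [Preadditive 𝒜] [MonoidalPreadditive 𝒜] [Linear ℚ 𝒜] [MonoidalLinear ℚ 𝒜]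
  {K : Type w} [Field K] [CharZero K] {F : Realisation 𝒜 K}

namespace SEPBX

/-- A permutation with two given values. -/
theorem exists_perm {d : ℕ} {i j i' j' : Fin d} (h : i ≠ j) (h' : i' ≠ j') :
    ∃ τ : Equiv.Perm (Fin d), τ i' = i ∧ τ j' = j := by
  refine ⟨Equiv.swap (Equiv.swap i' i j') j * Equiv.swap i' i, ?_, ?_⟩
  · rw [Equiv.Perm.mul_apply, Equiv.swap_apply_left]
    refine Equiv.swap_apply_of_ne_of_ne ?_ h
    intro h1
    have h2 : Equiv.swap i' i i' = Equiv.swap i' i j' := by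
      rw [Equiv.swap_apply_left]
      exact h1
    exact h' ((Equiv.swap i' i).injective h2)
  · rw [Equiv.Perm.mul_apply, Equiv.swap_apply_left]

theorem cnt_relabel {d n : ℕ} (τ : Equiv.Perm (Fin d)) (w : Fin n → Fin d) {i i' : Fin d}
    (h : τ i' = i) : cnt (fun k => τ (w k)) i = cnt w i' := by
  unfold cnt
  congr 1
  ext k
  simp only [Finset.mem_filter, Finset.mem_univ, true_and]
  rw [← h]
  exact τ.injective.eq_iff

theorem sum_cnt {d n : ℕ} (w : Fin n → Fin d) : ∑ l, cnt w l = n := by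
  unfold cnt
  have := Finset.card_eq_sum_card_fiberwise (s := (Finset.univ : Finset (Fin n)))
    (t := (Finset.univ : Finset (Fin d))) (f := w) (fun _ _ => Finset.mem_coe.2 (Finset.mem_univ _))
  rw [Finset.card_univ, Fintype.card_fin] at this
  exact this.symm

theorem dg_eq {d n : ℕ} (g : Fin d → ℤ) (w : Fin n → Fin d) :
    dg g w = ∑ l, (cnt w l : ℤ) * g l := by
  unfold dg cnt
  rw [← Finset.sum_fiberwise (s := (Finset.univ : Finset (Fin n))) (g := w)
    (f := fun k => g (w k))]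
  refine Finset.sum_congr rfl fun l _ => ?_
  rw [Finset.sum_congr rfl (g := fun _ => g l) (fun k hk => by rw [(Finset.mem_filter.1 hk).2]),
    Finset.sum_const, nsmul_eq_mul]

theorem wd_mem (G : Grading F) {M : 𝒜} {d : ℕ} (b : Fin d → F.V M) (g : Fin d → ℤ)
    (hb : ∀ i, b i ∈ G.gr M (g i)) (n : ℕ) (w : Fin n → Fin d) :
    (wd F n fun k => b (w k)) ∈ G.gr (T M n) (dg g w) := by
  induction n with
  | zero =>
    have h : dg g w = 0 := by simp [dg]
    rw [h]
    exact G.one_mem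
  | succ n ih =>
    have h : dg g w = dg g (fun k => w k.succ) + g (w 0) := by
      unfold dg
      rw [Fin.sum_univ_succ, add_comm]
    rw [h]
    exact G.ext_mem _ _ _ _ (ih fun k => w k.succ) (hb (w 0))

end SEPBX

/-- SEPB -/
theorem sepB [hdual : ∀ X : 𝒜, HasRightDual X] (G : Grading F) {M : 𝒜} {φ : Fam M} (hφ : PA φ) {d : ℕ}
    (b : Module.Basis (Fin d) K (F.V M)) (g : Fin d → ℤ) (hb : ∀ i, b i ∈ G.gr M (g i)) {δ : ℚ}
    (hδ : δ = 1 ∨ δ = -1) (hM : ∀ x, F.par M x = (δ : K) • x) (n : ℕ) (e : QS n)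
    (hnc : ¬ ∃ k : ℤ, ∀ x, F.map (rh φ n e) x ∈ G.gr (T M n) k) (i j : Fin d) (hij : i ≠ j) :
    ∃ w : Fin n → Fin d, F.map (rh φ n e) (wd F n fun k => b (w k)) ≠ 0 ∧ cnt w i ≠ cnt w j := by
  by_contra hcon
  push Not at hcon
  obtain ⟨B, hB⟩ := wd_basis (F := F) b n
  -- relabelling of the letters
  have hrel : ∀ (τ : Equiv.Perm (Fin d)) (w : Fin n → Fin d),
      B.equiv B (Equiv.arrowCongr (Equiv.refl (Fin n)) τ)
        (F.map (rh φ n e) (wd F n fun k => b (w k))) =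
      F.map (rh φ n e) (wd F n fun k => b (τ (w k))) := by
    intro τ w
    rw [WD.rh_wd F hφ hδ hM, WD.rh_wd F hφ hδ hM, map_sum]
    refine Finset.sum_congr rfl fun s _ => ?_
    rw [_root_.map_smul]
    congr 1
    have e1 : wd F n ((fun k => b (w k)) ∘ (s⁻¹ : Equiv.Perm (Fin n))) = B (w ∘ (s⁻¹ : Equiv.Perm (Fin n))) := by
      rw [hB]
      rfl
    have e2 : wd F n ((fun k => b (τ (w k))) ∘ (s⁻¹ : Equiv.Perm (Fin n))) =
        B (τ ∘ w ∘ (s⁻¹ : Equiv.Perm (Fin n))) := by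
      rw [hB]
      rfl
    rw [e1, e2, Module.Basis.equiv_apply]
    rfl
  have hall : ∀ w : Fin n → Fin d, F.map (rh φ n e) (wd F n fun k => b (w k)) ≠ 0 →
      ∀ i' j', cnt w i' = cnt w j' := by
    intro w hw i' j'
    by_cases h' : i' = j'
    · rw [h']
    · obtain ⟨τ, h1, h2⟩ := SEPBX.exists_perm hij h'
      have h3 : F.map (rh φ n e) (wd F n fun k => b (τ (w k))) ≠ 0 := by
        rw [← hrel τ w]
        intro h0
        exact hw ((LinearEquiv.map_eq_zero_iff _).1 h0)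
      have h4 := hcon (fun k => τ (w k)) h3
      rw [SEPBX.cnt_relabel τ w h1, SEPBX.cnt_relabel τ w h2] at h4
      exact h4
  have hdg : ∀ w w' : Fin n → Fin d, F.map (rh φ n e) (wd F n fun k => b (w k)) ≠ 0 →
      F.map (rh φ n e) (wd F n fun k => b (w' k)) ≠ 0 → dg g w = dg g w' := by
    intro w w' hw hw'
    have h1 : ∀ l, cnt w l = cnt w' l := by
      intro l
      have e1 := SEPBX.sum_cnt w
      have e2 := SEPBX.sum_cnt w'
      rw [Finset.sum_congr rfl (fun x _ => hall w hw x l), Finset.sum_const] at e1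
      rw [Finset.sum_congr rfl (fun x _ => hall w' hw' x l), Finset.sum_const] at e2
      rw [Finset.card_univ, Fintype.card_fin, smul_eq_mul] at e1 e2
      have hd : 0 < d := lt_of_le_of_lt (Nat.zero_le _) i.2
      exact Nat.eq_of_mul_eq_mul_left hd (e1.trans e2.symm)
    rw [SEPBX.dg_eq, SEPBX.dg_eq]
    exact Finset.sum_congr rfl fun l _ => by rw [h1]
  obtain ⟨k, hk⟩ : ∃ k : ℤ, ∀ w : Fin n → Fin d,
      F.map (rh φ n e) (wd F n fun k => b (w k)) ≠ 0 → dg g w = k := by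
    by_cases h0 : ∃ w : Fin n → Fin d, F.map (rh φ n e) (wd F n fun k => b (w k)) ≠ 0
    · obtain ⟨w0, hw0⟩ := h0
      exact ⟨dg g w0, fun w hw => hdg w w0 hw hw0⟩
    · exact ⟨0, fun w hw => absurd ⟨w, hw⟩ h0⟩
  refine hnc ⟨k, fun x => ?_⟩
  have hx := B.sum_repr x
  rw [← hx, map_sum]
  refine Submodule.sum_mem _ fun w _ => ?_
  rw [_root_.map_smul]
  refine Submodule.smul_mem _ _ ?_
  rw [hB]
  by_cases h0 : F.map (rh φ n e) (wd F n fun k => b (w k)) = 0
  · rw [h0]
    exact Submodule.zero_mem _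
  · rw [← hk w h0]
    exact G.map_mem _ _ _ (SEPBX.wd_mem G b g hb n w)

end Pool.Agent.Helper96.SP
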