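import Pool.Agent.Helper96.SP.Defs
import Pool.Agent.Helper96.KimTr

/-!
# Partial traces of permutations
-/

open CategoryTheory MonoidalCategory Limits BraidedCategory

universe u v w

namespace Pool.Agent.Helper96.SP

open Pool.Agent.TH90.AB Pool.Agent.TH90.Kim Pool.Agent.Helper96.Kim

set_option linter.unusedSectionVars false

namespace TRX

/-! ### permutations -/

/-- The lift of an embedding: `0` goes to `0`. -/
def lft {a b : ℕ} (β : Fin a ↪ Fin b) : Fin (a + 1) ↪ Fin (b + 1) where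
  toFun := Fin.cons 0 fun i => (β i).succ
  inj' := by
    intro x y h
    induction x using Fin.cases with
    | zero =>
      induction y using Fin.cases with
      | zero => rfl
      | succ y => simp only [Fin.cons_zero, Fin.cons_succ] at h; exact absurd h (Fin.succ_ne_zero _).symm
    | succ x =>
      induction y using Fin.cases with
      | zero => simp only [Fin.cons_zero, Fin.cons_succ] at h; exact absurd h (Fin.succ_ne_zero _)
      | succ y =>
        simp only [Fin.cons_succ] at h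
        rw [β.injective (Fin.succ_injective _ h)]

lemma lft_zero {a b : ℕ} (β : Fin a ↪ Fin b) : lft β 0 = 0 := rfl

lemma lft_succ {a b : ℕ} (β : Fin a ↪ Fin b) (i : Fin a) : lft β i.succ = (β i).succ := rfl

lemma lft_eq_zero {a b : ℕ} (β : Fin a ↪ Fin b) (p : Fin (a + 1)) : lft β p = 0 ↔ p = 0 := by
  constructor
  · intro h
    exact (lft β).injective (h.trans (lft_zero β).symm)
  · rintro rfl
    exact lft_zero β

lemma up_zero {n : ℕ} (σ : Equiv.Perm (Fin n)) : up σ 0 = 0 :=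
  Equiv.Perm.decomposeFin_symm_apply_zero _ _

lemma up_succ {n : ℕ} (σ : Equiv.Perm (Fin n)) (i : Fin n) : up σ i.succ = (σ i).succ := by
  unfold up
  rw [Equiv.Perm.decomposeFin_symm_apply_succ, Equiv.swap_self]
  rfl

lemma up_mul {n : ℕ} (σ τ : Equiv.Perm (Fin n)) : up (σ * τ) = up σ * up τ := by
  ext x
  induction x using Fin.cases with
  | zero => rw [Equiv.Perm.mul_apply, up_zero, up_zero, up_zero]
  | succ x => rw [Equiv.Perm.mul_apply, up_succ, up_succ, up_succ, Equiv.Perm.mul_apply]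

lemma up_one {n : ℕ} : up (1 : Equiv.Perm (Fin n)) = 1 := by
  ext x
  induction x using Fin.cases with
  | zero => rw [up_zero]; rfl
  | succ x => rw [up_succ]; rfl

lemma dec_eq {n : ℕ} (p : Fin (n + 1)) (e : Equiv.Perm (Fin n)) :
    Equiv.Perm.decomposeFin.symm (p, e) = Equiv.swap 0 p * up e := by
  ext x
  induction x using Fin.cases with
  | zero =>
    rw [Equiv.Perm.decomposeFin_symm_apply_zero, Equiv.Perm.mul_apply, up_zero,
      Equiv.swap_apply_left]
  | succ x => rw [Equiv.Perm.decomposeFin_symm_apply_succ, Equiv.Perm.mul_apply, up_succ]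

lemma swap_succ {n : ℕ} (q : Fin (n + 1)) : (Equiv.swap 0 q.succ : Equiv.Perm (Fin (n + 2))) =
    up (Equiv.swap 0 q) * Equiv.swap 0 1 * up (Equiv.swap 0 q) := by
  have h1 : up (Equiv.swap 0 q) * up (Equiv.swap 0 q) = 1 := by
    rw [← up_mul, Equiv.swap_mul_self, up_one]
  have h2 : (up (Equiv.swap 0 q))⁻¹ = up (Equiv.swap 0 q) := inv_eq_of_mul_eq_one_left h1
  have h3 := Equiv.swap_apply_apply (up (Equiv.swap 0 q)) 0 1
  have h4 : up (Equiv.swap 0 q) 1 = q.succ := by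
    rw [← Fin.succ_zero_eq_one, up_succ, Equiv.swap_apply_left]
  rw [up_zero, h4, h2] at h3
  exact h3

lemma via_lft {a b : ℕ} (β : Fin a ↪ Fin b) (p : Fin (a + 1)) (e : Equiv.Perm (Fin a)) :
    Equiv.Perm.viaEmbeddingHom (lft β) (Equiv.Perm.decomposeFin.symm (p, e)) =
      Equiv.Perm.decomposeFin.symm (lft β p, Equiv.Perm.viaEmbeddingHom β e) := by
  ext x
  congr 1
  rw [Equiv.Perm.viaEmbeddingHom_apply, Equiv.Perm.viaEmbeddingHom_apply]
  induction x using Fin.cases with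
  | zero =>
    rw [Equiv.Perm.decomposeFin_symm_apply_zero]
    have := Equiv.Perm.viaEmbedding_apply (Equiv.Perm.decomposeFin.symm (p, e)) (lft β) 0
    rw [Equiv.Perm.decomposeFin_symm_apply_zero, lft_zero] at this
    exact this
  | succ x =>
    rw [Equiv.Perm.decomposeFin_symm_apply_succ]
    by_cases hx : x ∈ Set.range β
    · obtain ⟨i, rfl⟩ := hx
      have := Equiv.Perm.viaEmbedding_apply (Equiv.Perm.decomposeFin.symm (p, e)) (lft β) i.succ
      rw [Equiv.Perm.decomposeFin_symm_apply_succ, lft_succ,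
        (lft β).injective.map_swap, lft_zero, lft_succ] at this
      rw [this, Equiv.Perm.viaEmbedding_apply]
    · have hx' : x.succ ∉ Set.range (lft β) := by
        rintro ⟨i, hi⟩
        induction i using Fin.cases with
        | zero => exact absurd hi (Fin.succ_ne_zero _).symm
        | succ i => exact hx ⟨i, Fin.succ_injective _ hi⟩
      rw [Equiv.Perm.viaEmbedding_apply_of_notMem _ _ _ hx',
        Equiv.Perm.viaEmbedding_apply_of_notMem _ _ _ hx,
        Equiv.swap_apply_of_ne_of_ne (Fin.succ_ne_zero _)]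
      intro h
      exact hx' ⟨p, h.symm⟩

lemma nw_succ (k n : ℕ) (j : Fin k) : nw k (n + 1) j = lft (nw k n j) := by
  ext x
  induction x using Fin.cases with
  | zero => rfl
  | succ x =>
    rw [lft_succ]
    simp only [nw, Function.Embedding.coeFn_mk, Fin.val_succ]
    by_cases h : (x : ℕ) < n
    · rw [dif_pos h, dif_pos (by omega)]
    · rw [dif_neg h, dif_neg (by omega)]
      simp only
      omega

lemma lft_refl (a : ℕ) : lft (Function.Embedding.refl (Fin a)) = Function.Embedding.refl _ := by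
  ext x
  induction x using Fin.cases with
  | zero => rfl
  | succ x => rfl

lemma via_refl {a : ℕ} (g : Equiv.Perm (Fin a)) :
    Equiv.Perm.viaEmbeddingHom (Function.Embedding.refl (Fin a)) g = g := by
  ext x
  congr 1
  rw [Equiv.Perm.viaEmbeddingHom_apply]
  exact Equiv.Perm.viaEmbedding_apply g (Function.Embedding.refl (Fin a)) x

lemma emb_single {a b : ℕ} (β : Fin a ↪ Fin b) (g : Equiv.Perm (Fin a)) (c : ℚ) :
    emb β (MonoidAlgebra.single g c) =
      MonoidAlgebra.single (Equiv.Perm.viaEmbeddingHom β g) c := by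
  simp [emb]

lemma emb_refl {a : ℕ} (z : QS a) : emb (Function.Embedding.refl (Fin a)) z = z := by
  induction z using MonoidAlgebra.induction_linear with
  | zero => rw [map_zero]
  | add x y hx hy => rw [map_add, hx, hy]
  | single g c => rw [emb_single, via_refl]

noncomputable section cat

variable {𝒜 : Type u} [Category.{v} 𝒜] [MonoidalCategory 𝒜] [SymmetricCategory 𝒜]
variable [Preadditive 𝒜] [MonoidalPreadditive 𝒜] [Linear ℚ 𝒜] [MonoidalLinear ℚ 𝒜]

lemma rh_single {M : 𝒜} (φ : Fam M) (n : ℕ) (g : Equiv.Perm (Fin n)) (c : ℚ) :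
    rh φ n (MonoidAlgebra.single g c) = c • (φ n g : T M n ⟶ T M n) := by
  simp [rh, rho]

lemma rh_add {M : 𝒜} (φ : Fam M) (n : ℕ) (x y : QS n) :
    rh φ n (x + y) = rh φ n x + rh φ n y := map_add (rho φ n) x y

lemma rh_zero {M : 𝒜} (φ : Fam M) (n : ℕ) : rh φ n 0 = 0 := map_zero (rho φ n)

variable [hdual : ∀ X : 𝒜, HasRightDual X]

lemma ptr_swap {M : 𝒜} {φ : Fam M} (hφ : PA φ) {χ : ℚ} (hχ : tr (𝟙 M) = χ • 𝟙 (𝟙_ 𝒜)) (b : ℕ)
    (p : Fin (b + 1)) : ptr (φ (b + 1) (Equiv.swap 0 p) : T M b ⊗ M ⟶ T M b ⊗ M) =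
      (if p = 0 then χ else 1) • 𝟙 (T M b) := by
  by_cases hp : p = 0
  · subst hp
    rw [if_pos rfl, Equiv.swap_self]
    have : (φ (b + 1) (Equiv.refl _) : T M b ⊗ M ⟶ T M b ⊗ M) = 𝟙 _ := map_one (φ (b + 1))
    rw [this, ptr_id hχ]
  · rw [if_neg hp, one_smul]
    obtain ⟨q, rfl⟩ := Fin.exists_succ_eq.2 hp
    match b with
    | 0 => exact q.elim0
    | b + 1 =>
      have h1 : (φ (b + 2) (Equiv.swap 0 q.succ) : T M (b + 1) ⊗ M ⟶ T M (b + 1) ⊗ M) =
          (φ (b + 1) (Equiv.swap 0 q) : T M (b + 1) ⟶ T M (b + 1)) ▷ M ≫ sw (T M b) M ≫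
            (φ (b + 1) (Equiv.swap 0 q) : T M (b + 1) ⟶ T M (b + 1)) ▷ M := by
        rw [swap_succ, map_mul, map_mul, hφ.up, hφ.swap]
        rfl
      rw [h1, ptr_left, ptr_right, ptr_sw, Category.id_comp]
      have h2 : (φ (b + 1) (Equiv.swap 0 q * Equiv.swap 0 q) : T M (b + 1) ⟶ T M (b + 1)) = 𝟙 _ := by
        rw [Equiv.swap_mul_self]
        exact map_one (φ (b + 1))
      rw [map_mul] at h2
      exact h2

lemma ptr_dec {M : 𝒜} {φ : Fam M} (hφ : PA φ) {χ : ℚ} (hχ : tr (𝟙 M) = χ • 𝟙 (𝟙_ 𝒜)) (b : ℕ)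
    (p : Fin (b + 1)) (e : Equiv.Perm (Fin b)) :
    ptr (φ (b + 1) (Equiv.Perm.decomposeFin.symm (p, e)) : T M b ⊗ M ⟶ T M b ⊗ M) =
      (if p = 0 then χ else 1) • (φ b e : T M b ⟶ T M b) := by
  have h1 : (φ (b + 1) (Equiv.Perm.decomposeFin.symm (p, e)) : T M b ⊗ M ⟶ T M b ⊗ M) =
      (φ b e : T M b ⟶ T M b) ▷ M ≫ (φ (b + 1) (Equiv.swap 0 p) : T M b ⊗ M ⟶ T M b ⊗ M) := by
    rw [dec_eq, map_mul, hφ.up]
    rfl
  rw [h1, ptr_left, ptr_swap hφ hχ, Linear.comp_smul, Category.comp_id]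

/-- Contraction of the last factor: the effect on the group algebra. -/
lemma exists_contr {M : 𝒜} {φ : Fam M} (hφ : PA φ) {χ : ℚ} (hχ : tr (𝟙 M) = χ • 𝟙 (𝟙_ 𝒜))
    {a : ℕ} (z : QS (a + 1)) : ∃ y : QS a, ∀ (b : ℕ) (β : Fin a ↪ Fin b),
      ptr (rh φ (b + 1) (emb (lft β) z) : T M b ⊗ M ⟶ T M b ⊗ M) = rh φ b (emb β y) := by
  induction z using MonoidAlgebra.induction_linear with
  | zero =>
    refine ⟨0, fun b β => ?_⟩
    rw [map_zero, map_zero, rh_zero, rh_zero]
    exact ptr_zero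
  | add x y hx hy =>
    obtain ⟨x', hx'⟩ := hx
    obtain ⟨y', hy'⟩ := hy
    refine ⟨x' + y', fun b β => ?_⟩
    rw [map_add, map_add, rh_add, rh_add, ← hx', ← hy']
    exact ptr_add _ _
  | single g c =>
    obtain ⟨⟨p, e⟩, rfl⟩ := Equiv.Perm.decomposeFin.symm.surjective g
    refine ⟨MonoidAlgebra.single e (c * if p = 0 then χ else 1), fun b β => ?_⟩
    rw [emb_single, emb_single, rh_single, rh_single, via_lft]
    have h1 := ptr_dec hφ hχ b (lft β p) (Equiv.Perm.viaEmbeddingHom β e)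
    rw [mul_smul]
    refine (ptr_smul _ _).trans ?_
    rw [h1]
    by_cases hp : p = 0
    · rw [if_pos hp, if_pos ((lft_eq_zero β p).2 hp)]
    · rw [if_neg hp, if_neg (fun h => hp ((lft_eq_zero β p).1 h))]

end cat

end TRX

noncomputable section cat

open TRX

variable {𝒜 : Type u} [Category.{v} 𝒜] [MonoidalCategory 𝒜] [SymmetricCategory 𝒜]
variable [Preadditive 𝒜] [MonoidalPreadditive 𝒜] [Linear ℚ 𝒜] [MonoidalLinear ℚ 𝒜]
variable [hdual : ∀ X : 𝒜, HasRightDual X]

/-- The partial trace over all but one of the factors on which an element of the group algebra acts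
is a scalar. -/
theorem trc {M : 𝒜} {φ : Fam M} (hφ : PA φ)
    (hunit : ∀ f : 𝟙_ 𝒜 ⟶ 𝟙_ 𝒜, ∃ q : ℚ, f = q • 𝟙 (𝟙_ 𝒜)) (n : ℕ) (z : QS (n + 1)) :
    ∃ c : ℚ, tr (rh φ (n + 1) z) = c • tr (𝟙 M) ∧
      ∀ (k : ℕ) (j : Fin k), ptrn n (rh φ (k + n) (emb (nw k n j) z)) = c • 𝟙 (T M k) := by
  obtain ⟨χ, hχ⟩ := hunit (tr (𝟙 M))
  induction n with
  | zero =>
    have hz : ∃ c : ℚ, z = MonoidAlgebra.single 1 c := by
      induction z using MonoidAlgebra.induction_linear with
      | zero => exact ⟨0, by simp⟩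
      | add x y hx hy =>
        obtain ⟨c, rfl⟩ := hx
        obtain ⟨d, rfl⟩ := hy
        exact ⟨c + d, by simp⟩
      | single g c =>
        have hg : g = 1 := by
          ext x
          have h1 := (g x).isLt
          have h2 := ((1 : Equiv.Perm (Fin (0 + 1))) x).isLt
          omega
        exact ⟨c, by rw [hg]⟩
    obtain ⟨c, rfl⟩ := hz
    refine ⟨c, ?_, fun k j => ?_⟩
    · have h1 : rh φ (0 + 1) (MonoidAlgebra.single 1 c) =
          c • (𝟙 (𝟙_ 𝒜 ⊗ M) : 𝟙_ 𝒜 ⊗ M ⟶ 𝟙_ 𝒜 ⊗ M) := by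
        rw [rh_single]
        congr 1
        exact map_one (φ (0 + 1))
      rw [h1]
      have h2 : tr (c • (𝟙 (𝟙_ 𝒜 ⊗ M) : 𝟙_ 𝒜 ⊗ M ⟶ 𝟙_ 𝒜 ⊗ M)) =
          c • (χ • 𝟙 (𝟙_ 𝒜)) := by
        rw [← tr_ptr, ptr_smul, ptr_id hχ, smul_smul]
        have h3 : ∀ d : ℚ, tr (d • 𝟙 (𝟙_ 𝒜)) = d • 𝟙 (𝟙_ 𝒜) := by
          intro d
          have h4 := tr_id_unit (𝒜 := 𝒜)
          rw [tr_eq] at h4 ⊢
          rw [MonoidalLinear.smul_whiskerRight, Linear.smul_comp, Linear.comp_smul, h4]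
        rw [h3]
      rw [hχ]
      exact h2
    · rw [emb_single, map_one]
      show rh φ k (MonoidAlgebra.single 1 c) = _
      rw [rh_single]
      have h3 : (φ k 1 : T M k ⟶ T M k) = 𝟙 _ := map_one (φ k)
      rw [h3]
  | succ n ih =>
    obtain ⟨y, hy⟩ := exists_contr hφ hχ z
    obtain ⟨c, h1, h2⟩ := ih y
    refine ⟨c, ?_, fun k j => ?_⟩
    · have h3 := hy (n + 1) (Function.Embedding.refl _)
      rw [lft_refl, emb_refl, emb_refl] at h3
      rw [← h1, ← h3]
      exact (tr_ptr _).symm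
    · rw [← h2 k j, ← hy (k + n) (nw k n j), nw_succ]
      rfl

end cat

end Pool.Agent.Helper96.SP
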