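import Pool.Agent.Helper96.SP.PTEN
import Pool.Graph.R_pool_sql_team_seeded_ab47071d.TH90.Kim.Main4

/-!
# Nilpotence for the tensor powers of a Kimura-finite object
-/

open CategoryTheory MonoidalCategory Limits BraidedCategory

universe u v w

namespace Pool.Agent.Helper96.SP

open Pool.Agent.TH90.AB Pool.Agent.TH90.Kim Pool.Agent.Helper96.Kim

set_option linter.unusedSectionVars false

variable {𝒜 : Type u} [Category.{v} 𝒜] [MonoidalCategory 𝒜] [SymmetricCategory 𝒜]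
  [Preadditive 𝒜] [MonoidalPreadditive 𝒜] [Linear ℚ 𝒜] [MonoidalLinear ℚ 𝒜]
  [hdual : ∀ X : 𝒜, HasRightDual X] {K : Type w} [Field K] [CharZero K] (F : Realisation 𝒜 K)

namespace NILT

/-- The ideal of invisible endomorphisms is nilpotent. -/
def NilI (X : 𝒜) : Prop :=
  ∃ N, ∀ l : List (End X), (∀ x ∈ l, x ∈ F.I X) → l.length = N → l.prod = 0

omit hdual in
lemma prod_retract {X Y : 𝒜} (i : Y ⟶ X) (r : X ⟶ Y) (hir : i ≫ r = 𝟙 Y) (l : List (End Y)) :
    i ≫ (show X ⟶ X from (l.map fun y : End Y => (show End X from r ≫ y ≫ i)).prod) ≫ r =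
      (show Y ⟶ Y from l.prod) := by
  induction l with
  | nil =>
    simp only [List.map_nil, List.prod_nil]
    change i ≫ 𝟙 X ≫ r = 𝟙 Y
    rw [Category.id_comp, hir]
  | cons y l ih =>
    simp only [List.map_cons, List.prod_cons]
    change i ≫ ((show X ⟶ X from (l.map fun y : End Y => (show End X from r ≫ y ≫ i)).prod) ≫
      (r ≫ y ≫ i)) ≫ r = (show Y ⟶ Y from l.prod) ≫ y
    rw [← ih]
    simp only [Category.assoc]
    rw [hir, Category.comp_id]

omit hdual in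
lemma nil_retract {X Y : 𝒜} (i : Y ⟶ X) (r : X ⟶ Y) (hir : i ≫ r = 𝟙 Y) (h : NilI F X) :
    NilI F Y := by
  obtain ⟨N, hN⟩ := h
  refine ⟨N, fun l hl hlN => ?_⟩
  have h1 := prod_retract i r hir l
  rw [hN (l.map fun y : End Y => (show End X from r ≫ y ≫ i)) ?_ (by rw [List.length_map, hlN])]
    at h1
  · change i ≫ (0 : X ⟶ X) ≫ r = _ at h1
    rw [zero_comp, comp_zero] at h1
    exact h1.symm
  · intro x hx
    obtain ⟨y, hy, rfl⟩ := List.mem_map.mp hx
    exact F.inv_comp_right _ (F.inv_comp_left _ (hl y hy))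

omit hdual in
lemma nil_split {X P Q : 𝒜} (S : Split X P Q) (hP : NilI F P) (hQ : NilI F Q) : NilI F X := by
  have half : ∀ {P : 𝒜} (i : P ⟶ X) (r : X ⟶ P), NilI F P →
      ∃ a, Zc (R := End X) (F.I X) (r ≫ i) a 1 := by
    intro P i r hP
    obtain ⟨a, ha⟩ := hP
    refine ⟨a, fun d l hl hla => ?_⟩
    have h1 : (l.map (fun y : End X => (show End P from i ≫ y ≫ r))).prod = 0 := by
      apply ha
      · intro x hx
        obtain ⟨y, hy, rfl⟩ := List.mem_map.mp hx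
        exact F.inv_comp_right _ (F.inv_comp_left _ (hl y hy))
      · rw [List.length_map, hla]
    have h2 := ch_eq i r l
    have h3 : ch (R := End X) (r ≫ i) l = 0 := by
      refine h2.trans ?_
      rw [h1]
      change r ≫ (0 : P ⟶ P) ≫ i = 0
      rw [zero_comp, comp_zero]
    rw [h3, mul_zero]
  obtain ⟨a, ha⟩ := half S.i S.r hP
  obtain ⟨b, hb⟩ := half S.j S.s hQ
  obtain ⟨N, hN⟩ := corner (F.idl X) (p := (show End X from S.r ≫ S.i))
    (q := (show End X from S.s ≫ S.j)) S.sum (a + b) a b rfl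
  refine ⟨N, fun l hl hlN => ?_⟩
  have := hN 1 ha hb l hl hlN
  rwa [one_mul] at this

omit hdual in
/-- Direct sums and tensor products. -/
def splitWhisker {X P Q : 𝒜} (S : Split X P Q) (U A : 𝒜) :
    Split (U ⊗ (X ⊗ A)) (U ⊗ (P ⊗ A)) (U ⊗ (Q ⊗ A)) where
  i := U ◁ (S.i ▷ A)
  r := U ◁ (S.r ▷ A)
  j := U ◁ (S.j ▷ A)
  s := U ◁ (S.s ▷ A)
  ir := by rw [← MonoidalCategory.whiskerLeft_comp, ← comp_whiskerRight, S.ir]; simp
  js := by rw [← MonoidalCategory.whiskerLeft_comp, ← comp_whiskerRight, S.js]; simp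
  sum := by
    rw [← MonoidalCategory.whiskerLeft_comp, ← comp_whiskerRight,
      ← MonoidalCategory.whiskerLeft_comp, ← comp_whiskerRight,
      ← MonoidalPreadditive.whiskerLeft_add, ← MonoidalPreadditive.add_whiskerRight, S.sum]
    simp

variable (hunit : ∀ f : 𝟙_ 𝒜 ⟶ 𝟙_ 𝒜, ∃ q : ℚ, f = q • 𝟙 (𝟙_ 𝒜))

include F in
omit hdual in
lemma pos_of_powZero {ε : ℚ} {P : 𝒜} {n : ℕ} (h : PowZero ε P n) : ∃ k, n = k + 1 := by
  match n, h with
  | 0, h => exact absurd (h _ (𝟙 _) (fun s hs => by cases hs)) (unit_ne F)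
  | m + 1, _ => exact ⟨m, rfl⟩

include hunit

lemma key {D : 𝒜} (hD : KimuraFinite D) (m : ℕ) : ∀ {A : 𝒜} {η : ℚ} {a : ℕ},
    (η = 1 ∨ η = -1) → PowZero η A (a + 1) → NilI F (T D m ⊗ A) := by
  induction m with
  | zero =>
    intro A η a hη hA
    have h1 : NilI F A := F.nilp_of_powZero hunit
      (by rcases hη with rfl | rfl <;> norm_num) hA
    exact nil_retract F (λ_ A).hom (λ_ A).inv (Iso.hom_inv_id _) h1
  | succ m ih =>
    intro A η a hη hA
    obtain ⟨P, Q, ⟨S⟩, ⟨n, hP⟩, ⟨l, hQ⟩⟩ := hD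
    obtain ⟨n, rfl⟩ := pos_of_powZero F hP
    obtain ⟨l, rfl⟩ := pos_of_powZero F hQ
    have h1 : NilI F (T D m ⊗ (P ⊗ A)) := by
      refine ih (η := -((-1) * η)) (a := n * a) ?_ (ten (Or.inr rfl) hη hP hA)
      rcases hη with rfl | rfl <;> norm_num
    have h2 : NilI F (T D m ⊗ (Q ⊗ A)) := by
      refine ih (η := -(1 * η)) (a := l * a) ?_ (ten (Or.inl rfl) hη hQ hA)
      rcases hη with rfl | rfl <;> norm_num
    have h3 := nil_split F (splitWhisker S (T D m) A) h1 h2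
    exact nil_retract F (α_ (T D m) D A).hom (α_ (T D m) D A).inv (Iso.hom_inv_id _) h3

end NILT

theorem nilt (hunit : ∀ f : 𝟙_ 𝒜 ⟶ 𝟙_ 𝒜, ∃ q : ℚ, f = q • 𝟙 (𝟙_ 𝒜)) {D : 𝒜}
    (hD : KimuraFinite D) (m : ℕ) : ∃ N, ∀ l : List (End (T D m)), (∀ x ∈ l, x ∈ F.I (T D m)) →
      l.length = N → l.prod = 0 := by
  have h : (β_ (𝟙_ 𝒜) (𝟙_ 𝒜)).hom = (1 : ℚ) • 𝟙 _ := by
    rw [one_smul, braiding_tensorUnit_right, ← unitors_equal, Iso.hom_inv_id]
  have h1 := NILT.key F hunit hD m (Or.inr rfl) (powZero_two_of_braiding (c := 1) (by norm_num) h)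
  exact NILT.nil_retract F (ρ_ _).inv (ρ_ _).hom (Iso.inv_hom_id _) h1

end Pool.Agent.Helper96.SP
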