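import Pool.Agent.Helper96.KimRank
import Mathlib.GroupTheory.Perm.ViaEmbedding
import Mathlib.GroupTheory.Perm.Fin
import Mathlib.Algebra.MonoidAlgebra.Basic

/-!
# Permutations of the factors of the tensor powers: the definitions

The factors of `T M n` are numbered from the right: `0` is the last factor.
-/

open CategoryTheory MonoidalCategory Limits BraidedCategory

universe u v w

namespace Pool.Agent.Helper96.SP

open Pool.Agent.TH90.AB Pool.Agent.TH90.Kim Pool.Agent.Helper96.Kim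

noncomputable section

/-- The permutation fixing `0` and acting as `σ` on the successors. -/
def up {n : ℕ} (σ : Equiv.Perm (Fin n)) : Equiv.Perm (Fin (n + 1)) :=
  Equiv.Perm.decomposeFin.symm (0, σ)

/-- The group algebra of the symmetric group. -/
abbrev QS (n : ℕ) : Type := MonoidAlgebra ℚ (Equiv.Perm (Fin n))

/-- A permutation of `Fin a` as a permutation of the image of `β` in `Fin b`. -/
abbrev emb {a b : ℕ} (β : Fin a ↪ Fin b) : QS a →ₐ[ℚ] QS b :=
  MonoidAlgebra.mapDomainAlgHom ℚ ℚ (Equiv.Perm.viaEmbeddingHom β)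

/-- The product of the copies of `z` in the blocks `β 0`, …, `β (m - 1)`. -/
def bp {a b m : ℕ} (β : Fin m → (Fin a ↪ Fin b)) (z : QS a) : QS b :=
  (List.ofFn fun t => emb (β t) z).prod

/-- The sign for `ε = -1`, and the trivial character for `ε = 1`. -/
def sg {n : ℕ} (ε : ℚ) (g : Equiv.Perm (Fin n)) : ℚ :=
  if ε = 1 then 1 else ((Equiv.Perm.sign g : ℤ) : ℚ)

/-- The sum (`ε = 1`) or the signed sum (`ε = -1`) of all permutations. -/
def alt (ε : ℚ) (n : ℕ) : QS n := ∑ g, MonoidAlgebra.single g (sg ε g)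

/-- The new positions `0`, …, `n - 1` and the old position `j`. -/
def nw (k n : ℕ) (j : Fin k) : Fin (n + 1) ↪ Fin (k + n) where
  toFun i := if h : (i : ℕ) < n then ⟨i, by omega⟩ else ⟨j + n, by omega⟩
  inj' := by
    intro a b h
    simp only at h
    split_ifs at h with h1 h2 h2
    · simpa [Fin.ext_iff] using h
    · simp [Fin.ext_iff] at h; omega
    · simp [Fin.ext_iff] at h; omega
    · exact Fin.ext (by omega)

/-- `m + n * t`. -/
def sz (m n : ℕ) : ℕ → ℕ
  | 0 => m
  | t + 1 => sz m n t + n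

section

variable {𝒜 : Type u} [Category.{v} 𝒜] [MonoidalCategory 𝒜] [SymmetricCategory 𝒜]

/-- `f` on the old factors and the identity on `n` new factors. -/
def wh {M : 𝒜} {k l : ℕ} (f : T M k ⟶ T M l) : ∀ n, T M (k + n) ⟶ T M (l + n)
  | 0 => f
  | n + 1 => wh f n ▷ M

/-- The powers of `M` : `T M a ⊗ T M b ≅ T M (a + b)`. -/
def kap (M : 𝒜) (a : ℕ) : ∀ b, T M a ⊗ T M b ≅ T M (a + b)
  | 0 => ρ_ _
  | b + 1 => (α_ _ _ _).symm ≪≫ whiskerRightIso (kap M a b) M

/-- The contraction of the last `n` factors. -/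
def ptrn [hdual : ∀ X : 𝒜, HasRightDual X] {M : 𝒜} {k l : ℕ} :
    ∀ n, (T M (k + n) ⟶ T M (l + n)) → (T M k ⟶ T M l)
  | 0 => fun g => g
  | n + 1 => fun g => ptrn n (ptr g)

/-- A family of homomorphisms from the symmetric groups to the automorphisms of tensor powers. -/
abbrev Fam (M : 𝒜) : Type v := ∀ n : ℕ, Equiv.Perm (Fin n) →* End (T M n)

/-- `φ` is the action of the symmetric groups by permutation of the factors. -/
structure PA {M : 𝒜} (φ : Fam M) : Prop where
  up : ∀ (n : ℕ) (σ : Equiv.Perm (Fin n)),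
    φ (n + 1) (up σ) = ((φ n σ : T M n ⟶ T M n) ▷ M : T M n ⊗ M ⟶ T M n ⊗ M)
  swap : ∀ n : ℕ, φ (n + 2) (Equiv.swap 0 1) = sw (T M n) M

variable [Preadditive 𝒜] [MonoidalPreadditive 𝒜] [Linear ℚ 𝒜] [MonoidalLinear ℚ 𝒜]

/-- The action of the group algebra. -/
def rho {M : 𝒜} (φ : Fam M) (n : ℕ) : QS n →ₐ[ℚ] End (T M n) :=
  MonoidAlgebra.lift ℚ (End (T M n)) (Equiv.Perm (Fin n)) (φ n)

/-- The action of an element of the group algebra, as a morphism. -/
def rh {M : 𝒜} (φ : Fam M) (n : ℕ) (x : QS n) : T M n ⟶ T M n := rho φ n x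

/-- The pure tensor `v (n - 1) ⊗ … ⊗ v 0`. -/
def wd {K : Type w} [Field K] [CharZero K] (F : Realisation 𝒜 K) {M : 𝒜} :
    ∀ n : ℕ, (Fin n → F.V M) → F.V (T M n)
  | 0 => fun _ => F.one
  | n + 1 => fun v => F.ext (wd F n fun j => v j.succ) (v 0)

end

end

end Pool.Agent.Helper96.SP
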