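import Pool.Agent.Helper96.SP.Defs2
import Mathlib.Algebra.DirectSum.Module
import Mathlib.LinearAlgebra.Basis.Basic

/-!
# Gradings of realisations and the Künneth standard conjecture
-/

open CategoryTheory MonoidalCategory Limits BraidedCategory

universe u v w

namespace Pool.Agent.Helper96.SP

open Pool.Agent.TH90.AB Pool.Agent.TH90.Kim Pool.Agent.Helper96.Kim

noncomputable section

variable {𝒜 : Type u} [Category.{v} 𝒜] [MonoidalCategory 𝒜] [SymmetricCategory 𝒜]
  [Preadditive 𝒜] [MonoidalPreadditive 𝒜] [Linear ℚ 𝒜] [MonoidalLinear ℚ 𝒜]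
  {K : Type w} [Field K] [CharZero K]

/-- A grading of the realisation: `gr X k` is the cohomology `H^k(X)`, compatible with morphisms and
exterior products, and the parity of the realisation is the parity of the degree. -/
structure Grading (F : Realisation 𝒜 K) where
  gr : ∀ X : 𝒜, ℤ → Submodule K (F.V X)
  internal : ∀ X, DirectSum.IsInternal (gr X)
  map_mem : ∀ {X Y : 𝒜} (f : X ⟶ Y) (k : ℤ) (x : F.V X), x ∈ gr X k → F.map f x ∈ gr Y k
  ext_mem : ∀ {X Y : 𝒜} (k l : ℤ) (x : F.V X) (y : F.V Y), x ∈ gr X k → y ∈ gr Y l →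
    F.ext x y ∈ gr (X ⊗ Y) (k + l)
  one_mem : F.one ∈ gr (𝟙_ 𝒜) 0
  even : ∀ (X : 𝒜) (k : ℤ), Even k → ∀ x ∈ gr X k, F.par X x = x
  odd : ∀ (X : 𝒜) (k : ℤ), Odd k → ∀ x ∈ gr X k, F.par X x = -x

/-- The algebraic operators on the realisation of `M`: the `K`-span of the operators given by the
endomorphisms of `M`. -/
def AlgOp (F : Realisation 𝒜 K) (M : 𝒜) : Submodule K (F.V M →ₗ[K] F.V M) :=
  Submodule.span K (Set.range fun f : M ⟶ M => F.map f)

/-- The Künneth standard conjecture for `M`: the projectors onto the cohomology groups of `M` are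
algebraic. -/
def Kunneth {F : Realisation 𝒜 K} (G : Grading F) (M : 𝒜) : Prop :=
  ∀ k : ℤ, ∃ p ∈ AlgOp F M, (∀ x ∈ G.gr M k, p x = x) ∧ ∀ l, l ≠ k → ∀ x ∈ G.gr M l, p x = 0

/-- The number of letters `i` in the word `w`. -/
def cnt {ι : Type} [DecidableEq ι] {n : ℕ} (w : Fin n → ι) (i : ι) : ℕ :=
  (Finset.univ.filter fun k => w k = i).card

/-- The degree of a word. -/
def dg {ι : Type} (g : ι → ℤ) {n : ℕ} (w : Fin n → ι) : ℤ := ∑ k, g (w k)

end

end Pool.Agent.Helper96.SP
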