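import Pool.Agent.Helper96.SP.Defs4
import Pool.Graph.R_pool_sql_team_seeded_ab47071d.TH90.Kim.Light

/-!
# Graded realisations, in small pieces
-/

open CategoryTheory MonoidalCategory Limits BraidedCategory

universe u v w

namespace Pool.Agent.Helper96.SP

open Pool.Agent.TH90.AB Pool.Agent.TH90.Kim Pool.Agent.Helper96.Kim

noncomputable section

variable {𝒜 : Type u} [Category.{v} 𝒜] [MonoidalCategory 𝒜] {K : Type w} [Field K]

/-- Subspaces `gr X k = H^k (X)` of the realisations. -/
structure Degrees (F : RealData 𝒜 K) where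
  gr : ∀ X : 𝒜, ℤ → Submodule K (F.V X)

/-- The realisation of `X` is the direct sum of the `H^k (X)`. -/
def Degrees.Direct {F : RealData 𝒜 K} (G : Degrees F) : Prop :=
  ∀ X : 𝒜, DirectSum.IsInternal (G.gr X)

/-- Morphisms preserve the degrees. -/
def Degrees.Natural {F : RealData 𝒜 K} (G : Degrees F) : Prop :=
  ∀ (X Y : 𝒜) (f : X ⟶ Y) (k : ℤ) (x : F.V X), x ∈ G.gr X k → F.map f x ∈ G.gr Y k

/-- Degrees are added in exterior products, and the unit has degree `0`. -/
structure Degrees.Exterior {F : RealData 𝒜 K} (G : Degrees F) : Prop where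
  ext : ∀ (X Y : 𝒜) (k l : ℤ) (x : F.V X) (y : F.V Y), x ∈ G.gr X k → y ∈ G.gr Y l →
    F.ext x y ∈ G.gr (X ⊗ Y) (k + l)
  one : F.one ∈ G.gr (𝟙_ 𝒜) 0

/-- The parity is the parity of the degree. -/
structure Degrees.Parity {F : RealData 𝒜 K} (G : Degrees F) : Prop where
  even : ∀ (X : 𝒜) (k : ℤ) (x : F.V X), Even k → x ∈ G.gr X k → F.par x = x
  odd : ∀ (X : 𝒜) (k : ℤ) (x : F.V X), Odd k → x ∈ G.gr X k → F.par x = -x

/-- A grading of the realisation by cohomology groups `gr X k = H^k (X)`. -/
structure CohomologyGrading (F : RealData 𝒜 K) extends Degrees F where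
  direct : toDegrees.Direct
  natural : toDegrees.Natural
  exterior : toDegrees.Exterior
  parity : toDegrees.Parity

/-- The algebraic operators on the realisation of `M` with coefficients in the subfield `L` of `K`:
the `L`-linear combinations of the operators given by the endomorphisms of `M`. -/
def algebraicOps (L : Subfield K) (F : RealData 𝒜 K) (M : 𝒜) : Submodule L (F.V M → F.V M) :=
  Submodule.span L (Set.range fun f : M ⟶ M => (F.map f : F.V M → F.V M))

/-- The Künneth standard conjecture for `M` with coefficients in `L`: the projections of the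
realisation of `M` onto the cohomology groups of `M` are algebraic operators with coefficients in
`L`. -/
def StandardC (L : Subfield K) {F : RealData 𝒜 K} (G : CohomologyGrading F) (M : 𝒜) : Prop :=
  ∀ k : ℤ, ∃ p ∈ algebraicOps L F M, (∀ x ∈ G.gr M k, p x = x) ∧
    ∀ l, l ≠ k → ∀ x ∈ G.gr M l, p x = 0

section bridge

variable [SymmetricCategory 𝒜] [Preadditive 𝒜] [Linear ℚ 𝒜] [CharZero K]
  (F : SuperRealisation 𝒜 K)

/-- The two notions of gradings agree. -/
def CohomologyGrading.toGrading {F : SuperRealisation 𝒜 K} (G : CohomologyGrading F.toRealData) :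
    Grading F.toReal where
  gr := G.gr
  internal := G.direct
  map_mem {X Y} f k x hx := G.natural X Y f k x hx
  ext_mem {X Y} k l x y hx hy := G.exterior.ext X Y k l x y hx hy
  one_mem := G.exterior.one
  even X k hk x hx := G.parity.even X k x hk hx
  odd X k hk x hx := G.parity.odd X k x hk hx

lemma mem_algebraicOps {M : 𝒜} (L : Subfield K) {p : F.V M → F.V M}
    (hp : p ∈ algebraicOps L F.toRealData M) :
    ∃ q ∈ AlgOpL L F.toReal M, ∀ x, q x = p x := by
  unfold algebraicOps at hp
  induction hp using Submodule.span_induction with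
  | mem p hp =>
    obtain ⟨f, rfl⟩ := hp
    exact ⟨F.toReal.map f, Submodule.subset_span ⟨f, rfl⟩, fun x => rfl⟩
  | zero => exact ⟨0, zero_mem _, fun x => rfl⟩
  | add p p' _ _ h h' =>
    obtain ⟨q, hq, hqp⟩ := h
    obtain ⟨q', hq', hqp'⟩ := h'
    refine ⟨q + q', add_mem hq hq', fun x => ?_⟩
    rw [LinearMap.add_apply, hqp, hqp']
    rfl
  | smul c p _ h =>
    obtain ⟨q, hq, hqp⟩ := h
    refine ⟨c • q, Submodule.smul_mem _ _ hq, fun x => ?_⟩
    rw [LinearMap.smul_apply, hqp]
    rfl

lemma mem_AlgOpL {M : 𝒜} (L : Subfield K) {q : F.toReal.V M →ₗ[K] F.toReal.V M}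
    (hq : q ∈ AlgOpL L F.toReal M) :
    ∃ p ∈ algebraicOps L F.toRealData M, ∀ x, p x = q x := by
  unfold AlgOpL at hq
  induction hq using Submodule.span_induction with
  | mem p hp =>
    obtain ⟨f, rfl⟩ := hp
    exact ⟨F.map f, Submodule.subset_span ⟨f, rfl⟩, fun x => rfl⟩
  | zero => exact ⟨0, zero_mem _, fun x => rfl⟩
  | add p p' _ _ h h' =>
    obtain ⟨q, hq, hqp⟩ := h
    obtain ⟨q', hq', hqp'⟩ := h'
    refine ⟨q + q', add_mem hq hq', fun x => ?_⟩
    change q x + q' x = p x + p' x
    rw [hqp, hqp']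
    rfl
  | smul c p _ h =>
    obtain ⟨q, hq, hqp⟩ := h
    refine ⟨c • q, Submodule.smul_mem _ _ hq, fun x => ?_⟩
    change c • q x = c • p x
    rw [hqp]
    rfl

lemma standardC_iff {F : SuperRealisation 𝒜 K} (L : Subfield K)
    (G : CohomologyGrading F.toRealData) (M : 𝒜) :
    StandardC L G M ↔ KunnethL L G.toGrading M := by
  constructor
  · intro h k
    obtain ⟨p, hp, h1, h2⟩ := h k
    obtain ⟨q, hq, hqp⟩ := mem_algebraicOps F L hp
    exact ⟨q, hq, fun x hx => (hqp x).trans (h1 x hx), fun l hl x hx => (hqp x).trans (h2 l hl x hx)⟩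
  · intro h k
    obtain ⟨p, hp, h1, h2⟩ := h k
    obtain ⟨q, hq, hqp⟩ := mem_AlgOpL F L hp
    exact ⟨q, hq, fun x hx => (hqp x).trans (h1 x hx), fun l hl x hx => (hqp x).trans (h2 l hl x hx)⟩

end bridge

end

end Pool.Agent.Helper96.SP
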