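import Pool.Agent.Helper96.SP.Defs

/-!
# BPM: products over disjoint blocks are multiplicative
-/

namespace Pool.Agent.Helper96.SP

/-- Two permutations of disjoint blocks commute. -/
lemma commute_via {a b : ℕ} {β γ : Fin a ↪ Fin b} (h : ∀ i j, β i ≠ γ j)
    (σ τ : Equiv.Perm (Fin a)) :
    Commute (Equiv.Perm.viaEmbeddingHom β σ) (Equiv.Perm.viaEmbeddingHom γ τ) := by
  refine Equiv.Perm.Disjoint.commute fun x => ?_
  by_cases hx : x ∈ Set.range β
  · right
    obtain ⟨i, rfl⟩ := hx
    refine Equiv.Perm.viaEmbedding_apply_of_notMem _ _ _ ?_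
    rintro ⟨j, hj⟩
    exact h i j hj.symm
  · left
    exact Equiv.Perm.viaEmbedding_apply_of_notMem _ _ _ hx

/-- Elements of the group algebras of disjoint blocks commute. -/
lemma commute_emb {a b : ℕ} {β γ : Fin a ↪ Fin b} (h : ∀ i j, β i ≠ γ j) (y z : QS a) :
    Commute (emb β y) (emb γ z) := by
  induction y using MonoidAlgebra.induction_linear with
  | zero => simp
  | add f g hf hg => rw [map_add]; exact hf.add_left hg
  | single σ c =>
    induction z using MonoidAlgebra.induction_linear with
    | zero => simp
    | add f g hf hg => rw [map_add]; exact hf.add_right hg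
    | single τ d =>
      have e1 : emb β (MonoidAlgebra.single σ c) =
          MonoidAlgebra.single (Equiv.Perm.viaEmbeddingHom β σ) c := by
        simp [emb, MonoidAlgebra.mapDomainAlgHom]
      have e2 : emb γ (MonoidAlgebra.single τ d) =
          MonoidAlgebra.single (Equiv.Perm.viaEmbeddingHom γ τ) d := by
        simp [emb, MonoidAlgebra.mapDomainAlgHom]
      rw [e1, e2]
      show _ * _ = _ * _
      rw [MonoidAlgebra.single_mul_single, MonoidAlgebra.single_mul_single,
        (commute_via h σ τ).eq, mul_comm c d]

/-- The product of a list of products. -/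
lemma prod_ofFn_mul {R : Type*} [Monoid R] {m : ℕ} (f g : Fin m → R)
    (h : ∀ i j, i ≠ j → Commute (f i) (g j)) :
    (List.ofFn fun t => f t * g t).prod = (List.ofFn f).prod * (List.ofFn g).prod := by
  induction m with
  | zero => simp
  | succ m ih =>
    rw [List.ofFn_succ, List.ofFn_succ, List.ofFn_succ, List.prod_cons, List.prod_cons,
      List.prod_cons, ih _ _ fun i j hij => h _ _ fun e => hij (Fin.succ_injective _ e)]
    have h1 : Commute (g 0) (List.ofFn fun i : Fin m => f i.succ).prod := by
      refine Commute.list_prod_right _ _ fun x hx => ?_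
      obtain ⟨i, rfl⟩ := (List.mem_ofFn' _ _).1 hx
      exact (h _ _ (Fin.succ_ne_zero i)).symm
    calc f 0 * g 0 * ((List.ofFn fun i : Fin m => f i.succ).prod *
          (List.ofFn fun i : Fin m => g i.succ).prod)
        = f 0 * (g 0 * (List.ofFn fun i : Fin m => f i.succ).prod) *
          (List.ofFn fun i : Fin m => g i.succ).prod := by simp only [mul_assoc]
      _ = _ := by rw [h1.eq]; simp only [mul_assoc]

/-- BPM -/
theorem bp_mul {a b m : ℕ} (β : Fin m → (Fin a ↪ Fin b))
    (hβ : Function.Injective fun p : Fin m × Fin a => β p.1 p.2) (y z : QS a) :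
    bp β (y * z) = bp β y * bp β z := by
  unfold bp
  rw [← prod_ofFn_mul]
  · simp only [map_mul]
  · intro s t hst
    refine commute_emb (fun i j e => hst ?_) y z
    have := @hβ (s, i) (t, j) e
    exact congrArg Prod.fst this

end Pool.Agent.Helper96.SP
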