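import Pool.Agent.Helper96.SP.PKAP
import Pool.Agent.Helper96.SP.PUP

/-!
# Direct summands cut out by products over blocks (package CHART)
-/

set_option autoImplicit false

open CategoryTheory MonoidalCategory Limits BraidedCategory

universe u v w

namespace Pool.Agent.Helper96.SP

open Pool.Agent.TH90.AB Pool.Agent.TH90.Kim Pool.Agent.Helper96.Kim

set_option linter.unusedSectionVars false

namespace CHX

lemma via_trans {a b c : ℕ} (β : Fin a ↪ Fin b) (γ : Fin b ↪ Fin c) (g : Equiv.Perm (Fin a)) :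
    Equiv.Perm.viaEmbeddingHom (β.trans γ) g =
      Equiv.Perm.viaEmbeddingHom γ (Equiv.Perm.viaEmbeddingHom β g) := by
  symm
  refine eq_via (β.trans γ) g (fun j => ?_) fun j hj => ?_
  · rw [Function.Embedding.trans_apply, Function.Embedding.trans_apply, via_apply, via_apply]
  · by_cases h : j ∈ Set.range γ
    · obtain ⟨i, rfl⟩ := h
      rw [via_apply, via_apply_of_notMem]
      rintro ⟨k, rfl⟩
      exact hj ⟨k, rfl⟩
    · exact via_apply_of_notMem γ _ h

lemma emb_trans {a b c : ℕ} (β : Fin a ↪ Fin b) (γ : Fin b ↪ Fin c) (x : QS a) :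
    emb (β.trans γ) x = emb γ (emb β x) := by
  induction x using MonoidAlgebra.induction_linear with
  | zero => rw [map_zero, map_zero, map_zero]
  | add x y hx hy => rw [map_add, map_add, map_add, hx, hy]
  | single g c => rw [UPX.emb_single, UPX.emb_single, UPX.emb_single, via_trans]

lemma bp_trans {a b c m : ℕ} (β : Fin m → (Fin a ↪ Fin b)) (γ : Fin b ↪ Fin c) (z : QS a) :
    bp (fun t => (β t).trans γ) z = emb γ (bp β z) := by
  unfold bp
  rw [map_list_prod, List.map_ofFn]
  congr 2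
  funext t
  exact emb_trans _ _ _

lemma prod_conj {R : Type*} [Monoid R] {s s' : R} (h : s' * s = 1) (h' : s * s' = 1) {m : ℕ}
    (f : Fin m → R) : (List.ofFn fun t => s * f t * s').prod = s * (List.ofFn f).prod * s' := by
  induction m with
  | zero => simp [h']
  | succ m ih =>
    rw [List.ofFn_succ, List.ofFn_succ, List.prod_cons, List.prod_cons, ih]
    calc s * f 0 * s' * (s * (List.ofFn fun t : Fin m => f t.succ).prod * s') =
        s * f 0 * (s' * s) * (List.ofFn fun t : Fin m => f t.succ).prod * s' := by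
          simp only [mul_assoc]
      _ = _ := by rw [h]; simp only [mul_assoc, one_mul]

lemma single_inv {n : ℕ} (π : Equiv.Perm (Fin n)) :
    (MonoidAlgebra.single π⁻¹ 1 : QS n) * MonoidAlgebra.single π 1 = 1 := by
  rw [MonoidAlgebra.single_mul_single, inv_mul_cancel, one_mul]
  rfl

lemma single_inv' {n : ℕ} (π : Equiv.Perm (Fin n)) :
    (MonoidAlgebra.single π 1 : QS n) * MonoidAlgebra.single π⁻¹ 1 = 1 := by
  rw [MonoidAlgebra.single_mul_single, mul_inv_cancel, one_mul]
  rfl

lemma bp_conj {a b m : ℕ} (β β' : Fin m → (Fin a ↪ Fin b)) (π : Equiv.Perm (Fin b))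
    (h : ∀ t i, π (β t i) = β' t i) (z : QS a) :
    bp β' z = MonoidAlgebra.single π 1 * bp β z * MonoidAlgebra.single π⁻¹ 1 := by
  unfold bp
  rw [← prod_conj (single_inv π) (single_inv' π)]
  congr 2
  funext t
  exact UPX.emb_conj (β t) (β' t) π (h t) z

lemma bp_succ {a b m : ℕ} (β : Fin (m + 1) → (Fin a ↪ Fin b)) (z : QS a) :
    bp β z = emb (β 0) z * bp (fun t => β t.succ) z := by
  unfold bp
  rw [List.ofFn_succ, List.prod_cons]

section cat

variable {𝒜 : Type u} [Category.{v} 𝒜] [MonoidalCategory 𝒜] [SymmetricCategory 𝒜]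
  [Preadditive 𝒜] [MonoidalPreadditive 𝒜] [Linear ℚ 𝒜] [MonoidalLinear ℚ 𝒜]

lemma rh_one {M : 𝒜} (φ : Fam M) (n : ℕ) : rh φ n 1 = 𝟙 (T M n) := map_one (rho φ n)

lemma kap_right_rh {M : 𝒜} {φ : Fam M} (hφ : PA φ) (a b : ℕ) (h : b ≤ a + b) (x : QS b) :
    T M a ◁ rh φ b x ≫ (kap M a b).hom = (kap M a b).hom ≫
      rh φ (a + b) (emb (Fin.castLEEmb h) x) := by
  induction x using MonoidAlgebra.induction_linear with
  | zero =>
    rw [map_zero, UPX.rh_zero, UPX.rh_zero, MonoidalPreadditive.whiskerLeft_zero, zero_comp,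
      comp_zero]
  | add x y hx hy =>
    rw [map_add, UPX.rh_add, UPX.rh_add, MonoidalPreadditive.whiskerLeft_add,
      Preadditive.add_comp, Preadditive.comp_add, hx, hy]
  | single g c =>
    rw [UPX.emb_single, UPX.rh_single, UPX.rh_single, MonoidalLinear.whiskerLeft_smul,
      Linear.smul_comp, Linear.comp_smul, kap_right hφ]

end cat

end CHX

section cat

open CHX

variable {𝒜 : Type u} [Category.{v} 𝒜] [MonoidalCategory 𝒜] [SymmetricCategory 𝒜]
  [Preadditive 𝒜] [MonoidalPreadditive 𝒜] [Linear ℚ 𝒜] [MonoidalLinear ℚ 𝒜]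

/-- CHART (from KAP1, KAP2, UP) -/
theorem chart {M : 𝒜} {φ : Fam M} (hφ : PA φ) {n : ℕ} {e : QS (n + 1)} {D : 𝒜}
    (i : D ⟶ T M (n + 1)) (r : T M (n + 1) ⟶ D) (hir : i ≫ r = 𝟙 D) (hri : r ≫ i = rh φ (n + 1) e)
    {m N : ℕ} (β : Fin m → (Fin (n + 1) ↪ Fin N))
    (hβ : Function.Bijective fun p : Fin m × Fin (n + 1) => β p.1 p.2) :
    ∃ (I : T D m ⟶ T M N) (R : T M N ⟶ T D m), I ≫ R = 𝟙 _ ∧ R ≫ I = rh φ N (bp β e) := by
  induction m generalizing N with
  | zero =>
    have hN : N = 0 := by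
      have := Fintype.card_of_bijective hβ
      simpa using this.symm
    subst hN
    refine ⟨𝟙 (𝟙_ 𝒜), 𝟙 (𝟙_ 𝒜), Category.comp_id _, ?_⟩
    have h1 : bp β e = 1 := by
      unfold bp
      rw [List.ofFn_zero, List.prod_nil]
    rw [h1, rh_one]
    exact Category.comp_id _
  | succ m ih =>
    have hN : N = m * (n + 1) + (n + 1) := by
      have := Fintype.card_of_bijective hβ
      rw [Fintype.card_prod, Fintype.card_fin, Fintype.card_fin, Fintype.card_fin] at this
      rw [← this]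
      ring
    obtain ⟨N', hN'⟩ : ∃ N', N' = m * (n + 1) := ⟨_, rfl⟩
    rw [← hN'] at hN
    subst hN
    obtain ⟨κ, hκ⟩ : ∃ κ : Fin (n + 1) ↪ Fin (N' + (n + 1)), κ = Fin.castLEEmb (by omega) :=
      ⟨_, rfl⟩
    obtain ⟨π, hπ⟩ := UPX.exists_perm (β 0) κ
    have hex : ∀ (t : Fin m) (j : Fin (n + 1)), ∃ y : Fin N',
        Fin.addNatEmb (n + 1) y = π (β t.succ j) := by
      intro t j
      have h1 : n + 1 ≤ (π (β t.succ j) : ℕ) := by
        by_contra hlt
        have h2 : π (β t.succ j) = κ ⟨π (β t.succ j), by omega⟩ := by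
          rw [hκ]; rfl
        rw [← hπ] at h2
        have h3 := π.injective h2
        have h4 := @hβ.1 (t.succ, j) (0, _) h3
        exact absurd (congrArg Prod.fst h4) (Fin.succ_ne_zero t)
      have h2 := (π (β t.succ j)).isLt
      refine ⟨⟨π (β t.succ j) - (n + 1), by omega⟩, Fin.ext ?_⟩
      simp only [Fin.addNatEmb_apply, Fin.val_addNat]
      omega
    choose y hy using hex
    have hyinj : ∀ t j t' j', y t j = y t' j' → t = t' ∧ j = j' := by
      intro t j t' j' h
      have h1 : π (β t.succ j) = π (β t'.succ j') := by rw [← hy, ← hy, h]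
      have h2 := @hβ.1 (t.succ, j) (t'.succ, j') (π.injective h1)
      exact ⟨Fin.succ_injective _ (congrArg Prod.fst h2), congrArg Prod.snd h2⟩
    let β' : Fin m → (Fin (n + 1) ↪ Fin N') := fun t =>
      ⟨y t, fun j j' h => (hyinj t j t j' h).2⟩
    have hβ' : Function.Bijective fun p : Fin m × Fin (n + 1) => β' p.1 p.2 := by
      refine (Fintype.bijective_iff_injective_and_card _).2 ⟨?_, ?_⟩
      · rintro ⟨t, j⟩ ⟨t', j'⟩ h
        obtain ⟨h1, h2⟩ := hyinj t j t' j' h
        rw [h1, h2]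
      · rw [Fintype.card_prod, Fintype.card_fin, Fintype.card_fin, Fintype.card_fin, hN']
    obtain ⟨I', R', h1, h2⟩ := ih β' hβ'
    let I0 : T D m ⊗ D ⟶ T M (N' + (n + 1)) := (I' ⊗ₘ i) ≫ (kap M N' (n + 1)).hom
    let R0 : T M (N' + (n + 1)) ⟶ T D m ⊗ D := (kap M N' (n + 1)).inv ≫ (R' ⊗ₘ r)
    have hIR : I0 ≫ R0 = 𝟙 _ := by
      simp only [I0, R0, Category.assoc, Iso.hom_inv_id_assoc]
      rw [MonoidalCategory.tensorHom_comp_tensorHom, h1, hir, MonoidalCategory.id_tensorHom_id]
    have hZ : bp (fun t => (β t).trans π.toEmbedding) e =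
        emb κ e * emb (Fin.addNatEmb (n + 1)) (bp β' e) := by
      rw [bp_succ, ← bp_trans]
      congr 1
      · congr 1
        congr 1
        ext j
        exact congrArg Fin.val (hπ j)
      · congr 1
        funext t
        ext j
        exact congrArg Fin.val (hy t j).symm
    have hRI : R0 ≫ I0 = rh φ (N' + (n + 1)) (bp (fun t => (β t).trans π.toEmbedding) e) := by
      rw [hZ, UPX.rh_mul, rh_shift hφ, hκ]
      simp only [I0, R0, Category.assoc]
      rw [← Category.assoc (R' ⊗ₘ r), MonoidalCategory.tensorHom_comp_tensorHom, h2, hri,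
        MonoidalCategory.tensorHom_def, Category.assoc, kap_right_rh hφ _ _ (by omega),
        ← Category.assoc (rh φ N' (bp β' e) ▷ T M (n + 1)), kap_left]
      simp
    have hconj := bp_conj (fun t => (β t).trans π.toEmbedding) β π⁻¹ (fun t j => by
      exact π.symm_apply_apply (β t j)) e
    rw [inv_inv] at hconj
    have hππ : rh φ (N' + (n + 1)) (MonoidAlgebra.single π⁻¹ 1) ≫
        rh φ (N' + (n + 1)) (MonoidAlgebra.single π 1) = 𝟙 _ := by
      rw [← UPX.rh_mul, single_inv', rh_one]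
    refine ⟨I0 ≫ rh φ (N' + (n + 1)) (MonoidAlgebra.single π⁻¹ 1),
      rh φ (N' + (n + 1)) (MonoidAlgebra.single π 1) ≫ R0, ?_, ?_⟩
    · rw [Category.assoc, reassoc_of% hππ, hIR]
    · rw [hconj, UPX.rh_mul, UPX.rh_mul, ← hRI]
      simp only [Category.assoc]

end cat

end Pool.Agent.Helper96.SP
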