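import Pool.Agent.Helper96.SP.PWD
import Pool.Agent.Helper96.KimTr
import Mathlib.LinearAlgebra.Trace
import Mathlib.LinearAlgebra.Matrix.ToLin

/-!
# Positivity of the trace form on the realisation of the group algebra
-/

open CategoryTheory MonoidalCategory Limits BraidedCategory

universe u v w

namespace Pool.Agent.Helper96.SP

open Pool.Agent.TH90.AB Pool.Agent.TH90.Kim Pool.Agent.Helper96.Kim

set_option linter.unusedSectionVars false

section cat

variable {𝒜 : Type u} [Category.{v} 𝒜] [MonoidalCategory 𝒜] [SymmetricCategory 𝒜]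
variable [Preadditive 𝒜] [MonoidalPreadditive 𝒜] [Linear ℚ 𝒜] [MonoidalLinear ℚ 𝒜]
variable [hdual : ∀ X : 𝒜, HasRightDual X]
variable {K : Type w} [Field K] [CharZero K] (F : Realisation 𝒜 K)

namespace POS

open scoped TensorProduct

/-- The contraction of parity times a linear map is the trace. -/
lemma contract_map (N : 𝒜) (g : F.V N →ₗ[K] F.V N) {n : ℕ} (a : Fin n → F.V N)
    (b : Fin n → F.V Nᘁ) (h : F.map (η_ N Nᘁ) F.one = ∑ i, F.ext (a i) (b i)) :
    ∑ i, F.map (ev N) (F.ext (F.par N (g (a i))) (b i)) = (LinearMap.trace K _ g) • F.one := by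
  have hc : ∀ (i : Fin n) (v : F.V N), ∃ c : K, F.map (ε_ N Nᘁ) (F.ext (b i) v) = c • F.one :=
    fun i v => F.span_one _
  choose c hc using hc
  have inj : ∀ x y : K, x • F.one = y • F.one → x = y := fun x y hxy =>
    smul_left_injective K F.one_ne hxy
  let φ : Fin n → Module.Dual K (F.V N) := fun i =>
    { toFun := c i
      map_add' := by
        intro x y
        apply inj
        rw [← hc, add_smul, ← hc, ← hc, _root_.map_add, _root_.map_add]
      map_smul' := by
        intro r x
        apply inj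
        rw [← hc, _root_.map_smul, _root_.map_smul, hc, smul_smul]
        rfl }
  have hz : ∀ v : F.V N, ∑ i, φ i v • a i = v := by
    intro v
    have e1 := ExactPairing.evaluation_coevaluation N Nᘁ
    have e2 := congrArg (fun f => F.map f (F.ext F.one v)) e1
    simp only [F.map_comp, F.whiskerRight, F.left_unit] at e2
    rw [h, map_sum, LinearMap.sum_apply, map_sum, map_sum] at e2
    simp only [F.assoc, F.whiskerLeft, hc, _root_.map_smul] at e2
    have e3 := congrArg (F.map (ρ_ N).hom) e2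
    rw [map_sum] at e3
    simp only [_root_.map_smul, F.right_unit] at e3
    rw [← F.map_comp, Iso.inv_hom_id, F.map_id] at e3
    exact e3
  have hid : g = ∑ i, dualTensorHom K _ _ (φ i ⊗ₜ g (a i)) := by
    refine LinearMap.ext fun v => ?_
    rw [LinearMap.sum_apply]
    simp only [dualTensorHom_apply]
    conv_lhs => rw [← hz v, map_sum]
    simp only [_root_.map_smul]
  have ht : LinearMap.trace K _ g = ∑ i, φ i (g (a i)) := by
    conv_lhs => rw [hid, map_sum]
    refine Finset.sum_congr rfl fun i _ => ?_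
    rw [LinearMap.trace_eq_contract_apply]
    simp
  rw [ht, Finset.sum_smul]
  refine Finset.sum_congr rfl fun i _ => ?_
  rw [F.ev_par, hc]
  rfl

/-- The categorical trace and the trace of the realisation. -/
lemma map_tr_trace {M : 𝒜} {δ : ℚ} (hδ : δ * δ = 1) (hM : ∀ x, F.par M x = (δ : K) • x)
    (f : M ⟶ M) : F.map (tr f) F.one = ((δ : K) * LinearMap.trace K _ (F.map f)) • F.one := by
  obtain ⟨n, a, b, h⟩ := F.exists_sum (F.map (η_ M Mᘁ) F.one)
  have hδ' : (δ : K) * (δ : K) = 1 := by rw [← Rat.cast_mul, hδ, Rat.cast_one]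
  rw [F.map_tr f a b h, mul_smul, ← contract_map F M (F.map f) a b h, Finset.smul_sum]
  refine Finset.sum_congr rfl fun i _ => ?_
  rw [hM, _root_.map_smul, LinearMap.smul_apply, _root_.map_smul, smul_smul, hδ', one_smul]

/-- The dimension of the powers. -/
lemma finrank_T {M : 𝒜} {δ : ℚ} (hδ : δ = 1 ∨ δ = -1) (hM : ∀ x, F.par M x = (δ : K) • x)
    (n : ℕ) : Module.finrank K (F.V (T M n)) = (Module.finrank K (F.V M)) ^ n := by
  have hδδ : δ * δ = 1 := by rcases hδ with rfl | rfl <;> norm_num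
  induction n with
  | zero =>
    rw [pow_zero]
    exact finrank_eq_one F.one F.one_ne fun w => by
      obtain ⟨c, hc⟩ := F.span_one w
      exact ⟨c, hc.symm⟩
  | succ n ih =>
    have hp : ∀ m : ℕ, (δ ^ m) * (δ ^ m) = 1 := fun m => by rw [← mul_pow, hδδ, one_pow]
    have h1 : ∀ z, F.map ((δ ^ (n + 1)) • 𝟙 (T M n ⊗ M)) z = F.par _ z := by
      intro z
      rw [F.map_smul, F.map_id]
      exact (par_T F hM (n + 1) z).symm
    have h2 := F.map_tr_par (g := ptr ((δ ^ (n + 1)) • 𝟙 (T M n ⊗ M)))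
      (c := (Module.finrank K (F.V M) : K)) (fun x => F.map_ptr_par h1 x)
    have h3 := F.map_tr_par (g := (δ ^ (n + 1)) • 𝟙 (T M n ⊗ M)) (c := 1)
      (fun x => by rw [h1, one_smul])
    rw [tr_ptr, h3] at h2
    have h4 := smul_left_injective K F.one_ne h2
    rw [one_mul, ← Nat.cast_mul] at h4
    have h5 : Module.finrank K (F.V (T M n ⊗ M)) =
        Module.finrank K (F.V M) * Module.finrank K (F.V (T M n)) := Nat.cast_injective h4
    rw [pow_succ, ← ih, mul_comm]
    exact h5

end POS

/-- POS (from WD) -/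
theorem pos {M : 𝒜} {φ : Fam M} (hφ : PA φ)
    (hunit : ∀ f : 𝟙_ 𝒜 ⟶ 𝟙_ 𝒜, ∃ q : ℚ, f = q • 𝟙 (𝟙_ 𝒜)) {δ : ℚ} (hδ : δ = 1 ∨ δ = -1)
    (hM : ∀ x, F.par M x = (δ : K) • x) (n : ℕ) (x : QS n) (hx : ¬ F.Inv (rh φ n x)) :
    ∃ y : QS n, tr (rh φ n (y * x)) ≠ 0 := by
  classical
  have hδδ : δ * δ = 1 := by rcases hδ with rfl | rfl <;> norm_num
  set d := Module.finrank K (F.V M) with hd
  let b := Module.finBasis K (F.V M)
  -- the basis of words
  have hspan := WD.span_wd F M (b := b) (by rw [b.span_eq]) n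
  have hcard : Fintype.card (Fin n → Fin d) = Module.finrank K (F.V (T M n)) := by
    rw [POS.finrank_T F hδ hM]
    simp [hd]
  let e := basisOfTopLeSpanOfCardEqFinrank (fun w : Fin n → Fin d => wd F n (b ∘ w)) hspan hcard
  have he : ∀ w, e w = wd F n (b ∘ w) := fun w => by simp [e]
  -- the matrix of an element of the group algebra
  let mt : QS n → Matrix (Fin n → Fin d) (Fin n → Fin d) ℚ := fun z w' w =>
    ∑ g : Equiv.Perm (Fin n), if w ∘ (g⁻¹ : Equiv.Perm (Fin n)) = w' then z.coeff g * sg δ g else 0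
  have hmt : ∀ (z : QS n) (w w' : Fin n → Fin d),
      LinearMap.toMatrix e e (F.map (rh φ n z)) w' w = ((mt z w' w : ℚ) : K) := by
    intro z w w'
    rw [LinearMap.toMatrix_apply, he, WD.rh_wd F hφ hδ hM, map_sum, Finsupp.finsetSum_apply]
    simp only [mt]
    rw [Rat.cast_sum]
    refine Finset.sum_congr rfl fun g _ => ?_
    have e1 : wd F n ((b ∘ w) ∘ (g⁻¹ : Equiv.Perm (Fin n))) =
        e (w ∘ (g⁻¹ : Equiv.Perm (Fin n))) := by rw [he]; rfl
    rw [e1, _root_.map_smul, e.repr_self, Finsupp.smul_apply, Finsupp.single_apply]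
    split_ifs <;> simp
  -- the transpose
  let y : QS n := ∑ g : Equiv.Perm (Fin n), MonoidAlgebra.single g⁻¹ (x.coeff g)
  have hy : ∀ g, y.coeff g = x.coeff g⁻¹ := by
    intro g
    simp only [y]
    rw [MonoidAlgebra.coeff_sum, Finsupp.finsetSum_apply, Finset.sum_eq_single g⁻¹]
    · rw [MonoidAlgebra.coeff_single, inv_inv, Finsupp.single_eq_same]
    · intro h _ hne
      rw [MonoidAlgebra.coeff_single, Finsupp.single_eq_of_ne]
      rintro rfl
      exact hne (inv_inv _).symm
    · simp
  have hty : ∀ w w', mt y w w' = mt x w' w := by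
    intro w w'
    simp only [mt]
    rw [← Equiv.sum_comp (Equiv.inv (Equiv.Perm (Fin n)))]
    refine Finset.sum_congr rfl fun g _ => ?_
    simp only [Equiv.inv_apply, inv_inv, hy, WD.sg_inv]
    have : (w' ∘ (g : Equiv.Perm (Fin n)) = w) ↔ (w ∘ (g⁻¹ : Equiv.Perm (Fin n)) = w') := by
      constructor
      · rintro rfl
        funext i
        simp
      · rintro rfl
        funext i
        simp
    simp only [this]
  refine ⟨y, fun h0 => hx ?_⟩
  have hδn : δ ^ n * δ ^ n = 1 := by rw [← mul_pow, hδδ, one_pow]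
  have h1 := POS.map_tr_trace F hδn (fun x => par_T F hM n x) (rh φ n (y * x))
  rw [h0, F.map_zero'] at h1
  have h2 : ((δ ^ n : ℚ) : K) * LinearMap.trace K _ (F.map (rh φ n (y * x))) = 0 := by
    by_contra hne
    exact (smul_ne_zero hne F.one_ne) h1.symm
  have h3 : LinearMap.trace K _ (F.map (rh φ n (y * x))) = 0 := by
    rcases mul_eq_zero.mp h2 with h | h
    · exfalso
      have : δ ^ n = 0 := by exact_mod_cast h
      rw [this, mul_zero] at hδn
      exact zero_ne_one hδn
    · exact h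
  have h4 : F.map (rh φ n (y * x)) = F.map (rh φ n y) ∘ₗ F.map (rh φ n x) := by
    have h5 : rh φ n (y * x) = rh φ n x ≫ rh φ n y := map_mul (rho φ n) y x
    refine LinearMap.ext fun v => ?_
    rw [h5, F.map_comp, LinearMap.comp_apply]
  rw [h4, LinearMap.trace_eq_matrix_trace K e, LinearMap.toMatrix_comp e e e, Matrix.trace] at h3
  simp only [Matrix.diag_apply, Matrix.mul_apply, hmt, hty] at h3
  have h6 : (∑ w : Fin n → Fin d, ∑ w' : Fin n → Fin d, mt x w' w * mt x w' w : ℚ) = 0 := by
    have : ((∑ w : Fin n → Fin d, ∑ w' : Fin n → Fin d, mt x w' w * mt x w' w : ℚ) : K) = 0 := by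
      rw [← h3]
      push_cast
      rfl
    exact_mod_cast this
  have h7 : ∀ w w', mt x w' w = 0 := by
    intro w w'
    have h8 := (Finset.sum_eq_zero_iff_of_nonneg (fun w _ => Finset.sum_nonneg fun w' _ =>
      mul_self_nonneg (mt x w' w))).mp h6 w (Finset.mem_univ _)
    have h9 := (Finset.sum_eq_zero_iff_of_nonneg (fun w' _ =>
      mul_self_nonneg (mt x w' w))).mp h8 w' (Finset.mem_univ _)
    exact mul_self_eq_zero.mp h9
  have h10 : F.map (rh φ n x) = 0 := by
    apply (LinearMap.toMatrix e e).injective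
    rw [_root_.map_zero]
    ext w' w
    rw [hmt, h7]
    simp
  intro v
  rw [h10]
  rfl

end cat

end Pool.Agent.Helper96.SP
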