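import Mathlib.RingTheory.SimpleModule.WedderburnArtin
import Mathlib.RepresentationTheory.Maschke
import Mathlib.GroupTheory.Perm.ViaEmbedding
import Mathlib.GroupTheory.Perm.Fin
import Mathlib.Combinatorics.Pigeonhole
import Mathlib.Data.Finset.Sort

/-! # CLOS, from the second fundamental theorem as a hypothesis -/

set_option autoImplicit false

open MulOpposite

namespace Pool.Agent.Helper96.SP

variable {k : ℕ}

/-- the permutation action on functions of words -/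
noncomputable def wP (k b : ℕ) : Equiv.Perm (Fin k) →* Module.End ℚ ((Fin k → Fin b) → ℚ) where
  toFun g := LinearMap.funLeft ℚ ℚ fun w => w ∘ g
  map_one' := by
    ext F w
    simp [LinearMap.funLeft]
  map_mul' g h := by
    apply LinearMap.ext
    intro F
    funext w
    simp only [LinearMap.funLeft_apply, Module.End.mul_apply]
    rfl

theorem lift_fin {k : ℕ} {R : Type*} [Ring R] [Algebra ℚ R] (ψ : Equiv.Perm (Fin k) →* R)
    (z : MonoidAlgebra ℚ (Equiv.Perm (Fin k))) :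
    MonoidAlgebra.lift ℚ R (Equiv.Perm (Fin k)) ψ z = ∑ g, z.coeff g • ψ g := by
  classical
  rw [MonoidAlgebra.lift_apply]
  exact Finsupp.sum_fintype _ (fun a b => b • ψ a) fun g => zero_smul ℚ _

theorem ind_word {b : ℕ} (g : Equiv.Perm (Fin k)) (w : Fin k → Fin b)
    (h : w ∘ (g⁻¹ : Equiv.Perm (Fin k)) = w) : wP k b g (Pi.single w (1 : ℚ)) = Pi.single w 1 := by
  classical
  funext u
  change (Pi.single w (1 : ℚ) : (Fin k → Fin b) → ℚ) (u ∘ g) = (Pi.single w 1 : (Fin k → Fin b) → ℚ) u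
  rw [Pi.single_apply, Pi.single_apply]
  have : u ∘ g = w ↔ u = w := by
    constructor
    · intro h1
      rw [← h, ← h1]
      funext x
      simp
    · intro h1
      rw [h1]
      nth_rewrite 1 [← h]
      funext x
      simp
  simp only [this]

theorem word_kill {a b : ℕ} (hk : a * b < k) (z : MonoidAlgebra ℚ (Equiv.Perm (Fin k)))
    (hz : ∀ β : Fin (a + 1) ↪ Fin k, z * ∑ g : Equiv.Perm (Fin (a + 1)),
      MonoidAlgebra.single (Equiv.Perm.viaEmbeddingHom β g) (1 : ℚ) = 0) (w w' : Fin k → Fin b) :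
    ∑ g with w ∘ (g⁻¹ : Equiv.Perm (Fin k)) = w', z.coeff g = 0 := by
  classical
  obtain ⟨y, hy⟩ := Fintype.exists_lt_card_fiber_of_mul_lt_card w (n := a) (by
    rw [Fintype.card_fin, Fintype.card_fin, mul_comm]; exact hk)
  obtain ⟨s, hs, hsc⟩ := Finset.exists_subset_card_eq (show a + 1 ≤ _ from hy)
  obtain ⟨β, hβ⟩ : ∃ β : Fin (a + 1) ↪ Fin k, ∀ i, w (β i) = y := by
    refine ⟨(s.orderEmbOfFin hsc).toEmbedding, fun i => ?_⟩
    have h1 := hs (s.orderEmbOfFin_mem hsc i)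
    exact (Finset.mem_filter.1 h1).2
  obtain ⟨Φ, hΦ⟩ : ∃ Φ, Φ = MonoidAlgebra.lift ℚ (Module.End ℚ ((Fin k → Fin b) → ℚ))
    (Equiv.Perm (Fin k)) (wP k b) := ⟨_, rfl⟩
  have h1 : Φ (∑ g : Equiv.Perm (Fin (a + 1)),
      MonoidAlgebra.single (Equiv.Perm.viaEmbeddingHom β g) (1 : ℚ)) (Pi.single w (1 : ℚ)) =
      ((a + 1).factorial : ℚ) • (Pi.single w (1 : ℚ) : (Fin k → Fin b) → ℚ) := by
    rw [hΦ, map_sum, LinearMap.sum_apply]
    rw [Finset.sum_congr rfl fun g _ => by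
      rw [MonoidAlgebra.lift_single, one_smul, ind_word _ w (by
        funext x
        rw [← map_inv]
        simp only [Function.comp_apply, Equiv.Perm.viaEmbeddingHom_apply]
        by_cases hx : x ∈ Set.range β
        · obtain ⟨i, rfl⟩ := hx
          rw [Equiv.Perm.viaEmbedding_apply, hβ, hβ]
        · rw [Equiv.Perm.viaEmbedding_apply_of_notMem _ _ _ hx])]]
    rw [Finset.sum_const, Finset.card_univ, Fintype.card_perm, Fintype.card_fin, ← Nat.cast_smul_eq_nsmul ℚ]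
  have h2 : Φ z (Pi.single w (1 : ℚ)) = 0 := by
    have h3 := congrArg Φ (hz β)
    rw [map_mul, map_zero] at h3
    have h4 := LinearMap.congr_fun h3 (Pi.single w (1 : ℚ))
    rw [Module.End.mul_apply, h1, map_smul, LinearMap.zero_apply] at h4
    have h5 : ((a + 1).factorial : ℚ) ≠ 0 := by exact_mod_cast (Nat.factorial_pos _).ne'
    exact (smul_eq_zero.1 h4).resolve_left h5
  have h6 := congrFun h2 w'
  rw [hΦ, lift_fin, LinearMap.sum_apply, Finset.sum_apply] at h6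
  rw [Finset.sum_filter]
  refine Eq.trans ?_ (h6.trans (Pi.zero_apply _))
  refine Finset.sum_congr rfl fun g _ => ?_
  change _ = z.coeff g * (Pi.single w (1 : ℚ) : (Fin k → Fin b) → ℚ) (w' ∘ g)
  rw [Pi.single_apply]
  have : w' ∘ g = w ↔ w ∘ (g⁻¹ : Equiv.Perm (Fin k)) = w' := by
    constructor
    · rintro rfl
      funext x
      simp
    · rintro rfl
      funext x
      simp
  simp only [this]
  split_ifs
  · rw [mul_one]
  · rw [mul_zero]

theorem clos_of {k a b : ℕ} (hk : a * b < k) {R : Type*} [Ring R] [Algebra ℚ R]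
    (ψ ψ' : Equiv.Perm (Fin k) →* R) (hc : ∀ g h, ψ g * ψ' h = ψ' h * ψ g)
    (hψ : ∀ β : Fin (a + 1) ↪ Fin k, ∑ g : Equiv.Perm (Fin (a + 1)),
      (((Equiv.Perm.sign g : ℤ) : ℚ)) • ψ (Equiv.Perm.viaEmbeddingHom β g) = 0)
    (hsft : ∀ x : Equiv.Perm (Fin k) → ℚ,
      (∀ w w' : Fin k → Fin b, ∑ g with w ∘ (g⁻¹ : Equiv.Perm (Fin k)) = w', x g = 0) →
      ∑ g, x g • ψ' g = 0) :
    ∑ g, (((Equiv.Perm.sign g : ℤ) : ℚ)) • (ψ g * ψ' g) = 0 := by
  classical
  obtain ⟨c, hcd⟩ : ∃ c : R, c = ∑ g, (((Equiv.Perm.sign g : ℤ) : ℚ)) • (ψ g * ψ' g) := ⟨_, rfl⟩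
  rw [← hcd]
  have h1 : ∀ h : Equiv.Perm (Fin k), c * ψ' h = c * ((((Equiv.Perm.sign h : ℤ) : ℚ)) • ψ h⁻¹) := by
    intro h
    have h2 : c * ψ' h = ∑ g, (((Equiv.Perm.sign g : ℤ) : ℚ)) • (ψ g * ψ' (g * h)) := by
      rw [hcd, Finset.sum_mul]
      refine Finset.sum_congr rfl fun g _ => ?_
      rw [smul_mul_assoc, mul_assoc, map_mul]
    have h3 : c * ((((Equiv.Perm.sign h : ℤ) : ℚ)) • ψ h⁻¹) =
        ∑ g, (((Equiv.Perm.sign (g * h) : ℤ) : ℚ)) • (ψ (g * h⁻¹) * ψ' g) := by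
      rw [hcd, Finset.sum_mul]
      refine Finset.sum_congr rfl fun g _ => ?_
      rw [smul_mul_smul_comm, mul_assoc, ← hc, ← mul_assoc, ← map_mul]
      congr 1
      rw [map_mul]
      push_cast
      ring
    rw [h2, h3]
    refine Fintype.sum_equiv (Equiv.mulRight h) _ _ fun g => ?_
    simp only [Equiv.coe_mulRight, mul_inv_cancel_right]
    congr 1
    rw [map_mul, map_mul]
    rcases Int.units_eq_one_or (Equiv.Perm.sign h) with h4 | h4 <;> rw [h4] <;> simp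
  obtain ⟨Ψ, hΨ⟩ : ∃ Ψ, Ψ = MonoidAlgebra.lift ℚ R (Equiv.Perm (Fin k)) ψ' := ⟨_, rfl⟩
  obtain ⟨Sy, hSy⟩ : ∃ Sy : (Fin (a + 1) ↪ Fin k) → MonoidAlgebra ℚ (Equiv.Perm (Fin k)), Sy = fun β =>
    ∑ g : Equiv.Perm (Fin (a + 1)), MonoidAlgebra.single (Equiv.Perm.viaEmbeddingHom β g) (1 : ℚ) :=
    ⟨_, rfl⟩
  have h5 : ∀ β, c * Ψ (Sy β) = 0 := by
    intro β
    rw [hSy, hΨ, map_sum, Finset.mul_sum]
    rw [Finset.sum_congr rfl fun g _ => by rw [MonoidAlgebra.lift_single, one_smul, h1]]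
    rw [← Finset.mul_sum]
    have h6 : ∑ g : Equiv.Perm (Fin (a + 1)), ((((Equiv.Perm.sign (Equiv.Perm.viaEmbeddingHom β g) : ℤ)) : ℚ)) •
        ψ (Equiv.Perm.viaEmbeddingHom β g)⁻¹ = 0 := by
      rw [← hψ β]
      refine Fintype.sum_equiv (Equiv.inv _) _ _ fun g => ?_
      have hs : Equiv.Perm.sign (Equiv.Perm.viaEmbeddingHom β g) = Equiv.Perm.sign g := by
        rw [Equiv.Perm.viaEmbeddingHom_apply, Equiv.Perm.viaEmbedding, Equiv.Perm.sign_extendDomain]
      rw [Equiv.inv_apply, map_inv (Equiv.Perm.viaEmbeddingHom β) g, Equiv.Perm.sign_inv, hs]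
    rw [h6, mul_zero]
  obtain ⟨I, hI⟩ : ∃ I : Ideal (MonoidAlgebra ℚ (Equiv.Perm (Fin k)))ᵐᵒᵖ,
    I = Ideal.span (Set.range fun β => op (Sy β)) := ⟨_, rfl⟩
  obtain ⟨e, he, hIe⟩ := IsSemisimpleRing.ideal_eq_span_idempotent I
  have hff : unop e * unop e = unop e := by
    rw [← unop_mul]
    exact congrArg unop he
  have hz : ∀ β, (1 - unop e) * Sy β = 0 := by
    intro β
    have h6 : op (Sy β) ∈ I := by
      rw [hI]
      exact Ideal.subset_span ⟨β, rfl⟩
    rw [hIe] at h6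
    obtain ⟨y, hy⟩ := Ideal.mem_span_singleton'.1 h6
    have h7 : Sy β = unop e * unop y := by
      rw [← unop_mul, hy, unop_op]
    rw [h7, sub_mul, one_mul, ← mul_assoc, hff, sub_self]
  have h8 : c * Ψ (unop e) = 0 := by
    have h6 : e ∈ I := by rw [hIe]; exact Ideal.mem_span_singleton_self e
    rw [hI] at h6
    refine Submodule.span_induction (p := fun x _ => c * Ψ (unop x) = 0) ?_ ?_ ?_ ?_ h6
    · rintro _ ⟨β, rfl⟩
      exact h5 β
    · simp
    · intro x y _ _ hx hy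
      rw [unop_add, map_add, mul_add, hx, hy, add_zero]
    · intro r x _ hx
      rw [smul_eq_mul, unop_mul, map_mul, ← mul_assoc, hx, zero_mul]
  have h9 : Ψ (1 - unop e) = 0 := by
    rw [hΨ, lift_fin]
    exact hsft _ (word_kill hk _ fun β => by
      have := hz β
      rw [hSy] at this
      exact this)
  rw [map_sub, map_one, sub_eq_zero] at h9
  rw [← h9, mul_one] at h8
  exact h8

end Pool.Agent.Helper96.SP
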