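import Pool.Agent.Helper96.SP.PSFT
import Pool.Agent.Helper96.SP.PCLOSof

/-! # CLOS: the tensor product rule for the vanishing of (signed) powers -/

set_option autoImplicit false

namespace Pool.Agent.Helper96.SP

/-- CLOS -/
theorem clos {k a b : ℕ} (hk : a * b < k) {R : Type*} [Ring R] [Algebra ℚ R]
    (ψ ψ' : Equiv.Perm (Fin k) →* R) (hc : ∀ g h, ψ g * ψ' h = ψ' h * ψ g)
    (hψ : ∀ β : Fin (a + 1) ↪ Fin k, ∑ g : Equiv.Perm (Fin (a + 1)),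
      (((Equiv.Perm.sign g : ℤ) : ℚ)) • ψ (Equiv.Perm.viaEmbeddingHom β g) = 0)
    (hψ' : ∀ β : Fin (b + 1) ↪ Fin k, ∑ g : Equiv.Perm (Fin (b + 1)),
      (((Equiv.Perm.sign g : ℤ) : ℚ)) • ψ' (Equiv.Perm.viaEmbeddingHom β g) = 0) :
    ∑ g, (((Equiv.Perm.sign g : ℤ) : ℚ)) • (ψ g * ψ' g) = 0 :=
  clos_of hk ψ ψ' hc hψ fun x hx => sft ψ' hψ' x hx

end Pool.Agent.Helper96.SP
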