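import Pool.Agent.Helper96.SP.PInd

/-!
# SHUF: the shuffle and the permutations
-/

open CategoryTheory MonoidalCategory Limits BraidedCategory

universe u v w

namespace Pool.Agent.Helper96.SP

open Pool.Agent.TH90.AB Pool.Agent.TH90.Kim Pool.Agent.Helper96.Kim

set_option linter.unusedSectionVars false

section cat

variable {𝒜 : Type u} [Category.{v} 𝒜] [MonoidalCategory 𝒜] [SymmetricCategory 𝒜]

/-- SHUF -/
theorem shuf {A B : 𝒜} {φ : Fam (A ⊗ B)} (hφ : PA φ) {φA : Fam A} (hA : PA φA) {φB : Fam B}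
    (hB : PA φB) (n : ℕ) (g : Equiv.Perm (Fin n)) :
    (φ n g : T (A ⊗ B) n ⟶ T (A ⊗ B) n) ≫ sh A B n =
      sh A B n ≫ ((φA n g : T A n ⟶ T A n) ⊗ₘ (φB n g : T B n ⟶ T B n)) := by
  refine perm_ind (P := fun n g => (φ n g : T (A ⊗ B) n ⟶ T (A ⊗ B) n) ≫ sh A B n =
      sh A B n ≫ ((φA n g : T A n ⟶ T A n) ⊗ₘ (φB n g : T B n ⟶ T B n))) ?_ ?_ ?_ ?_ n g
  · intro n
    rw [map_one, map_one, map_one]
    simp only [End.one_def]
    rw [Category.id_comp, id_tensorHom_id, Category.comp_id]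
  · intro n g h hg hh
    rw [map_mul, map_mul, map_mul]
    simp only [End.mul_def, Category.assoc]
    rw [hg, reassoc_of% hh, tensorHom_comp_tensorHom]
  · intro n σ h
    rw [hφ.up, hA.up, hB.up]
    simp only [sh, Category.assoc]
    rw [← comp_whiskerRight_assoc, h, comp_whiskerRight_assoc, tensorμ_natural_left]
  · intro n
    rw [hφ.swap, hA.swap, hB.swap]
    exact sh_last A B n

end cat

end Pool.Agent.Helper96.SP
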