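import Pool.Agent.Helper96.SP.PPA
import Pool.Agent.Helper96.SP.PSHUF
import Pool.Agent.Helper96.SP.PCLOS
import Pool.Agent.Helper96.SP.PGEN
import Pool.Agent.Helper96.SP.PUP

/-!
# TEN: tensor products of finite-dimensional objects, with the sharp bound
-/

open CategoryTheory MonoidalCategory Limits BraidedCategory

universe u v w

namespace Pool.Agent.Helper96.SP

namespace TEN

open Pool.Agent.TH90.AB Pool.Agent.TH90.Kim Pool.Agent.Helper96.Kim

set_option linter.unusedSectionVars false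

section pure

lemma sg_mul {n : ℕ} (ε : ℚ) (g h : Equiv.Perm (Fin n)) : sg ε (g * h) = sg ε g * sg ε h := by
  unfold sg
  split_ifs
  · simp
  · simp

lemma sg_one {n : ℕ} (ε : ℚ) : sg ε (1 : Equiv.Perm (Fin n)) = 1 := by
  unfold sg
  split_ifs <;> simp

lemma sign_sq {n : ℕ} (g : Equiv.Perm (Fin n)) :
    (((Equiv.Perm.sign g : ℤ) : ℚ)) * (((Equiv.Perm.sign g : ℤ) : ℚ)) = 1 := by
  rcases Int.units_eq_one_or (Equiv.Perm.sign g) with h | h <;> simp [h]

lemma sign_via {a b : ℕ} (β : Fin a ↪ Fin b) (g : Equiv.Perm (Fin a)) :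
    Equiv.Perm.sign (Equiv.Perm.viaEmbeddingHom β g) = Equiv.Perm.sign g := by
  classical
  rw [Equiv.Perm.viaEmbeddingHom_apply]
  unfold Equiv.Perm.viaEmbedding
  refine Eq.trans ?_ (Equiv.Perm.sign_extendDomain g (Equiv.ofInjective β.1 β.2))
  refine congrArg Equiv.Perm.sign ?_
  unfold Equiv.Perm.extendDomain
  congr 1

lemma sg_via {a b : ℕ} (ε : ℚ) (β : Fin a ↪ Fin b) (g : Equiv.Perm (Fin a)) :
    sg ε (Equiv.Perm.viaEmbeddingHom β g) = sg ε g := by
  unfold sg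
  rw [sign_via]

lemma sg_neg {ε ε' : ℚ} (hε : ε = 1 ∨ ε = -1) (hε' : ε' = 1 ∨ ε' = -1) {n : ℕ}
    (g : Equiv.Perm (Fin n)) :
    sg (-(ε * ε')) g = (((Equiv.Perm.sign g : ℤ) : ℚ)) * (sg ε g * sg ε' g) := by
  have h := sign_sq g
  have h1 : (-1 : ℚ) ≠ 1 := by norm_num
  rcases hε with rfl | rfl <;> rcases hε' with rfl | rfl <;>
    simp [sg, h1, h]

end pure

section cat

variable {𝒜 : Type u} [Category.{v} 𝒜] [MonoidalCategory 𝒜] [SymmetricCategory 𝒜]

lemma sh_shi (A B : 𝒜) (n : ℕ) : sh A B n ≫ shi A B n = 𝟙 _ := by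
  induction n with
  | zero => simp [sh, shi]
  | succ n ih =>
    simp only [sh, shi, Category.assoc]
    rw [tensorμ_tensorδ_assoc, ← comp_whiskerRight, ih, id_whiskerRight]

variable [Preadditive 𝒜] [MonoidalPreadditive 𝒜] [Linear ℚ 𝒜] [MonoidalLinear ℚ 𝒜]

lemma rh_alt {M : 𝒜} (φ : Fam M) (ε : ℚ) (n : ℕ) :
    rh φ n (alt ε n) = ∑ g : Equiv.Perm (Fin n), sg ε g • (φ n g : T M n ⟶ T M n) := by
  simp only [rh, alt, map_sum, rho, MonoidAlgebra.lift_single]

lemma emb_alt {a b : ℕ} (β : Fin a ↪ Fin b) (ε : ℚ) : emb β (alt ε a) =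
    ∑ g : Equiv.Perm (Fin a), MonoidAlgebra.single (Equiv.Perm.viaEmbeddingHom β g) (sg ε g) := by
  simp only [alt, map_sum]
  refine Finset.sum_congr rfl fun g _ => ?_
  simp [emb, MonoidAlgebra.mapDomainAlgHom]

lemma rh_emb_alt {M : 𝒜} (φ : Fam M) {a b : ℕ} (β : Fin a ↪ Fin b) (ε : ℚ) :
    rh φ b (emb β (alt ε a)) = ∑ g : Equiv.Perm (Fin a),
      sg ε g • (φ b (Equiv.Perm.viaEmbeddingHom β g) : T M b ⟶ T M b) := by
  rw [emb_alt]
  simp only [rh, map_sum, rho, MonoidAlgebra.lift_single]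

/-- The twisted action on the left factor. -/
noncomputable def actL {A : 𝒜} (φA : Fam A) (Y : 𝒜) (ε : ℚ) (k : ℕ) :
    Equiv.Perm (Fin k) →* End (T A k ⊗ Y) where
  toFun g := ((((Equiv.Perm.sign g : ℤ) : ℚ)) * sg ε g) • ((φA k g : T A k ⟶ T A k) ▷ Y :
    T A k ⊗ Y ⟶ T A k ⊗ Y)
  map_one' := by
    rw [map_one, map_one, sg_one]
    simp
  map_mul' g h := by
    rw [map_mul, map_mul, sg_mul, End.mul_def, End.mul_def, comp_whiskerRight]
    simp only [Linear.smul_comp, Linear.comp_smul, smul_smul]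
    congr 1
    push_cast
    ring

/-- The twisted action on the right factor. -/
noncomputable def actR {B : 𝒜} (φB : Fam B) (Y : 𝒜) (ε : ℚ) (k : ℕ) :
    Equiv.Perm (Fin k) →* End (Y ⊗ T B k) where
  toFun g := ((((Equiv.Perm.sign g : ℤ) : ℚ)) * sg ε g) • (Y ◁ (φB k g : T B k ⟶ T B k) :
    Y ⊗ T B k ⟶ Y ⊗ T B k)
  map_one' := by
    rw [map_one, map_one, sg_one]
    simp
  map_mul' g h := by
    rw [map_mul, map_mul, sg_mul, End.mul_def, End.mul_def, MonoidalCategory.whiskerLeft_comp]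
    simp only [Linear.smul_comp, Linear.comp_smul, smul_smul]
    congr 1
    push_cast
    ring

lemma actL_apply {A : 𝒜} (φA : Fam A) (Y : 𝒜) (ε : ℚ) (k : ℕ) (g : Equiv.Perm (Fin k)) :
    (actL φA Y ε k g : T A k ⊗ Y ⟶ T A k ⊗ Y) = ((((Equiv.Perm.sign g : ℤ) : ℚ)) * sg ε g) •
      ((φA k g : T A k ⟶ T A k) ▷ Y) := rfl

lemma actR_apply {B : 𝒜} (φB : Fam B) (Y : 𝒜) (ε : ℚ) (k : ℕ) (g : Equiv.Perm (Fin k)) :
    (actR φB Y ε k g : Y ⊗ T B k ⟶ Y ⊗ T B k) = ((((Equiv.Perm.sign g : ℤ) : ℚ)) * sg ε g) •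
      (Y ◁ (φB k g : T B k ⟶ T B k)) := rfl

end cat

end TEN

section cat

open Pool.Agent.TH90.AB Pool.Agent.TH90.Kim Pool.Agent.Helper96.Kim TEN

set_option linter.unusedSectionVars false

variable {𝒜 : Type u} [Category.{v} 𝒜] [MonoidalCategory 𝒜] [SymmetricCategory 𝒜]
variable [Preadditive 𝒜] [MonoidalPreadditive 𝒜] [Linear ℚ 𝒜] [MonoidalLinear ℚ 𝒜]

/-- TEN (from CLOS, SHUF, ALT) -/
theorem ten {A B : 𝒜} {ε ε' : ℚ} (hε : ε = 1 ∨ ε = -1) (hε' : ε' = 1 ∨ ε' = -1) {a b : ℕ}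
    (hA : PowZero ε A (a + 1)) (hB : PowZero ε' B (b + 1)) :
    PowZero (-(ε * ε')) (A ⊗ B) (a * b + 1) := by
  obtain ⟨φA, pA⟩ := exists_PA A
  obtain ⟨φB, pB⟩ := exists_PA B
  obtain ⟨φ, pφ⟩ := exists_PA (A ⊗ B)
  have hεε : -(ε * ε') = 1 ∨ -(ε * ε') = -1 := by
    rcases hε with rfl | rfl <;> rcases hε' with rfl | rfl <;> simp
  rw [alt_iff pφ hεε]
  rw [alt_iff pA hε] at hA
  rw [alt_iff pB hε'] at hB
  set k := a * b + 1 with hk
  have key := clos (k := k) (a := a) (b := b) (by omega) (R := End (T A k ⊗ T B k))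
    (actL φA (T B k) ε k) (actR φB (T A k) ε' k) ?_ ?_ ?_
  · have e : rh φ k (alt (-(ε * ε')) k) ≫ sh A B k = 0 := by
      rw [rh_alt, Preadditive.sum_comp]
      have e1 : ∀ g : Equiv.Perm (Fin k), (sg (-(ε * ε')) g •
          (φ k g : T (A ⊗ B) k ⟶ T (A ⊗ B) k)) ≫ sh A B k =
          sh A B k ≫ ((((Equiv.Perm.sign g : ℤ) : ℚ)) •
            (actL φA (T B k) ε k g * actR φB (T A k) ε' k g : End (T A k ⊗ T B k))) := by
        intro g
        rw [Linear.smul_comp, shuf pφ pA pB, Linear.comp_smul]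
        rw [End.mul_def, actL_apply, actR_apply]
        simp only [Linear.smul_comp, Linear.comp_smul, smul_smul, ← tensorHom_def']
        congr 1
        rw [sg_neg hε hε']
        have := sign_sq g
        linear_combination (-(((Equiv.Perm.sign g : ℤ) : ℚ)) * (sg ε g * sg ε' g)) * this
      simp only [e1]
      rw [← Preadditive.comp_sum, key, comp_zero]
    rw [← Category.comp_id (rh φ k _), ← sh_shi, ← Category.assoc, e, zero_comp]
  · intro g h
    rw [End.mul_def, End.mul_def, actL_apply, actR_apply]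
    simp only [Linear.smul_comp, Linear.comp_smul, smul_smul, whisker_exchange]
    congr 1
    ring
  · intro β
    have h1 := zero_emb pA β _ hA
    rw [rh_emb_alt] at h1
    have h2 : (∑ g : Equiv.Perm (Fin (a + 1)), sg ε g •
      (φA k (Equiv.Perm.viaEmbeddingHom β g) : T A k ⟶ T A k)) ▷ T B k = 0 := by
      rw [h1, MonoidalPreadditive.zero_whiskerRight]
    rw [← h2, sum_whiskerRight]
    refine Finset.sum_congr rfl fun g _ => ?_
    rw [MonoidalLinear.smul_whiskerRight, actL_apply]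
    rw [smul_smul, sign_via, sg_via]
    congr 1
    have := sign_sq g
    linear_combination (sg ε g) * this
  · intro β
    have h1 := zero_emb pB β _ hB
    rw [rh_emb_alt] at h1
    have h2 : T A k ◁ (∑ g : Equiv.Perm (Fin (b + 1)), sg ε' g •
      (φB k (Equiv.Perm.viaEmbeddingHom β g) : T B k ⟶ T B k)) = 0 := by
      rw [h1, MonoidalPreadditive.whiskerLeft_zero]
    rw [← h2, whiskerLeft_sum]
    refine Finset.sum_congr rfl fun g _ => ?_
    rw [MonoidalLinear.whiskerLeft_smul, actR_apply]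
    rw [smul_smul, sign_via, sg_via]
    congr 1
    have := sign_sq g
    linear_combination (sg ε' g) * this

end cat

end Pool.Agent.Helper96.SP
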