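import Pool.Agent.Helper96.SP.PREG
import Pool.Agent.Helper96.SP.PCHAIN
import Pool.Agent.Helper96.SP.PCHART
import Pool.Agent.Helper96.SP.PTR
import Pool.Agent.Helper96.SP.PTEN
import Pool.Agent.Helper96.SP.PPOS
import Pool.Agent.Helper96.SP.PBPM
import Pool.Agent.Helper96.SP.PGEN
import Pool.Agent.Helper96.SP.PPA
import Pool.Agent.Helper96.SP.PUP
import Pool.Agent.Helper96.SP.PWD
import Pool.Graph.R_pool_sql_team_seeded_ab47071d.TH90.Kim.Main4
import Pool.Graph.R_pool_sql_team_seeded_ab47071d.TH90.Kim.Light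

/-!
# Schur powers of objects of pure parity
-/

open CategoryTheory MonoidalCategory Limits BraidedCategory

universe u v w

namespace Pool.Agent.Helper96.SP

open Pool.Agent.TH90.AB Pool.Agent.TH90.Kim Pool.Agent.Helper96.Kim

set_option linter.unusedSectionVars false

variable {𝒜 : Type u} [Category.{v} 𝒜] [MonoidalCategory 𝒜] [SymmetricCategory 𝒜]
  [Preadditive 𝒜] [MonoidalPreadditive 𝒜] [Linear ℚ 𝒜] [MonoidalLinear ℚ 𝒜]
  [hdual : ∀ X : 𝒜, HasRightDual X]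

lemma rh_mul {M : 𝒜} (φ : Fam M) (n : ℕ) (x y : QS n) :
    rh φ n (x * y) = rh φ n y ≫ rh φ n x := by
  unfold rh
  rw [map_mul]
  rfl

lemma rh_zero {M : 𝒜} (φ : Fam M) (n : ℕ) : rh φ n 0 = 0 := by
  unfold rh
  rw [map_zero]

/-- All tensor powers of an object of pure parity with a vanishing power have a vanishing power. -/
lemma powZero_T {D : 𝒜} {ε : ℚ} (hε : ε = 1 ∨ ε = -1) {b : ℕ} (hD : PowZero ε D (b + 1)) (m : ℕ) :
    ∃ (η : ℚ) (a : ℕ), (η = 1 ∨ η = -1) ∧ PowZero η (T D m) (a + 1) := by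
  induction m with
  | zero =>
    refine ⟨-1, 1, Or.inr rfl, ?_⟩
    have h : (β_ (𝟙_ 𝒜) (𝟙_ 𝒜)).hom = (1 : ℚ) • 𝟙 _ := by
      rw [one_smul, braiding_tensorUnit_right, ← unitors_equal, Iso.hom_inv_id]
    exact powZero_two_of_braiding (c := 1) (by norm_num) h
  | succ m ih =>
    obtain ⟨η, a, hη, h⟩ := ih
    refine ⟨-(η * ε), a * b, ?_, ten hη hε h hD⟩
    rcases hη with rfl | rfl <;> rcases hε with rfl | rfl <;> norm_num

lemma pw_conj {X Y : 𝒜} (R : Y ⟶ X) (I : X ⟶ Y) (hIR : I ≫ R = 𝟙 X) (g : X ⟶ X) (k : ℕ) :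
    pw (R ≫ g ≫ I) (k + 1) = R ≫ pw g (k + 1) ≫ I := by
  induction k with
  | zero =>
    unfold pw
    rw [zero_add, pow_one, pow_one]
  | succ k ih =>
    have e1 : pw (R ≫ g ≫ I) (k + 1 + 1) = (R ≫ g ≫ I) ≫ pw (R ≫ g ≫ I) (k + 1) := pw_succ _ _
    have e2 : pw g (k + 1 + 1) = g ≫ pw g (k + 1) := pw_succ _ _
    rw [e1, e2, ih]
    simp only [Category.assoc]
    rw [reassoc_of% hIR]

variable {K : Type w} [Field K] [CharZero K] (F : Realisation 𝒜 K)
  (hunit : ∀ f : 𝟙_ 𝒜 ⟶ 𝟙_ 𝒜, ∃ q : ℚ, f = q • 𝟙 (𝟙_ 𝒜))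

include hunit

/-- The invisible part of the corner vanishes. -/
lemma corner_zero [IsIdempotentComplete 𝒜] {M D : 𝒜} {φ : Fam M}
    {m N : ℕ} (E x : QS N) (I : T D m ⟶ T M N) (R : T M N ⟶ T D m) (hIR : I ≫ R = 𝟙 _)
    (hRI : R ≫ I = rh φ N E) (hD : KimuraFinite (T D m)) (hx : F.Inv (rh φ N x)) :
    rh φ N (E * x) = 0 := by
  refine reg (rho φ N) (F.I (T M N)) ?_ E ?_ ?_ x ?_
  · intro a ha x y
    exact (F.idl (T M N)).right _ _ ((F.idl (T M N)).left _ _ ha)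
  · change rh φ N E ≫ rh φ N E = rh φ N E
    rw [← hRI, Category.assoc, reassoc_of% hIR]
  · intro f hf
    obtain ⟨L, hL⟩ := F.nilp hunit hD
    have hg : F.Inv (I ≫ (show T M N ⟶ T M N from f) ≫ R) :=
      F.inv_comp_right _ (F.inv_comp_left _ hf)
    have h1 := F.pw_retract hunit hL (𝟙 _) (𝟙 _) (Category.comp_id _) hg
    refine ⟨L + 1, ?_⟩
    have h2 := pw_conj R I hIR (I ≫ (show T M N ⟶ T M N from f) ≫ R) L
    have h3 : pw (I ≫ (show T M N ⟶ T M N from f) ≫ R) (L + 1) = 0 := by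
      rw [pw_succ, h1, comp_zero]
    rw [h3, zero_comp, comp_zero] at h2
    have h4 : (R ≫ (I ≫ (show T M N ⟶ T M N from f) ≫ R) ≫ I : T M N ⟶ T M N) =
        rh φ N E ≫ f ≫ rh φ N E := by
      rw [← hRI]
      simp only [Category.assoc]
    rw [h4] at h2
    have h5 : (rho φ N E * f * rho φ N E : End (T M N)) =
        (show End (T M N) from rh φ N E ≫ (show T M N ⟶ T M N from f) ≫ rh φ N E) := rfl
    rw [h5]
    exact h2
  · have h : F.Inv (rh φ N (E * x)) := by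
      rw [rh_mul]
      exact F.inv_comp_left _ hx
    exact h

theorem main [IsIdempotentComplete 𝒜] {M D : 𝒜} {δ : ℚ} (hδ : δ = 1 ∨ δ = -1)
    (hM : ∀ x, F.par M x = (δ : K) • x) {n : ℕ} (i : D ⟶ T M (n + 1)) (r : T M (n + 1) ⟶ D)
    (hir : i ≫ r = 𝟙 D)
    (hperm : (show End (T M (n + 1)) from r ≫ i) ∈ Algebra.adjoin ℚ
      {s : End (T M (n + 1)) | Adj M (n + 1) s})
    (h0 : ∃ x : F.V D, x ≠ 0) (hD : KimuraFinite D) :
    PowZero (-δ) M (Module.finrank K (F.V M) + 1) := by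
  obtain ⟨φ, hφ⟩ := exists_PA M
  obtain ⟨e, he⟩ := (gen hφ (n + 1) _).1 hperm
  have hri : r ≫ i = rh φ (n + 1) e := he.symm
  have hne : ¬ F.Inv (rh φ (n + 1) e) := by
    obtain ⟨x, hx⟩ := h0
    intro h
    apply hx
    have h1 := h (F.map i x)
    rw [← hri, F.map_comp, ← F.map_comp i r, hir, F.map_id] at h1
    have h2 : F.map (i ≫ r) x = x := by rw [hir, F.map_id]
    rw [F.map_comp, h1, _root_.map_zero] at h2
    exact h2.symm
  obtain ⟨y, hy⟩ := pos F hφ hunit hδ hM (n + 1) e hne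
  obtain ⟨c, hc1, hc2⟩ := trc hφ hunit n (y * e)
  have hc : c ≠ 0 := by
    rintro rfl
    rw [zero_smul] at hc1
    exact hy hc1
  have hδδ : δ * δ = 1 := by rcases hδ with rfl | rfl <;> norm_num
  have hδn : δ ^ (n + 1) = 1 ∨ δ ^ (n + 1) = -1 := by
    rcases hδ with rfl | rfl
    · left; simp
    · exact neg_one_pow_eq_or ℚ (n + 1)
  have hparD : ∀ x, F.par D x = ((δ ^ (n + 1) : ℚ) : K) • x := fun x =>
    F.par_retract i r hir (par_T F hM (n + 1)) x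
  have hDz := powZero_dim F hunit hD hδn hparD
  have hKT : ∀ m, KimuraFinite (T D m) := by
    intro m
    obtain ⟨η, a, hη, h⟩ := powZero_T (ε := -δ ^ (n + 1)) (by
      rcases hδn with h | h <;> rw [h] <;> norm_num) hDz m
    rcases hη with rfl | rfl
    · exact kf_of_odd h
    · exact kf_of_even h
  set m := Module.finrank K (F.V M) + 1 with hm
  obtain ⟨β, γ, hβ, hch⟩ := chain hφ m n
  obtain ⟨I, R, hIR, hRI⟩ := chart hφ i r hir hri β hβ
  have hx : F.Inv (rh φ (sz m n m) (emb γ (alt (-δ) m))) :=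
    inv_emb F hφ γ _ (inv_alt F hφ hδ hM m (by omega))
  have key := corner_zero F hunit (bp β e) (emb γ (alt (-δ) m)) I R hIR hRI (hKT m) hx
  have h1 : rh φ m (alt (-δ) m) = 0 := by
    refine hch (y * e) c hc hc2 _ ?_
    rw [bp_mul β hβ.1, mul_assoc, rh_mul, key, zero_comp]
  have hε : -δ = 1 ∨ -δ = -1 := by rcases hδ with rfl | rfl <;> norm_num
  exact (alt_iff hφ hε m).2 h1

/-- The theorem on Schur powers. -/
theorem main' [IsIdempotentComplete 𝒜] {M D X : 𝒜} {δ : ℚ} (hδ : δ = 1 ∨ δ = -1)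
    (hM : ∀ x, F.par M x = (δ : K) • x) {n : ℕ} (i : D ⟶ T M (n + 1)) (r : T M (n + 1) ⟶ D)
    (hir : i ≫ r = 𝟙 D)
    (hperm : (show End (T M (n + 1)) from r ≫ i) ∈ Algebra.adjoin ℚ
      {s : End (T M (n + 1)) | Adj M (n + 1) s})
    (h0 : ∃ x : F.V D, x ≠ 0) (hX : ∃ x : F.V X, x ≠ 0) (hD : KimuraFinite (D ⊗ X)) :
    KimuraFinite M := by
  have h1 : KimuraFinite D := F.kimuraFinite_left hunit h0 hX hD
  have h := main F hunit hδ hM i r hir hperm h0 h1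
  rcases hδ with rfl | rfl
  · exact kf_of_even h
  · rw [neg_neg] at h
    exact kf_of_odd h

end Pool.Agent.Helper96.SP
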