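import Pool.Agent.Helper96.SP.QCHAINS

/-!
# Insertions of endomorphisms (package INSL)
-/

set_option autoImplicit false

open CategoryTheory MonoidalCategory Limits BraidedCategory

universe u v w

namespace Pool.Agent.Helper96.SP

open Pool.Agent.TH90.AB Pool.Agent.TH90.Kim Pool.Agent.Helper96.Kim

set_option linter.unusedSectionVars false

variable {𝒜 : Type u} [Category.{v} 𝒜] [MonoidalCategory 𝒜] [SymmetricCategory 𝒜]

theorem ins_perm {M : 𝒜} {φ : Fam M} (hφ : PA φ) (f : M ⟶ M) (n : ℕ) (g : Equiv.Perm (Fin n))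
    (j : Fin n) : ins f n j ≫ (φ n g : T M n ⟶ T M n) = (φ n g : T M n ⟶ T M n) ≫ ins f n (g j) :=
  CHS.ins_perm hφ f n g j

theorem ins_comm {M : 𝒜} (f g : M ⟶ M) {n : ℕ} {j l : Fin n} (h : j ≠ l) :
    ins f n j ≫ ins g n l = ins g n l ≫ ins f n j := by
  induction n with
  | zero => exact j.elim0
  | succ n ih =>
    rcases Fin.eq_zero_or_eq_succ j with rfl | ⟨j, rfl⟩ <;>
      rcases Fin.eq_zero_or_eq_succ l with rfl | ⟨l, rfl⟩
    · exact absurd rfl h
    · rw [CHS.ins_zero, CHS.ins_succ, whisker_exchange]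
    · rw [CHS.ins_zero, CHS.ins_succ, whisker_exchange]
    · rw [CHS.ins_succ, CHS.ins_succ, ← comp_whiskerRight, ← comp_whiskerRight,
        ih fun h' => h (by rw [h'])]

theorem ins_comp {M : 𝒜} (f g : M ⟶ M) (n : ℕ) (j : Fin n) :
    ins f n j ≫ ins g n j = ins (f ≫ g) n j := by
  induction n with
  | zero => exact j.elim0
  | succ n ih =>
    rcases Fin.eq_zero_or_eq_succ j with rfl | ⟨j, rfl⟩
    · rw [CHS.ins_zero, CHS.ins_zero, CHS.ins_zero, MonoidalCategory.whiskerLeft_comp]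
    · rw [CHS.ins_succ, CHS.ins_succ, CHS.ins_succ, ← comp_whiskerRight, ih]

theorem ins_id {M : 𝒜} (n : ℕ) (j : Fin n) : ins (𝟙 M) n j = 𝟙 _ := by
  induction n with
  | zero => exact j.elim0
  | succ n ih =>
    rcases Fin.eq_zero_or_eq_succ j with rfl | ⟨j, rfl⟩
    · rw [CHS.ins_zero, MonoidalCategory.whiskerLeft_id]
    · rw [CHS.ins_succ, ih, id_whiskerRight]

theorem wh_comp {M : 𝒜} {k l p : ℕ} (f : T M k ⟶ T M l) (g : T M l ⟶ T M p) (n : ℕ) :
    wh (f ≫ g) n = wh f n ≫ wh g n := CHS.wh_comp f g n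

theorem wh_id {M : 𝒜} (k n : ℕ) : wh (𝟙 (T M k)) n = 𝟙 _ := by
  induction n with
  | zero => rfl
  | succ n ih =>
    show wh (𝟙 (T M k)) n ▷ M = 𝟙 _
    rw [ih, id_whiskerRight]

theorem ins_wh {M : 𝒜} (f : M ⟶ M) (k n : ℕ) (j : Fin k) :
    wh (ins f k j) n = ins f (k + n) (Fin.addNatEmb n j) := CHS.ins_wh f k n j

theorem snew_wh {M : 𝒜} (s : M ⟶ M) {k : ℕ} (a : T M k ⟶ T M k) (n : ℕ) :
    wh a n ≫ snew s k n = snew s k n ≫ wh a n := CHS.snew_wh s a n

section lin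

variable [Preadditive 𝒜] [MonoidalPreadditive 𝒜] [Linear ℚ 𝒜] [MonoidalLinear ℚ 𝒜]

theorem ins_emb {M : 𝒜} {φ : Fam M} (hφ : PA φ) {a b : ℕ} (β : Fin a ↪ Fin b) (x : QS a)
    (l : Fin b) (hl : l ∉ Set.range β) (f : M ⟶ M) :
    ins f b l ≫ rh φ b (emb β x) = rh φ b (emb β x) ≫ ins f b l :=
  CHS.ins_emb hφ β x l hl f

theorem ins_add {M : 𝒜} (f g : M ⟶ M) (n : ℕ) (j : Fin n) :
    ins (f + g) n j = ins f n j + ins g n j := by
  induction n with
  | zero => exact j.elim0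
  | succ n ih =>
    rcases Fin.eq_zero_or_eq_succ j with rfl | ⟨j, rfl⟩
    · rw [CHS.ins_zero, CHS.ins_zero, CHS.ins_zero, MonoidalPreadditive.whiskerLeft_add]
    · rw [CHS.ins_succ, CHS.ins_succ, CHS.ins_succ, ih, MonoidalPreadditive.add_whiskerRight]

theorem ins_smul {M : 𝒜} (c : ℚ) (f : M ⟶ M) (n : ℕ) (j : Fin n) :
    ins (c • f) n j = c • ins f n j := by
  induction n with
  | zero => exact j.elim0
  | succ n ih =>
    rcases Fin.eq_zero_or_eq_succ j with rfl | ⟨j, rfl⟩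
    · rw [CHS.ins_zero, CHS.ins_zero, MonoidalLinear.whiskerLeft_smul]
    · rw [CHS.ins_succ, CHS.ins_succ, ih, MonoidalLinear.smul_whiskerRight]

theorem ins_smul_zero {M : 𝒜} (n : ℕ) (j : Fin n) : ins (0 : M ⟶ M) n j = 0 := by
  have h := ins_smul (0 : ℚ) (𝟙 M) n j
  rwa [zero_smul, zero_smul] at h

/-- If `rh e ≫ ins z j = 0` for all `j` then the same holds for `rh (x * e)`. -/
theorem ins_kill {M : 𝒜} {φ : Fam M} (hφ : PA φ) {n : ℕ} (e : QS n) (z : M ⟶ M)
    (h : ∀ j, rh φ n e ≫ ins z n j = 0) (x : QS n) (j : Fin n) :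
    rh φ n (x * e) ≫ ins z n j = 0 := by
  induction x using MonoidAlgebra.induction_linear with
  | zero => rw [zero_mul, CH.rh_zero, zero_comp]
  | add x y hx hy => rw [add_mul, CH.rh_add, Preadditive.add_comp, hx, hy, add_zero]
  | single g q =>
    have h1 := ins_perm hφ z n g (g⁻¹ j)
    have h2 : g (g⁻¹ j) = j := g.apply_symm_apply j
    rw [h2] at h1
    rw [CH.rh_mul, CH.rh_single, Linear.comp_smul, Linear.smul_comp, Category.assoc, ← h1,
      ← Category.assoc, h, zero_comp, smul_zero]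

end lin

end Pool.Agent.Helper96.SP
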