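import Pool.Agent.Helper96.SP.QINSL
import Pool.Graph.R_pool_sql_team_seeded_ab47071d.TH90.Kim.Main4
import Mathlib.RingTheory.Polynomial.Vieta

/-!
# Package NILK: symmetric functions of the insertions of an invisible endomorphism
-/

open CategoryTheory MonoidalCategory Limits BraidedCategory

universe u v w

namespace Pool.Agent.Helper96.SP

open Pool.Agent.TH90.AB Pool.Agent.TH90.Kim Pool.Agent.Helper96.Kim

noncomputable section

namespace NILK

/-- The evaluation of polynomials at commuting elements. -/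
theorem exists_psi {R : Type*} [Ring R] [Algebra ℚ R] {n : ℕ} (x : Fin n → R)
    (hx : ∀ i j, x i * x j = x j * x i) :
    ∃ Ψ : MvPolynomial (Fin n) ℚ →ₐ[ℚ] R, ∀ j, Ψ (MvPolynomial.X j) = x j := by
  let _ := Algebra.adjoinCommRingOfComm ℚ (s := Set.range x)
    (by rintro _ ⟨i, rfl⟩ _ ⟨j, rfl⟩; exact hx i j)
  refine ⟨(Algebra.adjoin ℚ (Set.range x)).val.comp
    (MvPolynomial.aeval fun j => ⟨x j, Algebra.subset_adjoin ⟨j, rfl⟩⟩), fun j => ?_⟩
  rw [AlgHom.comp_apply, MvPolynomial.aeval_X]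
  rfl

theorem X_pow_mem {n : ℕ} (j : Fin n) (S : Ideal (MvPolynomial (Fin n) ℚ))
    (hS : ∀ k, 1 ≤ k → MvPolynomial.esymm (Fin n) ℚ k ∈ S) :
    (MvPolynomial.X j : MvPolynomial (Fin n) ℚ) ^ n ∈ S := by
  have h := congrArg (Polynomial.eval (-(MvPolynomial.X j : MvPolynomial (Fin n) ℚ)))
    (MvPolynomial.prod_C_add_X_eq_sum_esymm ℚ (Fin n))
  rw [Polynomial.eval_prod, Finset.prod_eq_zero (Finset.mem_univ j) (by simp)] at h
  rw [Polynomial.eval_finsetSum, Finset.sum_range_succ'] at h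
  simp only [Polynomial.eval_mul, Polynomial.eval_C, Polynomial.eval_pow, Polynomial.eval_X,
    MvPolynomial.esymm_zero, one_mul, Fintype.card_fin, Nat.sub_zero] at h
  have h1 : (-(MvPolynomial.X j : MvPolynomial (Fin n) ℚ)) ^ n ∈ S := by
    have h2 : (-(MvPolynomial.X j : MvPolynomial (Fin n) ℚ)) ^ n =
        -∑ k ∈ Finset.range n, MvPolynomial.esymm (Fin n) ℚ (k + 1) *
          (-(MvPolynomial.X j : MvPolynomial (Fin n) ℚ)) ^ (n - (k + 1)) :=
      eq_neg_of_add_eq_zero_right h.symm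
    rw [h2]
    exact S.neg_mem (S.sum_mem fun k _ => S.mul_mem_right _ (hS _ (by omega)))
  have h2 := S.mul_mem_left ((-1) ^ n) h1
  rw [← mul_pow] at h2
  simpa using h2

section

variable {𝒜 : Type u} [Category.{v} 𝒜] [MonoidalCategory 𝒜] [SymmetricCategory 𝒜]
  [Preadditive 𝒜] [MonoidalPreadditive 𝒜] [Linear ℚ 𝒜] [MonoidalLinear ℚ 𝒜]

theorem inv_ins {K : Type w} [Field K] [CharZero K] (F : Realisation 𝒜 K) {M : 𝒜} {z : M ⟶ M}
    (hz : F.Inv z) : ∀ (n : ℕ) (j : Fin n), F.Inv (ins z n j)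
  | 0, j => j.elim0
  | n + 1, j => by
    refine Fin.cases ?_ (fun j => ?_) j
    · intro t
      obtain ⟨k, a, b, rfl⟩ := F.exists_sum t
      rw [map_sum]
      refine Finset.sum_eq_zero fun i _ => ?_
      show F.map (T M n ◁ z) _ = 0
      rw [F.whiskerLeft, hz, _root_.map_zero]
    · exact (inv_ins F hz n j).whiskerRight F M

set_option linter.unusedSectionVars false in
theorem ins_pw {M : 𝒜} (z : M ⟶ M) (n : ℕ) (j : Fin n) (k : ℕ) :
    (show End (T M n) from ins (pw z k) n j) = (show End (T M n) from ins z n j) ^ k := by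
  induction k with
  | zero =>
    rw [pow_zero]
    have h : pw z 0 = 𝟙 M := by
      unfold pw
      rw [pow_zero]
      rfl
    rw [h]
    exact ins_id n j
  | succ k ih =>
    rw [pow_succ, ← ih]
    have h : pw z (k + 1) = z ≫ pw z k := by
      unfold pw
      rw [pow_succ]
      rfl
    rw [h]
    exact (ins_comp z (pw z k) n j).symm

end

end NILK

open NILK

section real

set_option linter.unusedSectionVars false

variable {𝒜 : Type u} [Category.{v} 𝒜] [MonoidalCategory 𝒜] [SymmetricCategory 𝒜]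
  [Preadditive 𝒜] [MonoidalPreadditive 𝒜] [Linear ℚ 𝒜] [MonoidalLinear ℚ 𝒜]
  [hdual : ∀ X : 𝒜, HasRightDual X] {K : Type w} [Field K] [CharZero K] (F : Realisation 𝒜 K)

theorem nilk {M D : 𝒜} {φ : Fam M} (hφ : PA φ) {n : ℕ} {e : QS n} (i : D ⟶ T M n)
    (r : T M n ⟶ D) (hir : i ≫ r = 𝟙 D) (hri : r ≫ i = rh φ n e) (L : ℕ)
    (hL : ∀ l : List (End D), (∀ x ∈ l, x ∈ F.I D) → l.length = L → l.prod = 0) :
    ∃ N, 1 ≤ N ∧ ∀ z : M ⟶ M, F.Inv z → ∀ j, rh φ n e ≫ ins (pw z N) n j = 0 := by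
  refine ⟨n * L + 1, by omega, ?_⟩
  intro z hz j
  obtain ⟨x, hxd⟩ : ∃ x : Fin n → End (T M n), ∀ a, x a = ins z n a := ⟨fun a => ins z n a, fun _ => rfl⟩
  have hx : ∀ a b, x a * x b = x b * x a := by
    intro a b
    by_cases h : a = b
    · rw [h]
    · rw [hxd, hxd]
      exact ins_comm z z (Ne.symm h)
  obtain ⟨Ψ, hΨ⟩ := exists_psi x hx
  have hI : ∀ a, x a ∈ F.I (T M n) := fun a => by
    rw [hxd]
    exact inv_ins F hz n a
  have idl := F.idl (T M n)
  -- commutation with the permutations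
  have hg : ∀ (g : Equiv.Perm (Fin n)) (f : MvPolynomial (Fin n) ℚ),
      φ n g * Ψ f = Ψ (MvPolynomial.rename g f) * φ n g := by
    intro g f
    induction f using MvPolynomial.induction_on with
    | C a =>
      rw [MvPolynomial.rename_C, ← MvPolynomial.algebraMap_eq, AlgHom.commutes]
      exact (Algebra.commutes _ _).symm
    | add f1 f2 h1 h2 => rw [map_add, mul_add, h1, h2, map_add, map_add, add_mul]
    | mul_X f a h =>
      have h1 : φ n g * x a = x (g a) * φ n g := by
        rw [hxd, hxd]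
        exact ins_perm hφ z n g a
      rw [map_mul, ← mul_assoc, h, mul_assoc, hΨ, h1, map_mul, map_mul, MvPolynomial.rename_X, hΨ,
        mul_assoc]
  have hsym : ∀ f : MvPolynomial (Fin n) ℚ, f.IsSymmetric → ∀ y : QS n,
      rho φ n y * Ψ f = Ψ f * rho φ n y := by
    intro f hf y
    induction y using MonoidAlgebra.induction_on with
    | of g =>
      have h1 : rho φ n (MonoidAlgebra.of ℚ (Equiv.Perm (Fin n)) g) = φ n g :=
        MonoidAlgebra.lift_of _ _
      rw [h1, hg, hf g]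
    | add y1 y2 h1 h2 => rw [map_add, add_mul, h1, h2, mul_add]
    | smul c y h => rw [map_smul, smul_mul_assoc, h, mul_smul_comm]
  obtain ⟨p, hp⟩ : ∃ p : End (T M n), p = rho φ n e := ⟨_, rfl⟩
  have hpr : (p : T M n ⟶ T M n) = r ≫ i := by rw [hp, hri]; rfl
  -- the annihilator of `p`
  let Ann : Ideal (MvPolynomial (Fin n) ℚ) :=
    { carrier := {f | Ψ f * p = 0}
      add_mem' := by
        intro a b ha hb
        show Ψ (a + b) * p = 0
        rw [map_add, add_mul, show Ψ a * p = 0 from ha, show Ψ b * p = 0 from hb, add_zero]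
      zero_mem' := by
        show Ψ 0 * p = 0
        rw [map_zero, zero_mul]
      smul_mem' := by
        intro c a ha
        show Ψ (c • a) * p = 0
        rw [smul_eq_mul, map_mul, mul_assoc, show Ψ a * p = 0 from ha, mul_zero] }
  have hAnn : ∀ f, f ∈ Ann ↔ Ψ f * p = 0 := fun f => Iff.rfl
  let Jv : Ideal (MvPolynomial (Fin n) ℚ) :=
    { carrier := {f | Ψ f ∈ F.I (T M n)}
      add_mem' := by
        intro a b ha hb
        show Ψ (a + b) ∈ F.I (T M n)
        rw [map_add]
        exact idl.add _ _ ha hb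
      zero_mem' := by
        show Ψ 0 ∈ F.I (T M n)
        rw [map_zero]
        exact idl.zero
      smul_mem' := by
        intro c a ha
        show Ψ (c • a) ∈ F.I (T M n)
        rw [smul_eq_mul, map_mul]
        intro t
        show F.map (Ψ a ≫ Ψ c) t = 0
        rw [F.map_comp]
        have : F.map (Ψ a : T M n ⟶ T M n) t = 0 := ha t
        rw [this, _root_.map_zero] }
  have hJv : ∀ f, f ∈ Jv ↔ Ψ f ∈ F.I (T M n) := fun f => Iff.rfl
  have hE : ∀ k, 1 ≤ k → MvPolynomial.esymm (Fin n) ℚ k ∈ Jv := by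
    intro k hk
    unfold MvPolynomial.esymm
    refine Jv.sum_mem fun t ht => ?_
    have h1 := (Finset.mem_powersetCard.1 ht).2
    obtain ⟨a, ha⟩ : t.Nonempty := Finset.card_pos.1 (by omega)
    rw [← Finset.mul_prod_erase _ _ ha]
    refine Jv.mul_mem_right _ ?_
    rw [hJv, hΨ]
    exact hI a
  -- the products
  obtain ⟨q, hq⟩ : ∃ q : MvPolynomial (Fin n) ℚ → End D,
      ∀ f, q f = i ≫ (Ψ f : T M n ⟶ T M n) ≫ r := ⟨fun f => i ≫ (Ψ f : T M n ⟶ T M n) ≫ r, fun _ => rfl⟩
  have hq1 : q 1 = 1 := by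
    rw [hq, map_one]
    show i ≫ 𝟙 _ ≫ r = 𝟙 D
    rw [Category.id_comp, hir]
  have hcomm : ∀ f : MvPolynomial (Fin n) ℚ, f.IsSymmetric →
      (r ≫ i) ≫ (Ψ f : T M n ⟶ T M n) = (Ψ f : T M n ⟶ T M n) ≫ (r ≫ i) := by
    intro f hf
    have h1 := hsym f hf e
    rw [← hp] at h1
    rw [← hpr]
    exact h1.symm
  have hqm : ∀ f g : MvPolynomial (Fin n) ℚ, f.IsSymmetric → q (f * g) = q f * q g := by
    intro f g hf
    have h1 : q f * q g = (i ≫ (Ψ g : T M n ⟶ T M n) ≫ r) ≫ (i ≫ (Ψ f : T M n ⟶ T M n) ≫ r) := by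
      rw [hq, hq]
      rfl
    have h2 : q (f * g) = i ≫ ((Ψ g : T M n ⟶ T M n) ≫ (Ψ f : T M n ⟶ T M n)) ≫ r := by
      rw [hq, map_mul]
      rfl
    rw [h1, h2]
    have h3 : (i ≫ (Ψ g : T M n ⟶ T M n) ≫ r) ≫ (i ≫ (Ψ f : T M n ⟶ T M n) ≫ r) =
        i ≫ (Ψ g : T M n ⟶ T M n) ≫ ((r ≫ i) ≫ (Ψ f : T M n ⟶ T M n)) ≫ r := by
      simp only [Category.assoc]
    rw [h3, hcomm f hf]
    simp only [Category.assoc]
    rw [hir, Category.comp_id]
  have hql : ∀ l : List (MvPolynomial (Fin n) ℚ), (∀ f ∈ l, f.IsSymmetric) →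
      q l.prod = (l.map q).prod ∧ l.prod.IsSymmetric := by
    intro l
    induction l with
    | nil =>
      intro _
      refine ⟨by simpa using hq1, ?_⟩
      rw [List.prod_nil]
      exact MvPolynomial.IsSymmetric.one
    | cons f l ih =>
      intro h
      have h1 := ih fun g hg => h g (List.mem_cons_of_mem _ hg)
      have h2 := h f List.mem_cons_self
      rw [List.prod_cons, List.map_cons, List.prod_cons, hqm _ _ h2, h1.1]
      exact ⟨rfl, h2.mul h1.2⟩
  have key : ∀ l : List (MvPolynomial (Fin n) ℚ), (∀ f ∈ l, f.IsSymmetric ∧ f ∈ Jv) →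
      l.length = L → l.prod ∈ Ann := by
    intro l hl hlen
    obtain ⟨h1, h2⟩ := hql l fun f hf => (hl f hf).1
    have h3 : (l.map q).prod = 0 := by
      apply hL
      · intro y hy
        obtain ⟨f, hf, rfl⟩ := List.mem_map.1 hy
        rw [hq]
        intro t
        show F.map (i ≫ (Ψ f : T M n ⟶ T M n) ≫ r) t = 0
        rw [F.map_comp, F.map_comp]
        have h4 : F.map (Ψ f : T M n ⟶ T M n) (F.map i t) = 0 := (hl f hf).2 _
        rw [h4, _root_.map_zero]
      · rw [List.length_map, hlen]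
    rw [h3, hq] at h1
    rw [hAnn]
    have h5 : Ψ l.prod * p = (r ≫ i) ≫ (Ψ l.prod : T M n ⟶ T M n) := by
      rw [← hpr]
      rfl
    rw [h5]
    have h6 : (r ≫ i) ≫ (Ψ l.prod : T M n ⟶ T M n) =
        (r ≫ i) ≫ (r ≫ i) ≫ (Ψ l.prod : T M n ⟶ T M n) := by
      simp only [Category.assoc]
      rw [← Category.assoc i r, hir, Category.id_comp]
    rw [h6, hcomm _ h2]
    have h7 : (r ≫ i) ≫ (Ψ l.prod : T M n ⟶ T M n) ≫ r ≫ i =
        r ≫ (i ≫ (Ψ l.prod : T M n ⟶ T M n) ≫ r) ≫ i := by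
      simp only [Category.assoc]
    rw [h7]
    have h8 : i ≫ (Ψ l.prod : T M n ⟶ T M n) ≫ r = 0 := h1
    rw [h8, zero_comp, comp_zero]
  have hpow : ∀ m k : ℕ, k + m = L → ∀ l : List (MvPolynomial (Fin n) ℚ),
      (∀ f ∈ l, f.IsSymmetric ∧ f ∈ Jv) → l.length = k →
      l.prod * MvPolynomial.X j ^ (n * m) ∈ Ann := by
    intro m
    induction m with
    | zero =>
      intro k hk l hl hlen
      rw [mul_zero, pow_zero, mul_one]
      exact key l hl (by omega)
    | succ m ih =>
      intro k hk l hl hlen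
      let I2 : Ideal (MvPolynomial (Fin n) ℚ) :=
        { carrier := {b | l.prod * (MvPolynomial.X j ^ (n * m) * b) ∈ Ann}
          add_mem' := by
            intro a b ha hb
            show l.prod * (MvPolynomial.X j ^ (n * m) * (a + b)) ∈ Ann
            rw [mul_add, mul_add]
            exact Ann.add_mem ha hb
          zero_mem' := by
            show l.prod * (MvPolynomial.X j ^ (n * m) * 0) ∈ Ann
            rw [mul_zero, mul_zero]
            exact Ann.zero_mem
          smul_mem' := by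
            intro c a ha
            show l.prod * (MvPolynomial.X j ^ (n * m) * (c • a)) ∈ Ann
            have h1 : l.prod * (MvPolynomial.X j ^ (n * m) * (c • a)) =
                c * (l.prod * (MvPolynomial.X j ^ (n * m) * a)) := by
              rw [smul_eq_mul]; ring
            rw [h1]
            exact Ann.mul_mem_left _ ha }
      have h1 : (MvPolynomial.X j : MvPolynomial (Fin n) ℚ) ^ n ∈ I2 := by
        apply X_pow_mem
        intro t ht
        show l.prod * (MvPolynomial.X j ^ (n * m) * MvPolynomial.esymm (Fin n) ℚ t) ∈ Ann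
        have h2 := ih (k + 1) (by omega) (MvPolynomial.esymm (Fin n) ℚ t :: l) (by
          intro f hf
          rcases List.mem_cons.1 hf with h | h
          · rw [h]
            exact ⟨MvPolynomial.esymm_isSymmetric _ _ _, hE t ht⟩
          · exact hl f h) (by rw [List.length_cons, hlen])
        rw [List.prod_cons] at h2
        have h3 : l.prod * (MvPolynomial.X j ^ (n * m) * MvPolynomial.esymm (Fin n) ℚ t) =
            MvPolynomial.esymm (Fin n) ℚ t * l.prod * MvPolynomial.X j ^ (n * m) := by ring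
        rw [h3]
        exact h2
      have h2 : l.prod * (MvPolynomial.X j ^ (n * m) * MvPolynomial.X j ^ n) ∈ Ann := h1
      rwa [← pow_add, ← Nat.mul_succ] at h2
  have hfin := hpow L 0 (by omega) [] (by simp) rfl
  rw [List.prod_nil, one_mul] at hfin
  have h1 := Ann.mul_mem_right (MvPolynomial.X j) hfin
  rw [← pow_succ, hAnn, map_pow, hΨ] at h1
  have h2 := ins_pw z n j (n * L + 1)
  rw [← hxd] at h2
  rw [← h2, hp] at h1
  exact h1

end real

end

end Pool.Agent.Helper96.SP
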