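import Pool.Agent.Helper96.SP.Defs

/-!
# Induction on permutations
-/

set_option autoImplicit false

namespace Pool.Agent.Helper96.SP

theorem up_zero {n : ℕ} (σ : Equiv.Perm (Fin n)) : up σ 0 = 0 := by
  unfold up
  rw [Equiv.Perm.decomposeFin_symm_apply_zero]

theorem up_succ {n : ℕ} (σ : Equiv.Perm (Fin n)) (j : Fin n) : up σ j.succ = (σ j).succ := by
  unfold up
  rw [Equiv.Perm.decomposeFin_symm_apply_succ, Equiv.swap_self]
  rfl

/-- A permutation fixing `0` is determined by its values on successors. -/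
theorem eq_up {n : ℕ} {g : Equiv.Perm (Fin (n + 1))} {σ : Equiv.Perm (Fin n)} (h0 : g 0 = 0)
    (h : ∀ j : Fin n, g j.succ = (σ j).succ) : g = up σ := by
  refine Equiv.ext fun j => ?_
  refine Fin.cases ?_ (fun j => ?_) j
  · rw [h0, up_zero]
  · rw [h, up_succ]

theorem up_mul {n : ℕ} (σ τ : Equiv.Perm (Fin n)) : up (σ * τ) = up σ * up τ := by
  symm
  refine eq_up ?_ fun j => ?_
  · rw [Equiv.Perm.mul_apply, up_zero, up_zero]
  · rw [Equiv.Perm.mul_apply, up_succ, up_succ, Equiv.Perm.mul_apply]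

theorem up_one {n : ℕ} : up (1 : Equiv.Perm (Fin n)) = 1 := by
  symm
  exact eq_up rfl fun j => rfl

theorem up_inv {n : ℕ} (σ : Equiv.Perm (Fin n)) : up σ⁻¹ = (up σ)⁻¹ := by
  rw [eq_inv_iff_mul_eq_one, ← up_mul, inv_mul_cancel, up_one]

theorem up_injective {n : ℕ} : Function.Injective (up : Equiv.Perm (Fin n) → _) := by
  intro σ τ h
  refine Equiv.ext fun j => ?_
  have h1 := up_succ σ j
  rw [h, up_succ] at h1
  exact (Fin.succ_injective _ h1).symm

/-- A permutation fixing `0` is `up` of a permutation. -/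
theorem exists_up {n : ℕ} {g : Equiv.Perm (Fin (n + 1))} (h : g 0 = 0) : ∃ σ, g = up σ := by
  obtain ⟨p, hp⟩ : ∃ p, p = Equiv.Perm.decomposeFin g := ⟨_, rfl⟩
  have h1 : g = Equiv.Perm.decomposeFin.symm (p.1, p.2) := by
    rw [Prod.mk.eta, hp, Equiv.symm_apply_apply]
  have h2 : p.1 = 0 := by
    rw [← Equiv.Perm.decomposeFin_symm_apply_zero p.1 p.2, ← h1, h]
  refine ⟨p.2, ?_⟩
  rw [h1, h2]
  rfl

/-- `swap 0 (j + 1)` is a conjugate of `swap 0 1`. -/
theorem swap_zero_succ {n : ℕ} (j : Fin (n + 1)) :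
    Equiv.swap (0 : Fin (n + 2)) j.succ =
      up (Equiv.swap 0 j) * Equiv.swap 0 1 * up (Equiv.swap 0 j) := by
  have h1 : up (Equiv.swap 0 j) (0 : Fin (n + 2)) = 0 := up_zero _
  have h2 : up (Equiv.swap 0 j) (1 : Fin (n + 2)) = j.succ := by
    have h3 := up_succ (Equiv.swap 0 j) 0
    rw [Equiv.swap_apply_left] at h3
    exact h3
  have h4 : (up (Equiv.swap 0 j))⁻¹ = up (Equiv.swap 0 j) := by
    rw [← up_inv, Equiv.swap_inv]
  conv_lhs => rw [← h1, ← h2]
  rw [Equiv.swap_apply_apply, h4]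

/-- Every permutation fixes `0` or is `up α * swap 0 1 * up β`. -/
theorem perm_cases {n : ℕ} (g : Equiv.Perm (Fin (n + 2))) :
    (∃ σ, g = up σ) ∨ ∃ α β, g = up α * Equiv.swap 0 1 * up β := by
  by_cases h : g 0 = 0
  · exact Or.inl (exists_up h)
  · right
    obtain ⟨j, hj⟩ := Fin.exists_succ_eq.2 h
    obtain ⟨σ, hσ⟩ : ∃ σ, Equiv.swap (0 : Fin (n + 2)) j.succ * g = up σ := by
      refine exists_up ?_
      rw [Equiv.Perm.mul_apply, ← hj, Equiv.swap_apply_right]
    refine ⟨Equiv.swap 0 j, Equiv.swap 0 j * σ, ?_⟩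
    rw [up_mul, ← hσ, ← mul_assoc, ← swap_zero_succ, ← mul_assoc, Equiv.swap_mul_self, one_mul]

/-- **Induction on permutations.** -/
theorem perm_ind {P : ∀ n : ℕ, Equiv.Perm (Fin n) → Prop} (h1 : ∀ n, P n 1)
    (hm : ∀ n g h, P n g → P n h → P n (g * h)) (hup : ∀ n g, P n g → P (n + 1) (up g))
    (hsw : ∀ n, P (n + 2) (Equiv.swap 0 1)) (n : ℕ) (g : Equiv.Perm (Fin n)) : P n g := by
  induction n with
  | zero =>
    rw [Subsingleton.elim g 1]
    exact h1 0
  | succ n ih =>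
    rcases n with _ | n
    · have : Subsingleton (Fin (0 + 1)) := inferInstanceAs (Subsingleton (Fin 1))
      have hg : g = 1 := Equiv.ext fun j => Subsingleton.elim _ _
      rw [hg]
      exact h1 1
    · rcases perm_cases g with ⟨σ, rfl⟩ | ⟨α, β, rfl⟩
      · exact hup _ _ (ih σ)
      · exact hm _ _ _ (hm _ _ _ (hup _ _ (ih α)) (hsw n)) (hup _ _ (ih β))

end Pool.Agent.Helper96.SP
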