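import Pool.Agent.Helper96.SP.Defs2
import Pool.Graph.R_pool_sql_team_seeded_ab47071d.TH90.Kim.Main4

/-!
# Package PCF: the realisation of a contraction
-/

open CategoryTheory MonoidalCategory Limits BraidedCategory

universe u v w

namespace Pool.Agent.Helper96.SP

open Pool.Agent.TH90.AB Pool.Agent.TH90.Kim Pool.Agent.Helper96.Kim

set_option linter.unusedSectionVars false

variable {𝒜 : Type u} [Category.{v} 𝒜] [MonoidalCategory 𝒜] [SymmetricCategory 𝒜]
  [Preadditive 𝒜] [MonoidalPreadditive 𝒜] [Linear ℚ 𝒜] [MonoidalLinear ℚ 𝒜]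
  [hdual : ∀ X : 𝒜, HasRightDual X] {K : Type w} [Field K] [CharZero K] (F : Realisation 𝒜 K)

namespace PCFX

/-- The coevaluation and the dual functionals. -/
lemma coev (N : 𝒜) {ι : Type} [Fintype ι] (a : ι → F.V N) (b : ι → F.V Nᘁ)
    (h : F.map (η_ N Nᘁ) F.one = ∑ i, F.ext (a i) (b i)) :
    ∃ φ : ι → Module.Dual K (F.V N),
      (∀ i v, F.map (ε_ N Nᘁ) (F.ext (b i) v) = φ i v • F.one) ∧ ∀ v, ∑ i, φ i v • a i = v := by
  have hc : ∀ (i : ι) (v : F.V N), ∃ c : K, F.map (ε_ N Nᘁ) (F.ext (b i) v) = c • F.one :=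
    fun i v => F.span_one _
  choose c hc using hc
  have inj : ∀ x y : K, x • F.one = y • F.one → x = y := fun x y hxy =>
    smul_left_injective K F.one_ne hxy
  let φ : ι → Module.Dual K (F.V N) := fun i =>
    { toFun := c i
      map_add' := by
        intro x y
        apply inj
        rw [← hc, add_smul, ← hc, ← hc, _root_.map_add, _root_.map_add]
      map_smul' := by
        intro r x
        apply inj
        rw [← hc, _root_.map_smul, _root_.map_smul, hc, smul_smul]
        rfl }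
  refine ⟨φ, hc, fun v => ?_⟩
  have e1 := ExactPairing.evaluation_coevaluation N Nᘁ
  have e2 := congrArg (fun f => F.map f (F.ext F.one v)) e1
  simp only [F.map_comp, F.whiskerRight, F.left_unit] at e2
  rw [h, map_sum, LinearMap.sum_apply, map_sum, map_sum] at e2
  simp only [F.assoc, F.whiskerLeft, hc, _root_.map_smul] at e2
  have e3 := congrArg (F.map (ρ_ N).hom) e2
  rw [map_sum] at e3
  simp only [_root_.map_smul, F.right_unit] at e3
  rw [← F.map_comp, Iso.inv_hom_id, F.map_id] at e3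
  exact e3

/-- The coevaluation in a basis. -/
lemma coev_basis (N : 𝒜) {ι : Type} [Fintype ι] [DecidableEq ι] (b : Module.Basis ι K (F.V N)) :
    ∃ c : ι → F.V Nᘁ, F.map (η_ N Nᘁ) F.one = ∑ i, F.ext (b i) (c i) ∧
      ∀ i j, F.map (ε_ N Nᘁ) (F.ext (c i) (b j)) = if i = j then F.one else 0 := by
  obtain ⟨n, a, d, h⟩ := F.exists_sum (F.map (η_ N Nᘁ) F.one)
  have h1 : F.map (η_ N Nᘁ) F.one = ∑ i, F.ext (b i) (∑ l, b.repr (a l) i • d l) := by
    rw [h]
    simp only [map_sum, _root_.map_smul]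
    rw [Finset.sum_comm]
    refine Finset.sum_congr rfl fun l _ => ?_
    conv_lhs => rw [← b.sum_repr (a l)]
    rw [map_sum, LinearMap.sum_apply]
    refine Finset.sum_congr rfl fun i _ => ?_
    rw [_root_.map_smul, LinearMap.smul_apply]
  refine ⟨_, h1, fun i j => ?_⟩
  obtain ⟨φ, h2, h3⟩ := coev F N b _ h1
  have h4 := congrArg (fun v => b.repr v i) (h3 (b j))
  simp only [map_sum, _root_.map_smul, Finsupp.coe_finsetSum, Finset.sum_apply,
    Finsupp.smul_apply, Module.Basis.repr_self, Finsupp.single_apply, smul_eq_mul, mul_ite, mul_one,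
    mul_zero, Finset.sum_ite_eq', Finset.mem_univ, if_true] at h4
  rw [h2, h4]
  by_cases hij : i = j
  · rw [if_pos hij, if_pos hij.symm, one_smul]
  · rw [if_neg hij, if_neg (Ne.symm hij), zero_smul]

end PCFX

theorem pcf {M : 𝒜} {ι : Type} [Fintype ι] [DecidableEq ι] (b : Module.Basis ι K (F.V M))
    (δ : ι → ℚ) (hδ : ∀ i, δ i = 1 ∨ δ i = -1) (hb : ∀ i, F.par M (b i) = (δ i : K) • b i)
    {X Y : 𝒜} (f : X ⊗ M ⟶ Y ⊗ M) (x : F.V X) (y : ι → ι → F.V Y)
    (h : ∀ i, F.map f (F.ext x (b i)) = ∑ j, F.ext (y i j) (b j)) :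
    F.map (ptr f) x = ∑ i, (δ i : K) • y i i := by
  obtain ⟨c, h1, h2⟩ := PCFX.coev_basis F M b
  have hδδ : ∀ i, (δ i : K) * (δ i : K) = 1 := by
    intro i
    rcases hδ i with h | h <;> rw [h] <;> norm_num
  have hev : ∀ i j, F.map (ev M) (F.ext (b j) (c i)) =
      if i = j then (δ j : K) • F.one else 0 := by
    intro i j
    have h3 : b j = (δ j : K) • F.par M (b j) := by
      rw [hb, smul_smul, hδδ, one_smul]
    rw [h3, _root_.map_smul, LinearMap.smul_apply, _root_.map_smul, F.ev_par, h2]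
    split_ifs
    · rfl
    · rw [smul_zero]
  have hρ : F.map (ρ_ X).inv x = F.ext x F.one := F.map_inv _ (F.right_unit x)
  unfold ptr
  simp only [F.map_comp]
  rw [hρ, F.whiskerLeft, h1]
  simp only [map_sum, F.assoc_inv, F.whiskerRight, h, LinearMap.sum_apply, F.assoc, F.whiskerLeft,
    hev]
  refine Finset.sum_congr rfl fun i _ => ?_
  rw [Finset.sum_eq_single i]
  · rw [if_pos rfl, _root_.map_smul, _root_.map_smul, F.right_unit]
  · intro j _ hj
    rw [if_neg (Ne.symm hj), _root_.map_zero, _root_.map_zero]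
  · intro hi
    exact absurd (Finset.mem_univ _) hi

theorem map_tr_str {X : 𝒜} (f : X ⟶ X) : F.map (tr f) F.one = str F f • F.one := by
  classical
  obtain ⟨c, h1, h2⟩ := PCFX.coev_basis F X (Module.finBasis K (F.V X))
  obtain ⟨φ, h3, h4⟩ := PCFX.coev F X _ _ h1
  rw [tr_eq, F.map_comp, F.map_comp, h1]
  simp only [map_sum, F.whiskerRight]
  have h5 : ∀ (v : F.V X) i, F.map (ev X) (F.ext v (c i)) = φ i (F.par X v) • F.one := by
    intro v i
    have h6 := F.ev_par (F.par X v) (c i)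
    rw [F.par_par] at h6
    rw [h6, h3]
  simp only [h5]
  rw [← Finset.sum_smul]
  congr 1
  rw [str]
  have h6 : (F.par X ∘ₗ F.map f : F.V X →ₗ[K] F.V X) =
      ∑ i, dualTensorHom K _ _ (φ i ⊗ₜ F.par X (F.map f (Module.finBasis K (F.V X) i))) := by
    refine LinearMap.ext fun v => ?_
    rw [LinearMap.sum_apply]
    simp only [dualTensorHom_apply]
    conv_lhs => rw [← h4 v]
    simp only [map_sum, _root_.map_smul]
    rfl
  rw [h6, map_sum]
  refine Finset.sum_congr rfl fun i _ => ?_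
  rw [LinearMap.trace_eq_contract_apply]
  simp

end Pool.Agent.Helper96.SP
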