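import Pool.Agent.Helper96.SP.Defs2
import Pool.Agent.Helper96.SP.PInd
import Pool.Agent.Helper96.SP.PUP
import Pool.Agent.Helper96.SP.QINSL
import Pool.Agent.Helper96.SP.QPCF

/-!
# Invisible idempotents which are killed by an element of the group algebra vanish
-/

open CategoryTheory MonoidalCategory Limits BraidedCategory

universe u v w

namespace Pool.Agent.Helper96.SP

open Pool.Agent.TH90.AB Pool.Agent.TH90.Kim Pool.Agent.Helper96.Kim

set_option linter.unusedSectionVars false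

namespace PHTX

/-! ### the group algebra -/

/-- the part of `z` on the stabiliser of `0` -/
noncomputable def dn {n : ℕ} (z : QS (n + 1)) : QS n :=
  ∑ σ : Equiv.Perm (Fin n), MonoidAlgebra.single σ (z.coeff (Pool.Agent.Helper96.SP.up σ))

lemma dn_add {n : ℕ} (x y : QS (n + 1)) : dn (x + y) = dn x + dn y := by
  unfold dn
  rw [← Finset.sum_add_distrib]
  refine Finset.sum_congr rfl fun σ _ => ?_
  rw [MonoidAlgebra.coeff_add, Finsupp.add_apply, MonoidAlgebra.single_add]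

lemma dn_zero {n : ℕ} : dn (0 : QS (n + 1)) = 0 := by
  unfold dn
  refine Finset.sum_eq_zero fun σ _ => ?_
  simp

lemma up_inj {n : ℕ} {σ τ : Equiv.Perm (Fin n)}
    (h : Pool.Agent.Helper96.SP.up σ = Pool.Agent.Helper96.SP.up τ) : σ = τ := up_injective h

lemma up_z {n : ℕ} (σ : Equiv.Perm (Fin n)) : Pool.Agent.Helper96.SP.up σ 0 = 0 :=
  Equiv.Perm.decomposeFin_symm_apply_zero _ _

lemma dn_up {n : ℕ} (σ : Equiv.Perm (Fin n)) (c : ℚ) :
    dn (MonoidAlgebra.single (Pool.Agent.Helper96.SP.up σ) c) = MonoidAlgebra.single σ c := by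
  unfold dn
  rw [Finset.sum_eq_single σ]
  · rw [MonoidAlgebra.coeff_single, Finsupp.single_eq_same]
  · intro τ _ hτ
    rw [MonoidAlgebra.coeff_single, Finsupp.single_eq_of_ne, MonoidAlgebra.single_zero]
    intro h
    exact hτ (up_inj h)
  · simp

lemma dn_ne {n : ℕ} {g : Equiv.Perm (Fin (n + 1))} (hg : g 0 ≠ 0) (c : ℚ) :
    dn (MonoidAlgebra.single g c) = 0 := by
  unfold dn
  refine Finset.sum_eq_zero fun τ _ => ?_
  rw [MonoidAlgebra.coeff_single, Finsupp.single_eq_of_ne, MonoidAlgebra.single_zero]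
  intro h
  apply hg
  rw [← h, up_z]

/-- `up` on the group algebra -/
noncomputable abbrev uq {n : ℕ} : QS n →ₐ[ℚ] QS (n + 1) := emb (Fin.addNatEmb 1)

lemma via_one {n : ℕ} (g : Equiv.Perm (Fin n)) :
    (Equiv.Perm.viaEmbeddingHom (Fin.addNatEmb 1) g : Equiv.Perm (Fin (n + 1))) =
      Pool.Agent.Helper96.SP.up g := by
  have h := UPX.via_succ 0 g
  rw [UPX.via_zero] at h
  exact h

lemma uq_single {n : ℕ} (g : Equiv.Perm (Fin n)) (c : ℚ) :
    uq (MonoidAlgebra.single g c) = MonoidAlgebra.single (Pool.Agent.Helper96.SP.up g) c := by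
  show emb (Fin.addNatEmb 1) _ = _
  rw [UPX.emb_single, via_one]

lemma dn_uq_mul {n : ℕ} (y : QS n) (z : QS (n + 1)) : dn (uq y * z) = y * dn z := by
  induction y using MonoidAlgebra.induction_linear with
  | zero => rw [_root_.map_zero, zero_mul, zero_mul, dn_zero]
  | add a b ha hb => rw [_root_.map_add, add_mul, add_mul, dn_add, ha, hb]
  | single τ c =>
    rw [uq_single]
    induction z using MonoidAlgebra.induction_linear with
    | zero => rw [mul_zero, dn_zero, mul_zero]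
    | add a b ha hb => rw [mul_add, dn_add, dn_add, ha, hb, mul_add]
    | single g d =>
      rw [MonoidAlgebra.single_mul_single]
      by_cases hg : g 0 = 0
      · obtain ⟨σ, rfl⟩ := exists_up hg
        rw [← up_mul, dn_up, dn_up, MonoidAlgebra.single_mul_single]
      · rw [dn_ne hg, mul_zero, dn_ne]
        rw [Equiv.Perm.mul_apply]
        intro h
        apply hg
        rw [← up_z τ] at h
        exact (Pool.Agent.Helper96.SP.up τ).injective h

/-- the decomposition in cosets -/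
lemma decomp {n : ℕ} (e : QS (n + 1)) : e = ∑ p : Fin (n + 1),
    MonoidAlgebra.single (Equiv.swap 0 p) 1 *
      uq (dn (MonoidAlgebra.single (Equiv.swap 0 p)⁻¹ 1 * e)) := by
  induction e using MonoidAlgebra.induction_linear with
  | zero => simp [dn_zero]
  | add a b ha hb =>
    simp only [mul_add, dn_add, _root_.map_add, Finset.sum_add_distrib]
    rw [← ha, ← hb]
  | single g c =>
    rw [Finset.sum_eq_single (g 0)]
    · rw [MonoidAlgebra.single_mul_single, one_mul]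
      have h0 : ((Equiv.swap 0 (g 0))⁻¹ * g) 0 = 0 := by
        rw [Equiv.Perm.mul_apply, Equiv.swap_inv, Equiv.swap_apply_right]
      obtain ⟨σ, hσ⟩ := exists_up h0
      rw [hσ, dn_up, uq_single, MonoidAlgebra.single_mul_single, one_mul, ← hσ,
        mul_inv_cancel_left]
    · intro p _ hp
      rw [MonoidAlgebra.single_mul_single, dn_ne, _root_.map_zero, mul_zero]
      rw [Equiv.Perm.mul_apply, Equiv.swap_inv]
      intro h
      apply hp
      have h2 : Equiv.swap 0 p (Equiv.swap 0 p (g 0)) = Equiv.swap 0 p 0 := by rw [h]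
      rw [Equiv.swap_apply_self, Equiv.swap_apply_left] at h2
      exact h2.symm
    · simp

end PHTX

section cat

open PHTX

variable {𝒜 : Type u} [Category.{v} 𝒜] [MonoidalCategory 𝒜] [SymmetricCategory 𝒜]
variable [Preadditive 𝒜] [MonoidalPreadditive 𝒜] [Linear ℚ 𝒜] [MonoidalLinear ℚ 𝒜]

namespace PHTX

lemma ins_Tm {M : 𝒜} {ε κ : M ⟶ M} (h : ε ≫ κ = 0) (n : ℕ) (j : Fin n) :
    ins ε n j ≫ Tm κ n = 0 := by
  induction n with
  | zero => exact j.elim0
  | succ n ih =>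
    refine Fin.cases ?_ (fun j => ?_) j
    · show (T M n ◁ ε) ≫ (Tm κ n ⊗ₘ κ) = 0
      rw [tensorHom_def', ← Category.assoc, ← MonoidalCategory.whiskerLeft_comp, h]
      simp
    · show (ins ε n j ▷ M) ≫ (Tm κ n ⊗ₘ κ) = 0
      rw [MonoidalCategory.tensorHom_def, ← Category.assoc, ← comp_whiskerRight, ih]
      simp

lemma rh_uq {M : 𝒜} {φ : Fam M} (hφ : PA φ) (n : ℕ) (x : QS n) :
    (rh φ (n + 1) (uq x) : T M n ⊗ M ⟶ T M n ⊗ M) = rh φ n x ▷ M := rh_shift hφ n 1 x

/-- the sandwich -/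
lemma sand {M : 𝒜} {φ : Fam M} (hφ : PA φ) {ε κ : M ⟶ M} (hεε : ε ≫ ε = ε) (h : ε ≫ κ = 0)
    (n : ℕ) (z : QS (n + 1)) :
    (T M n ◁ ε) ≫ (rh φ (n + 1) z : T M n ⊗ M ⟶ T M n ⊗ M) ≫ (Tm κ n ▷ M) ≫ (T M n ◁ ε) =
      ((rh φ n (dn z) ≫ Tm κ n) ▷ M) ≫ (T M n ◁ ε) := by
  induction z using MonoidAlgebra.induction_linear with
  | zero =>
    rw [dn_zero, UPX.rh_zero, UPX.rh_zero]
    simp
  | add x y hx hy =>
    rw [dn_add, UPX.rh_add, UPX.rh_add]
    simp only [Preadditive.add_comp, Preadditive.comp_add,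
      MonoidalPreadditive.add_whiskerRight] at hx hy ⊢
    rw [hx, hy]
  | single g c =>
    by_cases hg : g 0 = 0
    · obtain ⟨σ, rfl⟩ := exists_up hg
      rw [dn_up, UPX.rh_single, UPX.rh_single, hφ.up]
      have e1 : (T M n ◁ ε) ≫ (((φ n σ : T M n ⟶ T M n) ▷ M : T M n ⊗ M ⟶ T M n ⊗ M)) ≫
          (Tm κ n ▷ M) ≫ (T M n ◁ ε) =
          (((φ n σ : T M n ⟶ T M n) ≫ Tm κ n) ▷ M) ≫ (T M n ◁ ε) := by
        rw [← comp_whiskerRight_assoc, whisker_exchange_assoc,
          ← MonoidalCategory.whiskerLeft_comp, hεε]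
      change (T M n ◁ ε) ≫ (c • (((φ n σ : T M n ⟶ T M n) ▷ M : T M n ⊗ M ⟶ T M n ⊗ M))) ≫
          (Tm κ n ▷ M) ≫ (T M n ◁ ε) =
          (((c • (φ n σ : T M n ⟶ T M n)) ≫ Tm κ n) ▷ M) ≫ (T M n ◁ ε)
      rw [Linear.smul_comp, Linear.comp_smul, Linear.smul_comp, MonoidalLinear.smul_whiskerRight,
        Linear.smul_comp, e1]
    · obtain ⟨j, hj⟩ := Fin.exists_succ_eq.2 hg
      rw [dn_ne hg, UPX.rh_zero, UPX.rh_single]
      have e1 : (T M n ◁ ε) ≫ ((φ (n + 1) g : T M n ⊗ M ⟶ T M n ⊗ M)) ≫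
          (Tm κ n ▷ M) ≫ (T M n ◁ ε) = 0 := by
        have e2 := ins_perm hφ ε (n + 1) g 0
        rw [← hj] at e2
        have e3 : (T M n ◁ ε) ≫ ((φ (n + 1) g : T M n ⊗ M ⟶ T M n ⊗ M)) =
            (φ (n + 1) g : T M n ⊗ M ⟶ T M n ⊗ M) ≫ (ins ε n j ▷ M) := e2
        rw [← Category.assoc, e3, Category.assoc, ← comp_whiskerRight_assoc, ins_Tm h]
        simp
      change (T M n ◁ ε) ≫ (c • ((φ (n + 1) g : T M n ⊗ M ⟶ T M n ⊗ M))) ≫
          (Tm κ n ▷ M) ≫ (T M n ◁ ε) = _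
      rw [Linear.smul_comp, Linear.comp_smul, e1]
      simp

end PHTX

variable [hdual : ∀ X : 𝒜, HasRightDual X] {K : Type w} [Field K] [CharZero K]
  (F : Realisation 𝒜 K)

namespace PHTX

/-- the trace over the first factor -/
lemma trace_first {X M : 𝒜} {h : X ⟶ X} {ε : M ⟶ M} (h0 : (h ▷ M) ≫ (X ◁ ε) = 0) {q : ℚ}
    (hq : tr h = q • 𝟙 (𝟙_ 𝒜)) : q • ε = 0 := by
  have h1 : (M ◁ h) ≫ (ε ▷ X) = 0 := by
    have h2 : ((M ◁ h) ≫ (ε ▷ X)) ≫ (β_ M X).hom = 0 := by
      rw [Category.assoc, BraidedCategory.braiding_naturality_left,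
        BraidedCategory.braiding_naturality_right_assoc, h0, comp_zero]
    rw [← cancel_mono (β_ M X).hom, h2, zero_comp]
  have h2 := congrArg ptr h1
  rw [ptr_right, ptr_scalar hq, ptr_zero, Linear.smul_comp, Category.id_comp] at h2
  exact h2

lemma map_Tm_congr {M : 𝒜} {f : M ⟶ M} (hf : ∀ x, F.map f x = x) (n : ℕ) (x : F.V (T M n)) :
    F.map (Tm f n) x = x := by
  induction n with
  | zero => exact F.map_id _ x
  | succ n ih =>
    obtain ⟨k, a, b, rfl⟩ := F.exists_sum x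
    rw [map_sum]
    refine Finset.sum_congr rfl fun i _ => ?_
    show F.map (Tm f n ⊗ₘ f) _ = _
    rw [F.ext_map, ih, hf]

lemma map_Tm_par {M : 𝒜} {s : M ⟶ M} (hs : ∀ x, F.map s x = F.par M x) (n : ℕ)
    (x : F.V (T M n)) : F.map (Tm s n) x = F.par (T M n) x := by
  induction n with
  | zero =>
    obtain ⟨c, rfl⟩ := F.span_one x
    show F.map (𝟙 _) _ = F.par (𝟙_ 𝒜) _
    rw [F.map_id, _root_.map_smul, F.par_one]
  | succ n ih =>
    obtain ⟨k, a, b, rfl⟩ := F.exists_sum x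
    rw [map_sum, map_sum]
    refine Finset.sum_congr rfl fun i _ => ?_
    show F.map (Tm s n ⊗ₘ s) _ = F.par (T M n ⊗ M) _
    rw [F.ext_map, ih, hs, F.par_ext]

/-- a basis of eigenvectors of the parity -/
lemma exists_pb (M : 𝒜) : ∃ (ι : Type) (_ : Fintype ι) (_ : DecidableEq ι)
    (b : Module.Basis ι K (F.V M)) (δ : ι → ℚ), (∀ i, δ i = 1 ∨ δ i = -1) ∧
      ∀ i, F.par M (b i) = (δ i : K) • b i := by
  classical
  let Vp : Submodule K (F.V M) := LinearMap.ker (F.par M - LinearMap.id)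
  let Vm : Submodule K (F.V M) := LinearMap.ker (F.par M + LinearMap.id)
  have hp : ∀ x, x ∈ Vp ↔ F.par M x = x := by
    intro x
    rw [LinearMap.mem_ker, LinearMap.sub_apply, LinearMap.id_apply, sub_eq_zero]
  have hm : ∀ x, x ∈ Vm ↔ F.par M x = -x := by
    intro x
    rw [LinearMap.mem_ker, LinearMap.add_apply, LinearMap.id_apply, add_eq_zero_iff_eq_neg]
  have h2 : (2 : K) ≠ 0 := two_ne_zero
  have hc : IsCompl Vp Vm := by
    constructor
    · rw [Submodule.disjoint_def]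
      intro x h1 h3
      rw [hp] at h1
      rw [hm] at h3
      rw [h1] at h3
      have h4 : (2 : K) • x = 0 := by
        rw [two_smul]
        nth_rewrite 2 [h3]
        exact add_neg_cancel x
      exact (smul_eq_zero.1 h4).resolve_left h2
    · rw [codisjoint_iff, Submodule.eq_top_iff']
      intro x
      rw [Submodule.mem_sup]
      refine ⟨(2 : K)⁻¹ • (x + F.par M x), ?_, (2 : K)⁻¹ • (x - F.par M x), ?_, ?_⟩
      · rw [hp, _root_.map_smul, _root_.map_add, F.par_par, add_comm]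
      · rw [hm, _root_.map_smul, _root_.map_sub, F.par_par, ← smul_neg, neg_sub]
      · rw [← smul_add, add_add_sub_cancel, ← two_smul K x, smul_smul, inv_mul_cancel₀ h2,
          one_smul]
  let b := ((Module.finBasis K Vp).prod (Module.finBasis K Vm)).map
    (Submodule.prodEquivOfIsCompl Vp Vm hc)
  refine ⟨_, inferInstance, inferInstance, b, Sum.elim (fun _ => 1) (fun _ => -1), ?_, ?_⟩
  · rintro (i | i)
    · exact Or.inl rfl
    · exact Or.inr rfl
  · rintro (i | i)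
    · have e1 : b (Sum.inl i) = ((Module.finBasis K Vp) i : F.V M) := by
        simp [b]
      have e2 := (hp _).1 ((Module.finBasis K Vp) i).2
      rw [e1, e2]
      simp
    · have e1 : b (Sum.inr i) = ((Module.finBasis K Vm) i : F.V M) := by
        simp [b]
      have e2 := (hm _).1 ((Module.finBasis K Vm) i).2
      rw [e1, e2]
      simp

end PHTX

/-- PHT, from WORDS and SOS -/
theorem pht_of
    (hwd : ∀ (M : 𝒜) (ι : Type) [Fintype ι] [DecidableEq ι] (b : Module.Basis ι K (F.V M)) (n : ℕ),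
      ∃ B : Module.Basis (Fin n → ι) K (F.V (T M n)), ∀ w, B w = wd F n fun j => b (w j))
    (hsos : ∀ (M : 𝒜) (φ : Fam M), PA φ → ∀ (ι : Type) [Fintype ι] [DecidableEq ι]
      (b : Module.Basis ι K (F.V M)) (δ : ι → ℚ), (∀ i, δ i = 1 ∨ δ i = -1) →
      (∀ i, F.par M (b i) = (δ i : K) • b i) → ∀ (n : ℕ)
      (B : Module.Basis (Fin n → ι) K (F.V (T M n))), (∀ w, B w = wd F n fun j => b (w j)) →
      ∀ (x : QS n) (w : Fin n → ι), ∃ q : ℚ, 0 ≤ q ∧
        B.repr (F.map (rh φ n (adj x * x)) (B w)) w = (q : K) ∧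
        (q = 0 → F.map (rh φ n x) (B w) = 0))
    (hunit : ∀ f : 𝟙_ 𝒜 ⟶ 𝟙_ 𝒜, ∃ q : ℚ, f = q • 𝟙 (𝟙_ 𝒜)) {M : 𝒜} {φ : Fam M}
    (hφ : PA φ) {n : ℕ} (e : QS (n + 1)) (he : ¬ F.Inv (rh φ (n + 1) e)) (s : M ⟶ M)
    (hs : ∀ x, F.map s x = F.par M x) (ε : M ⟶ M) (hεε : ε ≫ ε = ε) (hε : F.Inv ε)
    (hk : ∀ (x : QS (n + 1)) (j : Fin (n + 1)), rh φ (n + 1) (x * e) ≫ ins ε (n + 1) j = 0) :
    ε = 0 := by
  classical
  set κ : M ⟶ M := 𝟙 M - ε with hκ
  have hεκ : ε ≫ κ = 0 := by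
    rw [hκ, Preadditive.comp_sub, Category.comp_id, hεε, sub_self]
  have hκm : ∀ x, F.map κ x = x := by
    intro x
    rw [hκ, F.map_sub', F.map_id, hε, sub_zero]
  -- a visible coset
  obtain ⟨p, hp⟩ : ∃ p : Fin (n + 1),
      ¬ F.Inv (rh φ n (dn (MonoidAlgebra.single (Equiv.swap 0 p)⁻¹ 1 * e))) := by
    by_contra hcon
    push Not at hcon
    apply he
    intro v
    rw [decomp e]
    have h1 : rh φ (n + 1) (∑ p : Fin (n + 1), MonoidAlgebra.single (Equiv.swap 0 p) 1 *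
        uq (dn (MonoidAlgebra.single (Equiv.swap 0 p)⁻¹ 1 * e))) =
        ∑ p : Fin (n + 1), rh φ (n + 1) (MonoidAlgebra.single (Equiv.swap 0 p) 1 *
        uq (dn (MonoidAlgebra.single (Equiv.swap 0 p)⁻¹ 1 * e))) := map_sum (rho φ (n + 1)) _ _
    rw [h1]
    have h2 : ∀ (S : Finset (Fin (n + 1))) (f : Fin (n + 1) → (T M (n + 1) ⟶ T M (n + 1))),
        (∀ p ∈ S, F.map (f p) v = 0) → F.map (∑ p ∈ S, f p) v = 0 := by
      intro S f hf
      induction S using Finset.induction with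
      | empty => rw [Finset.sum_empty, F.map_zero']
      | insert a S ha ih =>
        rw [Finset.sum_insert ha, F.map_add, hf a (Finset.mem_insert_self a S),
          ih fun p hp => hf p (Finset.mem_insert_of_mem hp), add_zero]
    refine h2 _ _ fun p _ => ?_
    rw [UPX.rh_mul, F.map_comp]
    have h3 : F.map (rh φ (n + 1)
        (uq (dn (MonoidAlgebra.single (Equiv.swap 0 p)⁻¹ 1 * e)))) v = 0 := by
      have h4 := (hcon p).whiskerRight F M
      exact (congrArg (fun f => F.map f v) (rh_uq hφ n _)).trans (h4 v)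
    rw [h3, _root_.map_zero]
  set xp := dn (MonoidAlgebra.single (Equiv.swap 0 p)⁻¹ 1 * e) with hxp
  -- the sandwich
  have hz : ∀ x : QS (n + 1), ((rh φ n (dn (x * e)) ≫ Tm κ n) ▷ M) ≫ (T M n ◁ ε) = 0 := by
    intro x
    rw [← sand hφ hεε hεκ n (x * e)]
    have h1 : (rh φ (n + 1) (x * e) : T M n ⊗ M ⟶ T M n ⊗ M) ≫ (T M n ◁ ε) = 0 := hk x 0
    rw [← whisker_exchange, ← Category.assoc (rh φ (n + 1) (x * e) : T M n ⊗ M ⟶ T M n ⊗ M), h1,
      zero_comp, comp_zero]
  have h1 := hz (uq (adj xp) * MonoidAlgebra.single (Equiv.swap 0 p)⁻¹ 1)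
  rw [mul_assoc, dn_uq_mul, ← hxp] at h1
  set f := rh φ n (adj xp * xp) with hf
  set h := f ≫ Tm κ n ≫ Tm s n with hh
  have h3 : (h ▷ M) ≫ (T M n ◁ ε) = 0 := by
    rw [hh, ← Category.assoc, comp_whiskerRight, Category.assoc, ← whisker_exchange,
      ← Category.assoc, h1, zero_comp]
  obtain ⟨q, hq⟩ := hunit (tr h)
  have h4 := trace_first h3 hq
  -- the supertrace
  have hmap : ∀ v, F.map h v = F.par _ (F.map f v) := by
    intro v
    rw [hh, F.map_comp, F.map_comp, map_Tm_congr F hκm, map_Tm_par F hs]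
  obtain ⟨ι, i1, i2, b, δ, hδ, hb⟩ := exists_pb F M
  obtain ⟨B, hB⟩ := hwd M ι b n
  have hstr : str F h = LinearMap.trace K (F.V (T M n)) (F.map f) := by
    unfold str
    congr 1
    refine LinearMap.ext fun v => ?_
    rw [LinearMap.comp_apply, hmap, F.par_par]
  choose qw hq0 hq1 hq2 using fun w => hsos M φ hφ ι b δ hδ hb n B hB xp w
  have htr : LinearMap.trace K (F.V (T M n)) (F.map f) = ((∑ w, qw w : ℚ) : K) := by
    rw [LinearMap.trace_eq_matrix_trace K B, Matrix.trace]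
    push_cast
    refine Finset.sum_congr rfl fun w _ => ?_
    rw [Matrix.diag_apply, LinearMap.toMatrix_apply]
    exact hq1 w
  have hne : (∑ w, qw w : ℚ) ≠ 0 := by
    intro h0
    apply hp
    have h5 := fun w => (Finset.sum_eq_zero_iff_of_nonneg fun w _ => hq0 w).1 h0 w
      (Finset.mem_univ w)
    have h6 : F.map (rh φ n xp) = 0 := by
      refine B.ext fun w => ?_
      rw [hq2 w (h5 w), LinearMap.zero_apply]
    intro v
    rw [h6, LinearMap.zero_apply]
  have h5 := map_tr_str F h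
  rw [hq, F.map_smul, F.map_id, hstr, htr] at h5
  have h6 : (q : K) = ((∑ w, qw w : ℚ) : K) := smul_left_injective K F.one_ne h5
  have h7 : q ≠ 0 := by
    intro h8
    apply hne
    rw [h8, Rat.cast_zero] at h6
    exact_mod_cast h6.symm
  calc ε = (q⁻¹ * q) • ε := by rw [inv_mul_cancel₀ h7, one_smul]
    _ = q⁻¹ • (q • ε) := by rw [mul_smul]
    _ = 0 := by rw [h4, smul_zero]

end cat

end Pool.Agent.Helper96.SP
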