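import Pool.Agent.Helper96.SP.Defs2
import Pool.Agent.Helper96.SP.PGEN
import Pool.Agent.Helper96.SP.PWD
import Pool.Agent.Helper96.SP.PPA
import Pool.Agent.Helper96.SP.PUP
import Pool.Graph.R_pool_sql_team_seeded_ab47071d.TH90.Kim.Main4

/-!
# Package TM: tensor powers of morphisms and permutations
-/

open CategoryTheory MonoidalCategory Limits BraidedCategory

universe u v w

namespace Pool.Agent.Helper96.SP

open Pool.Agent.TH90.AB Pool.Agent.TH90.Kim Pool.Agent.Helper96.Kim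

set_option linter.unusedSectionVars false

variable {𝒜 : Type u} [Category.{v} 𝒜] [MonoidalCategory 𝒜] [SymmetricCategory 𝒜]

namespace TMX

theorem tm_sw {P Q : 𝒜} (r : P ⟶ Q) (n : ℕ) :
    Tm r (n + 2) ≫ sw (T Q n) Q = sw (T P n) P ≫ Tm r (n + 2) := by
  have e1 : Tm r (n + 2) = ((Tm r n ▷ P) ▷ P) ≫ (T Q n ◁ r) ▷ P ≫ (T Q n ⊗ Q) ◁ r := by
    simp only [Tm, MonoidalCategory.tensorHom_def, comp_whiskerRight, Category.assoc]
  rw [e1, Category.assoc, Category.assoc, sw_natural', sw_natural_assoc]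

theorem tm_perm {P Q : 𝒜} (f : P ⟶ Q) {φP : Fam P} (hP : PA φP) {φQ : Fam Q} (hQ : PA φQ) :
    ∀ (n : ℕ) (g : Equiv.Perm (Fin n)), Tm f n ≫ (φQ n g : T Q n ⟶ T Q n) =
      (φP n g : T P n ⟶ T P n) ≫ Tm f n := by
  refine GN.perm_ind ?_ ?_ ?_ ?_
  · intro n
    rw [map_one, map_one]
    exact (Category.comp_id _).trans (Category.id_comp _).symm
  · intro n g h hg hh
    rw [map_mul, map_mul]
    change Tm f n ≫ (φQ n h : T Q n ⟶ T Q n) ≫ (φQ n g : T Q n ⟶ T Q n) =
      ((φP n h : T P n ⟶ T P n) ≫ (φP n g : T P n ⟶ T P n)) ≫ Tm f n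
    rw [← Category.assoc, hh, Category.assoc, hg, Category.assoc]
  · intro n g hg
    rw [hP.up, hQ.up]
    simp only [Tm, MonoidalCategory.tensorHom_def, Category.assoc]
    rw [← comp_whiskerRight_assoc, ← hg, comp_whiskerRight_assoc, whisker_exchange]
  · intro n
    rw [hP.swap, hQ.swap]
    exact tm_sw f n

/-- the endomorphism `f` at two positions and `sw` -/
theorem ins_perm' {M : 𝒜} {φ : Fam M} (hφ : PA φ) (f : M ⟶ M) : ∀ (n : ℕ)
    (g : Equiv.Perm (Fin n)), ∀ j : Fin n, ins f n j ≫ (φ n g : T M n ⟶ T M n) =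
      (φ n g : T M n ⟶ T M n) ≫ ins f n (g j) := by
  refine GN.perm_ind ?_ ?_ ?_ ?_
  · intro n j
    rw [map_one]
    exact (Category.comp_id _).trans (Category.id_comp _).symm
  · intro n g h hg hh j
    rw [map_mul]
    change ins f n j ≫ (φ n h : T M n ⟶ T M n) ≫ (φ n g : T M n ⟶ T M n) =
      ((φ n h : T M n ⟶ T M n) ≫ (φ n g : T M n ⟶ T M n)) ≫ ins f n (g (h j))
    rw [← Category.assoc, hh, Category.assoc, hg, Category.assoc]
  · intro n g hg j
    rw [hφ.up]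
    refine Fin.cases ?_ (fun j => ?_) j
    · rw [GN.up_zero']
      exact whisker_exchange _ _
    · rw [GN.up_succ']
      change (ins f n j ▷ M) ≫ ((φ n g : T M n ⟶ T M n) ▷ M) =
        ((φ n g : T M n ⟶ T M n) ▷ M) ≫ (ins f n (g j) ▷ M)
      rw [← comp_whiskerRight, hg, comp_whiskerRight]
  · intro n j
    rw [hφ.swap]
    have h01 : (ins f (n + 2) 0) ≫ sw (T M n) M = sw (T M n) M ≫ ins f (n + 2) 1 := by
      change (T M n ⊗ M) ◁ f ≫ sw (T M n) M = sw (T M n) M ≫ (T M n ◁ f) ▷ M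
      simp only [sw, Category.assoc]
      rw [MonoidalCategory.tensor_whiskerLeft]
      simp only [Category.assoc, Iso.inv_hom_id_assoc]
      rw [← whiskerLeft_comp_assoc, braiding_naturality_right, whiskerLeft_comp_assoc]
      simp
    have h10 : (ins f (n + 2) 1) ≫ sw (T M n) M = sw (T M n) M ≫ ins f (n + 2) 0 := by
      have h2 := congrArg (fun t => sw (T M n) M ≫ t ≫ sw (T M n) M) h01
      simp only [Category.assoc, sw_sw, Category.comp_id] at h2
      rw [← Category.assoc (sw (T M n) M) (sw (T M n) M), sw_sw, Category.id_comp] at h2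
      exact h2.symm
    refine Fin.cases ?_ (fun j => ?_) j
    · rw [Equiv.swap_apply_left]
      exact h01
    · refine Fin.cases ?_ (fun j => ?_) j
      · have : (Fin.succ 0 : Fin (n + 2)) = 1 := rfl
        rw [this, Equiv.swap_apply_right]
        exact h10
      · have h3 : (Equiv.swap 0 1 : Equiv.Perm (Fin (n + 2))) j.succ.succ = j.succ.succ :=
          Equiv.swap_apply_of_ne_of_ne (Fin.succ_ne_zero _)
            (fun h => Fin.succ_ne_zero j (Fin.succ_injective _ h))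
        rw [h3]
        exact sw_natural _

theorem tm_ins0 {M : 𝒜} [Preadditive 𝒜] [MonoidalPreadditive 𝒜] [Linear ℚ 𝒜]
    [MonoidalLinear ℚ 𝒜] (p s : M ⟶ M) (δ : ℚ) (h : p ≫ s = δ • p) :
    ∀ (m : ℕ) (j : Fin m), Tm p m ≫ ins s m j = δ • Tm p m := by
  intro m
  induction m with
  | zero => intro j; exact j.elim0
  | succ m ih =>
    intro j
    refine Fin.cases ?_ (fun j => ?_) j
    · change (Tm p m ⊗ₘ p) ≫ (T M m ◁ s) = δ • (Tm p m ⊗ₘ p)
      rw [MonoidalCategory.tensorHom_def, Category.assoc, ← whiskerLeft_comp, h,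
        MonoidalLinear.whiskerLeft_smul, Linear.comp_smul]
    · change (Tm p m ⊗ₘ p) ≫ (ins s m j ▷ M) = δ • (Tm p m ⊗ₘ p)
      rw [MonoidalCategory.tensorHom_def', Category.assoc, ← comp_whiskerRight, ih,
        MonoidalLinear.smul_whiskerRight, Linear.comp_smul]

end TMX

section lin

variable [Preadditive 𝒜] [MonoidalPreadditive 𝒜] [Linear ℚ 𝒜] [MonoidalLinear ℚ 𝒜]

theorem TMX.rh_eq' {M : 𝒜} (φ : Fam M) (n : ℕ) (x : QS n) :
    rh φ n x = x.coeff.sum fun g c => c • (φ n g : T M n ⟶ T M n) := GN.rho_apply' φ n x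

theorem tm_rh {P Q : 𝒜} (f : P ⟶ Q) {φP : Fam P} (hP : PA φP) {φQ : Fam Q} (hQ : PA φQ) (n : ℕ)
    (x : QS n) : Tm f n ≫ rh φQ n x = rh φP n x ≫ Tm f n := by
  rw [TMX.rh_eq', TMX.rh_eq', Finsupp.sum, Finsupp.sum, Preadditive.comp_sum,
    Preadditive.sum_comp]
  refine Finset.sum_congr rfl fun g _ => ?_
  rw [Linear.comp_smul, Linear.smul_comp, TMX.tm_perm f hP hQ]

/-- `a = Tm p m ≫ rh x` with `p ≫ s = δ • p`. -/
theorem tm_ins {M : 𝒜} {φ : Fam M} (hφ : PA φ) (p s : M ⟶ M) (δ : ℚ) (h : p ≫ s = δ • p) (m : ℕ)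
    (x : QS m) (j : Fin m) :
    (Tm p m ≫ rh φ m x) ≫ ins s m j = δ • (Tm p m ≫ rh φ m x) := by
  rw [TMX.rh_eq', Finsupp.sum, Preadditive.comp_sum, Preadditive.sum_comp, Finset.smul_sum]
  refine Finset.sum_congr rfl fun g _ => ?_
  rw [Linear.comp_smul, Linear.smul_comp, Category.assoc]
  have h1 := TMX.ins_perm' hφ s m g (g⁻¹ j)
  rw [show g (g⁻¹ j) = j from Equiv.apply_symm_apply g j] at h1
  rw [← h1, ← Category.assoc, TMX.tm_ins0 p s δ h, Linear.smul_comp, smul_comm]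

/-- The image of a shift of `a` is invisible if `a` is. -/
theorem inv_whs {K : Type w} [Field K] [CharZero K] (F : Realisation 𝒜 K) {M : 𝒜} (m n : ℕ)
    {a : T M m ⟶ T M m} (ha : F.Inv a) (t : ℕ) : F.Inv (whs m n a t) := by
  induction t with
  | zero => exact ha
  | succ t ih => exact UPX.inv_wh F ih n

theorem ap {K : Type w} [Field K] [CharZero K] (F : Realisation 𝒜 K) {M P : 𝒜} {φ : Fam M}
    (hφ : PA φ) (i : P ⟶ M) (r : M ⟶ P) (hir : i ≫ r = 𝟙 P) {δ : ℚ} (hδ : δ = 1 ∨ δ = -1)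
    (hP : ∀ x, F.par P x = (δ : K) • x) (m : ℕ) (hm : Module.finrank K (F.V M) < m) :
    F.Inv (Tm (r ≫ i) m ≫ rh φ m (alt (-δ) m)) ∧
      (Tm (r ≫ i) m ≫ rh φ m (alt (-δ) m) = 0 → PowZero (-δ) P m) := by
  obtain ⟨φP, hPA⟩ := exists_PA P
  have e1 : Tm (r ≫ i) m ≫ rh φ m (alt (-δ) m) =
      Tm r m ≫ rh φP m (alt (-δ) m) ≫ Tm i m := by
    rw [← Tm_comp, Category.assoc, tm_rh i hPA hφ]
  have hinj : Function.Injective (F.map i) := by
    intro x y hxy
    have h1 := congrArg (F.map r) hxy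
    rwa [← F.map_comp, ← F.map_comp, hir, F.map_id, F.map_id] at h1
  have hfin : Module.finrank K (F.V P) < m :=
    lt_of_le_of_lt (LinearMap.finrank_le_finrank_of_injective hinj) hm
  have hinv := inv_alt F hPA hδ hP m hfin
  constructor
  · rw [e1]
    exact F.inv_comp_right _ (F.inv_comp_left _ hinv)
  · intro h0
    have hε : -δ = 1 ∨ -δ = -1 := by
      rcases hδ with h | h
      · right; rw [h]
      · left; rw [h]; norm_num
    rw [alt_iff hPA hε]
    have h2 : Tm i m ≫ (Tm (r ≫ i) m ≫ rh φ m (alt (-δ) m)) ≫ Tm r m =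
        rh φP m (alt (-δ) m) := by
      rw [e1]
      have h3 : Tm i m ≫ Tm r m = 𝟙 _ := by rw [Tm_comp, hir, Tm_id]
      simp only [Category.assoc]
      rw [h3, Category.comp_id, ← Category.assoc, h3, Category.id_comp]
    rw [← h2, h0, zero_comp, comp_zero]

end lin

end Pool.Agent.Helper96.SP

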