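import Pool.Agent.Helper96.SP.QINSL
import Pool.Agent.Helper96.SP.QPCF
import Pool.Agent.Helper96.SP.QWORDS
import Pool.Agent.Helper96.SP.QSOS
import Pool.Agent.Helper96.SP.QPOSL
import Pool.Agent.Helper96.SP.PWD
import Pool.Agent.Helper96.SP.PTR
import Mathlib.LinearAlgebra.Trace
import Mathlib.LinearAlgebra.Matrix.ToLin

/-!
# The contraction is not zero
-/

open CategoryTheory MonoidalCategory Limits BraidedCategory

universe u v w

namespace Pool.Agent.Helper96.SP

open Pool.Agent.TH90.AB Pool.Agent.TH90.Kim Pool.Agent.Helper96.Kim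

set_option linter.unusedSectionVars false
set_option linter.unusedVariables false

namespace TRCOMP

variable {𝒜 : Type u} [Category.{v} 𝒜] [MonoidalCategory 𝒜] [SymmetricCategory 𝒜]

section lin

variable [Preadditive 𝒜] [MonoidalPreadditive 𝒜] [Linear ℚ 𝒜] [MonoidalLinear ℚ 𝒜]
  [hdual : ∀ X : 𝒜, HasRightDual X]

lemma ptrn_wh {M : 𝒜} {k l p : ℕ} (f : T M k ⟶ T M l) (n : ℕ) (G : T M (l + n) ⟶ T M (p + n)) :
    ptrn n (wh f n ≫ G) = f ≫ ptrn n G := by
  induction n with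
  | zero => rfl
  | succ n ih =>
    have h1 : ptr (wh f (n + 1) ≫ G : T M (k + n) ⊗ M ⟶ T M (p + n) ⊗ M) =
        wh f n ≫ ptr (G : T M (l + n) ⊗ M ⟶ T M (p + n) ⊗ M) := ptr_left (wh f n) G
    show ptrn n (ptr (wh f (n + 1) ≫ G : T M (k + n) ⊗ M ⟶ T M (p + n) ⊗ M)) = _
    rw [h1, ih]
    rfl

lemma tr_ptrn {M : 𝒜} {k : ℕ} (n : ℕ) (G : T M (k + n) ⟶ T M (k + n)) :
    tr (ptrn n G) = tr G := by
  induction n with
  | zero => rfl
  | succ n ih =>
    show tr (ptrn n (ptr (G : T M (k + n) ⊗ M ⟶ T M (k + n) ⊗ M))) = _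
    rw [ih]
    exact tr_ptr (X := T M (k + n)) (P := M) G

lemma emb_adj {n N : ℕ} (hN : n + 1 = N) (β : Fin (n + 1) ↪ Fin N) (hβ : ∀ i, (β i : ℕ) = i)
    (x : QS (n + 1)) : emb β (adj x * x) = adj (emb β x) * emb β x := by
  subst hN
  have : β = Function.Embedding.refl _ := by
    ext i
    exact hβ i
  rw [this, TRX.emb_refl, TRX.emb_refl]

end lin

section real

variable [Preadditive 𝒜] [MonoidalPreadditive 𝒜] [Linear ℚ 𝒜] [MonoidalLinear ℚ 𝒜]
  [hdual : ∀ X : 𝒜, HasRightDual X] {K : Type w} [Field K] [CharZero K] (F : Realisation 𝒜 K)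

/-- A basis of eigenvectors of the parity. -/
lemma exists_basis (M : 𝒜) : ∃ (d d' : ℕ) (b : Module.Basis (Fin d ⊕ Fin d') K (F.V M))
    (δ : Fin d ⊕ Fin d' → ℚ), (∀ i, δ i = 1 ∨ δ i = -1) ∧
      ∀ i, F.par M (b i) = (δ i : K) • b i := by
  classical
  let E : Submodule K (F.V M) := LinearMap.ker (F.par M - LinearMap.id)
  let E' : Submodule K (F.V M) := LinearMap.ker (F.par M + LinearMap.id)
  have hE : ∀ x, x ∈ E ↔ F.par M x = x := fun x => by
    simp only [E, LinearMap.mem_ker, LinearMap.sub_apply, LinearMap.id_apply, sub_eq_zero]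
  have hE' : ∀ x, x ∈ E' ↔ F.par M x = -x := fun x => by
    simp only [E', LinearMap.mem_ker, LinearMap.add_apply, LinearMap.id_apply,
      add_eq_zero_iff_eq_neg]
  have two : ((2 : K)) ≠ 0 := two_ne_zero
  have hc : IsCompl E E' := by
    constructor
    · rw [Submodule.disjoint_def]
      intro x h1 h2
      rw [hE] at h1
      rw [hE', h1] at h2
      have h3 : (2 : K) • x = 0 := by
        rw [two_smul]
        nth_rewrite 1 [h2]
        exact neg_add_cancel x
      exact (smul_eq_zero.mp h3).resolve_left two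
    · rw [codisjoint_iff_le_sup]
      intro x _
      have h1 : x = (2 : K)⁻¹ • (x + F.par M x) + (2 : K)⁻¹ • (x - F.par M x) := by
        rw [← smul_add]
        have : x + F.par M x + (x - F.par M x) = (2 : K) • x := by rw [two_smul]; abel
        rw [this, smul_smul, inv_mul_cancel₀ two, one_smul]
      rw [h1]
      refine Submodule.add_mem_sup (Submodule.smul_mem _ _ ?_) (Submodule.smul_mem _ _ ?_)
      · rw [hE, _root_.map_add, F.par_par, add_comm]
      · rw [hE', _root_.map_sub, F.par_par, neg_sub]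
  let b1 := Module.finBasis K E
  let b2 := Module.finBasis K E'
  refine ⟨_, _, (b1.prod b2).map (Submodule.prodEquivOfIsCompl E E' hc), Sum.elim (fun _ => 1)
    (fun _ => -1), ?_, ?_⟩
  · rintro (i | i)
    · exact Or.inl rfl
    · exact Or.inr rfl
  · rintro (i | i)
    · rw [Module.Basis.map_apply]
      have h1 : (Submodule.prodEquivOfIsCompl E E' hc) ((b1.prod b2) (Sum.inl i)) = (b1 i : F.V M) := by
        rw [Submodule.coe_prodEquivOfIsCompl']
        simp
      rw [h1]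
      simp only [Sum.elim_inl, Rat.cast_one, one_smul]
      exact (hE _).1 (b1 i).2
    · rw [Module.Basis.map_apply]
      have h1 : (Submodule.prodEquivOfIsCompl E E' hc) ((b1.prod b2) (Sum.inr i)) = (b2 i : F.V M) := by
        rw [Submodule.coe_prodEquivOfIsCompl']
        simp
      rw [h1]
      simp only [Sum.elim_inr, Rat.cast_neg, Rat.cast_one, neg_smul, one_smul]
      exact (hE' _).1 (b2 i).2

lemma exists_index {M : 𝒜} {ι : Type} (b : Module.Basis ι K (F.V M)) (d : ι → ℚ)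
    (hd : ∀ i, d i = 1 ∨ d i = -1) (hb : ∀ i, F.par M (b i) = (d i : K) • b i) {δ : ℚ}
    (hδ : δ = 1 ∨ δ = -1) (hx : ∃ x : F.V M, x ≠ 0 ∧ F.par M x = (δ : K) • x) :
    ∃ i, d i = δ := by
  by_contra hne
  push Not at hne
  obtain ⟨x, hx0, hx⟩ := hx
  have h1 : ∀ i, d i = -δ := by
    intro i
    have := hne i
    rcases hd i with h | h <;> rcases hδ with h' | h'
    · exact absurd (h.trans h'.symm) this
    · rw [h, h', neg_neg]
    · rw [h, h']
    · exact absurd (h.trans h'.symm) this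
  have h2 : F.par M = ((-δ : ℚ) : K) • LinearMap.id := by
    refine b.ext fun i => ?_
    rw [hb, h1]
    rfl
  rw [h2] at hx
  have h3 : ((2 * δ : ℚ) : K) • x = 0 := by
    have : ((-δ : ℚ) : K) • x = (δ : K) • x := hx
    rw [Rat.cast_neg, neg_smul] at this
    have h4 : (δ : K) • x + (δ : K) • x = 0 := by
      nth_rewrite 1 [← this]
      exact neg_add_cancel _
    rw [← two_smul K, smul_smul] at h4
    push_cast
    exact h4
  rcases smul_eq_zero.mp h3 with h | h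
  · have : (2 * δ : ℚ) = 0 := by exact_mod_cast h
    rcases hδ with h' | h' <;> rw [h'] at this <;> norm_num at this
  · exact hx0 h

/-- The parity of the powers. -/
lemma par_snew {M : 𝒜} {s : M ⟶ M} (hsp : ∀ x, F.map s x = F.par M x) (n : ℕ)
    (x : F.V (T M (1 + n))) : F.map (snew s 1 n) (F.map (wh (ins s 1 0) n) x) = F.par _ x := by
  induction n with
  | zero =>
    have h0 : F.map (𝟙 (T M (1 + 0))) (F.map (ins s 1 0) x) = F.par _ x := by
      rw [F.map_id]
      obtain ⟨m, a, c, rfl⟩ := F.exists_sum (X := T M 0) (Y := M) x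
      rw [map_sum, map_sum]
      refine Finset.sum_congr rfl fun i _ => ?_
      have h1 : F.map (T M 0 ◁ s) (F.ext (a i) (c i)) = F.ext (a i) (F.map s (c i)) :=
        F.whiskerLeft s (c i) (a i)
      have h2 : F.par (T M 0) (a i) = a i := by
        obtain ⟨r, hr⟩ := F.span_one (a i)
        rw [hr, _root_.map_smul]
        congr 1
        exact F.par_one
      refine h1.trans ?_
      rw [hsp]
      refine Eq.trans ?_ (F.par_ext (a i) (c i)).symm
      rw [h2]
    exact h0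
  | succ n ih =>
    obtain ⟨m, a, c, rfl⟩ := F.exists_sum (X := T M (1 + n)) (Y := M) x
    have h0 : ∀ (u : F.V (T M (1 + n))) (v : F.V M),
        F.map (snew s 1 (n + 1)) (F.map (wh (ins s 1 0) (n + 1)) (F.ext u v)) =
          F.par (T M (1 + n) ⊗ M) (F.ext u v) := by
      intro u v
      have h1 : F.map (wh (ins s 1 0) n ▷ M) (F.ext u v) =
          F.ext (F.map (wh (ins s 1 0) n) u) v := F.whiskerRight _ _ _
      have h2 : F.map (snew s 1 n ▷ M ≫ T M (1 + n) ◁ s) (F.ext (F.map (wh (ins s 1 0) n) u) v) =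
          F.ext (F.par _ u) (F.par _ v) := by
        rw [F.map_comp, F.whiskerRight, F.whiskerLeft, ih, hsp]
      have h3 : F.map (snew s 1 (n + 1)) (F.map (wh (ins s 1 0) (n + 1)) (F.ext u v)) =
          F.map (snew s 1 n ▷ M ≫ T M (1 + n) ◁ s) (F.map (wh (ins s 1 0) n ▷ M) (F.ext u v)) := rfl
      rw [h3, h1, h2, F.par_ext]
    have h4 : F.map (snew s 1 (n + 1)) (F.map (wh (ins s 1 0) (n + 1))
        (∑ i, F.ext (a i) (c i) : F.V (T M (1 + n) ⊗ M))) =
        F.par (T M (1 + n) ⊗ M) (∑ i, F.ext (a i) (c i)) := by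
      rw [map_sum, map_sum, map_sum]
      exact Finset.sum_congr rfl fun i _ => h0 _ _
    exact h4

/-- A word with the letter `i` at the last position. -/
lemma exists_word {M : 𝒜} {φ : Fam M} (hφ : PA φ) {ι : Type} [Fintype ι] [DecidableEq ι]
    (b : Module.Basis ι K (F.V M)) (δ : ι → ℚ) (hδ : ∀ i, δ i = 1 ∨ δ i = -1)
    (hb : ∀ i, F.par M (b i) = (δ i : K) • b i) (n : ℕ) (e : QS (n + 1))
    (he : ¬ F.Inv (rh φ (n + 1) e)) (i : ι) :
    ∃ (g : Equiv.Perm (Fin (n + 1))) (w : Fin (n + 1) → ι), w (Fin.last n) = i ∧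
      F.map (rh φ (n + 1) (e * MonoidAlgebra.single g 1)) (wd F (n + 1) fun j => b (w j)) ≠ 0 := by
  obtain ⟨w, ⟨l, hl⟩, hw⟩ := posl F hφ b δ hδ hb n e he i
  obtain ⟨κ, hκ, hp⟩ := wd_perm_mixed F hφ (b := fun i => b i) δ hδ hb (n + 1)
    (Equiv.swap (Fin.last n) l)
  refine ⟨Equiv.swap (Fin.last n) l, w ∘ (Equiv.swap (Fin.last n) l), ?_, ?_⟩
  · rw [Function.comp_apply, Equiv.swap_apply_left, hl]
  · have e1 : rh φ (n + 1) (e * MonoidAlgebra.single (Equiv.swap (Fin.last n) l) 1) =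
        (φ (n + 1) (Equiv.swap (Fin.last n) l) : T M (n + 1) ⟶ T M (n + 1)) ≫ rh φ (n + 1) e := by
      have h1 : rh φ (n + 1) (e * MonoidAlgebra.single (Equiv.swap (Fin.last n) l) 1) =
          rh φ (n + 1) (MonoidAlgebra.single (Equiv.swap (Fin.last n) l) 1) ≫ rh φ (n + 1) e :=
        map_mul (rho φ (n + 1)) _ _
      rw [h1, TRX.rh_single, one_smul]
    rw [e1, F.map_comp, hp]
    have e2 : (fun j => b ((w ∘ (Equiv.swap (Fin.last n) l))
        ((Equiv.swap (Fin.last n) l)⁻¹ j))) = fun j => b (w j) := by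
      funext j
      simp
    rw [_root_.map_smul, e2]
    refine smul_ne_zero ?_ hw
    rcases hκ (w ∘ (Equiv.swap (Fin.last n) l)) with h | h <;> rw [h] <;> norm_num

lemma transport {M : 𝒜} (φ : Fam M) {ι : Type} (b : ι → F.V M) {n N : ℕ} (hN : n + 1 = N)
    (β : Fin (n + 1) ↪ Fin N) (hβ : ∀ i, (β i : ℕ) = i) (x : QS (n + 1)) (w : Fin (n + 1) → ι)
    (hw : F.map (rh φ (n + 1) x) (wd F (n + 1) fun j => b (w j)) ≠ 0) :
    ∃ w' : Fin N → ι, w' (β (Fin.last n)) = w (Fin.last n) ∧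
      F.map (rh φ N (emb β x)) (wd F N fun j => b (w' j)) ≠ 0 := by
  subst hN
  have : β = Function.Embedding.refl _ := by
    ext i
    exact hβ i
  refine ⟨w, ?_, ?_⟩
  · rw [this]
    rfl
  · rw [this, TRX.emb_refl]
    exact hw

end real

end TRCOMP

section real

variable {𝒜 : Type u} [Category.{v} 𝒜] [MonoidalCategory 𝒜] [SymmetricCategory 𝒜]
variable [Preadditive 𝒜] [MonoidalPreadditive 𝒜] [Linear ℚ 𝒜] [MonoidalLinear ℚ 𝒜]
  [hdual : ∀ X : 𝒜, HasRightDual X] {K : Type w} [Field K] [CharZero K] (F : Realisation 𝒜 K)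

open TRCOMP

theorem trcomp (hunit : ∀ f : 𝟙_ 𝒜 ⟶ 𝟙_ 𝒜, ∃ q : ℚ, f = q • 𝟙 (𝟙_ 𝒜)) {M : 𝒜} {φ : Fam M}
    (hφ : PA φ) {s : M ⟶ M} (hs : s ≫ s = 𝟙 M) (hsp : ∀ x, F.map s x = F.par M x) {δ : ℚ}
    (hδ : δ = 1 ∨ δ = -1) (hx : ∃ x : F.V M, x ≠ 0 ∧ F.par M x = (δ : K) • x) {n : ℕ}
    (e : QS (n + 1)) (he : ¬ F.Inv (rh φ (n + 1) e)) :
    ∃ y h : QS (n + 1), ∀ α α' : ℚ,
      (∀ (k : ℕ) (j : Fin k), ptrn n (snew s k n ≫ rh φ (k + n) (emb (nw k n j) (y * e * h))) =
        α • 𝟙 (T M k) + α' • ins s k j) → α + δ * α' ≠ 0 := by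
  obtain ⟨d₁, d₂, b, d, hd, hb⟩ := exists_basis F M
  obtain ⟨i0, hi0⟩ := exists_index F b d hd hb hδ hx
  obtain ⟨g, w, hwl, hw⟩ := exists_word F hφ b d hd hb n e he i0
  set x : QS (n + 1) := e * MonoidAlgebra.single g 1 with hxdef
  refine ⟨adj x, MonoidAlgebra.single g 1, fun α α' hyp hzero => ?_⟩
  have hβ : ∀ i, (nw 1 n 0 i : ℕ) = i := by
    intro i
    have h0 : nw 1 n 0 i = if h : (i : ℕ) < n then (⟨i, by omega⟩ : Fin (1 + n)) else
      ⟨((0 : Fin 1) : ℕ) + n, by simp⟩ := rfl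
    rw [h0]
    split_ifs with h
    · rfl
    · simp only [Fin.val_zero]
      omega
  obtain ⟨w', hw'l, hw'⟩ := transport F φ (fun i => b i) (by omega) (nw 1 n 0) hβ x w hw
  have h1 := hyp 1 0
  have h2 : adj x * e * MonoidAlgebra.single g 1 = adj x * x := by rw [hxdef, mul_assoc]
  rw [h2, emb_adj (by omega) (nw 1 n 0) hβ x] at h1
  set x' := emb (nw 1 n 0) x with hx'
  -- the projector
  obtain ⟨π, hπ⟩ : ∃ π : M ⟶ M, π = (2 : ℚ)⁻¹ • (𝟙 M + δ • s) := ⟨_, rfl⟩
  have hδδ : δ * δ = 1 := by rcases hδ with rfl | rfl <;> norm_num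
  have hπs : π ≫ s = δ • π := by
    rw [hπ, Linear.smul_comp, Preadditive.add_comp, Category.id_comp, Linear.smul_comp, hs, smul_comm δ,
      smul_add δ, smul_smul δ δ, hδδ, one_smul, add_comm]
  have h3 : ins (π ≫ s) 1 0 ≫ (α • 𝟙 (T M 1) + α' • ins s 1 0) = 0 := by
    have h4 : ins (π ≫ s) 1 0 ≫ (α • 𝟙 (T M 1) + α' • ins s 1 0) =
        T M 0 ◁ ((π ≫ s) ≫ (α • 𝟙 M + α' • s)) := by
      have h5 : (α • 𝟙 (T M 1) + α' • ins s 1 0) = T M 0 ◁ (α • 𝟙 M + α' • s) := by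
        rw [MonoidalPreadditive.whiskerLeft_add, MonoidalLinear.whiskerLeft_smul,
          MonoidalLinear.whiskerLeft_smul, MonoidalCategory.whiskerLeft_id]
        rfl
      rw [h5, MonoidalCategory.whiskerLeft_comp]
      rfl
    have h6 : (π ≫ s) ≫ (α • 𝟙 M + α' • s) = (α + δ * α') • (π ≫ s) := by
      rw [Preadditive.comp_add, Linear.comp_smul, Linear.comp_smul, Category.comp_id,
        Category.assoc, hs, Category.comp_id, hπs]
      have e5 : α' • π = (α' * (δ * δ)) • π := by rw [hδδ, mul_one]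
      rw [e5, smul_smul, smul_smul, ← add_smul]
      congr 1
      ring
    rw [h4, h6, hzero, zero_smul, MonoidalPreadditive.whiskerLeft_zero]
  rw [← h1, ← ptrn_wh] at h3
  have h7 := congrArg tr h3
  rw [tr_ptrn] at h7
  have h8 : tr (0 : T M 1 ⟶ T M 1) = 0 := by
    rw [tr_eq]
    simp
  rw [h8] at h7
  have h9 := map_tr_str F (wh (ins (π ≫ s) 1 0) n ≫ snew s 1 n ≫ rh φ (1 + n) (adj x' * x'))
  rw [h7, F.map_zero'] at h9
  have h10 : str F (wh (ins (π ≫ s) 1 0) n ≫ snew s 1 n ≫ rh φ (1 + n) (adj x' * x')) = 0 := by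
    by_contra hne
    exact (smul_ne_zero hne F.one_ne) h9.symm
  have h11 : F.par (T M (1 + n)) ∘ₗ
      F.map (wh (ins (π ≫ s) 1 0) n ≫ snew s 1 n ≫ rh φ (1 + n) (adj x' * x')) =
      F.map (rh φ (1 + n) (adj x' * x')) ∘ₗ F.map (ins π (1 + n) (Fin.addNatEmb n 0)) := by
    refine LinearMap.ext fun v => ?_
    rw [LinearMap.comp_apply, LinearMap.comp_apply, F.map_comp, F.map_comp, F.par_map,
      ← ins_comp π s 1 0, wh_comp, F.map_comp, par_snew F hsp, F.par_par, ins_wh]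
  classical
  obtain ⟨B, hB⟩ := wd_basis F b (1 + n)
  have h12 : ∀ u : Fin (1 + n) → (Fin d₁ ⊕ Fin d₂), F.map (ins π (1 + n) (Fin.addNatEmb n 0)) (B u) =
      ((2⁻¹ * (1 + δ * d (u (Fin.addNatEmb n 0))) : ℚ) : K) • B u := by
    intro u
    rw [hB, wd_ins]
    have h13 : F.map π (b (u (Fin.addNatEmb n 0))) =
        ((2⁻¹ * (1 + δ * d (u (Fin.addNatEmb n 0))) : ℚ) : K) • b (u (Fin.addNatEmb n 0)) := by
      rw [hπ, F.map_smul, F.map_add, F.map_id, F.map_smul, hsp, hb]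
      push_cast
      module
    rw [h13, ← WD.wdM_apply, ← WD.wdM_apply, MultilinearMap.map_update_smul]
    congr 2
    exact Function.update_eq_self _ _
  unfold str at h10
  rw [h11, LinearMap.trace_eq_matrix_trace K B, Matrix.trace] at h10
  simp only [Matrix.diag_apply, LinearMap.toMatrix_apply, LinearMap.comp_apply] at h10
  have hsos := fun u => sos F hφ b d hd hb (1 + n) B hB x' u
  choose q hq0 hq1 hq2 using hsos
  have h14 : ∑ u : Fin (1 + n) → (Fin d₁ ⊕ Fin d₂),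
      2⁻¹ * (1 + δ * d (u (Fin.addNatEmb n 0))) * q u = 0 := by
    have : ((∑ u : Fin (1 + n) → (Fin d₁ ⊕ Fin d₂),
      2⁻¹ * (1 + δ * d (u (Fin.addNatEmb n 0))) * q u : ℚ) : K) = 0 := by
      rw [← h10, Rat.cast_sum]
      refine Finset.sum_congr rfl fun u _ => ?_
      rw [h12, _root_.map_smul, _root_.map_smul, Finsupp.smul_apply, hq1, Rat.cast_mul]
      rfl
    exact_mod_cast this
  have hnn : ∀ u : Fin (1 + n) → (Fin d₁ ⊕ Fin d₂),
      0 ≤ 2⁻¹ * (1 + δ * d (u (Fin.addNatEmb n 0))) * q u := by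
    intro u
    refine mul_nonneg ?_ (hq0 u)
    rcases hd (u (Fin.addNatEmb n 0)) with h | h <;> rcases hδ with h' | h' <;> rw [h, h'] <;>
      norm_num
  have h15 := (Finset.sum_eq_zero_iff_of_nonneg fun u _ => hnn u).mp h14 w' (Finset.mem_univ _)
  have hj : (nw 1 n 0 (Fin.last n)) = (Fin.addNatEmb n 0) := by
    apply Fin.ext
    rw [hβ]
    simp
  rw [← hj, hw'l, hwl, hi0, hδδ] at h15
  have h16 : q w' = 0 := by linarith
  have h17 := hq2 w' h16
  rw [hB] at h17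
  exact hw' h17

end real

end Pool.Agent.Helper96.SP
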