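import Pool.Agent.Helper96.SP.QINSL
import Pool.Agent.Helper96.SP.PTR

/-!
# Partial traces of decorated permutations (package TRS)
-/

set_option autoImplicit false

open CategoryTheory MonoidalCategory Limits BraidedCategory

universe u v w

namespace Pool.Agent.Helper96.SP

open Pool.Agent.TH90.AB Pool.Agent.TH90.Kim Pool.Agent.Helper96.Kim

set_option linter.unusedSectionVars false

namespace TRS

open TRX (lft lft_zero lft_succ lft_eq_zero dec_eq swap_succ via_lft nw_succ)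

section cat

variable {𝒜 : Type u} [Category.{v} 𝒜] [MonoidalCategory 𝒜] [SymmetricCategory 𝒜]

/-- the endomorphisms `F j` at all positions `j` -/
def dec {M : 𝒜} : ∀ n, (Fin n → (M ⟶ M)) → (T M n ⟶ T M n)
  | 0 => fun _ => 𝟙 _
  | n + 1 => fun F => dec n (fun i => F i.succ) ▷ M ≫ T M n ◁ F 0

theorem dec_succ {M : 𝒜} (n : ℕ) (F : Fin (n + 1) → (M ⟶ M)) :
    dec (n + 1) F = dec n (fun i => F i.succ) ▷ M ≫ T M n ◁ F 0 := rfl

theorem dec_id {M : 𝒜} (n : ℕ) : dec n (fun _ => 𝟙 M) = 𝟙 (T M n) := by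
  induction n with
  | zero => rfl
  | succ n ih =>
    rw [dec_succ, ih, id_whiskerRight, MonoidalCategory.whiskerLeft_id, Category.comp_id]

theorem dec_ins {M : 𝒜} (n : ℕ) (F : Fin n → (M ⟶ M)) (f : M ⟶ M) (j : Fin n) :
    dec n F ≫ ins f n j = dec n (Function.update F j (F j ≫ f)) := by
  induction n with
  | zero => exact j.elim0
  | succ n ih =>
    rcases Fin.eq_zero_or_eq_succ j with rfl | ⟨i, rfl⟩
    · rw [dec_succ, dec_succ, CHS.ins_zero, Category.assoc, ← MonoidalCategory.whiskerLeft_comp,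
        Function.update_self]
      rfl
    · rw [dec_succ, dec_succ, CHS.ins_succ, Category.assoc, whisker_exchange,
        ← comp_whiskerRight_assoc, ih, Function.update_of_ne (Fin.succ_ne_zero i).symm]
      congr 3
      funext l
      by_cases h : l = i
      · rw [h, Function.update_self, Function.update_self]
      · rw [Function.update_of_ne h,
          Function.update_of_ne fun h' => h (Fin.succ_injective _ h')]

/-- extension by identities along an embedding -/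
noncomputable def xt {M : 𝒜} {a b : ℕ} (β : Fin a ↪ Fin b) (f : Fin a → (M ⟶ M)) :
    Fin b → (M ⟶ M) := Function.extend β f fun _ => 𝟙 M

theorem xt_apply {M : 𝒜} {a b : ℕ} (β : Fin a ↪ Fin b) (f : Fin a → (M ⟶ M)) (i : Fin a) :
    xt β f (β i) = f i := β.injective.extend_apply f _ i

theorem xt_apply' {M : 𝒜} {a b : ℕ} (β : Fin a ↪ Fin b) (f : Fin a → (M ⟶ M)) {l : Fin b}
    (h : ∀ i, β i ≠ l) : xt β f l = 𝟙 M :=
  Function.extend_apply' f (fun _ => 𝟙 M) l fun ⟨i, hi⟩ => h i hi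

theorem xt_lft_zero {M : 𝒜} {a b : ℕ} (β : Fin a ↪ Fin b) (f : Fin (a + 1) → (M ⟶ M)) :
    xt (lft β) f 0 = f 0 := by
  conv_lhs => rw [← lft_zero β]
  exact xt_apply _ _ _

theorem xt_lft_succ {M : 𝒜} {a b : ℕ} (β : Fin a ↪ Fin b) (f : Fin (a + 1) → (M ⟶ M))
    (l : Fin b) : xt (lft β) f l.succ = xt β (fun i => f i.succ) l := by
  by_cases h : ∃ i, β i = l
  · obtain ⟨i, rfl⟩ := h
    rw [xt_apply, ← lft_succ, xt_apply]
  · rw [xt_apply' β _ fun i hi => h ⟨i, hi⟩, xt_apply']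
    intro i hi
    rcases Fin.eq_zero_or_eq_succ i with rfl | ⟨i, rfl⟩
    · exact Fin.succ_ne_zero l hi.symm
    · exact h ⟨i, Fin.succ_injective _ hi⟩

theorem xt_update {M : 𝒜} {a b : ℕ} (β : Fin a ↪ Fin b) (f : Fin a → (M ⟶ M)) (i : Fin a)
    (v : M ⟶ M) : xt β (Function.update f i v) = Function.update (xt β f) (β i) v := by
  funext l
  by_cases h : ∃ i, β i = l
  · obtain ⟨m, rfl⟩ := h
    rw [xt_apply]
    by_cases hm : m = i
    · rw [hm, Function.update_self, Function.update_self]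
    · rw [Function.update_of_ne hm, Function.update_of_ne fun h' => hm (β.injective h'),
        xt_apply]
  · rw [xt_apply' β _ fun i hi => h ⟨i, hi⟩, Function.update_of_ne fun h' => h ⟨i, h'.symm⟩,
      xt_apply' β _ fun i hi => h ⟨i, hi⟩]

theorem dec_xt_lft {M : 𝒜} {a b : ℕ} (β : Fin a ↪ Fin b) (f : Fin (a + 1) → (M ⟶ M)) :
    dec (b + 1) (xt (lft β) f) = dec b (xt β fun i => f i.succ) ▷ M ≫ T M b ◁ f 0 := by
  rw [dec_succ, xt_lft_zero]
  congr 3
  funext l
  exact xt_lft_succ β f l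

variable [Preadditive 𝒜] [MonoidalPreadditive 𝒜] [Linear ℚ 𝒜] [MonoidalLinear ℚ 𝒜]
variable [hdual : ∀ X : 𝒜, HasRightDual X]

theorem ptr_swap' {M : 𝒜} {φ : Fam M} (hφ : PA φ) (f : M ⟶ M) (b : ℕ) (q : Fin b) :
    ptr (T M b ◁ f ≫ (φ (b + 1) (Equiv.swap 0 q.succ) : T M b ⊗ M ⟶ T M b ⊗ M)) =
      ins f b q := by
  match b with
  | 0 => exact q.elim0
  | b + 1 =>
    have h1 : (φ (b + 2) (Equiv.swap 0 q.succ) : T M (b + 1) ⊗ M ⟶ T M (b + 1) ⊗ M) =
        (φ (b + 1) (Equiv.swap 0 q) : T M (b + 1) ⟶ T M (b + 1)) ▷ M ≫ sw (T M b) M ≫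
          (φ (b + 1) (Equiv.swap 0 q) : T M (b + 1) ⟶ T M (b + 1)) ▷ M := by
      rw [swap_succ, map_mul, map_mul, hφ.up, hφ.swap]
      rfl
    have h2 : (φ (b + 1) (Equiv.swap 0 q) : T M (b + 1) ⟶ T M (b + 1)) ≫
        (φ (b + 1) (Equiv.swap 0 q) : T M (b + 1) ⟶ T M (b + 1)) = 𝟙 _ := by
      have h3 : (φ (b + 1) (Equiv.swap 0 q * Equiv.swap 0 q) : T M (b + 1) ⟶ T M (b + 1)) =
          𝟙 _ := by
        rw [Equiv.swap_mul_self]
        exact map_one (φ (b + 1))
      rw [map_mul] at h3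
      exact h3
    have h4 := ins_perm hφ f (b + 1) (Equiv.swap 0 q) 0
    rw [Equiv.swap_apply_left, CHS.ins_zero] at h4
    rw [h1, whisker_exchange_assoc, ptr_left]
    have h5 : T M (b + 1) ◁ f ≫ sw (T M b) M ≫
        (φ (b + 1) (Equiv.swap 0 q) : T M (b + 1) ⟶ T M (b + 1)) ▷ M =
        (T M (b + 1) ◁ f ≫ sw (T M b) M) ≫
          (φ (b + 1) (Equiv.swap 0 q) : T M (b + 1) ⟶ T M (b + 1)) ▷ M :=
      (Category.assoc _ _ _).symm
    rw [h5, ptr_right]
    have h6 : ptr (T M (b + 1) ◁ f ≫ sw (T M b) M) = T M b ◁ f := ptr_whisker_sw f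
    rw [h6, h4, ← Category.assoc, h2, Category.id_comp]

theorem inv_via {a b : ℕ} (β : Fin a ↪ Fin b) (e : Equiv.Perm (Fin a)) (q : Fin a) :
    (Equiv.Perm.viaEmbeddingHom β e) (β (e⁻¹ q)) = β q := by
  have h2 : e (e⁻¹ q) = q := e.apply_symm_apply q
  rw [via_apply, h2]

/-- Contraction of the last factor of a decorated permutation. -/
theorem contr {M : 𝒜} {φ : Fam M} (hφ : PA φ)
    (hunit : ∀ f : 𝟙_ 𝒜 ⟶ 𝟙_ 𝒜, ∃ q : ℚ, f = q • 𝟙 (𝟙_ 𝒜)) {s : M ⟶ M} (hs : s ≫ s = 𝟙 M)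
    {a : ℕ} (g : Equiv.Perm (Fin (a + 1))) (f : Fin (a + 1) → (M ⟶ M))
    (hf : ∀ i, f i = 𝟙 M ∨ f i = s) :
    ∃ (c : ℚ) (g' : Equiv.Perm (Fin a)) (f' : Fin a → (M ⟶ M)),
      (∀ i, f' i = 𝟙 M ∨ f' i = s) ∧ ∀ (b : ℕ) (β : Fin a ↪ Fin b),
        ptr (dec (b + 1) (xt (lft β) f) ≫
          (φ (b + 1) (Equiv.Perm.viaEmbeddingHom (lft β) g) : T M b ⊗ M ⟶ T M b ⊗ M)) =
        c • (dec b (xt β f') ≫ (φ b (Equiv.Perm.viaEmbeddingHom β g') : T M b ⟶ T M b)) := by
  obtain ⟨⟨p, e⟩, rfl⟩ := Equiv.Perm.decomposeFin.symm.surjective g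
  have key : ∀ (b : ℕ) (β : Fin a ↪ Fin b),
      ptr (dec (b + 1) (xt (lft β) f) ≫ (φ (b + 1) (Equiv.Perm.viaEmbeddingHom (lft β)
        (Equiv.Perm.decomposeFin.symm (p, e))) : T M b ⊗ M ⟶ T M b ⊗ M)) =
      (dec b (xt β fun i => f i.succ) ≫
        (φ b (Equiv.Perm.viaEmbeddingHom β e) : T M b ⟶ T M b)) ≫
        ptr (T M b ◁ f 0 ≫
          (φ (b + 1) (Equiv.swap 0 (lft β p)) : T M b ⊗ M ⟶ T M b ⊗ M)) := by
    intro b β
    have h1 : (φ (b + 1) (Equiv.Perm.viaEmbeddingHom (lft β)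
        (Equiv.Perm.decomposeFin.symm (p, e))) : T M b ⊗ M ⟶ T M b ⊗ M) =
        (φ b (Equiv.Perm.viaEmbeddingHom β e) : T M b ⟶ T M b) ▷ M ≫
          (φ (b + 1) (Equiv.swap 0 (lft β p)) : T M b ⊗ M ⟶ T M b ⊗ M) := by
      rw [via_lft, dec_eq, map_mul, hφ.up]
      rfl
    rw [h1, dec_xt_lft, Category.assoc, whisker_exchange_assoc, ← comp_whiskerRight_assoc,
      ptr_left]
  rcases Fin.eq_zero_or_eq_succ p with rfl | ⟨q, rfl⟩
  · obtain ⟨c, hc⟩ := hunit (tr (f 0))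
    refine ⟨c, e, fun i => f i.succ, fun i => hf _, fun b β => ?_⟩
    rw [key, lft_zero, Equiv.swap_self]
    have h1 : (φ (b + 1) (Equiv.refl _) : T M b ⊗ M ⟶ T M b ⊗ M) = 𝟙 _ := map_one (φ (b + 1))
    rw [h1, Category.comp_id, ptr_scalar hc, Linear.comp_smul, Category.comp_id]
  · refine ⟨1, e, Function.update (fun i => f i.succ) (e⁻¹ q) (f (e⁻¹ q).succ ≫ f 0),
      fun i => ?_, fun b β => ?_⟩
    · by_cases hi : i = e⁻¹ q
      · rw [hi, Function.update_self]
        rcases hf (e⁻¹ q).succ with h1 | h1 <;> rcases hf 0 with h2 | h2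
        · rw [h1, h2, Category.comp_id]
          exact Or.inl rfl
        · rw [h1, h2, Category.id_comp]
          exact Or.inr rfl
        · rw [h1, h2, Category.comp_id]
          exact Or.inr rfl
        · rw [h1, h2, hs]
          exact Or.inl rfl
      · rw [Function.update_of_ne hi]
        exact hf _
    · have h1 := ins_perm hφ (f 0) b (Equiv.Perm.viaEmbeddingHom β e) (β (e⁻¹ q))
      rw [inv_via] at h1
      have h2 : f (e⁻¹ q).succ = xt β (fun i => f i.succ) (β (e⁻¹ q)) :=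
        (xt_apply β (fun i => f i.succ) (e⁻¹ q)).symm
      rw [key, lft_succ, ptr_swap' hφ, Category.assoc, ← h1, ← Category.assoc, dec_ins, one_smul,
        xt_update, h2]

theorem ptrn_add {M : 𝒜} {k l : ℕ} (n : ℕ) (f g : T M (k + n) ⟶ T M (l + n)) :
    ptrn n (f + g) = ptrn n f + ptrn n g := by
  induction n with
  | zero => rfl
  | succ n ih =>
    show ptrn n (ptr (f + g)) = ptrn n (ptr f) + ptrn n (ptr g)
    have h1 : ptr (f + g) = ptr f + ptr g := ptr_add f g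
    rw [h1]
    exact ih _ _

/-- The statement for all decorations. -/
theorem main {M : 𝒜} {φ : Fam M} (hφ : PA φ)
    (hunit : ∀ f : 𝟙_ 𝒜 ⟶ 𝟙_ 𝒜, ∃ q : ℚ, f = q • 𝟙 (𝟙_ 𝒜)) {s : M ⟶ M} (hs : s ≫ s = 𝟙 M)
    (n : ℕ) : ∀ (f : Fin (n + 1) → (M ⟶ M)), (∀ i, f i = 𝟙 M ∨ f i = s) → ∀ z : QS (n + 1),
      ∃ α α' : ℚ, ∀ (k : ℕ) (j : Fin k),
        ptrn n (dec (k + n) (xt (nw k n j) f) ≫ rh φ (k + n) (emb (nw k n j) z)) =
          α • 𝟙 (T M k) + α' • ins s k j := by
  induction n with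
  | zero =>
    intro f hf z
    induction z using MonoidAlgebra.induction_linear with
    | zero =>
      refine ⟨0, 0, fun k j => ?_⟩
      rw [map_zero, CH.rh_zero, comp_zero, CH.ptrn_zero, zero_smul, zero_smul, add_zero]
    | add x y hx hy =>
      obtain ⟨α, α', h1⟩ := hx
      obtain ⟨γ, γ', h2⟩ := hy
      refine ⟨α + γ, α' + γ', fun k j => ?_⟩
      rw [map_add, CH.rh_add, Preadditive.comp_add, ptrn_add, h1, h2, add_smul, add_smul]
      abel
    | single g c =>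
      have hg : g = 1 := by
        ext x
        have h1 := (g x).isLt
        have h2 := ((1 : Equiv.Perm (Fin (0 + 1))) x).isLt
        omega
      have key : ∀ (k : ℕ) (j : Fin k),
          ptrn 0 (dec (k + 0) (xt (nw k 0 j) f) ≫
            rh φ (k + 0) (emb (nw k 0 j) (MonoidAlgebra.single g c))) = c • ins (f 0) k j := by
        intro k j
        have h1 : emb (nw k 0 j) (MonoidAlgebra.single g c) = MonoidAlgebra.single 1 c := by
          rw [hg]
          have h2 : emb (nw k 0 j) (MonoidAlgebra.single 1 c) =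
              MonoidAlgebra.single (Equiv.Perm.viaEmbeddingHom (nw k 0 j) 1) c :=
            MonoidAlgebra.mapDomain_single
          rw [h2, map_one]
        have h3 : xt (nw k 0 j) f = Function.update (fun _ => 𝟙 M) j (𝟙 M ≫ f 0) := by
          funext l
          rw [Category.id_comp]
          by_cases hl : l = j
          · rw [hl, Function.update_self]
            exact xt_apply (nw k 0 j) f 0
          · rw [Function.update_of_ne hl]
            refine xt_apply' _ _ fun i hi => hl ?_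
            rw [← hi]
            have hi0 : i = 0 := Subsingleton.elim (α := Fin 1) i 0
            rw [hi0]
            rfl
        rw [h1, h3, CH.rh_single]
        have h4 : (φ (k + 0) 1 : T M (k + 0) ⟶ T M (k + 0)) = 𝟙 _ := map_one (φ k)
        rw [h4, Linear.comp_smul, Category.comp_id]
        show c • dec k (Function.update (fun _ => 𝟙 M) j (𝟙 M ≫ f 0)) = _
        rw [← dec_ins k (fun _ => 𝟙 M) (f 0) j, dec_id, Category.id_comp]
      rcases hf 0 with h0 | h0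
      · refine ⟨c, 0, fun k j => ?_⟩
        rw [key, h0, ins_id, zero_smul, add_zero]
      · refine ⟨0, c, fun k j => ?_⟩
        rw [key, h0, zero_smul, zero_add]
  | succ n ih =>
    intro f hf z
    induction z using MonoidAlgebra.induction_linear with
    | zero =>
      refine ⟨0, 0, fun k j => ?_⟩
      rw [map_zero, CH.rh_zero, comp_zero, CH.ptrn_zero, zero_smul, zero_smul, add_zero]
    | add x y hx hy =>
      obtain ⟨α, α', h1⟩ := hx
      obtain ⟨γ, γ', h2⟩ := hy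
      refine ⟨α + γ, α' + γ', fun k j => ?_⟩
      rw [map_add, CH.rh_add, Preadditive.comp_add, ptrn_add, h1, h2, add_smul, add_smul]
      abel
    | single g q =>
      obtain ⟨c, g', f', hf', h1⟩ := contr hφ hunit hs g f hf
      obtain ⟨α, α', h2⟩ := ih f' hf' (MonoidAlgebra.single g' (q * c))
      refine ⟨α, α', fun k j => ?_⟩
      rw [← h2 k j]
      show ptrn n (ptr (dec (k + n + 1) (xt (nw k (n + 1) j) f) ≫
        rh φ (k + n + 1) (emb (nw k (n + 1) j) (MonoidAlgebra.single g q)))) = _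
      have h3 : emb (nw k (n + 1) j) (MonoidAlgebra.single g q) =
          MonoidAlgebra.single (Equiv.Perm.viaEmbeddingHom (nw k (n + 1) j) g) q :=
        MonoidAlgebra.mapDomain_single
      have h4 : emb (nw k n j) (MonoidAlgebra.single g' (q * c)) =
          MonoidAlgebra.single (Equiv.Perm.viaEmbeddingHom (nw k n j) g') (q * c) :=
        MonoidAlgebra.mapDomain_single
      have h5 := h1 (k + n) (nw k n j)
      rw [← nw_succ] at h5
      rw [h4, CH.rh_single, Linear.comp_smul, mul_smul, ← h5, ← ptr_smul, ← Linear.comp_smul,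
        ← CH.rh_single, ← h3]

theorem snew_eq {M : 𝒜} (s : M ⟶ M) (k n : ℕ) (j : Fin k) :
    snew s k n = dec (k + n) (xt (nw k n j)
      fun i : Fin (n + 1) => if (i : ℕ) < n then s else 𝟙 M) := by
  induction n with
  | zero =>
    have h1 : xt (nw k 0 j) (fun i : Fin (0 + 1) => if (i : ℕ) < 0 then s else 𝟙 M) =
        fun _ => 𝟙 M := by
      funext l
      by_cases h : ∃ i, nw k 0 j i = l
      · obtain ⟨i, rfl⟩ := h
        rw [xt_apply, if_neg (Nat.not_lt_zero _)]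
      · exact xt_apply' _ _ fun i hi => h ⟨i, hi⟩
    rw [h1]
    exact (dec_id k).symm
  | succ n ih =>
    show snew s k n ▷ M ≫ T M (k + n) ◁ s = dec (k + n + 1) (xt (nw k (n + 1) j) _)
    rw [nw_succ, dec_xt_lft, ih]
    have h1 : (if ((0 : Fin (n + 1 + 1)) : ℕ) < n + 1 then s else 𝟙 M) = s :=
      if_pos (Nat.succ_pos n)
    have h2 : (fun i : Fin (n + 1) => if (i : ℕ) < n then s else 𝟙 M) =
        fun i : Fin (n + 1) => if (i.succ : ℕ) < n + 1 then s else 𝟙 M := by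
      funext i
      by_cases h : (i : ℕ) < n
      · rw [if_pos h, if_pos (by rw [Fin.val_succ]; omega)]
      · rw [if_neg h, if_neg (by rw [Fin.val_succ]; omega)]
    rw [h1, h2]

end cat

end TRS

section cat

variable {𝒜 : Type u} [Category.{v} 𝒜] [MonoidalCategory 𝒜] [SymmetricCategory 𝒜]
variable [Preadditive 𝒜] [MonoidalPreadditive 𝒜] [Linear ℚ 𝒜] [MonoidalLinear ℚ 𝒜]
variable [hdual : ∀ X : 𝒜, HasRightDual X]

/-- TRS -/
theorem trs {M : 𝒜} {φ : Fam M} (hφ : PA φ)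
    (hunit : ∀ f : 𝟙_ 𝒜 ⟶ 𝟙_ 𝒜, ∃ q : ℚ, f = q • 𝟙 (𝟙_ 𝒜)) {s : M ⟶ M} (hs : s ≫ s = 𝟙 M) (n : ℕ)
    (z : QS (n + 1)) : ∃ α β : ℚ, ∀ (k : ℕ) (j : Fin k),
      ptrn n (snew s k n ≫ rh φ (k + n) (emb (nw k n j) z)) = α • 𝟙 (T M k) + β • ins s k j := by
  obtain ⟨α, α', h⟩ := TRS.main hφ hunit hs n
    (fun i : Fin (n + 1) => if (i : ℕ) < n then s else 𝟙 M) (fun i => by
      by_cases hi : (i : ℕ) < n
      · exact Or.inr (if_pos hi)
      · exact Or.inl (if_neg hi)) z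
  refine ⟨α, α', fun k j => ?_⟩
  rw [← h k j, TRS.snew_eq s k n j]

end cat

end Pool.Agent.Helper96.SP
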