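import Pool.Agent.Helper96.SP.QINSL
import Pool.Graph.R_pool_sql_team_seeded_ab47071d.TH90.Kim.Main4

/-!
# Members of the algebra generated by permutations and insertions (package WAL)
-/

set_option autoImplicit false

open CategoryTheory MonoidalCategory Limits BraidedCategory

universe u v w

namespace Pool.Agent.Helper96.SP

open Pool.Agent.TH90.AB Pool.Agent.TH90.Kim Pool.Agent.Helper96.Kim

set_option linter.unusedSectionVars false

variable {𝒜 : Type u} [Category.{v} 𝒜] [MonoidalCategory 𝒜] [SymmetricCategory 𝒜]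
variable [Preadditive 𝒜] [MonoidalPreadditive 𝒜] [Linear ℚ 𝒜] [MonoidalLinear ℚ 𝒜]

namespace WAL

theorem perm_mem {M : 𝒜} (φ : Fam M) (s : M ⟶ M) (n : ℕ) (g : Equiv.Perm (Fin n)) :
    φ n g ∈ WA φ s n := Algebra.subset_adjoin (Or.inl ⟨g, rfl⟩)

theorem ins_mem {M : 𝒜} (φ : Fam M) (s : M ⟶ M) (n : ℕ) (j : Fin n) :
    (show End (T M n) from ins s n j) ∈ WA φ s n := Algebra.subset_adjoin (Or.inr ⟨j, rfl⟩)

theorem comp_mem {M : 𝒜} {φ : Fam M} {s : M ⟶ M} {n : ℕ} {a b : T M n ⟶ T M n}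
    (ha : (show End (T M n) from a) ∈ WA φ s n) (hb : (show End (T M n) from b) ∈ WA φ s n) :
    (show End (T M n) from a ≫ b) ∈ WA φ s n :=
  (WA φ s n).mul_mem (x := (show End (T M n) from b)) (y := (show End (T M n) from a)) hb ha

/-- whiskering as an algebra homomorphism -/
noncomputable def whisk (M : 𝒜) (k : ℕ) : End (T M k) →ₐ[ℚ] End (T M (k + 1)) where
  toFun a := ((a : T M k ⟶ T M k) ▷ M : T M k ⊗ M ⟶ T M k ⊗ M)
  map_one' := id_whiskerRight (T M k) M
  map_mul' a b := comp_whiskerRight (b : T M k ⟶ T M k) (a : T M k ⟶ T M k) M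
  map_zero' := MonoidalPreadditive.zero_whiskerRight
  map_add' a b := MonoidalPreadditive.add_whiskerRight _ _
  commutes' r := by
    show ((r • 𝟙 (T M k) : T M k ⟶ T M k) ▷ M : T M k ⊗ M ⟶ T M k ⊗ M) = r • 𝟙 (T M k ⊗ M)
    rw [MonoidalLinear.smul_whiskerRight, id_whiskerRight]

theorem whisk_mem {M : 𝒜} {φ : Fam M} (hφ : PA φ) (s : M ⟶ M) (k : ℕ) {a : T M k ⟶ T M k}
    (ha : (show End (T M k) from a) ∈ WA φ s k) :
    (show End (T M (k + 1)) from a ▷ M) ∈ WA φ s (k + 1) := by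
  have h1 : (WA φ s k).map (whisk M k) ≤ WA φ s (k + 1) := by
    unfold WA
    rw [AlgHom.map_adjoin]
    refine Algebra.adjoin_le ?_
    rintro _ ⟨x, hx, rfl⟩
    rcases hx with ⟨g, rfl⟩ | ⟨j, rfl⟩
    · have h2 : whisk M k (φ k g) = φ (k + 1) (up g) := (hφ.up k g).symm
      rw [h2]
      exact perm_mem φ s (k + 1) _
    · exact ins_mem φ s (k + 1) j.succ
  exact h1 ⟨_, ha, rfl⟩

theorem wh_mem {M : 𝒜} {φ : Fam M} (hφ : PA φ) (s : M ⟶ M) (k n : ℕ) {a : T M k ⟶ T M k}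
    (ha : (show End (T M k) from a) ∈ WA φ s k) :
    (show End (T M (k + n)) from wh a n) ∈ WA φ s (k + n) := by
  induction n with
  | zero => exact ha
  | succ n ih => exact whisk_mem hφ s (k + n) ih

theorem snew_mem {M : 𝒜} {φ : Fam M} (hφ : PA φ) (s : M ⟶ M) (k n : ℕ) :
    (show End (T M (k + n)) from snew s k n) ∈ WA φ s (k + n) := by
  induction n with
  | zero => exact (WA φ s k).one_mem
  | succ n ih => exact comp_mem (whisk_mem hφ s (k + n) ih) (ins_mem φ s (k + n + 1) 0)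

end WAL

theorem rh_mem {M : 𝒜} (φ : Fam M) (s : M ⟶ M) (n : ℕ) (x : QS n) :
    (show End (T M n) from rh φ n x) ∈ WA φ s n := by
  show rho φ n x ∈ WA φ s n
  induction x using MonoidAlgebra.induction_linear with
  | zero =>
    rw [map_zero]
    exact (WA φ s n).zero_mem
  | add x y hx hy =>
    rw [map_add]
    exact (WA φ s n).add_mem hx hy
  | single g q =>
    have h1 : rho φ n (MonoidAlgebra.single g q) = q • φ n g := MonoidAlgebra.lift_single (φ n) g q
    rw [h1]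
    exact (WA φ s n).smul_mem (WAL.perm_mem φ s n g) q

theorem whs_mem {M : 𝒜} {φ : Fam M} (hφ : PA φ) (s : M ⟶ M) (m n : ℕ) {a : T M m ⟶ T M m}
    (ha : (show End (T M m) from a) ∈ WA φ s m) (t : ℕ) :
    (show End (T M (sz m n t)) from whs m n a t) ∈ WA φ s (sz m n t) := by
  induction t with
  | zero => exact ha
  | succ t ih => exact WAL.wh_mem hφ s (sz m n t) n ih

theorem Sall_mem {M : 𝒜} {φ : Fam M} (hφ : PA φ) (s : M ⟶ M) (m n t : ℕ) :
    (show End (T M (sz m n t)) from Sall s m n t) ∈ WA φ s (sz m n t) := by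
  induction t with
  | zero => exact (WA φ s m).one_mem
  | succ t ih =>
    exact WAL.comp_mem (n := sz m n t + n) (WAL.wh_mem hφ s (sz m n t) n ih)
      (WAL.snew_mem hφ s (sz m n t) n)

theorem Tm_mem {M : 𝒜} {φ : Fam M} (hφ : PA φ) (s : M ⟶ M) (a b : ℚ) (m : ℕ) :
    (show End (T M m) from Tm (a • 𝟙 M + b • s) m) ∈ WA φ s m := by
  induction m with
  | zero => exact (WA φ s 0).one_mem
  | succ m ih =>
    have h1 : Tm (a • 𝟙 M + b • s) (m + 1) =
        Tm (a • 𝟙 M + b • s) m ▷ M ≫ (a • 𝟙 (T M (m + 1)) + b • ins s (m + 1) 0) := by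
      show Tm (a • 𝟙 M + b • s) m ⊗ₘ (a • 𝟙 M + b • s) = _
      rw [MonoidalCategory.tensorHom_def, MonoidalPreadditive.whiskerLeft_add, MonoidalLinear.whiskerLeft_smul,
        MonoidalLinear.whiskerLeft_smul, MonoidalCategory.whiskerLeft_id]
      rfl
    have h2 : (show End (T M (m + 1)) from a • 𝟙 (T M (m + 1)) + b • ins s (m + 1) 0) ∈
        WA φ s (m + 1) :=
      (WA φ s (m + 1)).add_mem ((WA φ s (m + 1)).smul_mem (WA φ s (m + 1)).one_mem a)
        ((WA φ s (m + 1)).smul_mem (WAL.ins_mem φ s (m + 1) 0) b)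
    rw [h1]
    exact WAL.comp_mem (WAL.whisk_mem hφ s m ih) h2

end Pool.Agent.Helper96.SP
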