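import Mathlib.RingTheory.SimpleModule.Basic
import Mathlib.RepresentationTheory.Maschke

/-! # REG: two-sided ideals of nilpotents in a corner do not meet the group algebra -/

set_option autoImplicit false

namespace Pool.Agent.Helper96.SP

theorem vn_regular {A : Type*} [Ring A] [IsSemisimpleRing A] (y : A) : ∃ a, y * a * y = y := by
  obtain ⟨e, he, h⟩ := IsSemisimpleRing.ideal_eq_span_idempotent (Ideal.span {y})
  have h1 : e ∈ Ideal.span {y} := by rw [h]; exact Ideal.mem_span_singleton_self e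
  have h2 : y ∈ Ideal.span {e} := by rw [← h]; exact Ideal.mem_span_singleton_self y
  obtain ⟨a, ha⟩ := Ideal.mem_span_singleton'.1 h1
  obtain ⟨b, hb⟩ := Ideal.mem_span_singleton'.1 h2
  refine ⟨a, ?_⟩
  have he' : e * e = e := he
  rw [mul_assoc, ha, ← hb, mul_assoc, he']

theorem reg {G : Type*} [Group G] [Finite G] {R : Type*} [Ring R] [Algebra ℚ R]
    (ρ : MonoidAlgebra ℚ G →ₐ[ℚ] R) (J : Set R) (hJ : ∀ a ∈ J, ∀ x y : R, x * a * y ∈ J)
    (E : MonoidAlgebra ℚ G) (hE : ρ E * ρ E = ρ E) (hnil : ∀ f ∈ J, IsNilpotent (ρ E * f * ρ E))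
    (x : MonoidAlgebra ℚ G) (hx : ρ (E * x) ∈ J) : ρ (E * x) = 0 := by
  classical
  have : IsSemisimpleRing (MonoidAlgebra ℚ G) := inferInstance
  obtain ⟨a, ha⟩ := vn_regular (E * x)
  obtain ⟨u, hu⟩ : ∃ u : R, u = ρ (E * x * a) := ⟨_, rfl⟩
  have huJ : u ∈ J := by
    have := hJ _ hx 1 (ρ a)
    rw [one_mul, ← map_mul] at this
    rw [hu]; exact this
  have huu : u * u = u := by
    rw [hu, ← map_mul, ← mul_assoc, ha]
  have hEu : ρ E * u = u := by
    rw [hu, map_mul, map_mul, ← mul_assoc, ← mul_assoc, hE]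
  have huE : u * ρ E * (u * ρ E) = u * ρ E := by
    rw [mul_assoc u, ← mul_assoc (ρ E) u, hEu, ← mul_assoc, huu]
  have hpow : ∀ k : ℕ, (u * ρ E) ^ (k + 1) = u * ρ E := by
    intro k
    induction k with
    | zero => simp
    | succ k ih => rw [pow_succ, ih, huE]
  obtain ⟨n, hn⟩ := hnil u huJ
  rw [hEu] at hn
  have h0 : u * ρ E = 0 := by
    rw [← hpow n, pow_succ, hn, zero_mul]
  have hu0 : u = 0 := by
    calc u = u * u := huu.symm
      _ = u * (ρ E * u) := by rw [hEu]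
      _ = 0 := by rw [← mul_assoc, h0, zero_mul]
  calc ρ (E * x) = ρ (E * x * a * (E * x)) := by rw [ha]
    _ = u * ρ (E * x) := by rw [map_mul ρ (E * x * a), hu]
    _ = 0 := by rw [hu0, zero_mul]

end Pool.Agent.Helper96.SP
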