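import Mathlib.GroupTheory.NoncommPiCoprod
import Mathlib.GroupTheory.SemidirectProduct
import Mathlib.Tactic.NoncommRing
import Mathlib.RingTheory.Adjoin.Basic
import Pool.Agent.Helper96.SP.PREG
import Pool.Agent.Helper96.SP.Defs2
import Pool.Agent.Helper96.SP.QINSL

/-! # WREG: the algebra generated by the permutations and an involution at the positions -/

set_option autoImplicit false
set_option linter.unusedSectionVars false

namespace Pool.Agent.Helper96.SP

/-- permutation of the coordinates -/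
def wTh (n : ℕ) : Equiv.Perm (Fin n) →* MulAut (Fin n → ℤˣ) where
  toFun g := { toFun := fun a => a ∘ (g⁻¹ : Equiv.Perm (Fin n))
               invFun := fun a => a ∘ g
               left_inv := fun a => by funext j; simp
               right_inv := fun a => by funext j; simp
               map_mul' := fun a b => by funext j; rfl }
  map_one' := by ext a j; simp
  map_mul' g h := by ext a j; simp

theorem wTh_apply {n : ℕ} (g : Equiv.Perm (Fin n)) (a : Fin n → ℤˣ) (j : Fin n) :
    wTh n g a j = a (g⁻¹ j) := rfl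

/-- the homomorphism of an involution -/
noncomputable def invHom {R : Type*} [Monoid R] (v : R) (hv : v * v = 1) : ℤˣ →* R where
  toFun u := if u = 1 then 1 else v
  map_one' := by simp
  map_mul' a b := by
    rcases Int.units_eq_one_or a with rfl | rfl <;> rcases Int.units_eq_one_or b with rfl | rfl <;>
      simp [hv]

theorem wreg_alg {n : ℕ} {R : Type*} [Ring R] [Algebra ℚ R] (φ : Equiv.Perm (Fin n) →* R)
    (v : Fin n → R) (hv : ∀ j, v j * v j = 1) (hcomm : ∀ j l, v j * v l = v l * v j)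
    (hφ : ∀ g j, φ g * v j = v (g j) * φ g) (J : Set R) (hJ : ∀ a ∈ J, ∀ x y : R, x * a * y ∈ J)
    (E x : R) (hE : E ∈ Algebra.adjoin ℚ (Set.range φ ∪ Set.range v))
    (hx : x ∈ Algebra.adjoin ℚ (Set.range φ ∪ Set.range v)) (hEE : E * E = E)
    (hnil : ∀ f ∈ J, IsNilpotent (E * f * E)) (h : E * x ∈ J) : E * x = 0 := by
  classical
  -- the homomorphism of the group of signs
  have hc : Pairwise fun i j => ∀ (x : ℤˣ) (y : ℤˣ), Commute (invHom (v i) (hv i) x) (invHom (v j) (hv j) y) := by
    intro i j _ x y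
    rcases Int.units_eq_one_or x with rfl | rfl <;> rcases Int.units_eq_one_or y with rfl | rfl
    · simp
    · simp
    · simp
    · change v i * v j = v j * v i
      exact hcomm i j
  obtain ⟨f, hf⟩ : ∃ f : (Fin n → ℤˣ) →* R, ∀ j u, f (Pi.mulSingle j u) = invHom (v j) (hv j) u :=
    ⟨MonoidHom.noncommPiCoprod (fun j => invHom (v j) (hv j)) hc, fun j u =>
      MonoidHom.noncommPiCoprod_mulSingle _ _ _⟩
  have hfφ : ∀ g a, φ g * f a = f (wTh n g a) * φ g := by
    intro g
    have hinv : φ g⁻¹ * φ g = 1 := by rw [← map_mul, inv_mul_cancel, map_one]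
    have hinv' : φ g * φ g⁻¹ = 1 := by rw [← map_mul, mul_inv_cancel, map_one]
    obtain ⟨c, hcd⟩ : ∃ c : (Fin n → ℤˣ) →* R, ∀ a, c a = φ g * f a * φ g⁻¹ :=
      ⟨{ toFun := fun a => φ g * f a * φ g⁻¹
         map_one' := by rw [map_one, mul_one, hinv']
         map_mul' := fun a b => by
          rw [map_mul]
          calc φ g * (f a * f b) * φ g⁻¹ = φ g * f a * 1 * f b * φ g⁻¹ := by noncomm_ring
            _ = _ := by rw [← hinv]; noncomm_ring }, fun a => rfl⟩
    have hce : c = f.comp (wTh n g).toMonoidHom := by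
      suffices hs : ∀ j u, c (Pi.mulSingle j u) = (f.comp (wTh n g).toMonoidHom) (Pi.mulSingle j u) by
        apply MonoidHom.ext
        intro a
        have h0 : a ∈ MonoidHom.eqLocusM c (f.comp (wTh n g).toMonoidHom) := by
          rw [← Finset.univ_prod_mulSingle a]
          exact Submonoid.prod_mem _ fun j _ => hs j (a j)
        exact h0
      intro j u
      have h1 : (wTh n g) (Pi.mulSingle j u) = Pi.mulSingle (g j) u := by
        funext l
        rw [wTh_apply, Pi.mulSingle_apply, Pi.mulSingle_apply]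
        have : g⁻¹ l = j ↔ l = g j := by rw [Equiv.Perm.inv_eq_iff_eq]
        simp only [this]
      change c (Pi.mulSingle j u) = f ((wTh n g) (Pi.mulSingle j u))
      rw [hcd, h1, hf, hf]
      rcases Int.units_eq_one_or u with rfl | rfl
      · rw [map_one, map_one, mul_one, hinv']
      · change φ g * v j * φ g⁻¹ = v (g j)
        rw [hφ, mul_assoc, hinv', mul_one]
    intro a
    have h2 : c a = f (wTh n g a) := by rw [hce]; rfl
    rw [← h2, hcd, mul_assoc, hinv, mul_one]
  obtain ⟨F, hF⟩ : ∃ F : SemidirectProduct (Fin n → ℤˣ) (Equiv.Perm (Fin n)) (wTh n) →* R,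
      ∀ y, F y = f y.left * φ y.right :=
    ⟨{ toFun := fun y => f y.left * φ y.right
       map_one' := by simp
       map_mul' := fun y z => by
        rw [SemidirectProduct.mul_left, SemidirectProduct.mul_right, map_mul, map_mul]
        calc f y.left * f (wTh n y.right z.left) * (φ y.right * φ z.right) =
            f y.left * (f (wTh n y.right z.left) * φ y.right) * φ z.right := by noncomm_ring
          _ = _ := by rw [← hfφ]; noncomm_ring }, fun y => rfl⟩
  have hfin : Finite (SemidirectProduct (Fin n → ℤˣ) (Equiv.Perm (Fin n)) (wTh n)) :=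
    Finite.of_equiv _ (SemidirectProduct.equivProd (φ := wTh n)).symm
  obtain ⟨ρ, hρ⟩ : ∃ ρ : MonoidAlgebra ℚ (SemidirectProduct (Fin n → ℤˣ) (Equiv.Perm (Fin n)) (wTh n)) →ₐ[ℚ] R,
      ∀ y, ρ (MonoidAlgebra.single y 1) = F y :=
    ⟨MonoidAlgebra.lift ℚ R _ F, fun y => by rw [MonoidAlgebra.lift_single, one_smul]⟩
  have hr : Algebra.adjoin ℚ (Set.range φ ∪ Set.range v) ≤ ρ.range := by
    rw [Algebra.adjoin_le_iff]
    rintro y (⟨g, rfl⟩ | ⟨j, rfl⟩)
    · refine ⟨MonoidAlgebra.single (SemidirectProduct.inr g) 1, ?_⟩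
      change ρ _ = _
      rw [hρ, hF]
      simp
    · refine ⟨MonoidAlgebra.single (SemidirectProduct.inl (Pi.mulSingle j (-1))) 1, ?_⟩
      change ρ _ = _
      rw [hρ, hF, SemidirectProduct.left_inl, SemidirectProduct.right_inl, map_one, mul_one, hf]
      rfl
  obtain ⟨E', rfl⟩ := hr hE
  obtain ⟨x', rfl⟩ := hr hx
  change ρ E' * ρ E' = ρ E' at hEE
  change ρ E' * ρ x' ∈ J at h
  change ρ E' * ρ x' = 0
  rw [← map_mul] at h ⊢
  exact reg ρ J hJ E' hEE hnil x' h

open CategoryTheory MonoidalCategory BraidedCategory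

open Pool.Agent.TH90.AB Pool.Agent.TH90.Kim Pool.Agent.Helper96.Kim

universe u v w

variable {𝒜 : Type u} [Category.{v} 𝒜] [MonoidalCategory 𝒜] [SymmetricCategory 𝒜]
  [Preadditive 𝒜] [MonoidalPreadditive 𝒜] [Linear ℚ 𝒜] [MonoidalLinear ℚ 𝒜]

/-- WREG -/
theorem wreg {M : 𝒜} {φ : Fam M} (hφ : PA φ) {s : M ⟶ M} (hs : s ≫ s = 𝟙 M) (n : ℕ)
    (J : Set (End (T M n))) (hJ : ∀ a ∈ J, ∀ x y : End (T M n), x * a * y ∈ J)
    (E x : End (T M n)) (hE : E ∈ WA φ s n) (hx : x ∈ WA φ s n) (hEE : E * E = E)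
    (hnil : ∀ f ∈ J, IsNilpotent (E * f * E)) (h : E * x ∈ J) : E * x = 0 := by
  refine wreg_alg (φ n) (fun j => (show End (T M n) from ins s n j)) ?_ ?_ ?_ J hJ E x hE hx hEE
    hnil h
  · intro j
    change ins s n j ≫ ins s n j = 𝟙 _
    rw [ins_comp, hs, ins_id]
  · intro j l
    by_cases hjl : j = l
    · rw [hjl]
    · change ins s n l ≫ ins s n j = ins s n j ≫ ins s n l
      exact ins_comm s s fun h => hjl h.symm
  · intro g j
    change ins s n j ≫ (φ n g : T M n ⟶ T M n) = (φ n g : T M n ⟶ T M n) ≫ ins s n (g j)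
    exact ins_perm hφ s n g j

end Pool.Agent.Helper96.SP
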