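import Pool.Agent.Helper96.SP.PCHART
import Pool.Agent.Helper96.SP.PGEN
import Pool.Agent.Helper96.SP.PPA
import Pool.Agent.Helper96.SP.PBPM
import Pool.Agent.Helper96.SP.QINSL
import Pool.Agent.Helper96.SP.QWAL
import Pool.Agent.Helper96.SP.QWREG
import Pool.Agent.Helper96.SP.QTM
import Pool.Agent.Helper96.SP.QTRS
import Pool.Agent.Helper96.SP.QCHAINS
import Pool.Agent.Helper96.SP.QNILT
import Pool.Agent.Helper96.SP.QNILK
import Pool.Agent.Helper96.SP.QTRCOMP
import Pool.Agent.Helper96.SP.QPARU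
import Pool.Agent.Helper96.SP.QPHTof
import Pool.Graph.R_pool_sql_team_seeded_ab47071d.TH90.Kim.Main4
import Pool.Graph.R_pool_sql_team_seeded_ab47071d.TH90.Kim.Light
import Mathlib.LinearAlgebra.Lagrange

/-!
# Schur powers
-/

open CategoryTheory MonoidalCategory Limits BraidedCategory

universe u v w

namespace Pool.Agent.Helper96.SP

open Pool.Agent.TH90.AB Pool.Agent.TH90.Kim Pool.Agent.Helper96.Kim

set_option linter.unusedSectionVars false

namespace M2

/-- Interpolation. -/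
lemma interp {d : ℕ} (δ c : Fin d → ℚ) (hδ : ∀ i, δ i = 1 ∨ δ i = -1) (hc : ∀ i, 0 < c i) :
    ∃ p q : Polynomial ℚ, (∀ i, p.eval (δ i * c i) = δ i) ∧
      ∀ i, (δ i * c i) * q.eval (δ i * c i) = 1 := by
  classical
  let s : Finset ℚ := Finset.univ.image fun i => δ i * c i
  have hs : ∀ i, δ i * c i ∈ s := fun i => Finset.mem_image_of_mem _ (Finset.mem_univ i)
  have hinj : Set.InjOn (id : ℚ → ℚ) s := fun _ _ _ _ h => h
  refine ⟨Lagrange.interpolate s id fun x => if 0 < x then 1 else -1,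
    Lagrange.interpolate s id fun x => x⁻¹, fun i => ?_, fun i => ?_⟩
  · have h := Lagrange.eval_interpolate_at_node (fun x : ℚ => if 0 < x then (1 : ℚ) else -1)
      hinj (hs i)
    rw [id] at h
    rw [h]
    rcases hδ i with h1 | h1
    · rw [h1, one_mul, if_pos (hc i)]
    · have := hc i
      rw [h1, if_neg (by linarith)]
  · have h := Lagrange.eval_interpolate_at_node (fun x : ℚ => x⁻¹) hinj (hs i)
    rw [id] at h
    rw [h]
    have : δ i * c i ≠ 0 := by
      have := hc i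
      rcases hδ i with h1 | h1 <;> rw [h1] <;> simp <;> linarith
    exact mul_inv_cancel₀ this

variable {𝒜 : Type u} [Category.{v} 𝒜] [MonoidalCategory 𝒜] [SymmetricCategory 𝒜]
  [Preadditive 𝒜] [MonoidalPreadditive 𝒜] [Linear ℚ 𝒜] [MonoidalLinear ℚ 𝒜]
  [hdual : ∀ X : 𝒜, HasRightDual X]

lemma rh_mul {M : 𝒜} (φ : Fam M) (n : ℕ) (x y : QS n) :
    rh φ n (x * y) = rh φ n y ≫ rh φ n x := by
  unfold rh
  rw [map_mul]
  rfl

lemma pw_conj {X Y : 𝒜} (R : Y ⟶ X) (I : X ⟶ Y) (hIR : I ≫ R = 𝟙 X) (g : X ⟶ X) (k : ℕ) :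
    pw (R ≫ g ≫ I) (k + 1) = R ≫ pw g (k + 1) ≫ I := by
  induction k with
  | zero =>
    unfold pw
    rw [zero_add, pow_one, pow_one]
  | succ k ih =>
    have e1 : pw (R ≫ g ≫ I) (k + 1 + 1) = (R ≫ g ≫ I) ≫ pw (R ≫ g ≫ I) (k + 1) := pw_succ _ _
    have e2 : pw g (k + 1 + 1) = g ≫ pw g (k + 1) := pw_succ _ _
    rw [e1, e2, ih]
    simp only [Category.assoc]
    rw [reassoc_of% hIR]

variable {K : Type w} [Field K] [CharZero K] (F : Realisation 𝒜 K)

/-- The action of a polynomial in `u` on an eigenvector. -/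
lemma map_aeval {M : 𝒜} (u : M ⟶ M) (p : Polynomial ℚ) (x : F.V M) (t : ℚ)
    (hx : F.map u x = (t : K) • x) :
    F.map (show M ⟶ M from Polynomial.aeval (show End M from u) p) x =
      ((p.eval t : ℚ) : K) • x := by
  induction p using Polynomial.induction_on' with
  | add p q hp hq =>
    have h : (Polynomial.aeval (show End M from u) (p + q) : End M) =
        (show M ⟶ M from Polynomial.aeval (show End M from u) p) +
        (show M ⟶ M from Polynomial.aeval (show End M from u) q) := map_add _ _ _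
    rw [h, F.map_add, hp, hq, ← add_smul, Polynomial.eval_add, Rat.cast_add]
  | monomial n a =>
    have h : (Polynomial.aeval (show End M from u) (Polynomial.monomial n a) : End M) =
        (a • (show M ⟶ M from (show End M from u) ^ n)) := by
      rw [Polynomial.aeval_monomial, ← Algebra.smul_def]
    have h2 : ∀ n : ℕ, F.map (show M ⟶ M from (show End M from u) ^ n) x =
        ((t ^ n : ℚ) : K) • x := by
      intro n
      induction n with
      | zero =>
        rw [pow_zero, pow_zero, Rat.cast_one, one_smul]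
        exact F.map_id M x
      | succ n ih =>
        have h3 : ((show End M from u) ^ (n + 1) : End M) =
            u ≫ (show M ⟶ M from (show End M from u) ^ n) := pow_succ _ _
        rw [h3, F.map_comp, hx, _root_.map_smul, ih, smul_smul, pow_succ]
        push_cast
        rw [mul_comm]
    rw [h, F.map_smul, h2, smul_smul, Polynomial.eval_monomial, Rat.cast_mul]

variable (hunit : ∀ f : 𝟙_ 𝒜 ⟶ 𝟙_ 𝒜, ∃ q : ℚ, f = q • 𝟙 (𝟙_ 𝒜))

include hunit

/-- Parity is algebraic and invisible endomorphisms are nilpotent. -/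
lemma stepA {M D : 𝒜} {φ : Fam M} (hφ : PA φ) {n : ℕ} {e : QS (n + 1)} (i : D ⟶ T M (n + 1))
    (r : T M (n + 1) ⟶ D) (hir : i ≫ r = 𝟙 D) (hri : r ≫ i = rh φ (n + 1) e)
    (hD : KimuraFinite D) (h0 : ∃ x : F.V D, x ≠ 0) (hne : ¬ F.Inv (rh φ (n + 1) e)) :
    (∃ s : M ⟶ M, ∀ x, F.map s x = F.par M x) ∧ ∀ f : M ⟶ M, F.Inv f → ∃ k, pw f k = 0 := by
  obtain ⟨L, hL⟩ := F.nilp hunit hD
  obtain ⟨N, hN1, hN⟩ := nilk F hφ i r hir hri L hL
  obtain ⟨u, d, b, δ, c, hδ, hc, hb, hu, hz⟩ := paru F hunit hφ i r hir hri (F.exists_sigma hD) h0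
  obtain ⟨p, q, hp, hq⟩ := interp δ c hδ hc
  have hext : ∀ (f g : M ⟶ M), (∀ i, F.map f (b i) = F.map g (b i)) → ∀ x, F.map f x = F.map g x := by
    intro f g h x
    have : F.map f = F.map g := b.ext h
    rw [this]
  have hs : ∀ x, F.map (show M ⟶ M from Polynomial.aeval (show End M from u) p) x = F.par M x := by
    intro x
    have : F.map (show M ⟶ M from Polynomial.aeval (show End M from u) p) = F.par M := by
      refine b.ext fun i => ?_
      rw [map_aeval F u p (b i) _ (hu i), hp, hb]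
    rw [this]
  refine ⟨⟨_, hs⟩, ?_⟩
  -- the element `t = u q(u)`
  set qu : M ⟶ M := (show M ⟶ M from Polynomial.aeval (show End M from u) q) with hqu
  set i0 : M ⟶ M := 𝟙 M - u ≫ qu with hi0
  have hi0I : F.Inv i0 := by
    intro x
    have h1 : F.map (u ≫ qu) x = F.map (𝟙 M) x := by
      refine hext _ _ (fun i => ?_) x
      rw [F.map_comp, hu, _root_.map_smul, hqu, map_aeval F u q (b i) _ (hu i), smul_smul, F.map_id,
        ← Rat.cast_mul, hq, Rat.cast_one, one_smul]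
    rw [hi0, F.map_sub', h1, sub_self]
  have hcomm : u ≫ qu = qu ≫ u := by
    have h : Commute (show End M from u) (Polynomial.aeval (show End M from u) q) := by
      have h2 := Polynomial.aeval_X (R := ℚ) (show End M from u)
      have h3 : Commute (Polynomial.aeval (show End M from u) (Polynomial.X : Polynomial ℚ))
          (Polynomial.aeval (show End M from u) q) := by
        unfold Commute SemiconjBy
        rw [← map_mul, ← map_mul, mul_comm]
      rwa [h2] at h3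
    exact h.eq.symm
  have hkill : ∀ f : M ⟶ M, F.Inv f → u ≫ pw f N = 0 := fun f hf =>
    hz _ fun x => ins_kill hφ e _ (hN f hf) x _
  have hkill2 : ∀ f : M ⟶ M, F.Inv f → pw f N = i0 ≫ pw f N := by
    intro f hf
    have h1 : (u ≫ qu) ≫ pw f N = 0 := by
      rw [hcomm, Category.assoc, hkill f hf, comp_zero]
    rw [hi0, Preadditive.sub_comp, h1, Category.id_comp, sub_zero]
  have hi1 : ∀ k, pw i0 (k + N) = pw i0 N := by
    intro k
    induction k with
    | zero => rw [zero_add]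
    | succ k ih =>
      have h1 : pw i0 (k + 1 + N) = i0 ≫ pw i0 (k + N) := by
        have : k + 1 + N = (k + N) + 1 := by omega
        rw [this]
        exact pw_succ _ _
      rw [h1, ih, ← hkill2 i0 hi0I]
  have hεε : pw i0 N ≫ pw i0 N = pw i0 N := by
    rw [pw_add, hi1]
  have hεI : F.Inv (pw i0 N) := by
    obtain ⟨N', rfl⟩ : ∃ k, N = k + 1 := ⟨N - 1, by omega⟩
    exact F.inv_pw hi0I N'
  have hεN : ∀ k, pw (pw i0 N) (k + 1) = pw i0 N := by
    intro k
    induction k with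
    | zero =>
      unfold pw
      rw [zero_add, pow_one]
    | succ k ih =>
      rw [show pw (pw i0 N) (k + 1 + 1) = pw i0 N ≫ pw (pw i0 N) (k + 1) from pw_succ _ _, ih, hεε]
  have hε0 : pw i0 N = 0 := by
    refine pht_of F (fun M ι _ _ b n => wd_basis F b n)
      (fun M φ hφ ι _ _ b δ hδ hb n B hB x w => sos F hφ b δ hδ hb n B hB x w)
      hunit hφ e hne _ hs (pw i0 N) hεε hεI fun x j => ?_
    have h1 := ins_kill hφ e _ (hN (pw i0 N) hεI) x j
    obtain ⟨N', hN'⟩ : ∃ k, N = k + 1 := ⟨N - 1, by omega⟩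
    have h2 : pw (pw i0 N) N = pw i0 N := by
      conv_lhs => rw [show pw (pw i0 N) N = pw (pw i0 N) (N' + 1) by rw [← hN']]
      exact hεN N'
    rwa [h2] at h1
  intro f hf
  refine ⟨N, ?_⟩
  have h3 : ∀ k, pw f N = pw i0 k ≫ pw f N := by
    intro k
    induction k with
    | zero =>
      rw [show pw i0 0 = 𝟙 M from pw_zero _, Category.id_comp]
    | succ k ih =>
      rw [show pw i0 (k + 1) = i0 ≫ pw i0 k from pw_succ _ _, Category.assoc, ← ih,
        ← hkill2 f hf]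
  rw [h3 N, hε0, zero_comp]

/-- The vanishing of a power of one of the parts. -/
lemma stepB {M D P : 𝒜} {φ : Fam M} (hφ : PA φ) {n : ℕ} {e : QS (n + 1)}
    (i : D ⟶ T M (n + 1)) (r : T M (n + 1) ⟶ D) (hir : i ≫ r = 𝟙 D)
    (hri : r ≫ i = rh φ (n + 1) e) (hD : KimuraFinite D) (hne : ¬ F.Inv (rh φ (n + 1) e))
    {s : M ⟶ M} (hs : s ≫ s = 𝟙 M) (hsp : ∀ x, F.map s x = F.par M x) {δ : ℚ}
    (hδ : δ = 1 ∨ δ = -1) (iP : P ⟶ M) (rP : M ⟶ P) (hP : iP ≫ rP = 𝟙 P)
    (hP' : rP ≫ iP = (2 : ℚ)⁻¹ • 𝟙 M + ((2 : ℚ)⁻¹ * δ) • s)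
    (hpar : ∀ x, F.par P x = (δ : K) • x) (hPne : ∃ x : F.V P, x ≠ 0) : ∃ m, PowZero (-δ) P m := by
  have hδδ : δ * δ = 1 := by rcases hδ with rfl | rfl <;> norm_num
  have hx : ∃ x : F.V M, x ≠ 0 ∧ F.par M x = (δ : K) • x := by
    obtain ⟨x, hx⟩ := hPne
    refine ⟨F.map iP x, fun h => hx ?_, ?_⟩
    · have : F.map (iP ≫ rP) x = x := by rw [hP, F.map_id]
      rw [F.map_comp, h, _root_.map_zero] at this
      exact this.symm
    · rw [F.par_map, hpar, _root_.map_smul]
  obtain ⟨y, h, hyh⟩ := trcomp F hunit hφ hs hsp hδ hx e hne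
  obtain ⟨α, α', hα⟩ := trs hφ hunit hs n (y * e * h)
  have hne0 := hyh α α' hα
  set m := Module.finrank K (F.V M) + 1 with hm
  obtain ⟨β, hβ, hch⟩ := chains hφ m n
  obtain ⟨I, R, hIR, hRI⟩ := chart hφ i r hir hri β hβ
  obtain ⟨ha1, ha2⟩ := ap F hφ iP rP hP hδ hpar m (by omega)
  refine ⟨m, ha2 ?_⟩
  set a : T M m ⟶ T M m := Tm (rP ≫ iP) m ≫ rh φ m (alt (-δ) m) with ha
  have hps : (rP ≫ iP) ≫ s = δ • (rP ≫ iP) := by
    rw [hP']
    simp only [Preadditive.add_comp, Linear.smul_comp, Category.id_comp, hs, smul_add, smul_smul]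
    rw [add_comm]
    congr 1
    · congr 1
      ring
    · congr 1
      linear_combination (2 : ℚ)⁻¹ * (-1) * hδδ
  refine hch s (y * e * h) α α' δ hne0 hα a (fun j => tm_ins hφ _ s δ hps m _ j) ?_
  -- the vanishing
  have hmem : (show End (T M m) from a) ∈ WA φ s m := by
    have h1 : (show End (T M m) from a) = (show End (T M m) from rh φ m (alt (-δ) m)) *
        (show End (T M m) from Tm (rP ≫ iP) m) := rfl
    rw [h1]
    refine Subalgebra.mul_mem _ (rh_mem φ s m _) ?_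
    rw [hP']
    exact Tm_mem hφ s _ _ m
  have key : whs m n a m ≫ Sall s m n m ≫ rh φ (sz m n m) (bp β h) ≫
      rh φ (sz m n m) (bp β e) = 0 := by
    obtain ⟨L, hL⟩ := nilt F hunit hD m
    have h2 := wreg hφ hs (sz m n m) (F.I (T M (sz m n m))) ?_
      (show End (T M (sz m n m)) from rh φ (sz m n m) (bp β e))
      ((show End (T M (sz m n m)) from rh φ (sz m n m) (bp β h)) *
        (show End (T M (sz m n m)) from Sall s m n m) *
        (show End (T M (sz m n m)) from whs m n a m)) (rh_mem φ s _ _)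
      (Subalgebra.mul_mem _ (Subalgebra.mul_mem _ (rh_mem φ s _ _) (Sall_mem hφ s m n m))
        (whs_mem hφ s m n hmem m)) ?_ ?_ ?_
    · have h3 : ((whs m n a m ≫ Sall s m n m ≫ rh φ (sz m n m) (bp β h)) ≫
        rh φ (sz m n m) (bp β e) : T M (sz m n m) ⟶ T M (sz m n m)) = 0 := h2
      simpa only [Category.assoc] using h3
    · intro a ha x y
      exact (F.idl _).right _ _ ((F.idl _).left _ _ ha)
    · change rh φ _ (bp β e) ≫ rh φ _ (bp β e) = rh φ _ (bp β e)
      rw [← hRI, Category.assoc, reassoc_of% hIR]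
    · intro f hf
      have hg : F.Inv (I ≫ (show T M (sz m n m) ⟶ T M (sz m n m) from f) ≫ R) :=
        F.inv_comp_right _ (F.inv_comp_left _ hf)
      have h1 := F.pw_retract hunit hL (𝟙 _) (𝟙 _) (Category.comp_id _) hg
      refine ⟨L + 1, ?_⟩
      have h2 := pw_conj R I hIR (I ≫ (show T M (sz m n m) ⟶ T M (sz m n m) from f) ≫ R) L
      have h3 : pw (I ≫ (show T M (sz m n m) ⟶ T M (sz m n m) from f) ≫ R) (L + 1) = 0 := by
        rw [pw_succ, h1, comp_zero]
      rw [h3, zero_comp, comp_zero] at h2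
      have h4 : (R ≫ (I ≫ (show T M (sz m n m) ⟶ T M (sz m n m) from f) ≫ R) ≫ I :
          T M (sz m n m) ⟶ T M (sz m n m)) =
          rh φ (sz m n m) (bp β e) ≫ f ≫ rh φ (sz m n m) (bp β e) := by
        rw [← hRI]
        simp only [Category.assoc]
      rw [h4] at h2
      exact h2
    · have h5 : F.Inv (whs m n a m ≫ (Sall s m n m ≫ rh φ (sz m n m) (bp β h)) ≫
        rh φ (sz m n m) (bp β e)) := F.inv_comp_left _ (inv_whs F m n ha1 m)
      intro x
      have h6 := h5 x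
      have h7 : (whs m n a m ≫ (Sall s m n m ≫ rh φ (sz m n m) (bp β h)) ≫
        rh φ (sz m n m) (bp β e)) = ((whs m n a m ≫ Sall s m n m ≫ rh φ (sz m n m) (bp β h)) ≫
        rh φ (sz m n m) (bp β e)) := by simp only [Category.assoc]
      rw [h7] at h6
      exact h6
  rw [bp_mul β hβ.1, bp_mul β hβ.1, rh_mul, rh_mul]
  have h8 : whs m n a m ≫ Sall s m n m ≫ rh φ (sz m n m) (bp β h) ≫
      rh φ (sz m n m) (bp β e) ≫ rh φ (sz m n m) (bp β y) =
      (whs m n a m ≫ Sall s m n m ≫ rh φ (sz m n m) (bp β h) ≫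
      rh φ (sz m n m) (bp β e)) ≫ rh φ (sz m n m) (bp β y) := by simp only [Category.assoc]
  rw [h8, key, zero_comp]

/-- The realisation of a non-zero Kimura-finite object is not zero. -/
lemma exists_ne {Y : 𝒜} (hY : KimuraFinite Y) (h0 : 𝟙 Y ≠ 0) : ∃ y : F.V Y, y ≠ 0 := by
  by_contra hcon
  obtain ⟨N, hN⟩ := F.nilp hunit hY
  have h1 : F.Inv (𝟙 Y) := by
    intro x
    rw [F.map_id]
    by_contra h
    exact hcon ⟨x, h⟩
  have h2 := hN (List.replicate N (1 : End Y)) (by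
    intro x hx
    rw [List.eq_of_mem_replicate hx]
    exact h1) (List.length_replicate)
  rw [List.prod_replicate, one_pow] at h2
  exact h0 h2

omit hunit [hdual : ∀ X : 𝒜, HasRightDual X] in
lemma factors_ne {D X : 𝒜} (z : F.V (D ⊗ X)) (hz : z ≠ 0) :
    (∃ x : F.V D, x ≠ 0) ∧ ∃ x : F.V X, x ≠ 0 := by
  obtain ⟨n, a, b, hab⟩ := F.exists_sum z
  constructor
  · by_contra h
    apply hz
    rw [hab]
    refine Finset.sum_eq_zero fun i _ => ?_
    have : a i = 0 := by
      by_contra h1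
      exact h ⟨_, h1⟩
    rw [this, _root_.map_zero, LinearMap.zero_apply]
  · by_contra h
    apply hz
    rw [hab]
    refine Finset.sum_eq_zero fun i _ => ?_
    have : b i = 0 := by
      by_contra h1
      exact h ⟨_, h1⟩
    rw [this, _root_.map_zero]

omit hunit in
lemma split_iS {M P Q : 𝒜} (S : Split M P Q) : S.i ≫ S.s = 0 := by
  have h1 : S.i ≫ (S.r ≫ S.i + S.s ≫ S.j) = S.i := by rw [S.sum, Category.comp_id]
  rw [Preadditive.comp_add, reassoc_of% S.ir] at h1
  have h2 : S.i ≫ S.s ≫ S.j = 0 := by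
    have := add_eq_left.mp h1
    exact this
  have h3 : (S.i ≫ S.s ≫ S.j) ≫ S.s = S.i ≫ S.s := by
    rw [Category.assoc, Category.assoc, S.js, Category.comp_id]
  rw [← h3, h2, zero_comp]

/-- The case of a part with zero realisation. -/
lemma part_zero {M P : 𝒜} (hnil : ∀ f : M ⟶ M, F.Inv f → ∃ k, pw f k = 0) (i : P ⟶ M) (r : M ⟶ P)
    (hir : i ≫ r = 𝟙 P) (h : ¬ ∃ x : F.V P, x ≠ 0) : 𝟙 P = 0 := by
  have h1 : F.Inv (r ≫ i) := by
    intro x
    rw [F.map_comp]
    have h2 : F.map r x = 0 := by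
      by_contra h3
      exact h ⟨_, h3⟩
    rw [h2, _root_.map_zero]
  obtain ⟨k, hk⟩ := hnil _ h1
  have h4 : ∀ k, i ≫ pw (r ≫ i) k = i := by
    intro k
    induction k with
    | zero => rw [pw_zero, Category.comp_id]
    | succ k ih =>
      rw [show pw (r ≫ i) (k + 1) = (r ≫ i) ≫ pw (r ≫ i) k from pw_succ _ _, Category.assoc,
        reassoc_of% hir, ih]
  have h5 := h4 k
  rw [hk, comp_zero] at h5
  rw [← hir, ← h5, zero_comp]

theorem main2 [IsIdempotentComplete 𝒜] {M D : 𝒜} {n : ℕ} (i : D ⟶ T M (n + 1))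
    (r : T M (n + 1) ⟶ D) (hir : i ≫ r = 𝟙 D)
    (hperm : (show End (T M (n + 1)) from r ≫ i) ∈ Algebra.adjoin ℚ
      {s : End (T M (n + 1)) | Adj M (n + 1) s})
    (h0 : ∃ x : F.V D, x ≠ 0) (hD : KimuraFinite D) : KimuraFinite M := by
  obtain ⟨φ, hφ⟩ := exists_PA M
  obtain ⟨e, he⟩ := (gen hφ (n + 1) _).1 hperm
  have hri : r ≫ i = rh φ (n + 1) e := he.symm
  have hne : ¬ F.Inv (rh φ (n + 1) e) := by
    obtain ⟨x, hx⟩ := h0
    intro h
    apply hx
    have h1 := h (F.map i x)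
    rw [← hri, F.map_comp, ← F.map_comp i r, hir, F.map_id] at h1
    have h2 : F.map (i ≫ r) x = x := by rw [hir, F.map_id]
    rw [F.map_comp, h1, _root_.map_zero] at h2
    exact h2.symm
  obtain ⟨⟨s0, hs0⟩, hnil⟩ := stepA F hunit hφ i r hir hri hD h0 hne
  obtain ⟨P, Q, ⟨E⟩⟩ := F.exists_eo hnil (g := s0) (c := 1) one_ne_zero (by
    intro x
    rw [hs0, Rat.cast_one, one_smul])
  have hsp := E.map_sigma
  have hsum := E.S.sum
  have hir' := E.S.ir
  have hjs' := E.S.js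
  have his := split_iS E.S
  have hjr := split_iS E.S.swap
  change E.S.j ≫ E.S.r = 0 at hjr
  set s : M ⟶ M := E.S.r ≫ E.S.i - E.S.s ≫ E.S.j with hs
  have hss : s ≫ s = 𝟙 M := by
    rw [hs]
    simp only [Preadditive.sub_comp, Preadditive.comp_sub, Category.assoc]
    rw [reassoc_of% hir', reassoc_of% his, reassoc_of% hjr, reassoc_of% hjs']
    simp [hsum]
  have h2 : (2 : ℚ) ≠ 0 := by norm_num
  have hP : E.S.r ≫ E.S.i = (2 : ℚ)⁻¹ • 𝟙 M + ((2 : ℚ)⁻¹ * 1) • s := by
    rw [← hsum, hs, mul_one, ← smul_add]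
    have : E.S.r ≫ E.S.i + E.S.s ≫ E.S.j + (E.S.r ≫ E.S.i - E.S.s ≫ E.S.j) =
        (2 : ℚ) • (E.S.r ≫ E.S.i) := by
      rw [two_smul]; abel
    rw [this, smul_smul, inv_mul_cancel₀ h2, one_smul]
  have hQ : E.S.s ≫ E.S.j = (2 : ℚ)⁻¹ • 𝟙 M + ((2 : ℚ)⁻¹ * (-1)) • s := by
    rw [← hsum, hs, mul_neg_one, neg_smul, ← smul_neg, ← smul_add]
    have : E.S.r ≫ E.S.i + E.S.s ≫ E.S.j + -(E.S.r ≫ E.S.i - E.S.s ≫ E.S.j) =
        (2 : ℚ) • (E.S.s ≫ E.S.j) := by
      rw [two_smul]; abel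
    rw [this, smul_smul, inv_mul_cancel₀ h2, one_smul]
  have hPz : ∃ m, PowZero (-1) P m := by
    by_cases h : ∃ x : F.V P, x ≠ 0
    · exact stepB F hunit hφ i r hir hri hD hne hss hsp (δ := 1) (Or.inl rfl) E.S.i E.S.r hir' hP
        (fun x => by rw [E.even, Rat.cast_one, one_smul]) h
    · exact ⟨1, powZero_of_zero (part_zero F hunit hnil E.S.i E.S.r hir' h)⟩
  have hQz : ∃ m, PowZero 1 Q m := by
    by_cases h : ∃ x : F.V Q, x ≠ 0
    · have := stepB F hunit hφ i r hir hri hD hne hss hsp (δ := -1) (Or.inr rfl) E.S.j E.S.s hjs' hQ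
        (fun x => by rw [E.odd, Rat.cast_neg, Rat.cast_one, neg_one_smul]) h
      rwa [neg_neg] at this
    · exact ⟨1, powZero_of_zero (part_zero F hunit hnil E.S.j E.S.s hjs' h)⟩
  exact ⟨P, Q, ⟨E.S⟩, hPz, hQz⟩

end M2

end Pool.Agent.Helper96.SP
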