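import Pool.Agent.Helper96.SP.QSOS
import Pool.Agent.Helper96.SP.Defs3

/-!
# The positive weights of the words
-/

open CategoryTheory MonoidalCategory Limits BraidedCategory

universe u v w

namespace Pool.Agent.Helper96.SP

open Pool.Agent.TH90.AB Pool.Agent.TH90.Kim Pool.Agent.Helper96.Kim

set_option linter.unusedSectionVars false

variable {𝒜 : Type u} [Category.{v} 𝒜] [MonoidalCategory 𝒜] [SymmetricCategory 𝒜]
  [Preadditive 𝒜] [MonoidalPreadditive 𝒜] [Linear ℚ 𝒜] [MonoidalLinear ℚ 𝒜]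
  {K : Type w} [Field K] [CharZero K] {F : Realisation 𝒜 K}

namespace QWX

/-- the Koszul rule if one of the elements is even -/
lemma koszul {X Y : 𝒜} (x : F.V X) (y : F.V Y) (s t : ℚ) (hs : s = 1 ∨ s = -1)
    (ht : t = 1 ∨ t = -1) (hx : F.par X x = (s : K) • x) (hy : F.par Y y = (t : K) • y) :
    F.map (β_ X Y).hom (F.ext x y) = ((if s = -1 ∧ t = -1 then -1 else 1 : ℚ) : K) • F.ext y x := by
  rcases hs with rfl | rfl
  · rw [if_neg (by norm_num), Rat.cast_one, one_smul]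
    exact F.koszul_even _ _ (by rw [hx, Rat.cast_one, one_smul])
  · rcases ht with rfl | rfl
    · rw [if_neg (by norm_num), Rat.cast_one, one_smul]
      have h1 := F.koszul_even y x (by rw [hy, Rat.cast_one, one_smul])
      rw [← h1, ← F.map_comp, SymmetricCategory.symmetry, F.map_id]
    · rw [if_pos ⟨rfl, rfl⟩, Rat.cast_neg, Rat.cast_one, neg_one_smul]
      exact F.koszul_odd _ _ (by rw [hx, Rat.cast_neg, Rat.cast_one, neg_one_smul])
        (by rw [hy, Rat.cast_neg, Rat.cast_one, neg_one_smul])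

/-- The sign of a permutation of the factors depends only on the parities of the letters. -/
theorem perm_sign {M : 𝒜} {φ : Fam M} (hφ : PA φ) {ι : Type} (b : ι → F.V M) (δ : ι → ℚ)
    (hδ : ∀ i, δ i = 1 ∨ δ i = -1) (hb : ∀ i, F.par M (b i) = (δ i : K) • b i) (n : ℕ)
    (g : Equiv.Perm (Fin n)) : ∃ κ : (Fin n → ℚ) → ℚ, (∀ s, κ s = 1 ∨ κ s = -1) ∧
      ∀ w : Fin n → ι, F.map (φ n g : T M n ⟶ T M n) (wd F n fun j => b (w j)) =
        (κ (fun j => δ (w j)) : K) • wd F n fun j => b (w (g⁻¹ j)) := by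
  refine WD.ind (P := fun n g => ∃ κ : (Fin n → ℚ) → ℚ, (∀ s, κ s = 1 ∨ κ s = -1) ∧
      ∀ w : Fin n → ι, F.map (φ n g : T M n ⟶ T M n) (wd F n fun j => b (w j)) =
        (κ (fun j => δ (w j)) : K) • wd F n fun j => b (w (g⁻¹ j))) ?_ ?_ ?_ ?_ n g
  · intro n
    refine ⟨fun _ => 1, fun _ => Or.inl rfl, fun w => ?_⟩
    have e : (φ n 1 : T M n ⟶ T M n) = 𝟙 _ := map_one (φ n)
    rw [e, F.map_id, Rat.cast_one, one_smul, inv_one]
    rfl
  · rintro n g h ⟨κ, hκ, hκ'⟩ ⟨l, hl, hl'⟩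
    refine ⟨fun w => l w * κ fun j => w (h⁻¹ j), fun w => ?_, fun w => ?_⟩
    · change (l w * κ fun j => w (h⁻¹ j)) = 1 ∨ (l w * κ fun j => w (h⁻¹ j)) = -1
      rcases hl w with h1 | h1 <;> rcases hκ fun j => w (h⁻¹ j) with h2 | h2 <;>
        rw [h1, h2] <;> norm_num
    · have e : (φ n (g * h) : T M n ⟶ T M n) = (φ n h : T M n ⟶ T M n) ≫ (φ n g : T M n ⟶ T M n) :=
        map_mul (φ n) g h
      rw [e, F.map_comp, hl', _root_.map_smul, hκ' fun j => w (h⁻¹ j), smul_smul, Rat.cast_mul,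
        mul_inv_rev]
      rfl
  · rintro n g ⟨κ, hκ, hκ'⟩
    refine ⟨fun w => κ fun j => w j.succ, fun w => hκ _, fun w => ?_⟩
    rw [hφ.up]
    simp only [wd]
    rw [F.whiskerRight, hκ' fun j => w j.succ, _root_.map_smul, LinearMap.smul_apply, WD.up_inv]
    have e1 : (fun j : Fin n => b (w ((up g⁻¹ : Equiv.Perm (Fin (n + 1))) j.succ))) =
        fun j : Fin n => b (w (g⁻¹ j).succ) := by
      funext j
      rw [WD.up_succ]
    rw [e1, WD.up_zero]
  · intro n
    refine ⟨fun w => if w 1 = -1 ∧ w 0 = -1 then -1 else 1, fun w => ?_, fun w => ?_⟩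
    · by_cases h : w 1 = -1 ∧ w 0 = -1
      · exact Or.inr (if_pos h)
      · exact Or.inl (if_neg h)
    rw [hφ.swap]
    simp only [wd]
    have e1 := koszul (b (w 1)) (b (w 0)) _ _ (hδ (w 1)) (hδ (w 0)) (hb _) (hb _)
    unfold sw
    rw [F.map_comp, F.map_comp, F.assoc, F.whiskerLeft]
    have e2 : w (Fin.succ 0) = w 1 := rfl
    rw [e2, e1, _root_.map_smul, _root_.map_smul, F.assoc_inv]
    have e3 : (fun j : Fin n => b (w (((Equiv.swap (0 : Fin (n + 2)) 1)⁻¹ :
        Equiv.Perm (Fin (n + 2))) j.succ.succ))) = fun j => b (w j.succ.succ) := by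
      funext j
      rw [Equiv.swap_inv, Equiv.swap_apply_of_ne_of_ne]
      · simp
      · simp [Fin.ext_iff]
    have e4 : ((Equiv.swap (0 : Fin (n + 2)) 1)⁻¹ : Equiv.Perm (Fin (n + 2))) (Fin.succ 0) = 0 := by
      rw [Equiv.swap_inv]
      exact Equiv.swap_apply_right _ _
    have e5 : ((Equiv.swap (0 : Fin (n + 2)) 1)⁻¹ : Equiv.Perm (Fin (n + 2))) 0 = 1 := by
      rw [Equiv.swap_inv, Equiv.swap_apply_left]
    rw [e3, e4, e5]

lemma comp_inv_iff {ι : Type} {n : ℕ} (g : Equiv.Perm (Fin n)) (w w' : Fin n → ι) :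
    w ∘ (g⁻¹ : Equiv.Perm (Fin n)) = w' ↔ w = w' ∘ g := by
  constructor
  · rintro rfl
    funext j
    simp
  · rintro rfl
    funext j
    simp

lemma cnt_comp {ι : Type} [DecidableEq ι] {n : ℕ} (g : Equiv.Perm (Fin n)) (w : Fin n → ι)
    (i : ι) : cnt (w ∘ g) i = cnt w i := by
  unfold cnt
  have h1 : (Finset.univ.filter fun k => w k = i) =
      (Finset.univ.filter fun k => (w ∘ g) k = i).map g.toEmbedding := by
    ext k
    simp only [Finset.mem_filter, Finset.mem_univ, true_and, Finset.mem_map_equiv,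
      Function.comp_apply, Equiv.apply_symm_apply]
  rw [h1, Finset.card_map]

/-- the matrix of an element of the group algebra -/
lemma mat {M : 𝒜} {φ : Fam M} {ι : Type} [Fintype ι] [DecidableEq ι] {n : ℕ}
    (B : Module.Basis (Fin n → ι) K (F.V (T M n)))
    (κ : Equiv.Perm (Fin n) → (Fin n → ι) → ℚ)
    (hκ : ∀ g w, F.map (φ n g : T M n ⟶ T M n) (B w) =
      (κ g w : K) • B (w ∘ (g⁻¹ : Equiv.Perm (Fin n)))) (x : QS n) (w : Fin n → ι) :
    F.map (rh φ n x) (B w) = ∑ w', ((∑ g : Equiv.Perm (Fin n),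
      if w ∘ (g⁻¹ : Equiv.Perm (Fin n)) = w' then x.coeff g * κ g w else 0 : ℚ) : K) • B w' := by
  rw [WD.rh_eq, WD.map_sum']
  have h1 : ∀ w', ((∑ g : Equiv.Perm (Fin n), if w ∘ (g⁻¹ : Equiv.Perm (Fin n)) = w' then
      x.coeff g * κ g w else 0 : ℚ) : K) • B w' =
      ∑ g : Equiv.Perm (Fin n), if w ∘ (g⁻¹ : Equiv.Perm (Fin n)) = w' then
        ((x.coeff g * κ g w : ℚ) : K) • B w' else 0 := by
    intro w'
    rw [Rat.cast_sum, Finset.sum_smul]
    refine Finset.sum_congr rfl fun g _ => ?_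
    split_ifs <;> simp
  simp only [h1]
  rw [Finset.sum_comm]
  refine Finset.sum_congr rfl fun g _ => ?_
  rw [Finset.sum_ite_eq, if_pos (Finset.mem_univ _), F.map_smul, hκ, smul_smul, Rat.cast_mul]

lemma repr_sum {V ι : Type*} [Fintype ι] [AddCommGroup V] [Module K V] (B : Module.Basis ι K V)
    (a : ι → K) (w : ι) : B.repr (∑ w', a w' • B w') w = a w := by
  classical
  rw [map_sum, Finsupp.finsetSum_apply, Finset.sum_eq_single w]
  · rw [_root_.map_smul, Module.Basis.repr_self, Finsupp.smul_apply, Finsupp.single_eq_same,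
      smul_eq_mul, mul_one]
  · intro w' _ h
    rw [_root_.map_smul, Module.Basis.repr_self, Finsupp.smul_apply,
      Finsupp.single_eq_of_ne (Ne.symm h), smul_zero]
  · simp

/-- **The weights of the words**, with all symmetries. -/
theorem gen {M : 𝒜} {φ : Fam M} (hφ : PA φ) {ι : Type} [Fintype ι] [DecidableEq ι]
    (b : Module.Basis ι K (F.V M)) (δ : ι → ℚ) (hδ : ∀ i, δ i = 1 ∨ δ i = -1)
    (hb : ∀ i, F.par M (b i) = (δ i : K) • b i) (n : ℕ)
    (B : Module.Basis (Fin n → ι) K (F.V (T M n))) (hB : ∀ w, B w = wd F n fun j => b (w j))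
    (e : QS n) : ∃ q : (Fin n → ι) → ℚ, (∀ w, 0 ≤ q w) ∧
      (∀ w, q w = 0 ↔ F.map (rh φ n e) (B w) = 0) ∧
      (∀ (h : Equiv.Perm (Fin n)) (w : Fin n → ι),
        B.repr (F.map (rh φ n (MonoidAlgebra.single h 1 * (adj e * e) *
          MonoidAlgebra.single h⁻¹ 1)) (B w)) w = (q (w ∘ h) : K)) ∧
      ∀ σ : Equiv.Perm ι, (∀ i, δ (σ i) = δ i) → ∀ w, q (fun k => σ (w k)) = q w := by
  classical
  choose κ hκ hκ' using fun g : Equiv.Perm (Fin n) => perm_sign hφ b δ hδ hb n g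
  let κ1 : Equiv.Perm (Fin n) → (Fin n → ι) → ℚ := fun g w => κ g fun j => δ (w j)
  have hmap : ∀ (g : Equiv.Perm (Fin n)) (w : Fin n → ι),
      F.map (φ n g : T M n ⟶ T M n) (B w) = (κ1 g w : K) • B (w ∘ (g⁻¹ : Equiv.Perm (Fin n))) := by
    intro g w
    rw [hB, hB, hκ']
    rfl
  -- the sign of the inverse permutation
  have hone : ∀ (g : Equiv.Perm (Fin n)) (w : Fin n → ι),
      κ1 g w * κ1 g⁻¹ (w ∘ (g⁻¹ : Equiv.Perm (Fin n))) = 1 := by
    intro g w
    have h1 : F.map (φ n g⁻¹ : T M n ⟶ T M n) (F.map (φ n g : T M n ⟶ T M n) (B w)) = B w := by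
      rw [← F.map_comp]
      have e : (φ n g : T M n ⟶ T M n) ≫ (φ n g⁻¹ : T M n ⟶ T M n) = 𝟙 _ := by
        have h2 := map_mul (φ n) g⁻¹ g
        rw [inv_mul_cancel, map_one] at h2
        exact h2.symm
      rw [e, F.map_id]
    rw [hmap, _root_.map_smul, hmap, smul_smul] at h1
    have h2 : (w ∘ (g⁻¹ : Equiv.Perm (Fin n))) ∘ ((g⁻¹)⁻¹ : Equiv.Perm (Fin n)) = w := by
      funext j
      simp
    rw [h2] at h1
    have h3 := congrArg (fun z => B.repr z w) h1
    simp only [_root_.map_smul, Module.Basis.repr_self, Finsupp.smul_apply, Finsupp.single_eq_same,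
      smul_eq_mul, mul_one] at h3
    exact_mod_cast h3
  have hinv : ∀ (g : Equiv.Perm (Fin n)) (w : Fin n → ι),
      κ1 g⁻¹ (w ∘ (g⁻¹ : Equiv.Perm (Fin n))) = κ1 g w := by
    intro g w
    have h4 := hone g w
    rcases hκ g fun j => δ (w j) with h5 | h5 <;>
      rcases hκ g⁻¹ fun j => δ ((w ∘ (g⁻¹ : Equiv.Perm (Fin n))) j) with h6 | h6 <;>
      simp only [κ1] at h4 ⊢ <;> rw [h5, h6] at h4 ⊢ <;> norm_num at h4
  -- the matrix
  let G : (Fin n → ι) → (Fin n → ι) → ℚ := fun w' w =>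
    ∑ g : Equiv.Perm (Fin n), if w ∘ (g⁻¹ : Equiv.Perm (Fin n)) = w' then e.coeff g * κ1 g w else 0
  have hG : ∀ w, F.map (rh φ n e) (B w) = ∑ w', (G w' w : K) • B w' := fun w => mat B κ1 hmap e w
  have hadj : ∀ w w', B.repr (F.map (rh φ n (adj e)) (B w')) w = (G w' w : K) := by
    intro w w'
    have e1 : rh φ n (adj e) = ∑ g : Equiv.Perm (Fin n), e.coeff g • (φ n g⁻¹ : T M n ⟶ T M n) := by
      unfold adj rh
      rw [map_sum]
      refine Finset.sum_congr rfl fun g _ => ?_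
      unfold rho
      rw [MonoidAlgebra.lift_single]
    rw [e1, WD.map_sum', map_sum, Finsupp.finsetSum_apply]
    simp only [G]
    rw [Rat.cast_sum]
    refine Finset.sum_congr rfl fun g _ => ?_
    rw [F.map_smul, hmap, _root_.map_smul, _root_.map_smul, Module.Basis.repr_self,
      Finsupp.smul_apply, Finsupp.smul_apply, Finsupp.single_apply]
    by_cases h : w ∘ (g⁻¹ : Equiv.Perm (Fin n)) = w'
    · have h2 : w' ∘ ((g⁻¹)⁻¹ : Equiv.Perm (Fin n)) = w := by
        rw [← h]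
        funext j
        simp
      rw [if_pos h, if_pos h2, ← h, hinv, smul_eq_mul, smul_eq_mul, mul_one, Rat.cast_mul]
    · have h2 : ¬ w' ∘ ((g⁻¹)⁻¹ : Equiv.Perm (Fin n)) = w := by
        intro h3
        apply h
        rw [← h3]
        funext j
        simp
      rw [if_neg h, if_neg h2, smul_zero, smul_zero, Rat.cast_zero]
  have hdiag : ∀ w, B.repr (F.map (rh φ n (adj e * e)) (B w)) w =
      ((∑ w', G w' w ^ 2 : ℚ) : K) := by
    intro w
    have e1 : rh φ n (adj e * e) = rh φ n e ≫ rh φ n (adj e) := map_mul (rho φ n) (adj e) e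
    rw [e1, F.map_comp, hG, map_sum, map_sum, Finsupp.finsetSum_apply, Rat.cast_sum]
    refine Finset.sum_congr rfl fun w' _ => ?_
    rw [_root_.map_smul, _root_.map_smul, Finsupp.smul_apply, hadj, smul_eq_mul, ← Rat.cast_mul,
      sq]
  refine ⟨fun w => ∑ w', G w' w ^ 2, fun w => Finset.sum_nonneg fun _ _ => sq_nonneg _,
    fun w => ⟨fun h => ?_, fun h => ?_⟩, fun h w => ?_, fun σ hσ w => ?_⟩
  · rw [hG]
    refine Finset.sum_eq_zero fun w' _ => ?_
    have h1 := (Finset.sum_eq_zero_iff_of_nonneg fun w' _ => sq_nonneg (G w' w)).mp h w'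
      (Finset.mem_univ _)
    rw [pow_eq_zero_iff two_ne_zero] at h1
    rw [h1, Rat.cast_zero, zero_smul]
  · refine Finset.sum_eq_zero fun w' _ => ?_
    have h1 : (G w' w : K) = 0 := by
      rw [← repr_sum B (fun w' => (G w' w : K)) w', ← hG, h, _root_.map_zero]
      rfl
    have h2 : G w' w = 0 := by exact_mod_cast h1
    rw [h2]
    norm_num
  · -- conjugation
    have e1 : rh φ n (MonoidAlgebra.single h 1 * (adj e * e) * MonoidAlgebra.single h⁻¹ 1) =
        (φ n h⁻¹ : T M n ⟶ T M n) ≫ rh φ n (adj e * e) ≫ (φ n h : T M n ⟶ T M n) := by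
      have h1 : ∀ g : Equiv.Perm (Fin n), rh φ n (MonoidAlgebra.single g 1) =
          (φ n g : T M n ⟶ T M n) := by
        intro g
        unfold rh rho
        rw [MonoidAlgebra.lift_single, one_smul]
      have h2 : ∀ x y : QS n, rh φ n (x * y) = rh φ n y ≫ rh φ n x :=
        fun x y => map_mul (rho φ n) x y
      rw [h2, h2, h1, h1]
    have h3 : ∀ z, B.repr (F.map (φ n h : T M n ⟶ T M n) z) w =
        (κ1 h (w ∘ h) : K) * B.repr z (w ∘ h) := by
      intro z
      rw [← B.sum_repr z, repr_sum B, map_sum, map_sum, Finsupp.finsetSum_apply,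
        Finset.sum_eq_single (w ∘ h)]
      · rw [_root_.map_smul, hmap, _root_.map_smul, _root_.map_smul, Module.Basis.repr_self,
          Finsupp.smul_apply, Finsupp.smul_apply, Finsupp.single_apply, if_pos, smul_eq_mul,
          smul_eq_mul, mul_one, mul_comm]
        funext j
        simp
      · intro w' _ hw'
        rw [_root_.map_smul, hmap, _root_.map_smul, _root_.map_smul, Module.Basis.repr_self,
          Finsupp.smul_apply, Finsupp.smul_apply, Finsupp.single_apply, if_neg, smul_zero,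
          smul_zero]
        intro h4
        exact hw' ((comp_inv_iff h w' w).mp h4)
      · intro h4
        exact absurd (Finset.mem_univ _) h4
    have h4 := hone h⁻¹ w
    have h5 : w ∘ ((h⁻¹)⁻¹ : Equiv.Perm (Fin n)) = w ∘ h := by rw [inv_inv]
    rw [h5, inv_inv] at h4
    rw [e1, F.map_comp, F.map_comp, h3, hmap, h5, _root_.map_smul, _root_.map_smul,
      Finsupp.smul_apply, hdiag, smul_eq_mul, ← mul_assoc, ← Rat.cast_mul, mul_comm (κ1 h _), h4,
      Rat.cast_one, one_mul]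
  · -- symmetries
    let S : (Fin n → ι) ≃ (Fin n → ι) := Equiv.arrowCongr (Equiv.refl _) σ
    have hS : ∀ v, S v = fun k => σ (v k) := fun v => rfl
    have h1 : ∀ w' w, G (S w') (S w) = G w' w := by
      intro w' w
      refine Finset.sum_congr rfl fun g _ => ?_
      have h2 : (S w ∘ (g⁻¹ : Equiv.Perm (Fin n)) = S w') ↔
          w ∘ (g⁻¹ : Equiv.Perm (Fin n)) = w' :=
        S.apply_eq_iff_eq (x := w ∘ (g⁻¹ : Equiv.Perm (Fin n))) (y := w')
      have h3 : κ1 g (S w) = κ1 g w := by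
        simp only [κ1, hS, hσ]
      simp only [h2, h3]
    change ∑ w', G w' (S w) ^ 2 = ∑ w', G w' w ^ 2
    rw [← S.sum_comp]
    simp only [h1]

end QWX

/-! ## QW -/

theorem rh_content {M : 𝒜} {φ : Fam M} (hφ : PA φ) {ι : Type} [Fintype ι] [DecidableEq ι]
    (b : Module.Basis ι K (F.V M)) (δ : ι → ℚ) (hδ : ∀ i, δ i = 1 ∨ δ i = -1)
    (hb : ∀ i, F.par M (b i) = (δ i : K) • b i) (n : ℕ)
    (B : Module.Basis (Fin n → ι) K (F.V (T M n))) (hB : ∀ w, B w = wd F n fun j => b (w j))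
    (x : QS n) (w w' : Fin n → ι) (h : ∃ i, cnt w i ≠ cnt w' i) :
    B.repr (F.map (rh φ n x) (B w)) w' = 0 := by
  classical
  choose κ hκ hκ' using fun g : Equiv.Perm (Fin n) => QWX.perm_sign hφ b δ hδ hb n g
  have hmap : ∀ (g : Equiv.Perm (Fin n)) (w : Fin n → ι),
      F.map (φ n g : T M n ⟶ T M n) (B w) = (κ g (fun j => δ (w j)) : K) •
        B (w ∘ (g⁻¹ : Equiv.Perm (Fin n))) := by
    intro g w
    rw [hB, hB, hκ']
    rfl
  rw [QWX.mat B (fun g w => κ g fun j => δ (w j)) hmap x w, QWX.repr_sum B]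
  obtain ⟨i, hi⟩ := h
  have h1 : (∑ g : Equiv.Perm (Fin n), if w ∘ (g⁻¹ : Equiv.Perm (Fin n)) = w' then
      x.coeff g * κ g (fun j => δ (w j)) else 0 : ℚ) = 0 := by
    refine Finset.sum_eq_zero fun g _ => if_neg fun h2 => hi ?_
    rw [← h2, QWX.cnt_comp]
  rw [h1, Rat.cast_zero]

theorem qw {M : 𝒜} {φ : Fam M} (hφ : PA φ) {ι : Type} [Fintype ι] [DecidableEq ι]
    (b : Module.Basis ι K (F.V M)) (δ : ι → ℚ) (hδ : ∀ i, δ i = 1 ∨ δ i = -1)
    (hb : ∀ i, F.par M (b i) = (δ i : K) • b i) (n : ℕ)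
    (B : Module.Basis (Fin n → ι) K (F.V (T M n))) (hB : ∀ w, B w = wd F n fun j => b (w j))
    (e : QS n) : ∃ q : (Fin n → ι) → ℚ, (∀ w, 0 ≤ q w) ∧
      (∀ w, q w = 0 ↔ F.map (rh φ n e) (B w) = 0) ∧
      (∀ (h : Equiv.Perm (Fin n)) (w : Fin n → ι),
        B.repr (F.map (rh φ n (MonoidAlgebra.single h 1 * (adj e * e) *
          MonoidAlgebra.single h⁻¹ 1)) (B w)) w = (q (w ∘ h) : K)) ∧
      ∀ i j, δ i = δ j → ∀ w, q (fun k => Equiv.swap i j (w k)) = q w := by
  obtain ⟨q, h0, h1, h2, h3⟩ := QWX.gen hφ b δ hδ hb n B hB e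
  refine ⟨q, h0, h1, h2, fun i j hij w => h3 (Equiv.swap i j) (fun l => ?_) w⟩
  by_cases h4 : l = i
  · rw [h4, Equiv.swap_apply_left, hij]
  · by_cases h5 : l = j
    · rw [h5, Equiv.swap_apply_right, hij]
    · rw [Equiv.swap_apply_of_ne_of_ne h4 h5]

end Pool.Agent.Helper96.SP
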