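import Pool.Agent.Helper96.SP.RFINE
import Pool.Agent.Helper96.SP.RKLA
import Pool.Agent.Helper96.SP.RQW
import Pool.Agent.Helper96.SP.RSEPA
import Pool.Agent.Helper96.SP.RSEPB
import Pool.Agent.Helper96.SP.SKLA
import Pool.Agent.Helper96.SP.SFACT
import Pool.Agent.Helper96.SP.SUDIAG
import Pool.Agent.Helper96.SP.Defs4
import Pool.Agent.Helper96.SP.PGEN
import Pool.Agent.Helper96.SP.PPA
import Pool.Agent.Helper96.SP.QWORDS
import Pool.Agent.Helper96.SP.QPOSL

/-!
# The Künneth standard conjecture and Schur powers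
-/

open CategoryTheory MonoidalCategory Limits BraidedCategory

universe u v w

namespace Pool.Agent.Helper96.SP

open Pool.Agent.TH90.AB Pool.Agent.TH90.Kim Pool.Agent.Helper96.Kim


set_option linter.unusedSectionVars false

namespace M4



variable {𝒜 : Type u} [Category.{v} 𝒜] [MonoidalCategory 𝒜] [SymmetricCategory 𝒜]
  [Preadditive 𝒜] [MonoidalPreadditive 𝒜] [Linear ℚ 𝒜] [MonoidalLinear ℚ 𝒜]
  [hdual : ∀ X : 𝒜, HasRightDual X] {K : Type w} [Field K] [CharZero K] {F : Realisation 𝒜 K}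

omit [MonoidalPreadditive 𝒜] [MonoidalLinear ℚ 𝒜] hdual in
lemma factors_ne {D X : 𝒜} (z : F.V (D ⊗ X)) (hz : z ≠ 0) :
    (∃ x : F.V D, x ≠ 0) ∧ ∃ x : F.V X, x ≠ 0 := by
  obtain ⟨n, a, b, hab⟩ := F.exists_sum z
  constructor
  · by_contra h
    apply hz
    rw [hab]
    refine Finset.sum_eq_zero fun i _ => ?_
    have : a i = 0 := by
      by_contra h1
      exact h ⟨_, h1⟩
    rw [this, _root_.map_zero, LinearMap.zero_apply]
  · by_contra h
    apply hz
    rw [hab]
    refine Finset.sum_eq_zero fun i _ => ?_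
    have : b i = 0 := by
      by_contra h1
      exact h ⟨_, h1⟩
    rw [this, _root_.map_zero]

theorem main4 (L : Subfield K) (G : Grading F) {M D X : 𝒜} {n : ℕ} (i : D ⟶ T M (n + 1))
    (r : T M (n + 1) ⟶ D) (hir : i ≫ r = 𝟙 D)
    (hperm : (show End (T M (n + 1)) from r ≫ i) ∈ Algebra.adjoin ℚ
      {s : End (T M (n + 1)) | Adj M (n + 1) s})
    (hD : ∃ x : F.V D, x ≠ 0) (h2 : (¬ ∃ k : ℤ, ∀ x, x ∈ G.gr D k) ∨
      ((∃ x : F.V M, x ≠ 0 ∧ F.par M x = x) ∧ ∃ x : F.V M, x ≠ 0 ∧ F.par M x = -x))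
    (hX : ∃ x : F.V X, x ≠ 0) (hC : KunnethL L G (D ⊗ X)) : KunnethL L G M := by
  classical
  have hCD : KunnethL L G D := kunneth_factorL L G hX hC
  obtain ⟨φ, hφ⟩ := exists_PA M
  obtain ⟨e, he⟩ := (gen hφ (n + 1) _).1 hperm
  have hri : r ≫ i = rh φ (n + 1) e := he.symm
  have hri' : ∀ y, F.map i (F.map r y) = F.map (rh φ (n + 1) e) y := by
    intro y
    rw [← hri, F.map_comp]
  have hid : ∀ x, F.map r (F.map i x) = x := by
    intro x
    rw [← F.map_comp, hir, F.map_id]
  have hnc : (¬ ∃ k : ℤ, ∀ x, x ∈ G.gr D k) →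
      ¬ ∃ k : ℤ, ∀ x, F.map (rh φ (n + 1) e) x ∈ G.gr (T M (n + 1)) k := by
    rintro h2 ⟨k, hk⟩
    refine h2 ⟨k, fun x => ?_⟩
    have h1 := G.map_mem r k _ (hk (F.map i x))
    rwa [← hri', hid, hid] at h1
  have hne : ¬ F.Inv (rh φ (n + 1) e) := by
    intro h
    obtain ⟨x, hx⟩ := hD
    apply hx
    have h1 := hri' (F.map i x)
    rw [hid, h] at h1
    rw [← hid x, h1, _root_.map_zero]
  obtain ⟨d, b, g, hb⟩ := exists_hb G M
  obtain ⟨B, hB⟩ := wd_basis F b (n + 1)
  obtain ⟨δ, hδdef⟩ : ∃ δ : Fin d → ℚ, ∀ i, δ i = if Even (g i) then 1 else -1 := ⟨_, fun _ => rfl⟩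
  have hδ : ∀ i, δ i = 1 ∨ δ i = -1 := by
    intro j
    rw [hδdef]
    by_cases h : Even (g j)
    · left; rw [if_pos h]
    · right; rw [if_neg h]
  have hpar : ∀ i, F.par M (b i) = (δ i : K) • b i := by
    intro j
    rw [hδdef]
    by_cases h : Even (g j)
    · rw [if_pos h, Rat.cast_one, one_smul]
      exact G.even M _ h _ (hb j)
    · rw [if_neg h, Rat.cast_neg, Rat.cast_one, neg_smul, one_smul]
      exact G.odd M _ (Int.not_even_iff_odd.1 h) _ (hb j)
  obtain ⟨q, hq0, hqz, hqc, hqs⟩ := qw hφ b δ hδ hpar (n + 1) B hB e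
  obtain ⟨U, hU, hUb⟩ := udiagL L G hφ i r hir hri hCD b g hb δ hδdef B hB q hqc
  have hqw : ∀ w : Fin (n + 1) → Fin d,
      F.map (rh φ (n + 1) e) (wd F (n + 1) fun k => b (w k)) ≠ 0 → q w ≠ 0 := by
    intro w hw h
    apply hw
    rw [← hB]
    exact (hqz w).1 h
  have hterm : ∀ (w : Fin (n + 1) → Fin d) (i : Fin d), 0 ≤ (2 : ℚ) ^ (dg g w) * q w * cnt w i := by
    intro w i
    have := hq0 w
    positivity
  have hf : ∀ i, 0 < ∑ w : Fin (n + 1) → Fin d, (2 : ℚ) ^ (dg g w) * q w * cnt w i := by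
    intro i
    obtain ⟨w, ⟨l, hl⟩, hw⟩ := posl F hφ b δ hδ hpar n e hne i
    refine Finset.sum_pos' (fun w _ => hterm w i) ⟨w, Finset.mem_univ _, ?_⟩
    have h1 : 0 < q w := lt_of_le_of_ne (hq0 w) (hqw w hw).symm
    have h2 : 0 < cnt w i := by
      unfold cnt
      exact Finset.card_pos.2 ⟨l, by simp [hl]⟩
    have h3 : (0 : ℚ) < cnt w i := by exact_mod_cast h2
    positivity
  have hn : (0 : ℚ) < n.factorial := by exact_mod_cast n.factorial_pos
  have hlt : ∀ i j, g i < g j → δ i = δ j →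
      ∑ w : Fin (n + 1) → Fin d, (2 : ℚ) ^ (dg g w) * q w * cnt w i <
        ∑ w : Fin (n + 1) → Fin d, (2 : ℚ) ^ (dg g w) * q w * cnt w j := by
    intro i j hij hδij
    have hne' : i ≠ j := by
      rintro rfl
      exact lt_irrefl _ hij
    refine fine q hq0 g i j hij (hqs i j hδij) ?_
    by_cases hl : ∃ l, δ l = -δ i
    · obtain ⟨l, hl⟩ := hl
      obtain ⟨w, hw, hc⟩ := sepA hφ b δ hδ hpar n e hne i j l hne' hδij hl
      exact ⟨w, hqw w hw, hc⟩
    · have hM : ∀ x, F.par M x = (δ i : K) • x := by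
        intro x
        have h1 : F.par M = (δ i : K) • (LinearMap.id : F.V M →ₗ[K] F.V M) := by
          refine b.ext fun l => ?_
          rw [hpar l, LinearMap.smul_apply, LinearMap.id_apply]
          have h2 : δ l = δ i := by
            by_contra h3
            apply hl
            refine ⟨l, ?_⟩
            rcases hδ l with h4 | h4 <;> rcases hδ i with h5 | h5
            · exact absurd (h4.trans h5.symm) h3
            · rw [h4, h5]; norm_num
            · rw [h4, h5]
            · exact absurd (h4.trans h5.symm) h3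
          rw [h2]
        rw [h1]
        rfl
      rcases h2 with h2 | ⟨⟨x, hx, hx'⟩, ⟨y, hy, hy'⟩⟩
      · obtain ⟨w, hw, hc⟩ := sepB G hφ b g hb (hδ i) hM (n + 1) e (hnc h2) i j hne'
        exact ⟨w, hqw w hw, hc⟩
      · exfalso
        rw [hM] at hx' hy'
        rcases hδ i with h3 | h3
        · rw [h3, Rat.cast_one, one_smul] at hy'
          have h4 : (2 : K) • y = 0 := by
            rw [two_smul]
            nth_rewrite 1 [hy']
            exact neg_add_cancel y
          exact hy ((smul_eq_zero.1 h4).resolve_left two_ne_zero)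
        · rw [h3, Rat.cast_neg, Rat.cast_one, neg_smul, one_smul] at hx'
          have h4 : (2 : K) • x = 0 := by
            rw [two_smul]
            nth_rewrite 1 [← hx']
            exact neg_add_cancel x
          exact hx ((smul_eq_zero.1 h4).resolve_left two_ne_zero)
  refine klaL L G b g hb U hU _ hUb ?_
  intro i j hij h1
  have hfi := hf i
  have hfj := hf j
  have hpi := mul_pos hn hfi
  have hpj := mul_pos hn hfj
  by_cases hδij : δ i = δ j
  · rw [hδij] at h1
    have hδ0 : δ j ≠ 0 := by rcases hδ j with h | h <;> rw [h] <;> norm_num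
    have h2 := mul_left_cancel₀ hδ0 h1
    have h3 := mul_left_cancel₀ hn.ne' h2
    rcases lt_or_gt_of_ne hij with h4 | h4
    · exact (hlt i j h4 hδij).ne h3
    · exact (hlt j i h4 hδij.symm).ne h3.symm
  · rcases hδ i with h4 | h4 <;> rcases hδ j with h5 | h5
    · exact hδij (h4.trans h5.symm)
    · rw [h4, h5] at h1
      linarith
    · rw [h4, h5] at h1
      linarith
    · exact hδij (h4.trans h5.symm)

end M4

end Pool.Agent.Helper96.SP
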