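import Pool.Agent.Helper96.SP.Main4
import Pool.Agent.Helper96.SP.Main2
import Mathlib.Algebra.Algebra.Rat

/-!
# Kimura finiteness and algebraic Künneth projectors
-/

open CategoryTheory MonoidalCategory Limits BraidedCategory

universe u v w

namespace Pool.Agent.Helper96.SP

open Pool.Agent.TH90.AB Pool.Agent.TH90.Kim Pool.Agent.Helper96.Kim

set_option linter.unusedSectionVars false

namespace M5

variable {𝒜 : Type u} [Category.{v} 𝒜] [MonoidalCategory 𝒜] [SymmetricCategory 𝒜]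
  [Preadditive 𝒜] [MonoidalPreadditive 𝒜] [Linear ℚ 𝒜] [MonoidalLinear ℚ 𝒜]
  [hdual : ∀ X : 𝒜, HasRightDual X] {K : Type w} [Field K] [CharZero K] {F : Realisation 𝒜 K}

/-- The operators which are algebraic over `ℚ` are given by endomorphisms. -/
lemma mem_bot {M : 𝒜} {p : F.V M →ₗ[K] F.V M} (hp : p ∈ AlgOpL (⊥ : Subfield K) F M) :
    ∃ f : M ⟶ M, F.map f = p := by
  unfold AlgOpL at hp
  induction hp using Submodule.span_induction with
  | mem p hp =>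
    obtain ⟨f, rfl⟩ := hp
    exact ⟨f, rfl⟩
  | zero => exact ⟨0, LinearMap.ext fun x => by rw [F.map_zero']; rfl⟩
  | add p q _ _ h h' =>
    obtain ⟨f, rfl⟩ := h
    obtain ⟨g, rfl⟩ := h'
    exact ⟨f + g, LinearMap.ext fun x => by rw [F.map_add]; rfl⟩
  | smul c p _ h =>
    obtain ⟨f, rfl⟩ := h
    have h1 : (⊥ : Subfield K) ≤ (Rat.castHom K).fieldRange := bot_le
    obtain ⟨q, hq⟩ := h1 c.2
    refine ⟨q • f, LinearMap.ext fun x => ?_⟩
    rw [F.map_smul]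
    change (q : K) • F.map f x = (c : K) • F.map f x
    rw [← hq]
    rfl

/-- If `D ⊗ X` is Kimura-finite and satisfies the Künneth standard conjecture over `ℚ`, then the
invisible endomorphisms of `M` form a nilpotent ideal and the Künneth projectors of `M` are given by
endomorphisms of `M`. -/
theorem main5 [IsIdempotentComplete 𝒜] (hunit : ∀ f : 𝟙_ 𝒜 ⟶ 𝟙_ 𝒜, ∃ q : ℚ, f = q • 𝟙 (𝟙_ 𝒜))
    (G : Grading F) {M D X : 𝒜} {n : ℕ} (i : D ⟶ T M (n + 1))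
    (r : T M (n + 1) ⟶ D) (hir : i ≫ r = 𝟙 D)
    (hperm : (show End (T M (n + 1)) from r ≫ i) ∈ Algebra.adjoin ℚ
      {s : End (T M (n + 1)) | Adj M (n + 1) s})
    (hD : ∃ x : F.V D, x ≠ 0) (h2 : (¬ ∃ k : ℤ, ∀ x, x ∈ G.gr D k) ∨
      ((∃ x : F.V M, x ≠ 0 ∧ F.par M x = x) ∧ ∃ x : F.V M, x ≠ 0 ∧ F.par M x = -x))
    (hX : ∃ x : F.V X, x ≠ 0) (hK : KimuraFinite (D ⊗ X))
    (hC : KunnethL (⊥ : Subfield K) G (D ⊗ X)) :
    KimuraFinite M ∧
    (∃ N, ∀ l : List (End M), (∀ x ∈ l, x ∈ F.I M) → l.length = N → l.prod = 0) ∧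
    ∀ k : ℤ, ∃ e : M ⟶ M, (∀ x ∈ G.gr M k, F.map e x = x) ∧
      ∀ l, l ≠ k → ∀ x ∈ G.gr M l, F.map e x = 0 := by
  have hM : KimuraFinite M :=
    M2.main2 F hunit i r hir hperm hD (F.kimuraFinite_left hunit hD hX hK)
  refine ⟨hM, F.nilp hunit hM, fun k => ?_⟩
  obtain ⟨p, hp, h3, h4⟩ := M4.main4 ⊥ G i r hir hperm hD h2 hX hC k
  obtain ⟨e, rfl⟩ := mem_bot hp
  exact ⟨e, h3, h4⟩

end M5

end Pool.Agent.Helper96.SP
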