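import Pool.Agent.Helper96.SP.PInd

/-!
# The isomorphisms between products of tensor powers (package KAP)
-/

set_option autoImplicit false

open CategoryTheory MonoidalCategory Limits BraidedCategory

universe u v w

namespace Pool.Agent.Helper96.SP

open Pool.Agent.TH90.AB Pool.Agent.TH90.Kim Pool.Agent.Helper96.Kim

set_option linter.unusedSectionVars false

/-! ## Permutations along embeddings -/

theorem via_apply {a b : ℕ} (β : Fin a ↪ Fin b) (g : Equiv.Perm (Fin a)) (j : Fin a) :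
    Equiv.Perm.viaEmbeddingHom β g (β j) = β (g j) := by
  rw [Equiv.Perm.viaEmbeddingHom_apply, Equiv.Perm.viaEmbedding_apply]

theorem via_apply_of_notMem {a b : ℕ} (β : Fin a ↪ Fin b) (g : Equiv.Perm (Fin a)) {j : Fin b}
    (hj : j ∉ Set.range β) : Equiv.Perm.viaEmbeddingHom β g j = j := by
  rw [Equiv.Perm.viaEmbeddingHom_apply, Equiv.Perm.viaEmbedding_apply_of_notMem _ _ _ hj]

/-- A permutation along an embedding is determined by its values. -/
theorem eq_via {a b : ℕ} (β : Fin a ↪ Fin b) (g : Equiv.Perm (Fin a)) {h : Equiv.Perm (Fin b)}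
    (h1 : ∀ j, h (β j) = β (g j)) (h2 : ∀ j, j ∉ Set.range β → h j = j) :
    h = Equiv.Perm.viaEmbeddingHom β g := by
  refine Equiv.ext fun j => ?_
  by_cases hj : j ∈ Set.range β
  · obtain ⟨i, rfl⟩ := hj
    rw [h1, via_apply]
  · rw [h2 j hj, via_apply_of_notMem β g hj]

theorem via_swap {a b : ℕ} (β : Fin a ↪ Fin b) (x y : Fin a) :
    Equiv.Perm.viaEmbeddingHom β (Equiv.swap x y) = Equiv.swap (β x) (β y) := by
  symm
  refine eq_via β _ (fun j => β.swap_apply x y j) fun j hj => ?_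
  exact Equiv.swap_apply_of_ne_of_ne (fun h => hj ⟨x, h.symm⟩) (fun h => hj ⟨y, h.symm⟩)

theorem via_castLE_up {a b : ℕ} (h : a ≤ b) (h' : a + 1 ≤ b + 1) (g : Equiv.Perm (Fin a)) :
    Equiv.Perm.viaEmbeddingHom (Fin.castLEEmb h') (up g) =
      up (Equiv.Perm.viaEmbeddingHom (Fin.castLEEmb h) g) := by
  have e0 : Fin.castLEEmb h' 0 = 0 := rfl
  have es : ∀ i : Fin a, Fin.castLEEmb h' i.succ = (Fin.castLEEmb h i).succ := fun i => rfl
  refine eq_up ?_ fun j => ?_
  · conv_lhs => rw [← e0]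
    rw [via_apply, up_zero, e0]
  · by_cases hj : j ∈ Set.range (Fin.castLEEmb h)
    · obtain ⟨i, rfl⟩ := hj
      rw [← es, via_apply, up_succ, es, via_apply]
    · rw [via_apply_of_notMem _ _ hj, via_apply_of_notMem]
      rintro ⟨i, hi⟩
      rcases Fin.eq_zero_or_eq_succ i with rfl | ⟨i, rfl⟩
      · exact Fin.succ_ne_zero j hi.symm
      · exact hj ⟨i, Fin.succ_injective _ (by rw [← es, hi])⟩

section cat

variable {𝒜 : Type u} [Category.{v} 𝒜] [MonoidalCategory 𝒜] [SymmetricCategory 𝒜]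

theorem kap_succ (M : 𝒜) (a b : ℕ) :
    (kap M a (b + 1)).hom = (α_ (T M a) (T M b) M).inv ≫ (kap M a b).hom ▷ M := rfl

/-- `kap_left` for a morphism between two powers -/
theorem kap_left' {M : 𝒜} {a a' : ℕ} (f : T M a ⟶ T M a') (b : ℕ) :
    f ▷ T M b ≫ (kap M a' b).hom = (kap M a b).hom ≫ wh f b := by
  induction b with
  | zero => exact rightUnitor_naturality f
  | succ b ih =>
    rw [kap_succ, kap_succ, Category.assoc]
    show f ▷ (T M b ⊗ M) ≫ (α_ (T M a') (T M b) M).inv ≫ (kap M a' b).hom ▷ M =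
      (α_ (T M a) (T M b) M).inv ≫ (kap M a b).hom ▷ M ≫ wh f b ▷ M
    rw [associator_inv_naturality_left_assoc, ← comp_whiskerRight, ← comp_whiskerRight, ih]

/-- KAP1 -/
theorem kap_left {M : 𝒜} {a : ℕ} (f : T M a ⟶ T M a) (b : ℕ) :
    f ▷ T M b ≫ (kap M a b).hom = (kap M a b).hom ≫ wh f b := kap_left' f b

/-- the coherence between `α` and the transposition of the last two factors -/
theorem sw_assoc (X Y M : 𝒜) :
    X ◁ sw Y M ≫ (α_ X (Y ⊗ M) M).inv ≫ (α_ X Y M).inv ▷ M =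
      (α_ X (Y ⊗ M) M).inv ≫ (α_ X Y M).inv ▷ M ≫ sw (X ⊗ Y) M := by
  simp only [sw, MonoidalCategory.whiskerLeft_comp, Category.assoc]
  simp

theorem kap_sw (M : 𝒜) (a b : ℕ) : T M a ◁ sw (T M b) M ≫ (kap M a (b + 2)).hom =
    (kap M a (b + 2)).hom ≫ sw (T M (a + b)) M := by
  have h : (kap M a (b + 2)).hom = (α_ (T M a) (T M b ⊗ M) M).inv ≫
      (α_ (T M a) (T M b) M).inv ▷ M ≫ ((kap M a b).hom ▷ M) ▷ M := by
    rw [kap_succ, kap_succ, comp_whiskerRight]
  rw [h]
  simp only [Category.assoc]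
  rw [sw_natural, reassoc_of% sw_assoc]

/-- KAP2 -/
theorem kap_right {M : 𝒜} {φ : Fam M} (hφ : PA φ) (a b : ℕ) (g : Equiv.Perm (Fin b)) :
    T M a ◁ (φ b g : T M b ⟶ T M b) ≫ (kap M a b).hom = (kap M a b).hom ≫
      (φ (a + b) (Equiv.Perm.viaEmbeddingHom (Fin.castLEEmb (by omega)) g) :
        T M (a + b) ⟶ T M (a + b)) := by
  revert b g
  refine perm_ind ?_ ?_ ?_ ?_
  · intro b
    rw [map_one, map_one, map_one]
    show T M a ◁ 𝟙 (T M b) ≫ (kap M a b).hom = (kap M a b).hom ≫ 𝟙 _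
    rw [MonoidalCategory.whiskerLeft_id, Category.id_comp, Category.comp_id]
  · intro b g h hg hh
    rw [map_mul, map_mul, map_mul]
    show T M a ◁ ((φ b h : T M b ⟶ T M b) ≫ (φ b g : T M b ⟶ T M b)) ≫ (kap M a b).hom =
      (kap M a b).hom ≫ (φ (a + b) (Equiv.Perm.viaEmbeddingHom (Fin.castLEEmb (by omega)) h) :
        T M (a + b) ⟶ T M (a + b)) ≫
        (φ (a + b) (Equiv.Perm.viaEmbeddingHom (Fin.castLEEmb (by omega)) g) :
        T M (a + b) ⟶ T M (a + b))
    rw [MonoidalCategory.whiskerLeft_comp, Category.assoc, hg, reassoc_of% hh]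
  · intro b g hg
    have h1 := via_castLE_up (a := b) (b := a + b) (by omega) (by omega) g
    have h2 : (φ (a + (b + 1)) (Equiv.Perm.viaEmbeddingHom (Fin.castLEEmb (by omega)) (up g)) :
        T M (a + (b + 1)) ⟶ T M (a + (b + 1))) =
        (φ (a + b) (Equiv.Perm.viaEmbeddingHom (Fin.castLEEmb (by omega)) g) :
        T M (a + b) ⟶ T M (a + b)) ▷ M := by
      rw [← hφ.up, ← h1]
      rfl
    rw [h2, hφ.up, kap_succ]
    show T M a ◁ ((φ b g : T M b ⟶ T M b) ▷ M) ≫ (α_ (T M a) (T M b) M).inv ≫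
      (kap M a b).hom ▷ M = ((α_ (T M a) (T M b) M).inv ≫ (kap M a b).hom ▷ M) ≫ _
    rw [associator_inv_naturality_middle_assoc, ← comp_whiskerRight, hg, comp_whiskerRight,
      Category.assoc]
  · intro b
    have h2 : (φ (a + (b + 2)) (Equiv.Perm.viaEmbeddingHom (Fin.castLEEmb (by omega))
        (Equiv.swap (0 : Fin (b + 2)) 1)) : T M (a + (b + 2)) ⟶ T M (a + (b + 2))) =
        sw (T M (a + b)) M := by
      rw [via_swap, ← hφ.swap]
      rfl
    rw [h2, hφ.swap]
    exact kap_sw M a b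

end cat

end Pool.Agent.Helper96.SP
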