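import Mathlib

/-!
# Package `SFT`: the second fundamental theorem for the symmetric groups
-/

set_option autoImplicit false

namespace Pool.Agent.Helper96.SP

namespace SFT

open Equiv

variable {k : ℕ}

/-- the permutations, ordered lexicographically -/
def key (g : Perm (Fin k)) : Lex (Fin k → Fin k) := toLex fun i => g i

theorem key_inj {g h : Perm (Fin k)} (e : key g = key h) : g = h := by
  ext i
  have := congrFun (toLex.injective e) i
  exact congrArg Fin.val this

theorem key_lt {g h : Perm (Fin k)} : key g < key h ↔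
    ∃ p, (∀ q, q < p → g q = h q) ∧ g p < h p := Iff.rfl

/-- there is a decreasing subsequence of length `n + 1` which starts at `p` -/
def Dec (σ : Perm (Fin k)) : ℕ → Fin k → Prop
  | 0, _ => True
  | n + 1, p => ∃ q, p < q ∧ σ q < σ p ∧ Dec σ n q

theorem dec_seq {σ : Perm (Fin k)} {n : ℕ} : ∀ {p : Fin k}, Dec σ n p →
    ∃ β : Fin (n + 1) → Fin k, StrictMono β ∧ StrictAnti (σ ∘ β) ∧ β 0 = p := by
  induction n with
  | zero =>
    intro p _
    refine ⟨fun _ => p, ?_, ?_, rfl⟩
    · intro a b hab; omega
    · intro a b hab; omega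
  | succ n ih =>
    rintro p ⟨q, h1, h2, h3⟩
    obtain ⟨β, hm, ha, h0⟩ := ih h3
    refine ⟨Fin.cons p β, ?_, ?_, rfl⟩
    · rw [Fin.strictMono_iff_lt_succ]
      intro i
      refine Fin.cases ?_ (fun j => ?_) i
      · show p < β 0
        rw [h0]; exact h1
      · show (Fin.cons p β : Fin (n + 2) → Fin k) (Fin.castSucc (Fin.succ j)) < β j.succ
        rw [← Fin.succ_castSucc, Fin.cons_succ]
        exact hm Fin.castSucc_lt_succ
    · rw [Fin.strictAnti_iff_succ_lt]
      intro i
      refine Fin.cases ?_ (fun j => ?_) i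
      · show σ (β 0) < σ p
        rw [h0]; exact h2
      · show σ (β j.succ) < σ ((Fin.cons p β : Fin (n + 2) → Fin k) (Fin.castSucc (Fin.succ j)))
        rw [← Fin.succ_castSucc, Fin.cons_succ]
        exact ha Fin.castSucc_lt_succ

open Classical in
/-- a colouring with increasing classes -/
theorem colour {σ : Perm (Fin k)} {r : ℕ} (h : ∀ p, ¬ Dec σ r p) :
    ∃ w : Fin k → Fin r, ∀ p q, p < q → w p = w q → σ p < σ q := by
  have h0 : ∀ p, Dec σ (Nat.findGreatest (fun n => Dec σ n p) r) p := fun p =>
    Nat.findGreatest_spec (P := fun n => Dec σ n p) (Nat.zero_le r) trivial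
  have h1 : ∀ p, Nat.findGreatest (fun n => Dec σ n p) r < r := by
    intro p
    refine lt_of_le_of_ne (Nat.findGreatest_le r) ?_
    intro e
    have := h0 p
    rw [e] at this
    exact h p this
  refine ⟨fun p => ⟨Nat.findGreatest (fun n => Dec σ n p) r, h1 p⟩, ?_⟩
  intro p q hpq hw
  by_contra hc
  have h2 : σ q < σ p := by
    rcases lt_trichotomy (σ p) (σ q) with h3 | h3 | h3
    · exact absurd h3 hc
    · exact absurd (σ.injective h3) hpq.ne
    · exact h3
  have h3 : Dec σ (Nat.findGreatest (fun n => Dec σ n q) r + 1) p := ⟨q, hpq, h2, h0 q⟩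
  have h4 := Nat.le_findGreatest (P := fun n => Dec σ n p) (Nat.succ_le_of_lt (h1 q)) h3
  have h5 : Nat.findGreatest (fun n => Dec σ n p) r = Nat.findGreatest (fun n => Dec σ n q) r :=
    congrArg Fin.val hw
  omega

/-- lexicographically smaller -/
theorem lex {σ : Perm (Fin k)} {r : ℕ} {β : Fin (r + 1) ↪ Fin k} (hm : StrictMono β)
    (ha : StrictAnti (σ ∘ β)) {h : Perm (Fin (r + 1))} (hh : h ≠ 1) :
    key (σ * Perm.viaEmbeddingHom β h) < key σ := by
  classical
  have h1 : ∃ i, h i ≠ i := by
    by_contra hc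
    push Not at hc
    exact hh (Equiv.ext hc)
  obtain ⟨i, hi, hmin⟩ : ∃ i, h i ≠ i ∧ ∀ j, j < i → h j = j := by
    obtain ⟨i, hi, hmin⟩ := (wellFounded_lt (α := Fin (r + 1))).has_min {i | h i ≠ i} h1
    refine ⟨i, hi, fun j hj => ?_⟩
    by_contra hc
    exact hmin j hc hj
  have hgt : i < h i := by
    rcases lt_trichotomy i (h i) with h2 | h2 | h2
    · exact h2
    · exact absurd h2.symm hi
    · exact absurd (h.injective (hmin _ h2)) hi
  rw [key_lt]
  refine ⟨β i, ?_, ?_⟩
  · intro q hq
    show σ (Perm.viaEmbeddingHom β h q) = σ q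
    congr 1
    rw [Perm.viaEmbeddingHom_apply]
    by_cases hr : q ∈ Set.range β
    · obtain ⟨j, rfl⟩ := hr
      rw [Perm.viaEmbedding_apply, hmin j (hm.lt_iff_lt.1 hq)]
    · exact Perm.viaEmbedding_apply_of_notMem h β q hr
  · show σ (Perm.viaEmbeddingHom β h (β i)) < σ (β i)
    rw [Perm.viaEmbeddingHom_apply, Perm.viaEmbedding_apply]
    exact ha hgt

/-- the hypothesis on the coefficients -/
def H (r : ℕ) (x : Perm (Fin k) → ℚ) : Prop := ∀ w w' : Fin k → Fin r,
  ∑ g with w ∘ (g⁻¹ : Perm (Fin k)) = w', x g = 0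

/-- the antisymmetrisers satisfy it -/
theorem H_anti {r : ℕ} (β : Fin (r + 1) ↪ Fin k) (σ : Perm (Fin k)) :
    H r (fun g => ∑ h : Perm (Fin (r + 1)), if g = σ * Perm.viaEmbeddingHom β h then
      ((Perm.sign h : ℤ) : ℚ) else 0) := by
  classical
  intro w w'
  rw [Finset.sum_comm]
  have h1 : ∀ h : Perm (Fin (r + 1)), ∑ g with w ∘ (g⁻¹ : Perm (Fin k)) = w',
      (if g = σ * Perm.viaEmbeddingHom β h then ((Perm.sign h : ℤ) : ℚ) else 0) =
      if w ∘ ((σ * Perm.viaEmbeddingHom β h)⁻¹ : Perm (Fin k)) = w' then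
        ((Perm.sign h : ℤ) : ℚ) else 0 := by
    intro h
    rw [Finset.sum_ite_eq']
    simp only [Finset.mem_filter, Finset.mem_univ, true_and]
  simp only [h1]
  -- two points of the same colour
  obtain ⟨i, j, hij, hw⟩ : ∃ i j, i ≠ j ∧ w (β i) = w (β j) :=
    Fintype.exists_ne_map_eq_of_card_lt (fun i => w (β i)) (by simp)
  set f : Perm (Fin (r + 1)) → ℚ := fun h =>
    if w ∘ ((σ * Perm.viaEmbeddingHom β h)⁻¹ : Perm (Fin k)) = w' then
        ((Perm.sign h : ℤ) : ℚ) else 0 with hf
  have h2 : ∀ h, f (h * swap i j) = - f h := by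
    intro h
    have e1 : w ∘ (Perm.viaEmbeddingHom β (swap i j) : Perm (Fin k)) = w := by
      funext q
      show w (Perm.viaEmbeddingHom β (swap i j) q) = w q
      rw [Perm.viaEmbeddingHom_apply]
      by_cases hr : q ∈ Set.range β
      · obtain ⟨l, rfl⟩ := hr
        rw [Perm.viaEmbedding_apply]
        by_cases h3 : l = i
        · subst h3; rw [swap_apply_left, hw]
        · by_cases h4 : l = j
          · subst h4; rw [swap_apply_right, hw]
          · rw [swap_apply_of_ne_of_ne h3 h4]
      · rw [Perm.viaEmbedding_apply_of_notMem _ β q hr]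
    have e2 : w ∘ ((σ * Perm.viaEmbeddingHom β (h * swap i j))⁻¹ : Perm (Fin k)) =
        w ∘ ((σ * Perm.viaEmbeddingHom β h)⁻¹ : Perm (Fin k)) := by
      rw [map_mul, ← mul_assoc, mul_inv_rev _ (Perm.viaEmbeddingHom β (swap i j)), ← map_inv,
        swap_inv, Perm.coe_mul, ← Function.comp_assoc, e1]
    have e3 : (((Perm.sign (h * swap i j) : ℤˣ) : ℤ) : ℚ) = -((Perm.sign h : ℤ) : ℚ) := by
      rw [Perm.sign_mul, Perm.sign_swap hij]
      push_cast
      ring
    show (if w ∘ ((σ * Perm.viaEmbeddingHom β (h * swap i j))⁻¹ : Perm (Fin k)) = w' then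
        (((Perm.sign (h * swap i j) : ℤˣ) : ℤ) : ℚ) else 0) =
      - (if w ∘ ((σ * Perm.viaEmbeddingHom β h)⁻¹ : Perm (Fin k)) = w' then
        ((Perm.sign h : ℤ) : ℚ) else 0)
    rw [e2, e3]
    split_ifs <;> simp
  have h3 : ∑ h, f h = - ∑ h, f h := by
    rw [← Finset.sum_neg_distrib]
    simp only [← h2]
    exact (Equiv.sum_comp (Equiv.mulRight (swap i j)) f).symm
  linarith

theorem H_sub {r : ℕ} {x y : Perm (Fin k) → ℚ} (hx : H r x) (hy : H r y) (c : ℚ) :
    H r (fun g => x g - c * y g) := by
  intro w w'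
  rw [Finset.sum_sub_distrib, ← Finset.mul_sum, hx, hy]
  ring

/-- the maximal element of the support has no long decreasing subsequence -/
theorem no_dec {r : ℕ} {x : Perm (Fin k) → ℚ} (hx : H r x) {σ : Perm (Fin k)}
    (hmax : ∀ g, x g ≠ 0 → key g ≤ key σ) (hσ : x σ ≠ 0) : ∃ p, Dec σ r p := by
  classical
  by_contra hc
  push Not at hc
  obtain ⟨w, hw⟩ := colour hc
  have h1 := hx w (w ∘ (σ⁻¹ : Perm (Fin k)))
  have h2 : ∑ g with w ∘ (g⁻¹ : Perm (Fin k)) = w ∘ (σ⁻¹ : Perm (Fin k)), x g = x σ := by
    refine Finset.sum_eq_single σ ?_ ?_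
    · intro g hg hne
      rw [Finset.mem_filter] at hg
      by_contra h0
      have h3 : key g < key σ := lt_of_le_of_ne (hmax g h0) fun e => hne (key_inj e)
      obtain ⟨p, h4, h5⟩ := key_lt.1 h3
      set q := (σ⁻¹ : Perm (Fin k)) (g p) with hq
      have hσq : σ q = g p := by rw [hq]; exact σ.apply_symm_apply _
      have hwq : w q = w p := by
        have := congrFun hg.2 (g p)
        simp only [Function.comp_apply] at this
        rw [hq, ← this]
        congr 1
        exact g.symm_apply_apply p
      rcases lt_trichotomy q p with h6 | h6 | h6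
      · have := h4 q h6
        rw [hσq] at this
        exact h6.ne (g.injective this)
      · rw [h6] at hσq
        rw [hσq] at h5
        exact lt_irrefl _ h5
      · have := hw p q h6 hwq.symm
        rw [hσq] at this
        exact lt_asymm h5 this
    · intro h0
      refine absurd (Finset.mem_filter.2 ⟨Finset.mem_univ σ, ?_⟩) h0
      rfl
  rw [h2] at h1
  exact hσ h1

end SFT

open SFT in
/-- SFT -/
theorem sft {k r : ℕ} {R : Type*} [Ring R] [Algebra ℚ R] (ψ : Equiv.Perm (Fin k) →* R)
    (hψ : ∀ β : Fin (r + 1) ↪ Fin k, ∑ g : Equiv.Perm (Fin (r + 1)),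
      (((Equiv.Perm.sign g : ℤ) : ℚ)) • ψ (Equiv.Perm.viaEmbeddingHom β g) = 0)
    (x : Equiv.Perm (Fin k) → ℚ)
    (hx : ∀ w w' : Fin k → Fin r, ∑ g with w ∘ (g⁻¹ : Equiv.Perm (Fin k)) = w', x g = 0) :
    ∑ g, x g • ψ g = 0 := by
  classical
  have hwf : WellFounded fun g h : Equiv.Perm (Fin k) => key g < key h := by
    have : IsTrans (Equiv.Perm (Fin k)) fun g h => key g < key h :=
      ⟨fun _ _ _ h1 h2 => lt_trans h1 h2⟩
    have : Std.Irrefl fun g h : Equiv.Perm (Fin k) => key g < key h := ⟨fun _ => lt_irrefl _⟩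
    exact Finite.wellFounded_of_trans_of_irrefl _
  have key1 : ∀ σ : Equiv.Perm (Fin k), ∀ x : Equiv.Perm (Fin k) → ℚ, H r x →
      (∀ g, x g ≠ 0 → key g ≤ key σ) → ∑ g, x g • ψ g = 0 := by
    intro σ
    induction σ using hwf.induction with
    | _ σ ih =>
      have low : ∀ x : Equiv.Perm (Fin k) → ℚ, H r x → (∀ g, x g ≠ 0 → key g < key σ) →
          ∑ g, x g • ψ g = 0 := by
        intro x hx hlow
        by_cases h0 : ∃ g, x g ≠ 0
        · obtain ⟨g0, hg0⟩ := h0
          obtain ⟨τ, hτ, hmax⟩ := Finset.exists_max_image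
            (Finset.univ.filter fun g => x g ≠ 0) key ⟨g0, by simp [hg0]⟩
          refine ih τ (hlow τ (Finset.mem_filter.1 hτ).2) x hx fun g hg => ?_
          exact hmax g (by simp [hg])
        · push Not at h0
          exact Finset.sum_eq_zero fun g _ => by rw [h0 g, zero_smul]
      intro x hx hmax
      by_cases hσ : x σ = 0
      · refine low x hx fun g hg => lt_of_le_of_ne (hmax g hg) fun e => ?_
        rw [key_inj e] at hg
        exact hg hσ
      · obtain ⟨p, hp⟩ := no_dec hx hmax hσ
        obtain ⟨β', hm, ha, -⟩ := dec_seq hp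
        set β : Fin (r + 1) ↪ Fin k := ⟨β', hm.injective⟩ with hβ
        set y : Equiv.Perm (Fin k) → ℚ := fun g => ∑ h : Equiv.Perm (Fin (r + 1)),
          if g = σ * Equiv.Perm.viaEmbeddingHom β h then ((Equiv.Perm.sign h : ℤ) : ℚ) else 0
          with hy
        have hyσ : y σ = 1 := by
          rw [hy]
          show ∑ h : Equiv.Perm (Fin (r + 1)), (if σ = σ * Equiv.Perm.viaEmbeddingHom β h then
            ((Equiv.Perm.sign h : ℤ) : ℚ) else 0) = 1
          rw [Finset.sum_eq_single 1]
          · simp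
          · intro h _ hne
            rw [if_neg]
            intro e
            apply hne
            apply Equiv.Perm.viaEmbeddingHom_injective β
            rw [map_one]
            exact (left_eq_mul.1 e)
          · intro h; exact absurd (Finset.mem_univ _) h
        have hysum : ∑ g, y g • ψ g = 0 := by
          have e1 : ∑ g, y g • ψ g = ∑ h : Equiv.Perm (Fin (r + 1)),
              ((Equiv.Perm.sign h : ℤ) : ℚ) • ψ (σ * Equiv.Perm.viaEmbeddingHom β h) := by
            have e2 : ∀ g, y g • ψ g = ∑ h : Equiv.Perm (Fin (r + 1)),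
                if g = σ * Equiv.Perm.viaEmbeddingHom β h then
                  ((Equiv.Perm.sign h : ℤ) : ℚ) • ψ g else 0 := by
              intro g
              rw [hy]
              simp only [Finset.sum_smul, ite_smul, zero_smul]
            simp only [e2]
            rw [Finset.sum_comm]
            refine Finset.sum_congr rfl fun h _ => ?_
            rw [Finset.sum_ite_eq' Finset.univ]
            simp
          rw [e1]
          simp only [map_mul, ← mul_smul_comm]
          rw [← Finset.mul_sum, hψ β, mul_zero]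
        have hlow := low (fun g => x g - x σ * y g) (H_sub hx (H_anti β σ) _) ?_
        · have e3 : ∑ g, (x g - x σ * y g) • ψ g = ∑ g, x g • ψ g - x σ • ∑ g, y g • ψ g := by
            rw [Finset.smul_sum, ← Finset.sum_sub_distrib]
            refine Finset.sum_congr rfl fun g _ => ?_
            rw [sub_smul, mul_smul]
          rw [e3, hysum, smul_zero, sub_zero] at hlow
          exact hlow
        · intro g hg
          by_cases hgσ : g = σ
          · exfalso
            subst hgσ
            apply hg
            rw [hyσ]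
            ring
          · by_cases hxg : x g = 0
            · have hyg : y g ≠ 0 := by
                intro h0
                apply hg
                rw [hxg, h0]
                ring
              obtain ⟨h, -, hh⟩ := Finset.exists_ne_zero_of_sum_ne_zero hyg
              have e4 : g = σ * Equiv.Perm.viaEmbeddingHom β h := by
                by_contra hc
                exact hh (if_neg hc)
              have e5 : h ≠ 1 := by
                rintro rfl
                apply hgσ
                rw [e4, map_one, mul_one]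
              rw [e4]
              exact lex (β := β) hm ha e5
            · exact lt_of_le_of_ne (hmax g hxg) fun e => hgσ (key_inj e)
  obtain ⟨σ, -, hσ⟩ := Finset.exists_max_image (Finset.univ : Finset (Equiv.Perm (Fin k))) key
    ⟨1, Finset.mem_univ _⟩
  exact key1 σ x hx fun g _ => hσ g (Finset.mem_univ _)

end Pool.Agent.Helper96.SP
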