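import Pool.Agent.Helper96.SP.Defs3
import Pool.Agent.Helper96.SP.QPCF
import Pool.Graph.R_pool_sql_team_seeded_ab47071d.TH90.Kim.Main4

/-!
# Package CTR: the contraction of all factors but one, as a linear map on the operators
-/

open CategoryTheory MonoidalCategory Limits BraidedCategory

universe u v w

namespace Pool.Agent.Helper96.SP

open Pool.Agent.TH90.AB Pool.Agent.TH90.Kim Pool.Agent.Helper96.Kim

set_option linter.unusedSectionVars false
set_option linter.unusedVariables false

variable {𝒜 : Type u} [Category.{v} 𝒜] [MonoidalCategory 𝒜] [SymmetricCategory 𝒜]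
  [Preadditive 𝒜] [MonoidalPreadditive 𝒜] [Linear ℚ 𝒜] [MonoidalLinear ℚ 𝒜]
  {K : Type w} [Field K] [CharZero K] {F : Realisation 𝒜 K}

namespace CTRX

/-- The contraction of all factors but the first, in the basis of words. -/
theorem map_PT [hdual : ∀ X : 𝒜, HasRightDual X] {M : 𝒜} {ι : Type} [Fintype ι] [DecidableEq ι]
    (b : Module.Basis ι K (F.V M)) (δ : ι → ℚ)
    (hδ : ∀ i, δ i = 1 ∨ δ i = -1) (hb : ∀ i, F.par M (b i) = (δ i : K) • b i) (n : ℕ) :
    ∀ (g : T M (n + 1) ⟶ T M (n + 1))
      (G : (Fin (n + 1) → ι) → (Fin (n + 1) → ι) → K)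
      (_ : ∀ w, F.map g (wd F (n + 1) fun j => b (w j)) =
        ∑ w', G w w' • wd F (n + 1) fun j => b (w' j)) (i : ι),
      F.map (PT n g) (wd F 1 fun _ => b i) =
        ∑ j, (∑ v : Fin n → ι, (∏ l, (δ (v l) : K)) * G (Fin.snoc v i) (Fin.snoc v j)) •
          wd F 1 fun _ => b j := by
  induction n with
  | zero =>
    intro g G hG i
    have h1 := hG fun _ => i
    change F.map g (wd F 1 fun _ => b i) = _ at h1
    change F.map g (wd F 1 fun _ => b i) = _
    rw [h1, ← Equiv.sum_comp (Equiv.funUnique (Fin 1) ι).symm]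
    refine Finset.sum_congr rfl fun j _ => ?_
    congr 1
    rw [Fintype.sum_unique]
    simp only [Finset.univ_eq_empty, Finset.prod_empty, one_mul]
    congr 1
  | succ n ih =>
    intro g G hG i
    have h1 : ∀ w : Fin (n + 1) → ι, F.map (ptr g) (wd F (n + 1) fun j => b (w j)) =
        ∑ w', (∑ a, (δ a : K) * G (Fin.cons a w) (Fin.cons a w')) •
          wd F (n + 1) fun j => b (w' j) := by
      intro w
      rw [pcf F b δ hδ hb g (wd F (n + 1) fun j => b (w j))
        (fun a a' => ∑ w', G (Fin.cons a w) (Fin.cons a' w') • wd F (n + 1) fun j => b (w' j))]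
      · simp only [Finset.smul_sum, Finset.sum_smul, smul_smul]
        exact Finset.sum_comm
      · intro a
        have h2 := hG (Fin.cons a w)
        have h3 : (wd F (n + 2) fun j => b ((Fin.cons a w : Fin (n + 2) → ι) j)) =
            F.ext (wd F (n + 1) fun j => b (w j)) (b a) := rfl
        rw [h3] at h2
        rw [h2, ← Equiv.sum_comp (Fin.consEquiv fun _ => ι), Fintype.sum_prod_type]
        refine Finset.sum_congr rfl fun a' _ => ?_
        rw [map_sum, LinearMap.sum_apply]
        refine Finset.sum_congr rfl fun w' _ => ?_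
        rw [_root_.map_smul, LinearMap.smul_apply]
        rfl
    change F.map (PT n (ptr g)) _ = _
    rw [ih (ptr g) _ h1 i]
    refine Finset.sum_congr rfl fun j _ => ?_
    congr 1
    rw [← Equiv.sum_comp (Fin.consEquiv fun _ => ι), Fintype.sum_prod_type, Finset.sum_comm]
    refine Finset.sum_congr rfl fun v _ => ?_
    rw [Finset.mul_sum]
    refine Finset.sum_congr rfl fun a _ => ?_
    have h2 : ∀ i, (Fin.cons a (Fin.snoc v i : Fin (n + 1) → ι) : Fin (n + 2) → ι) =
        Fin.snoc (Fin.cons a v : Fin (n + 1) → ι) i := fun i => Fin.cons_snoc_eq_snoc_cons _ _ _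
    rw [h2, h2]
    change _ = (∏ l, (δ ((Fin.cons a v : Fin (n + 1) → ι) l) : K)) * _
    rw [Fin.prod_univ_succ]
    simp only [Fin.cons_zero, Fin.cons_succ]
    ring_nf
    rfl

end CTRX

theorem ctr [hdual : ∀ X : 𝒜, HasRightDual X] {M : 𝒜} {ι : Type} [Fintype ι] [DecidableEq ι]
    (b : Module.Basis ι K (F.V M))
    (δ : ι → ℚ) (hδ : ∀ i, δ i = 1 ∨ δ i = -1) (hb : ∀ i, F.par M (b i) = (δ i : K) • b i) (n : ℕ)
    (B : Module.Basis (Fin (n + 1) → ι) K (F.V (T M (n + 1))))
    (hB : ∀ w, B w = wd F (n + 1) fun j => b (w j)) :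
    ∃ C : (F.V (T M (n + 1)) →ₗ[K] F.V (T M (n + 1))) →ₗ[K] (F.V M →ₗ[K] F.V M),
      (∀ f : T M (n + 1) ⟶ T M (n + 1), ∃ f' : M ⟶ M, C (F.map f) = F.map f') ∧
      ∀ (H : F.V (T M (n + 1)) →ₗ[K] F.V (T M (n + 1))) (i : ι),
        C H (b i) = ∑ i', (∑ w with w (Fin.last n) = i,
          ((∏ k : Fin n, δ (w k.castSucc) : ℚ) : K) *
            B.repr (H (B w)) (Function.update w (Fin.last n) i')) • b i' := by
  classical
  let cf : (F.V (T M (n + 1)) →ₗ[K] F.V (T M (n + 1))) → ι → ι → K := fun H i i' =>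
    ∑ w with w (Fin.last n) = i, ((∏ k : Fin n, δ (w k.castSucc) : ℚ) : K) *
      B.repr (H (B w)) (Function.update w (Fin.last n) i')
  have cf_add : ∀ H H' i i', cf (H + H') i i' = cf H i i' + cf H' i i' := by
    intro H H' i i'
    refine (Finset.sum_congr rfl fun w _ => ?_).trans Finset.sum_add_distrib
    rw [LinearMap.add_apply, map_add, Finsupp.add_apply, mul_add]
  have cf_smul : ∀ (a : K) H i i', cf (a • H) i i' = a * cf H i i' := by
    intro a H i i'
    refine (Finset.sum_congr rfl fun w _ => ?_).trans (Finset.mul_sum _ _ _).symm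
    rw [LinearMap.smul_apply, _root_.map_smul, Finsupp.smul_apply, smul_eq_mul]
    ring
  let C : (F.V (T M (n + 1)) →ₗ[K] F.V (T M (n + 1))) →ₗ[K] (F.V M →ₗ[K] F.V M) :=
    { toFun := fun H => b.constr K fun i => ∑ i', cf H i i' • b i'
      map_add' := by
        intro H H'
        refine b.ext fun i => ?_
        rw [LinearMap.add_apply, Module.Basis.constr_basis, Module.Basis.constr_basis,
          Module.Basis.constr_basis, ← Finset.sum_add_distrib]
        refine Finset.sum_congr rfl fun i' _ => ?_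
        rw [cf_add, add_smul]
      map_smul' := by
        intro a H
        refine b.ext fun i => ?_
        rw [RingHom.id_apply, LinearMap.smul_apply, Module.Basis.constr_basis,
          Module.Basis.constr_basis, Finset.smul_sum]
        refine Finset.sum_congr rfl fun i' _ => ?_
        rw [cf_smul, mul_smul] }
  have hC : ∀ H i, C H (b i) = ∑ i', cf H i i' • b i' := by
    intro H i
    exact b.constr_basis K _ i
  refine ⟨C, fun f => ⟨(λ_ M).inv ≫ PT n f ≫ (λ_ M).hom, b.ext fun i => ?_⟩, hC⟩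
  have hone : ∀ i, F.map (λ_ M).inv (b i) = wd F 1 fun _ => b i := by
    intro i
    exact F.map_inv _ (F.left_unit (b i))
  have hone' : ∀ i, F.map (λ_ M).hom (wd F 1 fun _ => b i) = b i := fun i => F.left_unit (b i)
  have hG : ∀ w, F.map f (wd F (n + 1) fun j => b (w j)) =
      ∑ w', B.repr (F.map f (B w)) w' • wd F (n + 1) fun j => b (w' j) := by
    intro w
    rw [← hB]
    conv_lhs => rw [← B.sum_repr (F.map f (B w))]
    simp only [hB]
  rw [hC, F.map_comp, F.map_comp, hone, CTRX.map_PT b δ hδ hb n f _ hG i, map_sum]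
  refine Finset.sum_congr rfl fun i' _ => ?_
  rw [_root_.map_smul, hone']
  congr 1
  change (∑ w with w (Fin.last n) = i, ((∏ k : Fin n, δ (w k.castSucc) : ℚ) : K) *
      B.repr (F.map f (B w)) (Function.update w (Fin.last n) i')) = _
  rw [Finset.sum_filter, ← Equiv.sum_comp (Fin.snocEquiv fun _ => ι), Fintype.sum_prod_type,
    Finset.sum_eq_single i]
  · refine Finset.sum_congr rfl fun v _ => ?_
    change (if (Fin.snoc v i : Fin (n + 1) → ι) (Fin.last n) = i then
      ((∏ k : Fin n, δ ((Fin.snoc v i : Fin (n + 1) → ι) k.castSucc) : ℚ) : K) *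
        B.repr (F.map f (B (Fin.snoc v i))) (Function.update (Fin.snoc v i) (Fin.last n) i')
      else 0) = _
    rw [Fin.snoc_last, if_pos rfl, Fin.update_snoc_last, Rat.cast_prod]
    simp only [Fin.snoc_castSucc]
  · intro a _ ha
    refine Finset.sum_eq_zero fun v _ => ?_
    change (if (Fin.snoc v a : Fin (n + 1) → ι) (Fin.last n) = i then _ else 0) = _
    rw [Fin.snoc_last, if_neg ha]
  · intro hi
    exact absurd (Finset.mem_univ _) hi

end Pool.Agent.Helper96.SP
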