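import Pool.Agent.Helper96.SP.QPCF
import Pool.Agent.Helper96.SP.QWORDS
import Pool.Agent.Helper96.SP.RKLA

/-!
# Package FACT: the Künneth standard conjecture passes to tensor factors
-/

open CategoryTheory MonoidalCategory Limits BraidedCategory

universe u v w

namespace Pool.Agent.Helper96.SP

open Pool.Agent.TH90.AB Pool.Agent.TH90.Kim Pool.Agent.Helper96.Kim

set_option linter.unusedSectionVars false

variable {𝒜 : Type u} [Category.{v} 𝒜] [MonoidalCategory 𝒜] [SymmetricCategory 𝒜]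
  [Preadditive 𝒜] [MonoidalPreadditive 𝒜] [Linear ℚ 𝒜] [MonoidalLinear ℚ 𝒜]
  {K : Type w} [Field K] [CharZero K] {F : Realisation 𝒜 K}

namespace FACTX

lemma coords {D X : 𝒜} {ι : Type} [Fintype ι] (b : Module.Basis ι K (F.V X)) (z : F.V (D ⊗ X)) :
    ∃ y : ι → F.V D, z = ∑ j, F.ext (y j) (b j) := by
  obtain ⟨n, a, c, h⟩ := F.exists_sum z
  refine ⟨fun j => ∑ k, b.repr (c k) j • a k, ?_⟩
  have h1 : ∀ k, F.ext (a k) (c k) = ∑ j, F.ext (b.repr (c k) j • a k) (b j) := by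
    intro k
    conv_lhs => rw [← b.sum_repr (c k), map_sum]
    refine Finset.sum_congr rfl fun j _ => ?_
    rw [_root_.map_smul, _root_.map_smul, LinearMap.smul_apply]
  rw [h, Finset.sum_congr rfl fun k _ => h1 k, Finset.sum_comm]
  refine Finset.sum_congr rfl fun j _ => ?_
  rw [map_sum, LinearMap.sum_apply]

lemma contr [hdual : ∀ X : 𝒜, HasRightDual X] {D X : 𝒜} {ι : Type} [Fintype ι] [DecidableEq ι]
    (b : Module.Basis ι K (F.V X)) (δ : ι → ℚ) (hδ : ∀ i, δ i = 1 ∨ δ i = -1)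
    (hb : ∀ i, F.par X (b i) = (δ i : K) • b i) {P : F.V (D ⊗ X) →ₗ[K] F.V (D ⊗ X)}
    (hP : P ∈ AlgOp F (D ⊗ X)) :
    ∃ P' ∈ AlgOp F D, ∀ x, ∃ y : ι → ι → F.V D,
      (∀ i, P (F.ext x (b i)) = ∑ j, F.ext (y i j) (b j)) ∧ P' x = ∑ i, (δ i : K) • y i i := by
  unfold AlgOp at hP
  induction hP using Submodule.span_induction with
  | mem P hP =>
    obtain ⟨f, rfl⟩ := hP
    refine ⟨F.map (ptr f), Submodule.subset_span ⟨ptr f, rfl⟩, fun x => ?_⟩
    choose y hy using fun i => coords b (F.map f (F.ext x (b i)))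
    exact ⟨y, hy, pcf F b δ hδ hb f x y hy⟩
  | zero => exact ⟨0, zero_mem _, fun x => ⟨fun _ _ => 0, fun i => by simp, by simp⟩⟩
  | add P Q _ _ hP hQ =>
    obtain ⟨P', hP', h1⟩ := hP
    obtain ⟨Q', hQ', h2⟩ := hQ
    refine ⟨P' + Q', add_mem hP' hQ', fun x => ?_⟩
    obtain ⟨y, hy, hy'⟩ := h1 x
    obtain ⟨z, hz, hz'⟩ := h2 x
    refine ⟨fun i j => y i j + z i j, fun i => ?_, ?_⟩
    · rw [LinearMap.add_apply, hy, hz, ← Finset.sum_add_distrib]
      refine Finset.sum_congr rfl fun j _ => ?_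
      rw [_root_.map_add, LinearMap.add_apply]
    · rw [LinearMap.add_apply, hy', hz', ← Finset.sum_add_distrib]
      refine Finset.sum_congr rfl fun i _ => ?_
      rw [smul_add]
  | smul a P _ hP =>
    obtain ⟨P', hP', h1⟩ := hP
    refine ⟨a • P', Submodule.smul_mem _ _ hP', fun x => ?_⟩
    obtain ⟨y, hy, hy'⟩ := h1 x
    refine ⟨fun i j => a • y i j, fun i => ?_, ?_⟩
    · rw [LinearMap.smul_apply, hy, Finset.smul_sum]
      refine Finset.sum_congr rfl fun j _ => ?_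
      rw [_root_.map_smul, LinearMap.smul_apply]
    · rw [LinearMap.smul_apply, hy', Finset.smul_sum]
      refine Finset.sum_congr rfl fun i _ => ?_
      rw [smul_comm]

lemma neg_two_zpow (k : ℤ) : ((if Even k then (1 : ℚ) else -1 : ℚ) : K) * (-2 : K) ^ k =
    ((2 ^ k : ℚ) : K) := by
  have h2 : (-2 : K) ^ k = (-1 : K) ^ k * 2 ^ k := by
    rw [← mul_zpow]
    norm_num
  rcases Int.even_or_odd k with hk | hk
  · rw [if_pos hk, h2, hk.neg_one_zpow]
    push_cast
    ring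
  · rw [if_neg (Int.not_even_iff_odd.2 hk), h2, hk.neg_one_zpow]
    push_cast
    ring

lemma neg_two_inj {a b : ℤ} (h : (-2 : K) ^ a = (-2 : K) ^ b) : a = b := by
  have h1 : (((-2 : ℚ) ^ a : ℚ) : K) = (((-2 : ℚ) ^ b : ℚ) : K) := by
    push_cast
    exact h
  have h2 : (-2 : ℚ) ^ a = (-2 : ℚ) ^ b := Rat.cast_injective h1
  have h3 := congrArg abs h2
  rw [abs_zpow, abs_zpow, abs_neg, abs_two] at h3
  exact zpow_right_injective₀ (by norm_num) (by norm_num) h3

end FACTX

theorem kunneth_factor [hdual : ∀ X : 𝒜, HasRightDual X] (G : Grading F) {D X : 𝒜}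
    (hX : ∃ x : F.V X, x ≠ 0) (h : Kunneth G (D ⊗ X)) : Kunneth G D := by
  classical
  obtain ⟨d, b, g, hbg⟩ := exists_hb G X
  obtain ⟨d', b', g', hbg'⟩ := exists_hb G D
  obtain ⟨Θ, hΘ, hΘ'⟩ := theta_mem G h (fun k => (-2 : K) ^ k)
  have hpar : ∀ i, F.par X (b i) = ((if Even (g i) then (1 : ℚ) else -1 : ℚ) : K) • b i := by
    intro i
    by_cases hi : Even (g i)
    · rw [if_pos hi, G.even X _ hi _ (hbg i), Rat.cast_one, one_smul]
    · rw [if_neg hi, G.odd X _ (Int.not_even_iff_odd.1 hi) _ (hbg i), Rat.cast_neg, Rat.cast_one,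
        neg_one_smul]
  obtain ⟨U, hU, hU'⟩ := FACTX.contr b (fun i => if Even (g i) then (1 : ℚ) else -1)
    (fun i => by by_cases hi : Even (g i) <;> simp [hi]) hpar hΘ
  have hS : (0 : ℚ) < ∑ i, (2 : ℚ) ^ g i := by
    refine Finset.sum_pos (fun i _ => zpow_pos (by norm_num) _) ?_
    rw [Finset.univ_nonempty_iff]
    by_contra hne
    rw [not_nonempty_iff] at hne
    obtain ⟨x, hx⟩ := hX
    apply hx
    rw [← b.sum_repr x]
    exact Finset.sum_of_isEmpty _
  have hSK : ((∑ i, (2 : ℚ) ^ g i : ℚ) : K) ≠ 0 := by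
    rw [Ne, Rat.cast_eq_zero]
    exact hS.ne'
  have hUx : ∀ k, ∀ x ∈ G.gr D k, U x = ((∑ i, (2 : ℚ) ^ g i : ℚ) : K) • (-2 : K) ^ k • x := by
    intro k x hx
    obtain ⟨y, hy, hy'⟩ := hU' x
    have hyi : ∀ i, y i i = (-2 : K) ^ (k + g i) • x := by
      intro i
      have h1 := hΘ' (k + g i) _ (G.ext_mem k (g i) x (b i) hx (hbg i))
      rw [hy i] at h1
      have h2 : ∑ j, F.ext (y i j - if j = i then (-2 : K) ^ (k + g i) • x else 0) (b j) = 0 := by
        have h3 : ∑ j, F.ext (if j = i then (-2 : K) ^ (k + g i) • x else 0) (b j) =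
            (-2 : K) ^ (k + g i) • F.ext x (b i) := by
          rw [Finset.sum_eq_single i]
          · rw [if_pos rfl, _root_.map_smul, LinearMap.smul_apply]
          · intro j _ hj
            rw [if_neg hj, _root_.map_zero, LinearMap.zero_apply]
          · intro hi
            exact absurd (Finset.mem_univ i) hi
        calc ∑ j, F.ext (y i j - if j = i then (-2 : K) ^ (k + g i) • x else 0) (b j)
            = ∑ j, (F.ext (y i j) (b j) -
                F.ext (if j = i then (-2 : K) ^ (k + g i) • x else 0) (b j)) := by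
              refine Finset.sum_congr rfl fun j _ => ?_
              rw [_root_.map_sub, LinearMap.sub_apply]
          _ = 0 := by rw [Finset.sum_sub_distrib, h1, h3, sub_self]
      have h4 := WDS.inj F b _ h2 i
      rw [if_pos rfl] at h4
      exact sub_eq_zero.1 h4
    rw [hy', Rat.cast_sum, Finset.sum_smul]
    refine Finset.sum_congr rfl fun i _ => ?_
    rw [hyi i, smul_smul, smul_smul, zpow_add₀ (by norm_num : (-2 : K) ≠ 0),
      ← FACTX.neg_two_zpow (K := K) (g i)]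
    congr 1
    ring
  refine kla G b' g' hbg' (((∑ i, (2 : ℚ) ^ g i : ℚ) : K)⁻¹ • U) (Submodule.smul_mem _ _ hU)
    (fun i => (-2 : K) ^ g' i) (fun i => ?_) (fun i j hij hμ => hij (FACTX.neg_two_inj hμ))
  rw [LinearMap.smul_apply, hUx (g' i) _ (hbg' i), smul_smul, inv_mul_cancel₀ hSK, one_smul]

end Pool.Agent.Helper96.SP
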