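import Pool.Agent.Helper96.SP.Defs3

/-!
# FINE: the strict inequality between weighted letter counts
-/

universe u v w

namespace Pool.Agent.Helper96.SP

namespace FINE

theorem cnt_sum {ι : Type} [DecidableEq ι] {n : ℕ} (w : Fin n → ι) (i : ι) :
    (cnt w i : ℤ) = ∑ k, if w k = i then 1 else 0 := by
  unfold cnt
  rw [Finset.card_filter]
  push_cast
  rfl

theorem cnt_sw {ι : Type} [DecidableEq ι] {n : ℕ} (w : Fin n → ι) (i j : ι) :
    cnt (fun k => Equiv.swap i j (w k)) i = cnt w j := by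
  unfold cnt
  congr 1
  ext k
  simp [Equiv.swap_apply_eq_iff]

theorem dg_sw {ι : Type} [DecidableEq ι] {n : ℕ} (g : ι → ℤ) (w : Fin n → ι) (i j : ι)
    (hij : i ≠ j) :
    dg g (fun k => Equiv.swap i j (w k)) = dg g w - ((cnt w j : ℤ) - cnt w i) * (g j - g i) := by
  have h : ∀ x : ι, g (Equiv.swap i j x) = g x + (if x = i then 1 else 0) * (g j - g i) -
      (if x = j then 1 else 0) * (g j - g i) := by
    intro x
    by_cases h1 : x = i
    · subst h1
      rw [Equiv.swap_apply_left, if_pos rfl, if_neg hij]; ring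
    · by_cases h2 : x = j
      · subst h2
        rw [Equiv.swap_apply_right, if_neg h1, if_pos rfl]; ring
      · rw [Equiv.swap_apply_of_ne_of_ne h1 h2, if_neg h1, if_neg h2]; ring
  unfold dg
  rw [Finset.sum_congr rfl fun k _ => h (w k), Finset.sum_sub_distrib, Finset.sum_add_distrib,
    ← Finset.sum_mul, ← Finset.sum_mul, ← cnt_sum, ← cnt_sum]
  ring

end FINE

theorem fine {ι : Type} [Fintype ι] [DecidableEq ι] {n : ℕ} (q : (Fin n → ι) → ℚ)
    (hq : ∀ w, 0 ≤ q w) (g : ι → ℤ) (i j : ι) (hij : g i < g j)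
    (hsym : ∀ w, q (fun k => Equiv.swap i j (w k)) = q w)
    (hex : ∃ w, q w ≠ 0 ∧ cnt w i ≠ cnt w j) :
    ∑ w, (2 : ℚ) ^ (dg g w) * q w * cnt w i < ∑ w, (2 : ℚ) ^ (dg g w) * q w * cnt w j := by
  have hne : i ≠ j := fun h => by rw [h] at hij; exact lt_irrefl _ hij
  let τ : (Fin n → ι) ≃ (Fin n → ι) :=
    { toFun := fun w k => Equiv.swap i j (w k)
      invFun := fun w k => Equiv.swap i j (w k)
      left_inv := fun w => by ext k; simp
      right_inv := fun w => by ext k; simp }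
  have hτ : ∀ w, τ w = fun k => Equiv.swap i j (w k) := fun w => rfl
  have ci : ∀ w, cnt (τ w) i = cnt w j := fun w => FINE.cnt_sw w i j
  have cj : ∀ w, cnt (τ w) j = cnt w i := fun w => by
    rw [hτ, Equiv.swap_comm i j]; exact FINE.cnt_sw w j i
  have qτ : ∀ w, q (τ w) = q w := hsym
  have dτ : ∀ w, dg g (τ w) = dg g w - ((cnt w j : ℤ) - cnt w i) * (g j - g i) :=
    fun w => FINE.dg_sw g w i j hne
  let f : (Fin n → ι) → ℚ := fun w => (2 : ℚ) ^ (dg g w) * q w * ((cnt w j : ℚ) - cnt w i)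
  have h1 : ∑ w, f w = ∑ w, f (τ w) := (Equiv.sum_comp τ f).symm
  have h2 : ∀ w, f w + f (τ w) =
      q w * (((cnt w j : ℚ) - cnt w i) * ((2 : ℚ) ^ (dg g w) - (2 : ℚ) ^ (dg g (τ w)))) := by
    intro w
    simp only [f, ci, cj, qτ]
    ring
  have key : ∀ w, 0 ≤ ((cnt w j : ℚ) - cnt w i) *
      ((2 : ℚ) ^ (dg g w) - (2 : ℚ) ^ (dg g (τ w))) ∧ (cnt w i ≠ cnt w j →
      0 < ((cnt w j : ℚ) - cnt w i) * ((2 : ℚ) ^ (dg g w) - (2 : ℚ) ^ (dg g (τ w)))) := by
    intro w
    rcases lt_trichotomy (cnt w i) (cnt w j) with h | h | h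
    · have a1 : (0 : ℚ) < (cnt w j : ℚ) - cnt w i := by
        rw [sub_pos]; exact_mod_cast h
      have a2 : dg g (τ w) < dg g w := by
        rw [dτ w]
        have b1 : (0 : ℤ) < (cnt w j : ℤ) - cnt w i := by
          rw [sub_pos]; exact_mod_cast h
        have := mul_pos b1 (sub_pos.2 hij)
        linarith
      have a3 : (0 : ℚ) < (2 : ℚ) ^ (dg g w) - (2 : ℚ) ^ (dg g (τ w)) := by
        rw [sub_pos]; exact zpow_lt_zpow_right₀ (by norm_num) a2
      exact ⟨(mul_pos a1 a3).le, fun _ => mul_pos a1 a3⟩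
    · exact ⟨by rw [h]; simp, fun hc => absurd h hc⟩
    · have a1 : (cnt w j : ℚ) - cnt w i < 0 := by
        rw [sub_neg]; exact_mod_cast h
      have a2 : dg g w < dg g (τ w) := by
        rw [dτ w]
        have b1 : (cnt w j : ℤ) - cnt w i < 0 := by
          rw [sub_neg]; exact_mod_cast h
        have := mul_neg_of_neg_of_pos b1 (sub_pos.2 hij)
        linarith
      have a3 : (2 : ℚ) ^ (dg g w) - (2 : ℚ) ^ (dg g (τ w)) < 0 := by
        rw [sub_neg]; exact zpow_lt_zpow_right₀ (by norm_num) a2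
      exact ⟨(mul_pos_of_neg_of_neg a1 a3).le, fun _ => mul_pos_of_neg_of_neg a1 a3⟩
  have h3 : 0 < ∑ w, (f w + f (τ w)) := by
    obtain ⟨w, hw, hw'⟩ := hex
    apply Finset.sum_pos'
    · intro w _
      rw [h2 w]
      exact mul_nonneg (hq w) (key w).1
    · refine ⟨w, Finset.mem_univ _, ?_⟩
      rw [h2 w]
      exact mul_pos (lt_of_le_of_ne (hq w) (Ne.symm hw)) ((key w).2 hw')
  rw [Finset.sum_add_distrib, ← h1] at h3
  have h4 : 0 < ∑ w, f w := by linarith
  have h5 : ∑ w, f w = ∑ w, (2 : ℚ) ^ (dg g w) * q w * cnt w j -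
      ∑ w, (2 : ℚ) ^ (dg g w) * q w * cnt w i := by
    rw [← Finset.sum_sub_distrib]
    exact Finset.sum_congr rfl fun w _ => by simp only [f]; ring
  linarith

end Pool.Agent.Helper96.SP
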