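import Pool.Agent.Helper96.SP.QPARU
import Pool.Agent.Helper96.SP.RCTR
import Pool.Agent.Helper96.SP.RKLA

/-!
# Package UDIAG: an algebraic operator that is diagonal in a homogeneous basis
-/

open CategoryTheory MonoidalCategory Limits BraidedCategory

universe u v w

namespace Pool.Agent.Helper96.SP

open Pool.Agent.TH90.AB Pool.Agent.TH90.Kim Pool.Agent.Helper96.Kim

set_option linter.unusedSectionVars false
set_option linter.unusedVariables false

namespace UDX

/-- Averages over permutations. -/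
lemma sum_perm {n : ℕ} (f : Fin (n + 1) → ℚ) (a : Fin (n + 1)) :
    ∑ h : Equiv.Perm (Fin (n + 1)), f (h a) = n.factorial * ∑ k, f k := by
  have h1 : ∀ b, ∑ h : Equiv.Perm (Fin (n + 1)), f (h b) =
      ∑ h : Equiv.Perm (Fin (n + 1)), f (h a) := by
    intro b
    rw [← Equiv.sum_comp (Equiv.mulRight (Equiv.swap a b))]
    refine Finset.sum_congr rfl fun h _ => ?_
    rw [Equiv.coe_mulRight, Equiv.Perm.mul_apply, Equiv.swap_apply_right]
  have h2 : ((n : ℚ) + 1) * ∑ h : Equiv.Perm (Fin (n + 1)), f (h a) =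
      ∑ b, ∑ h : Equiv.Perm (Fin (n + 1)), f (h b) := by
    rw [Finset.sum_congr rfl fun b _ => h1 b, Finset.sum_const, Finset.card_univ,
      Fintype.card_fin, nsmul_eq_mul]
    push_cast
    ring
  have h3 : ∑ b, ∑ h : Equiv.Perm (Fin (n + 1)), f (h b) =
      ((n + 1).factorial : ℚ) * ∑ k, f k := by
    rw [Finset.sum_comm, Finset.sum_congr rfl fun (h : Equiv.Perm (Fin (n + 1))) _ =>
      Equiv.sum_comp h f, Finset.sum_const, Finset.card_univ, Fintype.card_perm,
      Fintype.card_fin, nsmul_eq_mul]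
  have h4 : ((n : ℚ) + 1) ≠ 0 := by positivity
  refine mul_left_cancel₀ h4 ?_
  rw [h2, h3, Nat.factorial_succ]
  push_cast
  ring

lemma prod_zpow {ι : Type} (s : Finset ι) (x : ℚ) (hx : x ≠ 0) (f : ι → ℤ) :
    ∏ k ∈ s, x ^ f k = x ^ ∑ k ∈ s, f k := by
  classical
  induction s using Finset.induction_on with
  | empty => simp
  | insert a s ha ih => rw [Finset.prod_insert ha, Finset.sum_insert ha, ih, zpow_add₀ hx]

lemma cnt_eq_sum {ι : Type} [DecidableEq ι] {n : ℕ} (w : Fin n → ι) (i : ι) :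
    (cnt w i : ℚ) = ∑ k, if w k = i then 1 else 0 := by
  unfold cnt
  rw [Finset.sum_boole]

variable {𝒜 : Type u} [Category.{v} 𝒜] [MonoidalCategory 𝒜] [SymmetricCategory 𝒜]
  [Preadditive 𝒜] [MonoidalPreadditive 𝒜] [Linear ℚ 𝒜] [MonoidalLinear ℚ 𝒜]
  {K : Type w} [Field K] [CharZero K] {F : Realisation 𝒜 K}

lemma wd_mem (G : Grading F) {M : 𝒜} {d : ℕ} (b : Fin d → F.V M) (g : Fin d → ℤ)
    (hb : ∀ i, b i ∈ G.gr M (g i)) (n : ℕ) : ∀ w : Fin n → Fin d,
      wd F n (fun j => b (w j)) ∈ G.gr (T M n) (dg g w) := by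
  induction n with
  | zero =>
    intro w
    have h1 : dg g w = 0 := by unfold dg; simp
    rw [h1]
    exact G.one_mem
  | succ n ih =>
    intro w
    have h1 : dg g w = dg g (fun j => w j.succ) + g (w 0) := by
      unfold dg
      rw [Fin.sum_univ_succ, add_comm]
    rw [h1]
    exact G.ext_mem _ _ _ _ (ih fun j => w j.succ) (hb (w 0))

/-- The action of the group algebra preserves the content of words. -/
lemma content [hdual : ∀ X : 𝒜, HasRightDual X] {M : 𝒜} {φ : Fam M} (hφ : PA φ) {ι : Type} [Fintype ι] [DecidableEq ι]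
    (b : Module.Basis ι K (F.V M)) (δ : ι → ℚ) (hδ : ∀ i, δ i = 1 ∨ δ i = -1)
    (hb : ∀ i, F.par M (b i) = (δ i : K) • b i) (n : ℕ)
    (B : Module.Basis (Fin n → ι) K (F.V (T M n))) (hB : ∀ w, B w = wd F n fun j => b (w j))
    (x : QS n) (w w' : Fin n → ι) (h : ∃ i, cnt w i ≠ cnt w' i) :
    B.repr (F.map (rh φ n x) (B w)) w' = 0 := by
  classical
  rw [WD.rh_eq, WD.map_sum', map_sum, Finsupp.coe_finsetSum, Finset.sum_apply]
  refine Finset.sum_eq_zero fun g _ => ?_
  obtain ⟨κ, -, h2⟩ := wd_perm_mixed F hφ b δ hδ hb n g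
  rw [F.map_smul, hB, h2]
  have h3 : wd F n (fun l => b (w (g⁻¹ l))) = B (fun l => w (g⁻¹ l)) := (hB _).symm
  rw [h3, _root_.map_smul, _root_.map_smul, Module.Basis.repr_self, Finsupp.smul_apply,
    Finsupp.smul_apply, Finsupp.single_apply, if_neg, smul_zero, smul_zero]
  intro h4
  obtain ⟨i, hi⟩ := h
  apply hi
  have h5 : (cnt w i : ℚ) = cnt w' i := by
    rw [cnt_eq_sum, cnt_eq_sum, ← h4]
    exact (Equiv.sum_comp (g⁻¹ : Equiv.Perm (Fin n))
      (fun k => if w k = i then (1 : ℚ) else 0)).symm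
  exact_mod_cast h5

end UDX

theorem udiag {𝒜 : Type u} [Category.{v} 𝒜] [MonoidalCategory 𝒜] [SymmetricCategory 𝒜]
    [Preadditive 𝒜] [MonoidalPreadditive 𝒜] [Linear ℚ 𝒜] [MonoidalLinear ℚ 𝒜]
    {K : Type w} [Field K] [CharZero K] {F : Realisation 𝒜 K}
    [hdual : ∀ X : 𝒜, HasRightDual X] (G : Grading F) {M D : 𝒜} {φ : Fam M}
    (hφ : PA φ) {n : ℕ} {e : QS (n + 1)} (i : D ⟶ T M (n + 1)) (r : T M (n + 1) ⟶ D)
    (hir : i ≫ r = 𝟙 D) (hri : r ≫ i = rh φ (n + 1) e) (hD : Kunneth G D) {d : ℕ}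
    (b : Module.Basis (Fin d) K (F.V M)) (g : Fin d → ℤ) (hb : ∀ i, b i ∈ G.gr M (g i))
    (δ : Fin d → ℚ) (hδ : ∀ i, δ i = if Even (g i) then 1 else -1)
    (B : Module.Basis (Fin (n + 1) → Fin d) K (F.V (T M (n + 1))))
    (hB : ∀ w, B w = wd F (n + 1) fun j => b (w j)) (q : (Fin (n + 1) → Fin d) → ℚ)
    (hq : ∀ (h : Equiv.Perm (Fin (n + 1))) (w : Fin (n + 1) → Fin d),
        B.repr (F.map (rh φ (n + 1) (MonoidAlgebra.single h 1 * (adj e * e) *
          MonoidAlgebra.single h⁻¹ 1)) (B w)) w = (q (w ∘ h) : K)) :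
    ∃ U ∈ AlgOp F M, ∀ i, U (b i) =
      ((δ i * (n.factorial * ∑ w, (2 : ℚ) ^ (dg g w) * q w * cnt w i) : ℚ) : K) • b i := by
  classical
  have hδ1 : ∀ i, δ i = 1 ∨ δ i = -1 := by
    intro i
    rw [hδ]
    split_ifs
    · exact Or.inl rfl
    · exact Or.inr rfl
  have hδ2 : ∀ i, δ i = (-1) ^ (g i) := by
    intro i
    rw [hδ]
    split_ifs with h1
    · exact h1.neg_one_zpow.symm
    · exact (Int.not_even_iff_odd.1 h1).neg_one_zpow.symm
  have hpar : ∀ i, F.par M (b i) = (δ i : K) • b i := by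
    intro i
    rw [hδ]
    split_ifs with h1
    · rw [G.even M _ h1 _ (hb i), Rat.cast_one, one_smul]
    · rw [G.odd M _ (Int.not_even_iff_odd.1 h1) _ (hb i), Rat.cast_neg, Rat.cast_one, neg_one_smul]
  obtain ⟨Θ, hΘ, hΘk⟩ := theta_mem G hD (fun k => ((-2 : ℚ) ^ k : ℚ))
  obtain ⟨C, hC1, hC2⟩ := ctr b δ hδ1 hpar n B hB
  have hmul : ∀ x y : QS (n + 1), rh φ (n + 1) (x * y) = rh φ (n + 1) y ≫ rh φ (n + 1) x :=
    fun x y => map_mul (rho φ (n + 1)) x y
  -- the operator on the tensor power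
  set H : (F.V D →ₗ[K] F.V D) → (F.V (T M (n + 1)) →ₗ[K] F.V (T M (n + 1))) := fun A =>
    ∑ h : Equiv.Perm (Fin (n + 1)), F.map (rh φ (n + 1) (MonoidAlgebra.single h 1)) ∘ₗ
      F.map (rh φ (n + 1) (adj e)) ∘ₗ F.map i ∘ₗ A ∘ₗ F.map r ∘ₗ
        F.map (rh φ (n + 1) (MonoidAlgebra.single h⁻¹ 1)) with hH
  have hHadd : ∀ A A', H (A + A') = H A + H A' := by
    intro A A'
    simp only [hH, LinearMap.comp_add, LinearMap.add_comp, Finset.sum_add_distrib]
  have hHsmul : ∀ (c : K) A, H (c • A) = c • H A := by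
    intro c A
    simp only [hH, LinearMap.comp_smul, LinearMap.smul_comp, Finset.smul_sum]
  have hHzero : H 0 = 0 := by
    simp only [hH, LinearMap.comp_zero, LinearMap.zero_comp, Finset.sum_const_zero]
  have hHmap : ∀ f : D ⟶ D, H (F.map f) = F.map (∑ h : Equiv.Perm (Fin (n + 1)),
      rh φ (n + 1) (MonoidAlgebra.single h⁻¹ 1) ≫ r ≫ f ≫ i ≫ rh φ (n + 1) (adj e) ≫
        rh φ (n + 1) (MonoidAlgebra.single h 1)) := by
    intro f
    ext x
    simp only [hH, LinearMap.sum_apply, LinearMap.comp_apply, WD.map_sum', F.map_comp]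
  have hmem : ∀ A ∈ AlgOp F D, C (H A) ∈ AlgOp F M := by
    intro A hA
    unfold AlgOp at hA
    induction hA using Submodule.span_induction with
    | mem A hA =>
      obtain ⟨f, rfl⟩ := hA
      obtain ⟨f', hf'⟩ := hC1 (∑ h : Equiv.Perm (Fin (n + 1)),
        rh φ (n + 1) (MonoidAlgebra.single h⁻¹ 1) ≫ r ≫ f ≫ i ≫ rh φ (n + 1) (adj e) ≫
          rh φ (n + 1) (MonoidAlgebra.single h 1))
      show C (H (F.map f)) ∈ AlgOp F M
      rw [hHmap, hf']
      exact Submodule.subset_span ⟨f', rfl⟩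
    | zero => rw [hHzero, _root_.map_zero]; exact Submodule.zero_mem _
    | add A A' _ _ h1 h2 => rw [hHadd, _root_.map_add]; exact Submodule.add_mem _ h1 h2
    | smul c A _ h1 => rw [hHsmul, _root_.map_smul]; exact Submodule.smul_mem _ _ h1
  refine ⟨C (H Θ), hmem Θ hΘ, fun a => ?_⟩
  -- the action on words
  have hHw : ∀ w, H Θ (B w) = (((-2 : ℚ) ^ (dg g w) : ℚ) : K) •
      ∑ h : Equiv.Perm (Fin (n + 1)), F.map (rh φ (n + 1) (MonoidAlgebra.single h 1 *
        (adj e * e) * MonoidAlgebra.single h⁻¹ 1)) (B w) := by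
    intro w
    have hBw : B w ∈ G.gr (T M (n + 1)) (dg g w) := by
      rw [hB]
      exact UDX.wd_mem G b g hb (n + 1) w
    rw [Finset.smul_sum]
    simp only [hH, LinearMap.sum_apply, LinearMap.comp_apply]
    refine Finset.sum_congr rfl fun h _ => ?_
    rw [hΘk (dg g w) _ (G.map_mem r _ _ (G.map_mem _ _ _ hBw)), _root_.map_smul, _root_.map_smul,
      _root_.map_smul]
    congr 1
    rw [hmul, hmul, hmul, F.map_comp, F.map_comp, F.map_comp, ← hri, F.map_comp]
  have hcnt : ∀ (w : Fin (n + 1) → Fin d) (a' : Fin d), w (Fin.last n) = a → a' ≠ a →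
      ∃ l, cnt w l ≠ cnt (Function.update w (Fin.last n) a') l := by
    intro w a' hw ha'
    refine ⟨a, ?_⟩
    intro h1
    have h2 : (cnt w a : ℚ) = cnt (Function.update w (Fin.last n) a') a := by rw [h1]
    rw [UDX.cnt_eq_sum, UDX.cnt_eq_sum, Fin.sum_univ_castSucc, Fin.sum_univ_castSucc, hw,
      if_pos rfl, Function.update_self, if_neg ha'] at h2
    have h3 : ∀ k : Fin n, Function.update w (Fin.last n) a' k.castSucc = w k.castSucc :=
      fun k => Function.update_of_ne (Fin.castSucc_lt_last k).ne _ _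
    simp only [h3] at h2
    linarith
  rw [hC2, Finset.sum_eq_single a]
  · congr 1
    have h1 : ∀ w : Fin (n + 1) → Fin d, w (Fin.last n) = a →
        ((∏ k : Fin n, δ (w k.castSucc) : ℚ) : K) *
          B.repr (H Θ (B w)) (Function.update w (Fin.last n) a) =
        ((δ a * (2 ^ (dg g w) * ∑ h : Equiv.Perm (Fin (n + 1)), q (w ∘ h)) : ℚ) : K) := by
      intro w hw
      have h2 : Function.update w (Fin.last n) a = w := by
        rw [← hw]
        exact Function.update_eq_self _ _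
      rw [h2, hHw, _root_.map_smul, map_sum, Finsupp.smul_apply, Finsupp.coe_finsetSum,
        Finset.sum_apply, Finset.sum_congr rfl fun h _ => hq h w, smul_eq_mul, ← Rat.cast_sum,
        ← Rat.cast_mul, ← Rat.cast_mul]
      congr 1
      have h3 : (∏ k : Fin n, δ (w k.castSucc)) * δ a = (-1) ^ (dg g w) := by
        unfold dg
        rw [← hw, ← Fin.prod_univ_castSucc (fun k => δ (w k)), Finset.prod_congr rfl fun k _ =>
          hδ2 (w k)]
        exact UDX.prod_zpow _ _ (by norm_num) _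
      have h4 : δ a * δ a = 1 := by
        rcases hδ1 a with h | h <;> rw [h] <;> norm_num
      have h5 : (-2 : ℚ) ^ (dg g w) = (-1) ^ (dg g w) * 2 ^ (dg g w) := by
        rw [← mul_zpow]
        norm_num
      have h6 : ((-1 : ℚ) ^ (dg g w)) * (-1) ^ (dg g w) = 1 := by
        rw [← mul_zpow]
        norm_num
      have h7 : (∏ k : Fin n, δ (w k.castSucc)) = δ a * (-1) ^ (dg g w) := by
        rw [← h3, mul_comm, mul_assoc, h4, mul_one]
      rw [h5, h7]
      linear_combination (δ a * 2 ^ (dg g w) *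
        ∑ h : Equiv.Perm (Fin (n + 1)), q (w ∘ h)) * h6
    rw [Finset.sum_congr rfl fun w hw => h1 w (Finset.mem_filter.1 hw).2, ← Rat.cast_sum,
      ← Finset.mul_sum]
    congr 2
    rw [Finset.sum_filter]
    have h2 : ∀ w : Fin (n + 1) → Fin d, (if w (Fin.last n) = a then
        (2 : ℚ) ^ (dg g w) * ∑ h : Equiv.Perm (Fin (n + 1)), q (w ∘ h) else 0) =
        ∑ h : Equiv.Perm (Fin (n + 1)), if w (Fin.last n) = a then
          (2 : ℚ) ^ (dg g w) * q (w ∘ h) else 0 := by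
      intro w
      split_ifs
      · rw [Finset.mul_sum]
      · rw [Finset.sum_const_zero]
    rw [Finset.sum_congr rfl fun w _ => h2 w, Finset.sum_comm]
    have h3 : ∀ h : Equiv.Perm (Fin (n + 1)), ∑ w : Fin (n + 1) → Fin d,
        (if w (Fin.last n) = a then (2 : ℚ) ^ (dg g w) * q (w ∘ h) else 0) =
        ∑ w : Fin (n + 1) → Fin d, if w (h⁻¹ (Fin.last n)) = a then
          (2 : ℚ) ^ (dg g w) * q w else 0 := by
      intro h
      refine (Equiv.sum_comp (Equiv.arrowCongr h (Equiv.refl (Fin d)))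
        (fun w => if w (Fin.last n) = a then (2 : ℚ) ^ (dg g w) * q (w ∘ h) else 0)).symm.trans ?_
      refine Finset.sum_congr rfl fun w _ => ?_
      have h4 : (Equiv.arrowCongr h (Equiv.refl (Fin d))) w =
          fun k => w ((h⁻¹ : Equiv.Perm (Fin (n + 1))) k) := rfl
      have h5 : dg g (fun k => w ((h⁻¹ : Equiv.Perm (Fin (n + 1))) k)) = dg g w :=
        Equiv.sum_comp (h⁻¹ : Equiv.Perm (Fin (n + 1))) fun k => g (w k)
      have h6 : (fun k => w ((h⁻¹ : Equiv.Perm (Fin (n + 1))) k)) ∘ h = w := by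
        funext k
        simp
      rw [h4, h5, h6]
    rw [Finset.sum_congr rfl fun h _ => h3 h, Finset.sum_comm, Finset.mul_sum]
    refine Finset.sum_congr rfl fun w _ => ?_
    refine (Equiv.sum_comp (Equiv.inv (Equiv.Perm (Fin (n + 1))))
      (fun h : Equiv.Perm (Fin (n + 1)) => if w (h (Fin.last n)) = a then
        (2 : ℚ) ^ (dg g w) * q w else 0)).trans ?_
    rw [UDX.sum_perm (fun k => if w k = a then (2 : ℚ) ^ (dg g w) * q w else 0) (Fin.last n),
      UDX.cnt_eq_sum]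
    congr 1
    rw [Finset.mul_sum]
    refine Finset.sum_congr rfl fun k _ => ?_
    split_ifs <;> ring
  · intro a' _ ha'
    rw [Finset.sum_eq_zero, zero_smul]
    intro w hw
    have hw' : w (Fin.last n) = a := (Finset.mem_filter.1 hw).2
    rw [hHw, _root_.map_smul, map_sum, Finsupp.smul_apply, Finsupp.coe_finsetSum,
      Finset.sum_apply, Finset.sum_eq_zero, smul_zero, mul_zero]
    intro h _
    exact UDX.content hφ b δ hδ1 hpar (n + 1) B hB _ w _ (hcnt w a' hw' ha')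
  · intro h
    exact absurd (Finset.mem_univ _) h

end Pool.Agent.Helper96.SP
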